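import Mathlib
import Pool.Agent.Helper62.DL.Defs

/-!
PROJECT DL, piece G1 (about 150 lines). The numeric polynomials of a differential polynomial `u`. The point
of `L ⊗[C] E` with coordinates `c` and parameter `θ` is `x_j = ∑_k ω_k ⊗ c_{jk}` (`j ∈ ι`),
`x_l = β_l ⊗ θ` (`l ∈ ι'`); the derivation is `δ = D ⊗ θ^α`. Then `u(x) = ∑_k ω_k ⊗ g_k(c, θ)`.

Proof. Let `P = MvPolynomial (ι × κ₀) (Polynomial L)`. Define the homomorphism
`Φ : MvPolynomial ((ι ⊕ ι') × ℕ) K₁ → P` by `eval₂Hom`, coefficients through `κ`, and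
`(inl j, i) ↦ ∑_k C (D^i (ω k) * X^(α i)) * X (j, k)` (here the inner `X` is the variable `τ` of
`Polynomial L`), `(inr l, i) ↦ C (D^i (β l) * X^(1 + α i))`. For a `C`-linear functional `ω.coord k : L → C`
applied to all coefficients (of `τ` and of the `c`-monomials) we get `g_k`; every `q ∈ P` is
`∑_k ω_k * (g_k q)` (with `g_k q` mapped back by `algebraMap C L`). The evaluation
`Ψ : P → L ⊗[C] E` (`L` to the left factor, `τ ↦ 1 ⊗ θ`, `X v ↦ 1 ⊗ c v`) satisfies
`Ψ q = ∑_k ω_k ⊗ eval₂ (C → E, τ ↦ θ) c (g_k q)`, and `Ψ (Φ u) = ev .. u` because both are ring homomorphisms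
that agree on variables: `δ^i (l ⊗ e) = D^i l ⊗ θ^(α i) e` by induction.
Lower degree: if `γ` is a monomial of `u` and `τ = 0`, its image vanishes as soon as `γ` contains a variable
`(inr l, i)`, or a variable `(inl j, i)` with `α i > 0`; otherwise its image is homogeneous of degree `|γ|`,
and `|γ|` is the weight of `γ` (all variables have `α i = 0`, weight `1`), which is `≥ e`. So all monomials
of `map (evalRingHom 0) (Φ u)`, hence of the `map (evalRingHom 0) (g_k)`, have degree `≥ e`. (It is convenient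
to use that the polynomials all of whose monomials have degree `≥ n` form the ideal `idealOfVars ^ n`, or to
work monomial by monomial with `IsHomogeneous`.)
-/

open TensorProduct MvPolynomial

namespace Pool.Agent.Helper62.DL

open Pool.Agent.Helper21.PD

/-- Coordinates of a polynomial with coefficients in `L` in the basis `ω`. -/
theorem G1.exists_coord1 {C L : Type} [Field C] [Field L] [Algebra C L]
    {κ₀ : Type} [Fintype κ₀] (ω : Module.Basis κ₀ C L) (p : Polynomial L) :
    ∃ g : κ₀ → Polynomial C,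
      p = ∑ k, Polynomial.C (ω k) * Polynomial.map (algebraMap C L) (g k) := by
  induction p using Polynomial.induction_on' with
  | add p q hp hq =>
    obtain ⟨g, hg⟩ := hp
    obtain ⟨g', hg'⟩ := hq
    refine ⟨fun k => g k + g' k, ?_⟩
    rw [hg, hg', ← Finset.sum_add_distrib]
    refine Finset.sum_congr rfl fun k _ => ?_
    rw [Polynomial.map_add, mul_add]
  | monomial n a =>
    refine ⟨fun k => Polynomial.monomial n (ω.repr a k), ?_⟩
    have h1 : a = ∑ k, ω k * algebraMap C L (ω.repr a k) := by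
      conv_lhs => rw [← ω.sum_repr a]
      refine Finset.sum_congr rfl fun k _ => ?_
      rw [Algebra.smul_def, mul_comm]
    conv_lhs => rw [h1]
    rw [map_sum]
    refine Finset.sum_congr rfl fun k _ => ?_
    rw [Polynomial.map_monomial, Polynomial.C_mul_monomial]

/-- Coordinates of a polynomial of `P` in the basis `ω`. -/
theorem G1.exists_coord {C L : Type} [Field C] [Field L] [Algebra C L]
    {κ₀ : Type} [Fintype κ₀] (ω : Module.Basis κ₀ C L) {σ : Type}
    (q : MvPolynomial σ (Polynomial L)) :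
    ∃ g : κ₀ → MvPolynomial σ (Polynomial C),
      q = ∑ k, MvPolynomial.C (Polynomial.C (ω k)) *
        MvPolynomial.map (Polynomial.mapRingHom (algebraMap C L)) (g k) := by
  induction q using MvPolynomial.induction_on with
  | C a =>
    obtain ⟨g, hg⟩ := G1.exists_coord1 ω a
    refine ⟨fun k => MvPolynomial.C (g k), ?_⟩
    conv_lhs => rw [hg]
    rw [map_sum]
    refine Finset.sum_congr rfl fun k _ => ?_
    rw [MvPolynomial.map_C, map_mul]
    rfl
  | add p q hp hq =>
    obtain ⟨g, hg⟩ := hp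
    obtain ⟨g', hg'⟩ := hq
    refine ⟨fun k => g k + g' k, ?_⟩
    rw [hg, hg', ← Finset.sum_add_distrib]
    refine Finset.sum_congr rfl fun k _ => ?_
    rw [map_add, mul_add]
  | mul_X p v hp =>
    obtain ⟨g, hg⟩ := hp
    refine ⟨fun k => g k * X v, ?_⟩
    rw [hg, Finset.sum_mul]
    refine Finset.sum_congr rfl fun k _ => ?_
    rw [map_mul, MvPolynomial.map_X, mul_assoc]

/-- The images of the variables. -/
noncomputable def G1.var {C L : Type} [Field C] [Field L] [Algebra C L] (D : Der L)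
    {κ₀ : Type} [Fintype κ₀] (ω : Module.Basis κ₀ C L) (α : ℕ) {ι ι' : Type} (β : ι' → L)
    (v : (ι ⊕ ι') × ℕ) : MvPolynomial (ι × κ₀) (Polynomial L) :=
  Sum.elim
    (fun j => ∑ k, MvPolynomial.C (Polynomial.C ((D)^[v.2] (ω k)) * Polynomial.X ^ (α * v.2)) *
      X (j, k))
    (fun l => MvPolynomial.C (Polynomial.C ((D)^[v.2] (β l)) * Polynomial.X ^ (1 + α * v.2))) v.1

/-- The homomorphism `Φ`. -/
noncomputable def G1.Phi {C L K₁ : Type} [Field C] [Field L] [Algebra C L] [Field K₁] (D : Der L)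
    {κ₀ : Type} [Fintype κ₀] (ω : Module.Basis κ₀ C L) (α : ℕ) (κ : K₁ →+* L) {ι ι' : Type}
    (β : ι' → L) : MvPolynomial ((ι ⊕ ι') × ℕ) K₁ →+* MvPolynomial (ι × κ₀) (Polynomial L) :=
  eval₂Hom ((MvPolynomial.C.comp Polynomial.C).comp κ) (G1.var D ω α β)

/-- The homomorphism `Ψ`. -/
noncomputable def G1.Psi {C L : Type} [Field C] [Field L] [Algebra C L] {σ : Type}
    (E : Type) [Field E] [Algebra C E] (θ : E) (c : σ → E) :
    MvPolynomial σ (Polynomial L) →+* L ⊗[C] E :=
  eval₂Hom (Polynomial.eval₂RingHom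
    (Algebra.TensorProduct.includeLeftRingHom : L →+* L ⊗[C] E) (1 ⊗ₜ[C] θ))
    (fun v => 1 ⊗ₜ[C] c v)

theorem G1.Psi_CC {C L : Type} [Field C] [Field L] [Algebra C L] {σ : Type}
    (E : Type) [Field E] [Algebra C E] (θ : E) (c : σ → E) (l : L) :
    G1.Psi (C := C) E θ c (MvPolynomial.C (Polynomial.C l)) = l ⊗ₜ[C] 1 := by
  simp [G1.Psi]

theorem G1.Psi_CX {C L : Type} [Field C] [Field L] [Algebra C L] {σ : Type}
    (E : Type) [Field E] [Algebra C E] (θ : E) (c : σ → E) :
    G1.Psi (C := C) (L := L) E θ c (MvPolynomial.C Polynomial.X) = 1 ⊗ₜ[C] θ := by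
  simp [G1.Psi]

theorem G1.Psi_X {C L : Type} [Field C] [Field L] [Algebra C L] {σ : Type}
    (E : Type) [Field E] [Algebra C E] (θ : E) (c : σ → E) (v : σ) :
    G1.Psi (C := C) (L := L) E θ c (X v) = 1 ⊗ₜ[C] c v := by
  simp [G1.Psi]

theorem G1.Psi_map {C L : Type} [Field C] [Field L] [Algebra C L] {σ : Type}
    (E : Type) [Field E] [Algebra C E] (θ : E) (c : σ → E) (g : MvPolynomial σ (Polynomial C)) :
    G1.Psi (C := C) E θ c (MvPolynomial.map (Polynomial.mapRingHom (algebraMap C L)) g) =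
      1 ⊗ₜ[C] eval₂ (Polynomial.eval₂RingHom (algebraMap C E) θ) c g := by
  have key : (G1.Psi (C := C) (L := L) E θ c).comp
      (MvPolynomial.map (Polynomial.mapRingHom (algebraMap C L))) =
      (Algebra.TensorProduct.includeRight : E →ₐ[C] L ⊗[C] E).toRingHom.comp
        (eval₂Hom (Polynomial.eval₂RingHom (algebraMap C E) θ) c) := by
    refine MvPolynomial.ringHom_ext ?_ ?_
    · intro p
      have h2 : ((G1.Psi (C := C) (L := L) E θ c).comp
          (MvPolynomial.map (Polynomial.mapRingHom (algebraMap C L)))).comp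
            (MvPolynomial.C (σ := σ)) =
          ((Algebra.TensorProduct.includeRight : E →ₐ[C] L ⊗[C] E).toRingHom.comp
            (eval₂Hom (Polynomial.eval₂RingHom (algebraMap C E) θ) c)).comp
              (MvPolynomial.C (σ := σ)) := by
        refine Polynomial.ringHom_ext ?_ ?_
        · intro a
          simp only [RingHom.comp_apply, MvPolynomial.map_C, Polynomial.coe_mapRingHom,
            Polynomial.map_C, G1.Psi_CC]
          simp only [coe_eval₂Hom, eval₂_C, Polynomial.coe_eval₂RingHom, Polynomial.eval₂_C]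
          change _ = (1 : L) ⊗ₜ[C] (algebraMap C E a)
          rw [Algebra.algebraMap_eq_smul_one, Algebra.algebraMap_eq_smul_one,
            TensorProduct.smul_tmul]
        · simp only [RingHom.comp_apply, MvPolynomial.map_C, Polynomial.coe_mapRingHom,
            Polynomial.map_X, G1.Psi_CX]
          simp only [coe_eval₂Hom, eval₂_C, Polynomial.coe_eval₂RingHom, Polynomial.eval₂_X]
          rfl
      exact RingHom.congr_fun h2 p
    · intro v
      simp only [RingHom.comp_apply, MvPolynomial.map_X, G1.Psi_X]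
      simp only [coe_eval₂Hom, eval₂_X]
      rfl
  exact RingHom.congr_fun key g

theorem G1.delta_iterate {C L : Type} [Field C] [Field L] [Algebra C L] (D : Der L)
    (α : ℕ) (E : Type) [Field E] [Algebra C E] (θ : E) (δ : Der (L ⊗[C] E))
    (hδ : ∀ (l : L) (e : E), δ (l ⊗ₜ[C] e) = D l ⊗ₜ[C] (θ ^ α * e)) (i : ℕ) (l : L) (e : E) :
    (δ)^[i] (l ⊗ₜ[C] e) = (D)^[i] l ⊗ₜ[C] (θ ^ (α * i) * e) := by
  induction i with
  | zero => simp
  | succ i ih =>
    rw [Function.iterate_succ_apply', ih, hδ, Function.iterate_succ_apply']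
    congr 1
    ring

theorem G1.iterate_sum {A : Type} [CommRing A] (δ : Der A) {κ : Type} (s : Finset κ)
    (f : κ → A) (i : ℕ) : (δ)^[i] (∑ k ∈ s, f k) = ∑ k ∈ s, (δ)^[i] (f k) := by
  induction i with
  | zero => simp
  | succ i ih =>
    rw [Function.iterate_succ_apply', ih, Der.sum]
    refine Finset.sum_congr rfl fun k _ => ?_
    rw [Function.iterate_succ_apply']

theorem G1.Psi_Phi {C L K₁ : Type} [Field C] [Field L] [Algebra C L] [Field K₁]
    (D : Der L) {κ₀ : Type} [Fintype κ₀]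
    (ω : Module.Basis κ₀ C L) (α : ℕ) (κ : K₁ →+* L) {ι ι' : Type}
    (β : ι' → L) (u : MvPolynomial ((ι ⊕ ι') × ℕ) K₁)
    (E : Type) [Field E] [Algebra C E] (θ : E) (δ : Der (L ⊗[C] E))
    (hδ : ∀ (l : L) (e : E), δ (l ⊗ₜ[C] e) = D l ⊗ₜ[C] (θ ^ α * e)) (c : ι × κ₀ → E) :
    ev ((Algebra.TensorProduct.includeLeftRingHom : L →+* L ⊗[C] E).comp κ) δ
      (Sum.elim (fun j => ∑ k, ω k ⊗ₜ[C] c (j, k)) (fun l => β l ⊗ₜ[C] θ)) u =
    G1.Psi (C := C) E θ c (G1.Phi D ω α κ β u) := by
  have key : ev ((Algebra.TensorProduct.includeLeftRingHom : L →+* L ⊗[C] E).comp κ) δ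
      (Sum.elim (fun j => ∑ k, ω k ⊗ₜ[C] c (j, k)) (fun l => β l ⊗ₜ[C] θ)) =
      (G1.Psi (C := C) E θ c).comp (G1.Phi D ω α κ β) := by
    refine MvPolynomial.ringHom_ext ?_ ?_
    · intro a
      have h1 : G1.Phi (ι := ι) D ω α κ β (MvPolynomial.C a) =
          MvPolynomial.C (Polynomial.C (κ a)) := by
        rw [G1.Phi, eval₂Hom_C]
        rfl
      rw [ev_C, RingHom.comp_apply, RingHom.comp_apply, h1, G1.Psi_CC]
      rfl
    · rintro ⟨v, i⟩
      have h1 : G1.Phi D ω α κ β (X (v, i)) = G1.var D ω α β (v, i) := by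
        rw [G1.Phi, eval₂Hom_X']
      rw [ev_X, RingHom.comp_apply, h1, G1.var]
      rcases v with j | l
      · simp only [Sum.elim_inl]
        rw [G1.iterate_sum, map_sum]
        refine Finset.sum_congr rfl fun k _ => ?_
        rw [G1.delta_iterate D α E θ δ hδ, map_mul, map_mul, map_mul, map_pow, map_pow,
          G1.Psi_CC, G1.Psi_CX, G1.Psi_X, Algebra.TensorProduct.tmul_pow,
          Algebra.TensorProduct.tmul_mul_tmul, Algebra.TensorProduct.tmul_mul_tmul]
        simp
      · simp only [Sum.elim_inr]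
        rw [G1.delta_iterate D α E θ δ hδ, map_mul, map_mul, map_pow, map_pow,
          G1.Psi_CC, G1.Psi_CX, Algebra.TensorProduct.tmul_pow,
          Algebra.TensorProduct.tmul_mul_tmul]
        simp only [one_pow, mul_one, one_mul]
        congr 1
        ring
  rw [key, RingHom.comp_apply]

theorem G1.var_hom {C L : Type} [Field C] [Field L] [Algebra C L] (D : Der L)
    {κ₀ : Type} [Fintype κ₀] (ω : Module.Basis κ₀ C L) (α : ℕ) {ι ι' : Type} (β : ι' → L)
    (v : (ι ⊕ ι') × ℕ) :
    (MvPolynomial.map (Polynomial.evalRingHom 0) (G1.var D ω α β v)).IsHomogeneous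
      (wa α v) := by
  obtain ⟨v, i⟩ := v
  rcases v with j | l
  · simp only [G1.var, Sum.elim_inl, map_sum, map_mul, MvPolynomial.map_C, MvPolynomial.map_X]
    rcases Nat.eq_zero_or_pos (α * i) with h0 | h0
    · have h1 : wa (ι := ι ⊕ ι') α (Sum.inl j, i) = 0 + 1 := by
        simp [wa, h0]
      rw [h1]
      refine MvPolynomial.IsHomogeneous.sum _ _ _ fun k _ => ?_
      refine MvPolynomial.IsHomogeneous.mul ?_ (MvPolynomial.isHomogeneous_X _ _)
      rw [← map_mul]
      exact MvPolynomial.isHomogeneous_C _ _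
    · have h1 : (Polynomial.evalRingHom (0 : L))
          (Polynomial.X ^ (α * i)) = 0 := by
        rw [Polynomial.coe_evalRingHom, Polynomial.eval_pow, Polynomial.eval_X,
          zero_pow h0.ne']
      refine MvPolynomial.IsHomogeneous.sum _ _ _ fun k _ => ?_
      rw [h1, map_zero, mul_zero, zero_mul]
      exact MvPolynomial.isHomogeneous_zero _ _ _
  · simp only [G1.var, Sum.elim_inr, MvPolynomial.map_C, map_mul]
    have h1 : (Polynomial.evalRingHom (0 : L)) (Polynomial.X ^ (1 + α * i)) = 0 := by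
      simp
    rw [h1, map_zero, mul_zero]
    exact MvPolynomial.isHomogeneous_zero _ _ _

theorem G1.low {C L K₁ : Type} [Field C] [Field L] [Algebra C L] [Field K₁] (D : Der L)
    {κ₀ : Type} [Fintype κ₀] (ω : Module.Basis κ₀ C L) (α : ℕ) (κ : K₁ →+* L) {ι ι' : Type}
    (β : ι' → L) (u : MvPolynomial ((ι ⊕ ι') × ℕ) K₁) (e : ℕ) (hu : Low (wa α) e u)
    (γ : ι × κ₀ →₀ ℕ)
    (hγ : coeff γ (MvPolynomial.map (Polynomial.evalRingHom 0) (G1.Phi D ω α κ β u)) ≠ 0) :
    e ≤ γ.degree := by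
  rw [G1.Phi, coe_eval₂Hom, eval₂_eq, map_sum, coeff_sum] at hγ
  obtain ⟨d, hd, hne⟩ := Finset.exists_ne_zero_of_sum_ne_zero hγ
  have hw := hu d hd
  have hom : (MvPolynomial.map (Polynomial.evalRingHom 0)
      (((MvPolynomial.C.comp Polynomial.C).comp κ) (coeff d u) *
        ∏ i ∈ d.support, G1.var D ω α β i ^ d i)).IsHomogeneous
      (0 + ∑ i ∈ d.support, wa α i * d i) := by
    rw [map_mul, map_prod]
    refine MvPolynomial.IsHomogeneous.mul ?_ ?_
    · simp only [RingHom.comp_apply, MvPolynomial.map_C]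
      exact MvPolynomial.isHomogeneous_C _ _
    · refine MvPolynomial.IsHomogeneous.prod _ _ _ fun i _ => ?_
      rw [map_pow]
      exact (G1.var_hom D ω α β i).pow _
  have hdeg : γ.degree = 0 + ∑ i ∈ d.support, wa α i * d i := by
    by_contra hcon
    exact hne (hom.coeff_eq_zero hcon)
  rw [hdeg, zero_add]
  refine hw.trans (le_of_eq ?_)
  rw [Finsupp.weight_apply, Finsupp.sum]
  refine Finset.sum_congr rfl fun i _ => ?_
  rw [smul_eq_mul, mul_comm]

theorem G1.exists_numeric {C L K₁ : Type} [Field C] [Field L] [Algebra C L] [Field K₁]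
    (D : Der L) (hD : ∀ c : C, D (algebraMap C L c) = 0) {κ₀ : Type} [Fintype κ₀]
    (ω : Module.Basis κ₀ C L) (α : ℕ) (κ : K₁ →+* L) {ι ι' : Type} [Fintype ι] [Fintype ι']
    (β : ι' → L) (u : MvPolynomial ((ι ⊕ ι') × ℕ) K₁) :
    ∃ g : κ₀ → MvPolynomial (ι × κ₀) (Polynomial C),
      (∀ (E : Type) [Field E] [Algebra C E] (θ : E) (δ : Der (L ⊗[C] E)),
        (∀ (l : L) (e : E), δ (l ⊗ₜ[C] e) = D l ⊗ₜ[C] (θ ^ α * e)) → ∀ c : ι × κ₀ → E,
          ev ((Algebra.TensorProduct.includeLeftRingHom : L →+* L ⊗[C] E).comp κ) δ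
            (Sum.elim (fun j => ∑ k, ω k ⊗ₜ[C] c (j, k)) (fun l => β l ⊗ₜ[C] θ)) u =
          ∑ k, ω k ⊗ₜ[C] eval₂ (Polynomial.eval₂RingHom (algebraMap C E) θ) c (g k)) ∧
      (∀ e : ℕ, Low (wa α) e u → ∀ k, ∀ γ ∈
        (MvPolynomial.map (Polynomial.evalRingHom 0) (g k)).support, e ≤ γ.degree) := by
  obtain ⟨g, hg⟩ := G1.exists_coord ω (G1.Phi D ω α κ β u)
  refine ⟨g, ?_, ?_⟩
  · intro E _ _ θ δ hδ c
    rw [G1.Psi_Phi D ω α κ β u E θ δ hδ c, hg, map_sum]
    refine Finset.sum_congr rfl fun k _ => ?_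
    rw [map_mul, G1.Psi_CC, G1.Psi_map, Algebra.TensorProduct.tmul_mul_tmul, mul_one, one_mul]
  · intro e hu k γ hγ
    refine G1.low D ω α κ β u e hu γ ?_
    intro h0
    rw [hg, map_sum, coeff_sum] at h0
    have h1 : ∑ k, coeff γ (MvPolynomial.map (Polynomial.evalRingHom 0) (g k)) • ω k = 0 := by
      rw [← h0]
      refine Finset.sum_congr rfl fun k _ => ?_
      rw [map_mul, MvPolynomial.map_C, MvPolynomial.coeff_C_mul, MvPolynomial.coeff_map,
        MvPolynomial.coeff_map, MvPolynomial.coeff_map, Algebra.smul_def, mul_comm]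
      rw [Polynomial.coe_evalRingHom, Polynomial.coe_evalRingHom, Polynomial.eval_C,
        Polynomial.coe_mapRingHom, ← Polynomial.coeff_zero_eq_eval_zero,
        ← Polynomial.coeff_zero_eq_eval_zero, Polynomial.coeff_map]
    have h2 := Fintype.linearIndependent_iff.1 ω.linearIndependent _ h1 k
    exact (MvPolynomial.mem_support_iff.1 hγ) h2

end Pool.Agent.Helper62.DL
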