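import Mathlib

/-!
PROJECT DL, piece N3. If for every maximal ideal `I ≥ J` of the `F`-algebra `R` the trace
of `x` on `R/I` lies in the additive subgroup `T` of `F`, then the trace of `x` on `R/J`
(finite-dimensional) lies in `T`.
-/

namespace Pool.Agent.Helper62.DL

/-- traces are additive in short exact sequences -/
theorem N3.trace_exact {F : Type} [Field F] {N₁ N₂ N₃ : Type} [AddCommGroup N₁] [Module F N₁]
    [AddCommGroup N₂] [Module F N₂] [AddCommGroup N₃] [Module F N₃]
    [FiniteDimensional F N₁] [FiniteDimensional F N₂] [FiniteDimensional F N₃]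
    (f : N₁ →ₗ[F] N₂) (g : N₂ →ₗ[F] N₃) (hf : Function.Injective f)
    (hg : Function.Surjective g) (hfg : Function.Exact f g)
    (T₁ : N₁ →ₗ[F] N₁) (T₂ : N₂ →ₗ[F] N₂) (T₃ : N₃ →ₗ[F] N₃)
    (h₁ : ∀ a, T₂ (f a) = f (T₁ a)) (h₃ : ∀ b, g (T₂ b) = T₃ (g b)) :
    LinearMap.trace F N₂ T₂ = LinearMap.trace F N₁ T₁ + LinearMap.trace F N₃ T₃ := by
  obtain ⟨s, hs⟩ := LinearMap.exists_rightInverse_of_surjective g (LinearMap.range_eq_top.mpr hg)
  have hs' : ∀ b, g (s b) = b := fun b => by
    have := LinearMap.congr_fun hs b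
    simpa using this
  let e0 : N₁ × N₃ →ₗ[F] N₂ := LinearMap.coprod f s
  have he0 : Function.Bijective e0 := by
    constructor
    · rw [injective_iff_map_eq_zero]
      rintro ⟨a, b⟩ hab
      have h0 : f a + s b = 0 := by simpa [e0] using hab
      have hb : b = 0 := by
        have := congrArg g h0
        rw [map_add, hs', map_zero, hfg.apply_apply_eq_zero, zero_add] at this
        exact this
      subst hb
      rw [map_zero, add_zero] at h0
      have ha : a = 0 := hf (by rw [h0, map_zero])
      subst ha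
      rfl
    · intro y
      have hy : g (y - s (g y)) = 0 := by rw [map_sub, hs', sub_self]
      obtain ⟨a, ha⟩ := (hfg (y - s (g y))).mp hy
      refine ⟨(a, g y), ?_⟩
      simp [e0, ha]
  let e : (N₁ × N₃) ≃ₗ[F] N₂ := LinearEquiv.ofBijective e0 he0
  have hu : ∀ b, ∃ a, f a = T₂ (s b) - s (T₃ b) := fun b => by
    have hy : g (T₂ (s b) - s (T₃ b)) = 0 := by rw [map_sub, hs', h₃, hs', sub_self]
    exact (hfg _).mp hy
  choose u hu using hu
  let U : N₃ →ₗ[F] N₁ :=
    { toFun := u
      map_add' := fun b c => hf (by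
        rw [map_add, hu, hu, hu]
        simp only [map_add]
        abel)
      map_smul' := fun r b => hf (by
        rw [hu, RingHom.id_apply]
        simp only [map_smul, hu, smul_sub]) }
  have hconj : T₂ ∘ₗ e.toLinearMap = e.toLinearMap ∘ₗ
      (LinearMap.prodMap T₁ T₃ + LinearMap.inl F N₁ N₃ ∘ₗ (U ∘ₗ LinearMap.snd F N₁ N₃)) := by
    apply LinearMap.ext
    rintro ⟨a, b⟩
    have hU : f (U b) = T₂ (s b) - s (T₃ b) := hu b
    show T₂ (f a + s b) = f (T₁ a + U b) + s (T₃ b + 0)
    rw [map_add, map_add, h₁, hU, add_zero]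
    abel
  have htr : T₂ = e.conj
      (LinearMap.prodMap T₁ T₃ + LinearMap.inl F N₁ N₃ ∘ₗ (U ∘ₗ LinearMap.snd F N₁ N₃)) := by
    rw [LinearEquiv.conj_apply]
    apply LinearMap.ext
    intro y
    obtain ⟨z, rfl⟩ := e.surjective y
    have := LinearMap.congr_fun hconj z
    simpa using this
  rw [htr, LinearMap.trace_conj', map_add, LinearMap.trace_prodMap']
  have h0 : LinearMap.trace F (N₁ × N₃)
      (LinearMap.inl F N₁ N₃ ∘ₗ (U ∘ₗ LinearMap.snd F N₁ N₃)) = 0 := by
    rw [LinearMap.trace_comp_comm']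
    have : (U ∘ₗ LinearMap.snd F N₁ N₃) ∘ₗ LinearMap.inl F N₁ N₃ = 0 := by
      apply LinearMap.ext
      intro a
      simp
    rw [this, map_zero]
  rw [h0, add_zero]

/-- The trace over `F` of the multiplication by `x` on a module over an `F`-algebra `A`. -/
noncomputable def N3.tr (F A : Type) [Field F] [CommRing A] [Algebra F A] (x : A) (M : Type)
    [AddCommGroup M] [Module A M] : F :=
  letI : Module F M := Module.compHom M (algebraMap F A)
  haveI : IsScalarTower F A M := ⟨fun a b m => by
      rw [Algebra.smul_def, mul_smul]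
      rfl⟩
  LinearMap.trace F M ((LinearMap.lsmul A M x).restrictScalars F)

theorem N3.tr_eq {F A : Type} [Field F] [CommRing A] [Algebra F A] (x : A) (M : Type)
    [AddCommGroup M] [Module A M] [inst : Module F M] [IsScalarTower F A M] :
    N3.tr F A x M = LinearMap.trace F M ((LinearMap.lsmul A M x).restrictScalars F) := by
  have : (Module.compHom M (algebraMap F A) : Module F M) = inst := by
    apply Module.ext'
    intro r m
    exact algebraMap_smul A r m
  subst this
  rfl

theorem N3.tr_mem {F A : Type} [Field F] [CommRing A] [Algebra F A] [FiniteDimensional F A]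
    (T : AddSubgroup F) (x : A)
    (H : ∀ I : Ideal A, I.IsMaximal → Algebra.trace F (A ⧸ I) (Ideal.Quotient.mk I x) ∈ T)
    (M : Type) [AddCommGroup M] [Module A M] (hM : Module.Finite A M) :
    N3.tr F A x M ∈ T := by
  have : IsArtinianRing A := IsArtinianRing.of_finite F A
  induction hM using IsNoetherianRing.induction_on_isQuotientEquivQuotientPrime A with
  | subsingleton N =>
    let _ : Module F N := Module.compHom N (algebraMap F A)
    have : IsScalarTower F A N := ⟨fun a b x => by
      rw [Algebra.smul_def, mul_smul]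
      rfl⟩
    rw [N3.tr_eq]
    have h0 : (LinearMap.lsmul A N x).restrictScalars F = 0 := by
      apply LinearMap.ext
      intro y
      exact Subsingleton.elim _ _
    rw [h0, map_zero]
    exact T.zero_mem
  | quotient N q f =>
    let _ : Module F N := Module.compHom N (algebraMap F A)
    have : IsScalarTower F A N := ⟨fun a b x => by
      rw [Algebra.smul_def, mul_smul]
      rfl⟩
    rw [N3.tr_eq]
    have key := H q.1 (Ideal.IsPrime.isMaximal' q.2)
    rw [Algebra.trace_apply] at key
    have hc : (LinearMap.lsmul A N x).restrictScalars F = (f.restrictScalars F).symm.conj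
        (LinearMap.mul F (A ⧸ q.asIdeal) (Ideal.Quotient.mk q.asIdeal x)) := by
      apply LinearMap.ext
      intro y
      rw [LinearEquiv.conj_apply]
      show x • y = f.symm (Ideal.Quotient.mk q.asIdeal x * f y)
      have : Ideal.Quotient.mk q.asIdeal x * f y = x • f y := rfl
      rw [this, map_smul, LinearEquiv.symm_apply_apply]
    rw [hc, LinearMap.trace_conj']
    exact key
  | exact N₁ N₂ N₃ f g hf hg hfg h₁ h₃ =>
    let _ : Module F N₁ := Module.compHom N₁ (algebraMap F A)
    let _ : Module F N₂ := Module.compHom N₂ (algebraMap F A)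
    let _ : Module F N₃ := Module.compHom N₃ (algebraMap F A)
    have : IsScalarTower F A N₁ := ⟨fun a b x => by
      rw [Algebra.smul_def, mul_smul]
      rfl⟩
    have : IsScalarTower F A N₂ := ⟨fun a b x => by
      rw [Algebra.smul_def, mul_smul]
      rfl⟩
    have : IsScalarTower F A N₃ := ⟨fun a b x => by
      rw [Algebra.smul_def, mul_smul]
      rfl⟩
    have : FiniteDimensional F N₁ := Module.Finite.trans A N₁
    have : FiniteDimensional F N₂ := Module.Finite.trans A N₂
    have : FiniteDimensional F N₃ := Module.Finite.trans A N₃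
    rw [N3.tr_eq] at h₁ h₃ ⊢
    rw [N3.trace_exact (f.restrictScalars F) (g.restrictScalars F) hf hg hfg
      ((LinearMap.lsmul A N₁ x).restrictScalars F) ((LinearMap.lsmul A N₂ x).restrictScalars F)
      ((LinearMap.lsmul A N₃ x).restrictScalars F)
      (fun a => (map_smul f x a).symm) (fun b => map_smul g x b)]
    exact T.add_mem h₁ h₃

theorem N3.trace_mem {F R : Type} [Field F] [CommRing R] [Algebra F R] (J : Ideal R)
    [FiniteDimensional F (R ⧸ J)] (T : AddSubgroup F) (x : R)
    (h : ∀ I : Ideal R, I.IsMaximal → J ≤ I →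
      Algebra.trace F (R ⧸ I) (Ideal.Quotient.mk I x) ∈ T) :
    Algebra.trace F (R ⧸ J) (Ideal.Quotient.mk J x) ∈ T := by
  have H : ∀ I : Ideal (R ⧸ J), I.IsMaximal →
      Algebra.trace F ((R ⧸ J) ⧸ I) (Ideal.Quotient.mk I (Ideal.Quotient.mk J x)) ∈ T := by
    intro I hI
    have hsurj : Function.Surjective (Ideal.Quotient.mkₐ F J) := Ideal.Quotient.mkₐ_surjective F J
    have hmax : (I.comap (Ideal.Quotient.mk J)).IsMaximal :=
      Ideal.comap_isMaximal_of_surjective _ Ideal.Quotient.mk_surjective
    have hle : J ≤ I.comap (Ideal.Quotient.mk J) := by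
      intro y hy
      rw [Ideal.mem_comap, Ideal.Quotient.eq_zero_iff_mem.mpr hy]
      exact I.zero_mem
    have key := h _ hmax hle
    let φ : R →ₐ[F] ((R ⧸ J) ⧸ I) := (Ideal.Quotient.mkₐ F I).comp (Ideal.Quotient.mkₐ F J)
    have hφ : Function.Surjective φ :=
      (Ideal.Quotient.mkₐ_surjective F I).comp (Ideal.Quotient.mkₐ_surjective F J)
    have hker : RingHom.ker φ = I.comap (Ideal.Quotient.mk J) := by
      ext y
      rw [RingHom.mem_ker, Ideal.mem_comap]
      show Ideal.Quotient.mk I (Ideal.Quotient.mk J y) = 0 ↔ _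
      rw [Ideal.Quotient.eq_zero_iff_mem]
    let e1 : (R ⧸ RingHom.ker φ) ≃ₐ[F] ((R ⧸ J) ⧸ I) :=
      Ideal.quotientKerAlgEquivOfSurjective hφ
    let e2 : (R ⧸ I.comap (Ideal.Quotient.mk J)) ≃ₐ[F] (R ⧸ RingHom.ker φ) :=
      Ideal.quotientEquivAlgOfEq F hker.symm
    have ht := Algebra.trace_eq_of_algEquiv (e2.trans e1)
      (Ideal.Quotient.mk (I.comap (Ideal.Quotient.mk J)) x)
    have he : (e2.trans e1) (Ideal.Quotient.mk (I.comap (Ideal.Quotient.mk J)) x) =
        Ideal.Quotient.mk I (Ideal.Quotient.mk J x) := rfl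
    rw [he] at ht
    rw [ht]
    exact key
  have := N3.tr_mem (F := F) (A := R ⧸ J) T (Ideal.Quotient.mk J x) H (R ⧸ J) inferInstance
  rw [N3.tr_eq] at this
  rw [Algebra.trace_apply]
  exact this

end Pool.Agent.Helper62.DL
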