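import Mathlib
import Pool.Agent.Helper21.PD.P5
import Pool.Agent.Helper62.DL.Defs
import Pool.Agent.Helper62.DL.St.N3

/-!
PROJECT DL, piece N4 (about 200 lines). `C` separably closed of characteristic `p`, `E` a finite extension of
`C(τ)`, `ε, b ∈ E` integral over `C[τ]`, `ε² - ε = τ b` and the trace of `ε` does not vanish at `τ = 0`.
Then there is a place of `E` over `τ = 0` with residue field `C` at which `ε` is `1`.

Proof. Write `A = C[τ]`, `F = C(τ)`, `P0 = (τ)`. If `E/F` is inseparable the trace is zero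
(`Algebra.trace_eq_zero_of_not_isSeparable` or similar), excluded. So `E/F` is separable; the integral
closure `O` of `A` in `E` (`integralClosure A E`) is a Dedekind domain, finite over `A`, with fraction field
`E` (see `Pool/Agent/Helper21/PD/P5.lean`, `exists_place`, where all this is set up for the same `A, F, E`).
By `Algebra.trace_quotient_eq_of_isDedekindDomain` (`Mathlib/RingTheory/Trace/Quotient.lean`) the trace of
the class `ε̄` of `ε` in `O/τO` over `A/τ = C` is the class of `trace ε` (which is in `A`), so it is not zero.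
By piece N3 (`N3.trace_mem` with `T = ⊥`, field `A/τ` or `C`, ring `O`, `J = τO`) there is a maximal ideal
`𝔪 ∋ τ` of `O` such that the trace of `ε` on `O/𝔪` over `C` is not zero. As `ε̄` is idempotent in the field
`O/𝔪` and not zero it is `1`, so `ε - 1 ∈ 𝔪` and `[O/𝔪 : C]` is not divisible by `p`
(`Algebra.trace_algebraMap`: the trace of `1` is the degree). So `O/𝔪` is separable over `C`
(`P5.isSeparable_of_not_dvd`) and `C` is separably closed, so `O/𝔪 = C`
(`IsSepClosed.algebraMap_surjective`). Take for `w` the valuation of `𝔪`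
(`IsDedekindDomain.HeightOneSpectrum.valuation E`): integral elements have value `≤ 1`
(`valuation_le_one`), elements of `𝔪` value `< 1` (`valuation_lt_one_iff_mem`), nonzero constants of `C` are
units of `O`. Residue field: if `w y ≤ 1` then `y = a / s` with `a, s ∈ O`, `s ∉ 𝔪`
(e.g. `IsDedekindDomain.HeightOneSpectrum.exists_...` or: by `valuation` of a fraction `y = a / s₀`, choose
`c ∈ O` with ... ; the localization of `O` at `𝔪` is the valuation ring, a DVR), and the residue classes of
`a`, `s` come from `C`.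
-/

namespace Pool.Agent.Helper62.DL

open Pool.Agent.Helper21.PD
open Polynomial

theorem N4.aux_max {C : Type} [Field C] {O : Type} [CommRing O] [IsDomain O]
    [IsIntegrallyClosed O] [Algebra C[X] O] [Module.Finite C[X] O] [Module.IsTorsionFree C[X] O]
    [Algebra C O] [IsScalarTower C C[X] O] (x : O)
    (hx : Algebra.intTrace C[X] O x ∉ (P5.P0 C).asIdeal) :
    ∃ I : Ideal O, I.IsMaximal ∧ ((P5.P0 C).asIdeal.map (algebraMap C[X] O)) ≤ I ∧
      FiniteDimensional C (O ⧸ I) ∧ Algebra.trace C (O ⧸ I) (Ideal.Quotient.mk I x) ≠ 0 := by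
  obtain ⟨p, hp⟩ : ∃ p : Ideal C[X], p = (P5.P0 C).asIdeal := ⟨_, rfl⟩
  rw [← hp] at hx ⊢
  have hpm : p.IsMaximal := by rw [hp]; exact (P5.P0 C).isMaximal
  have h1 := Algebra.trace_quotient_eq_of_isDedekindDomain O p x
  obtain ⟨J, hJ⟩ : ∃ J : Ideal O, J = p.map (algebraMap C[X] O) := ⟨_, rfl⟩
  have hsurj : Function.Surjective (algebraMap C (C[X] ⧸ p)) := by
    intro y
    obtain ⟨f, rfl⟩ := Ideal.Quotient.mk_surjective y
    refine ⟨f.coeff 0, ?_⟩
    have h2 : algebraMap C (C[X] ⧸ p) (f.coeff 0) = Ideal.Quotient.mk p (Polynomial.C (f.coeff 0)) := rfl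
    rw [h2, eq_comm, Ideal.Quotient.eq, hp]
    exact Ideal.mem_span_singleton.2 X_dvd_sub_C
  have hfin1 : Module.Finite C (C[X] ⧸ p) :=
    Module.Finite.of_surjective (Algebra.linearMap C (C[X] ⧸ p)) hsurj
  have hfr : Module.finrank C (C[X] ⧸ p) = 1 := by
    have e : C ≃ₗ[C] (C[X] ⧸ p) := LinearEquiv.ofBijective (Algebra.linearMap C (C[X] ⧸ p))
      ⟨(algebraMap C (C[X] ⧸ p)).injective, hsurj⟩
    rw [← e.finrank_eq, Module.finrank_self]
  have ht : IsScalarTower C (C[X] ⧸ p) (O ⧸ p.map (algebraMap C[X] O)) := by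
    exact IsScalarTower.of_algebraMap_eq (R := C) (S := C[X] ⧸ p)
      (A := O ⧸ p.map (algebraMap C[X] O)) (fun c => by
        have h3 : algebraMap C (O ⧸ p.map (algebraMap C[X] O)) c =
          Ideal.Quotient.mk _ (algebraMap C O c) := rfl
        rw [h3, IsScalarTower.algebraMap_apply C C[X] O]
        rfl)
  have hfin2 : Module.Finite (C[X] ⧸ p) (O ⧸ p.map (algebraMap C[X] O)) :=
    Module.Finite.of_restrictScalars_finite C[X] _ _
  have hfin3 : Module.Finite C (O ⧸ p.map (algebraMap C[X] O)) :=
    Module.Finite.trans (C[X] ⧸ p) _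
  have hfree : Module.Free (C[X] ⧸ p) (O ⧸ p.map (algebraMap C[X] O)) := by
    let F := Ideal.Quotient.field p
    exact Module.Free.of_divisionRing (C[X] ⧸ p) (O ⧸ p.map (algebraMap C[X] O))
  obtain ⟨c, hc⟩ := hsurj (Ideal.Quotient.mk p (Algebra.intTrace C[X] O x))
  have hc0 : c ≠ 0 := by
    intro h0
    rw [h0, map_zero] at hc
    exact hx (Ideal.Quotient.eq_zero_iff_mem.1 hc.symm)
  have h2 : Algebra.trace C (O ⧸ p.map (algebraMap C[X] O)) (Ideal.Quotient.mk _ x) = c := by
    rw [← Algebra.trace_trace (S := C[X] ⧸ p), h1, ← hc, Algebra.trace_algebraMap, hfr, one_smul]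
  by_contra hcon
  have h4 := N3.trace_mem (F := C) (p.map (algebraMap C[X] O)) ⊥ x (fun I hI hJI => by
    rw [AddSubgroup.mem_bot]
    by_contra h5
    apply hcon
    refine ⟨I, hI, hJI, ?_, h5⟩
    exact Module.Finite.of_surjective
      (Ideal.Quotient.factorₐ C hJI).toLinearMap (Ideal.Quotient.factor_surjective hJI))
  rw [h2, AddSubgroup.mem_bot] at h4
  exact hc0 h4

theorem N4.exists_place {C : Type} [Field C] [IsSepClosed C] {p : ℕ} [Fact p.Prime] [CharP C p]
    {E : Type} [Field E] [Algebra (RatFunc C) E] [FiniteDimensional (RatFunc C) E] (ε b : E)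
    (hε : ((algebraMap (RatFunc C) E).comp (toRat C)).IsIntegralElem ε)
    (hb : ((algebraMap (RatFunc C) E).comp (toRat C)).IsIntegralElem b)
    (h : ε * ε - ε = algebraMap (RatFunc C) E RatFunc.X * b)
    (ht : ¬ (P5.P0 C).valuation (RatFunc C) (Algebra.trace (RatFunc C) E ε) < 1) :
    ∃ w : Valuation E Γ₀, IsPlace ((algebraMap (RatFunc C) E).comp (toRat C)) w ∧
      (∀ y : E, ((algebraMap (RatFunc C) E).comp (toRat C)).IsIntegralElem y → w y ≤ 1) ∧
      w (ε - 1) < 1 := by
  have hsep : Algebra.IsSeparable (RatFunc C) E := by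
    by_contra hns
    apply ht
    rw [Algebra.trace_eq_zero_of_not_isSeparable hns, LinearMap.zero_apply, map_zero]
    exact zero_lt_one
  let : Algebra C[X] E := ((algebraMap (RatFunc C) E).comp (toRat C)).toAlgebra
  have hmapE : algebraMap C[X] E = (algebraMap (RatFunc C) E).comp (toRat C) := rfl
  have : IsScalarTower C[X] (RatFunc C) E := IsScalarTower.of_algebraMap_eq fun _ => rfl
  let O := integralClosure C[X] E
  have : IsDedekindDomain O := integralClosure.isDedekindDomain C[X] (RatFunc C) E
  have : IsFractionRing O E :=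
    IsIntegralClosure.isFractionRing_of_finite_extension C[X] (RatFunc C) E O
  have : Module.Finite C[X] O := IsIntegralClosure.finite C[X] (RatFunc C) E O
  have hinjE : Function.Injective (algebraMap C[X] E) :=
    (algebraMap (RatFunc C) E).injective.comp (IsFractionRing.injective C[X] (RatFunc C))
  have : Module.IsTorsionFree C[X] E := by
    rw [Module.isTorsionFree_iff_algebraMap_injective]
    exact hinjE
  have : Module.IsTorsionFree C[X] O := IsIntegralClosure.isTorsionFree C[X] E
  let : Algebra C O := ((algebraMap C[X] O).comp (algebraMap C C[X])).toAlgebra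
  have : IsScalarTower C C[X] O := IsScalarTower.of_algebraMap_eq fun _ => rfl
  obtain ⟨ε', hε'⟩ : ∃ e : O, algebraMap O E e = ε := ⟨⟨ε, hε⟩, rfl⟩
  obtain ⟨b', hb'⟩ : ∃ e : O, algebraMap O E e = b := ⟨⟨b, hb⟩, rfl⟩
  have hinjO : Function.Injective (algebraMap O E) := IsFractionRing.injective O E
  have htow : ∀ f : C[X], algebraMap O E (algebraMap C[X] O f) =
      (algebraMap (RatFunc C) E).comp (toRat C) f := fun _ => rfl
  have hx : Algebra.intTrace C[X] O ε' ∉ (P5.P0 C).asIdeal := by
    intro hm
    apply ht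
    have h0 : algebraMap C[X] (RatFunc C) (Algebra.intTrace C[X] O ε') =
        Algebra.trace (RatFunc C) E ε := by
      rw [Algebra.algebraMap_intTrace (L := E), hε']
    rw [← h0]
    exact ((P5.P0 C).valuation_lt_one_iff_mem (K := RatFunc C) _).2 hm
  obtain ⟨I, hI, hPI, hfin, htr⟩ := N4.aux_max ε' hx
  have hXI : algebraMap C[X] O X ∈ I :=
    hPI (Ideal.mem_map_of_mem _ (Ideal.mem_span_singleton_self X))
  have hrel : ε' * ε' - ε' = algebraMap C[X] O X * b' := by
    apply hinjO
    rw [map_sub, map_mul, map_mul, hε', hb', h, htow, RingHom.comp_apply, RatFunc.algebraMap_X]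
  let F := Ideal.Quotient.field I
  -- `ε` is `1` modulo `I`
  have hone : Ideal.Quotient.mk I ε' = 1 := by
    have h1 : Ideal.Quotient.mk I ε' * Ideal.Quotient.mk I ε' - Ideal.Quotient.mk I ε' = 0 := by
      rw [← map_mul, ← map_sub, hrel, Ideal.Quotient.eq_zero_iff_mem]
      exact I.mul_mem_right _ hXI
    have h2 : Ideal.Quotient.mk I ε' ≠ 0 := by
      intro h0
      rw [h0, map_zero] at htr
      exact htr rfl
    have h3 : Ideal.Quotient.mk I ε' * (Ideal.Quotient.mk I ε' - 1) = 0 := by
      rw [mul_sub, mul_one]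
      exact h1
    rcases mul_eq_zero.1 h3 with h4 | h4
    · exact absurd h4 h2
    · exact sub_eq_zero.1 h4
  have hmem : ε' - 1 ∈ I := by
    rw [← Ideal.Quotient.eq_zero_iff_mem, map_sub, hone, map_one, sub_self]
  have hdvd : ¬ p ∣ Module.finrank C (O ⧸ I) := by
    intro hd
    apply htr
    have h1 : Algebra.trace C (O ⧸ I) (algebraMap C (O ⧸ I) 1) = Module.finrank C (O ⧸ I) • (1 : C) :=
      Algebra.trace_algebraMap 1
    rw [map_one] at h1
    rw [hone, h1, nsmul_eq_mul, mul_one]
    exact (CharP.cast_eq_zero_iff C p _).2 hd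
  have hsepI : Algebra.IsSeparable C (O ⧸ I) := P5.isSeparable_of_not_dvd hdvd
  have hsurj : Function.Surjective (algebraMap C (O ⧸ I)) :=
    IsSepClosed.algebraMap_surjective C (O ⧸ I)
  let w : IsDedekindDomain.HeightOneSpectrum O :=
    { asIdeal := I
      isPrime := hI.isPrime
      ne_bot := by
        intro h0
        rw [h0, Ideal.mem_bot] at hXI
        have h1 := congrArg (algebraMap O E) hXI
        rw [htow, map_zero, ← hmapE] at h1
        exact X_ne_zero (hinjE (h1.trans (map_zero _).symm)) }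
  have hint : ∀ a : O, w.valuation E (algebraMap O E a) ≤ 1 := fun a => w.valuation_le_one a
  have hlt : ∀ a : O, a ∈ I → w.valuation E (algebraMap O E a) < 1 := fun a ha =>
    (w.valuation_lt_one_iff_mem a).2 ha
  refine ⟨w.valuation E, ⟨?_, ?_, ?_, ?_⟩, ?_, ?_⟩
  · intro h0
    rw [← hmapE] at h0
    exact X_ne_zero (hinjE (h0.trans (map_zero _).symm))
  · rw [← htow]
    exact hlt _ hXI
  · intro a ha
    rw [← htow]
    have h1 := hint (algebraMap C[X] O (Polynomial.C a))
    have h2 := hint (algebraMap C[X] O (Polynomial.C a⁻¹))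
    have h3 : w.valuation E (algebraMap O E (algebraMap C[X] O (Polynomial.C a))) *
        w.valuation E (algebraMap O E (algebraMap C[X] O (Polynomial.C a⁻¹))) = 1 := by
      rw [← map_mul, ← map_mul, ← map_mul, ← map_mul, mul_inv_cancel₀ ha, map_one, map_one, map_one,
        map_one]
    apply le_antisymm h1
    calc (1 : Γ₀) = _ := h3.symm
      _ ≤ w.valuation E (algebraMap O E (algebraMap C[X] O (Polynomial.C a))) * 1 :=
        mul_le_mul_right h2 _
      _ = _ := mul_one _
  · intro y hy
    obtain ⟨a, ha⟩ := w.exists_valuation_sub_lt_of_integer hy 1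
    obtain ⟨c, hc⟩ := hsurj (Ideal.Quotient.mk I a)
    refine ⟨c, ?_⟩
    have h1 : a - algebraMap C[X] O (Polynomial.C c) ∈ I := by
      rw [← Ideal.Quotient.eq_zero_iff_mem, map_sub, ← hc]
      exact sub_self _
    have h2 := hlt _ h1
    rw [map_sub, htow] at h2
    have h3 : y - (algebraMap (RatFunc C) E).comp (toRat C) (Polynomial.C c) =
        (y - algebraMap O E a) + (algebraMap O E a -
          (algebraMap (RatFunc C) E).comp (toRat C) (Polynomial.C c)) := by ring
    rw [h3]
    apply Valuation.map_add_lt _ _ h2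
    rw [Valuation.map_sub_swap]
    exact ha
  · intro y hy
    exact hint ⟨y, hy⟩
  · have h1 := hlt _ hmem
    rw [map_sub, hε', map_one] at h1
    exact h1

end Pool.Agent.Helper62.DL
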