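import Mathlib
import Pool.Agent.Helper62.DL.Defs

/-!
PROJECT DL, piece S1 (about 80 lines). The derivation `D ⊗ θ^α` of `L ⊗[C] E`.

Proof. `D` is `C`-linear (`D (c l) = c D l + l D c = c D l`), so `LinearMap.rTensor`/`TensorProduct.map` of
`D` and of multiplication by `t` gives an additive map `δ` with `δ (l ⊗ e) = D l ⊗ (t * e)`. Leibniz rule:
both sides are additive in each argument, so by `TensorProduct.induction_on` twice it is enough to check it
on pure tensors (`Algebra.TensorProduct.tmul_mul_tmul`, `D.mul`, `TensorProduct.add_tmul`).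
-/

open TensorProduct

namespace Pool.Agent.Helper62.DL

open Pool.Agent.Helper21.PD

theorem S1.exists_der {C L E : Type} [Field C] [Field L] [Algebra C L] [Field E] [Algebra C E]
    (D : Der L) (hD : ∀ c : C, D (algebraMap C L c) = 0) (t : E) :
    ∃ δ : Der (L ⊗[C] E), ∀ (l : L) (e : E), δ (l ⊗ₜ[C] e) = D l ⊗ₜ[C] (t * e) := by
  let DL : L →ₗ[C] L :=
    { toFun := D
      map_add' := D.add
      map_smul' := by
        intro c l
        simp only [RingHom.id_apply, Algebra.smul_def]
        rw [D.mul, hD, mul_zero, add_zero] }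
  have hDL : ∀ l : L, DL l = D l := fun _ => rfl
  let φ : (L ⊗[C] E) →ₗ[C] (L ⊗[C] E) := TensorProduct.map DL (LinearMap.mulLeft C t)
  have hφ : ∀ (l : L) (e : E), φ (l ⊗ₜ[C] e) = D l ⊗ₜ[C] (t * e) := by
    intro l e
    simp [φ, TensorProduct.map_tmul, hDL]
  refine ⟨⟨fun x => φ x, fun a b => map_add φ a b, ?_⟩, hφ⟩
  intro a b
  induction a using TensorProduct.induction_on with
  | zero => simp
  | add a₁ a₂ h₁ h₂ =>
    simp only [add_mul, mul_add, map_add, h₁, h₂]
    ring
  | tmul l₁ e₁ =>
    induction b using TensorProduct.induction_on with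
    | zero => simp
    | add b₁ b₂ h₁ h₂ =>
      simp only [add_mul, mul_add, map_add, h₁, h₂]
      ring
    | tmul l₂ e₂ =>
      rw [Algebra.TensorProduct.tmul_mul_tmul, hφ, hφ, hφ, Algebra.TensorProduct.tmul_mul_tmul,
        Algebra.TensorProduct.tmul_mul_tmul, D.mul, TensorProduct.add_tmul]
      congr 1
      · rw [show t * (e₁ * e₂) = e₁ * (t * e₂) by ring]
      · rw [show t * (e₁ * e₂) = e₂ * (t * e₁) by ring]

end Pool.Agent.Helper62.DL
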