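import Mathlib
import Pool.Agent.Helper62.DL.Defs

/-!
PROJECT DL, piece S2 (about 150 lines). The valuation of `L ⊗[C] E`, where `a^p ∈ C` for all `a ∈ L`.

Proof. `ρ : L ⊗[C] E → E`, `ρ (l ⊗ e) = (l^p) * e^p` with `l^p ∈ C` mapped to `E`, is a ring homomorphism:
use `Algebra.TensorProduct.lift` (or `productMap`) for the `C`-algebra structure on `E` given by
`c ↦ algebraMap c ^ p`, or define it as an additive map by `TensorProduct.liftAddHom`, or: the Frobenius of
`L ⊗[C] E` composed suitably. `W = w ∘ ρ` (`Valuation.comap ρ w`).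
`W (l ⊗ 1) = w (algebraMap C E (l^p)) = 1` for `l ≠ 0`; `W (1 ⊗ e) = w e ^ p`.
For `x = ∑_k ω_k ⊗ c_k`: `ρ x = ∑_k (ω_k^p) c_k^p`. (c2) is the ultrametric inequality. (c1): let `k₀` have
`w (c_k₀)` maximal; if it is zero nothing is to be shown; `y_k = c_k / c_k₀` has `w ≤ 1`, so by `hres` there
is `a_k ∈ C` with `w (y_k - a_k) < 1`, `a_k₀ = 1` may be taken (`y_k₀ = 1`, choose 1). Then
`ρ x / c_k₀^p = ∑_k (ω_k^p) y_k^p` and `y_k^p - a_k^p = (y_k - a_k)^p` has value `< 1`, and
`∑_k ω_k^p a_k^p = (∑_k a_k ω_k)^p` is (the image of) a nonzero element of `C` since the `ω_k` are linearly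
independent over `C` and `a_k₀ ≠ 0`; so its value is `1` and `w (ρ x) = w (c_k₀)^p`.
-/

open TensorProduct

namespace Pool.Agent.Helper62.DL

/-- type synonym of `E` carrying the `p`-th power algebra structure -/
def S2.Tw (E : Type) : Type := E

noncomputable instance S2.fieldTw (E : Type) [Field E] : Field (S2.Tw E) := inferInstanceAs (Field E)

theorem S2.exists_rho {C L E : Type} [Field C] [Field L] [Algebra C L] [Field E]
    [Algebra C E] {p : ℕ} [Fact p.Prime] [CharP C p]
    (hp : ∀ a : L, ∃ c : C, algebraMap C L c = a ^ p) :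
    ∃ (φ : L → C) (ρ : L ⊗[C] E →+* E), (∀ l, algebraMap C L (φ l) = l ^ p) ∧
      ∀ l e, ρ (l ⊗ₜ[C] e) = algebraMap C E (φ l) * e ^ p := by
  have hpp : p.Prime := Fact.out
  haveI : CharP L p := charP_of_injective_algebraMap (algebraMap C L).injective p
  haveI : CharP E p := charP_of_injective_algebraMap (algebraMap C E).injective p
  choose φ hφ using hp
  have hinj := (algebraMap C L).injective
  letI algTw : Algebra C (S2.Tw E) := ((algebraMap C E).comp (frobenius C p)).toAlgebra
  let f0 : L →+* S2.Tw E :=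
    { toFun := fun l => (algebraMap C E (φ l) : E)
      map_one' := by
        have : φ 1 = 1 := by apply hinj; rw [hφ, map_one, one_pow]
        change (algebraMap C E (φ 1) : E) = 1
        rw [this, map_one]
      map_mul' := by
        intro a b
        have : φ (a * b) = φ a * φ b := by apply hinj; rw [hφ, map_mul, hφ, hφ, mul_pow]
        change (algebraMap C E (φ (a * b)) : E) = (algebraMap C E (φ a) : E) * (algebraMap C E (φ b) : E)
        rw [this, map_mul]
      map_zero' := by
        have : φ 0 = 0 := by apply hinj; rw [hφ, map_zero, zero_pow hpp.ne_zero]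
        change (algebraMap C E (φ 0) : E) = 0
        rw [this, map_zero]
      map_add' := by
        intro a b
        have : φ (a + b) = φ a + φ b := by
          apply hinj; rw [hφ, map_add, hφ, hφ, add_pow_char]
        change (algebraMap C E (φ (a + b)) : E) = (algebraMap C E (φ a) : E) + (algebraMap C E (φ b) : E)
        rw [this, map_add] }
  let f : L →ₐ[C] S2.Tw E :=
    { f0 with
      commutes' := by
        intro c
        have : φ (algebraMap C L c) = c ^ p := by apply hinj; rw [hφ, map_pow]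
        change (algebraMap C E (φ (algebraMap C L c)) : E) = (algebraMap C E (frobenius C p c) : E)
        rw [this, frobenius_def] }
  let g : E →ₐ[C] S2.Tw E :=
    { (frobenius E p : E →+* E) with
      commutes' := by
        intro c
        change (frobenius E p (algebraMap C E c) : E) = (algebraMap C E (frobenius C p c) : E)
        rw [frobenius_def, frobenius_def, map_pow] }
  let R : L ⊗[C] E →ₐ[C] S2.Tw E := Algebra.TensorProduct.lift f g (fun _ _ => Commute.all _ _)
  refine ⟨φ, (R : L ⊗[C] E →+* S2.Tw E), hφ, ?_⟩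
  intro l e
  have h := Algebra.TensorProduct.lift_tmul f g (fun _ _ => Commute.all _ _) l e
  exact h

theorem S2.exists_valuation {C L E : Type} [Field C] [Field L] [Algebra C L] [Field E]
    [Algebra C E] {p : ℕ} [Fact p.Prime] [CharP C p]
    (hp : ∀ a : L, ∃ c : C, algebraMap C L c = a ^ p) (w : Valuation E Γ₀)
    (hw : ∀ a : C, a ≠ 0 → w (algebraMap C E a) = 1)
    (hres : ∀ y : E, w y ≤ 1 → ∃ a : C, w (y - algebraMap C E a) < 1)
    {κ₀ : Type} [Fintype κ₀] (ω : Module.Basis κ₀ C L) :
    ∃ W : Valuation (L ⊗[C] E) Γ₀,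
      (∀ l : L, l ≠ 0 → W (l ⊗ₜ[C] (1 : E)) = 1) ∧
      (∀ e : E, W ((1 : L) ⊗ₜ[C] e) = w e ^ p) ∧
      (∀ (c : κ₀ → E) (k : κ₀), w (c k) ^ p ≤ W (∑ k, ω k ⊗ₜ[C] c k)) ∧
      (∀ (c : κ₀ → E) (y : Γ₀), (∀ k, w (c k) ^ p ≤ y) → W (∑ k, ω k ⊗ₜ[C] c k) ≤ y) := by
  have hpp : p.Prime := Fact.out
  haveI : CharP L p := charP_of_injective_algebraMap (algebraMap C L).injective p
  haveI : CharP E p := charP_of_injective_algebraMap (algebraMap C E).injective p
  obtain ⟨φ, ρ, hφ, hρ⟩ := S2.exists_rho (E := E) hp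
  have hinj := (algebraMap C L).injective
  have hφ1 : φ 1 = 1 := by apply hinj; rw [hφ, map_one, one_pow]
  have hφ0 : ∀ l, l ≠ 0 → φ l ≠ 0 := by
    intro l hl h
    have := hφ l
    rw [h, map_zero] at this
    exact hl (pow_eq_zero_iff hpp.ne_zero |>.mp this.symm)
  have hφw : ∀ l, l ≠ 0 → w (algebraMap C E (φ l)) = 1 := fun l hl => hw _ (hφ0 l hl)
  have hsum : ∀ c : κ₀ → E, ρ (∑ k, ω k ⊗ₜ[C] c k) = ∑ k, algebraMap C E (φ (ω k)) * c k ^ p := by
    intro c
    rw [map_sum]
    exact Finset.sum_congr rfl fun k _ => hρ _ _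
  refine ⟨w.comap ρ, ?_, ?_, ?_, ?_⟩
  · intro l hl
    rw [Valuation.comap_apply, hρ, one_pow, mul_one, hφw l hl]
  · intro e
    rw [Valuation.comap_apply, hρ, hφ1, map_one, one_mul, map_pow]
  · intro c k
    rw [Valuation.comap_apply, hsum]
    obtain ⟨k0, -, hk0⟩ := Finset.exists_max_image Finset.univ (fun k => w (c k)) ⟨k, Finset.mem_univ k⟩
    refine le_trans (pow_le_pow_left₀ zero_le (hk0 k (Finset.mem_univ k)) p) ?_
    by_cases h0 : c k0 = 0
    · rw [h0, map_zero, zero_pow hpp.ne_zero]
      exact zero_le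
    have hw0 : w (c k0) ≠ 0 := (Valuation.ne_zero_iff w).mpr h0
    have hy : ∀ k, w (c k / c k0) ≤ 1 := by
      intro k
      rw [map_div₀]
      exact div_le_one_of_le₀ (hk0 k (Finset.mem_univ k)) zero_le
    have hex : ∀ k, ∃ a : C, w (c k / c k0 - algebraMap C E a) < 1 ∧ (k = k0 → a = 1) := by
      intro k
      by_cases hk : k = k0
      · refine ⟨1, ?_, fun _ => rfl⟩
        rw [hk, div_self h0, map_one, sub_self, map_zero]
        exact zero_lt_one
      · obtain ⟨a, ha⟩ := hres _ (hy k)
        exact ⟨a, ha, fun h => absurd h hk⟩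
    choose a ha ha1 using hex
    have hfac : ∑ k, algebraMap C E (φ (ω k)) * c k ^ p =
        c k0 ^ p * (algebraMap C E (∑ k, φ (ω k) * a k ^ p) +
          ∑ k, algebraMap C E (φ (ω k)) * (c k / c k0 - algebraMap C E (a k)) ^ p) := by
      rw [map_sum, ← Finset.sum_add_distrib, Finset.mul_sum]
      refine Finset.sum_congr rfl fun k _ => ?_
      rw [sub_pow_char, div_pow, map_mul, map_pow]
      field_simp
      ring
    have hφs : ∑ k, φ (ω k) * a k ^ p = φ (∑ k, a k • ω k) := by
      apply hinj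
      rw [hφ, map_sum, sum_pow_char]
      refine Finset.sum_congr rfl fun k _ => ?_
      rw [map_mul, hφ, map_pow, Algebra.smul_def, mul_pow, mul_comm]
    have hne : (∑ k, a k • ω k) ≠ 0 := by
      intro h
      have h1 := Fintype.linearIndependent_iff.mp ω.linearIndependent a h k0
      rw [ha1 k0 rfl] at h1
      exact one_ne_zero h1
    have h1 : w (algebraMap C E (∑ k, φ (ω k) * a k ^ p)) = 1 := by
      rw [hφs]
      exact hφw _ hne
    have h2 : w (∑ k, algebraMap C E (φ (ω k)) * (c k / c k0 - algebraMap C E (a k)) ^ p) < 1 := by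
      refine Valuation.map_sum_lt w one_ne_zero fun k _ => ?_
      rw [map_mul, map_pow, hφw _ (ω.ne_zero k), one_mul]
      exact pow_lt_one₀ zero_le (ha k) hpp.ne_zero
    rw [hfac, map_mul, map_pow, Valuation.map_add_eq_of_lt_left w (by rw [h1]; exact h2), h1, mul_one]
  · intro c y hy
    rw [Valuation.comap_apply, hsum]
    refine Valuation.map_sum_le w fun k _ => ?_
    rw [map_mul, map_pow, hφw _ (ω.ne_zero k), one_mul]
    exact hy k

end Pool.Agent.Helper62.DL
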