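import Mathlib
import Pool.Agent.Helper62.DL.Defs

/-!
PROJECT DL, piece S3 (about 50 lines). The derivation `D ⊗ t` of `L ⊗[C] E` changes the valuation `W` by at
most `w t ^ p`.

Proof. Write `x = ∑_k ω_k ⊗ c_k` (every element of `L ⊗[C] E` has this form:
`Algebra.TensorProduct.basis`/`TensorProduct.equivFinsuppOfBasisLeft`, or induction).
`D ω_k = ∑_l d_kl • ω_l`, `d_kl = ω.repr (D (ω k)) l ∈ C`, so
`δ x = ∑_k D ω_k ⊗ t c_k = ∑_l ω_l ⊗ (∑_k d_kl t c_k)` and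
`w (∑_k d_kl t c_k)^p ≤ max_k (w t ^ p * w (c_k)^p) ≤ w t ^ p * W x` by (c1) and `w (algebraMap C E d) ≤ 1`;
conclude by (c2).
-/

open TensorProduct

namespace Pool.Agent.Helper62.DL

open Pool.Agent.Helper21.PD

theorem S3.exists_coords {C L E : Type} [Field C] [Field L] [Algebra C L] [Field E] [Algebra C E]
    {κ₀ : Type} [Fintype κ₀] (ω : Module.Basis κ₀ C L) (x : L ⊗[C] E) :
    ∃ c : κ₀ → E, x = ∑ k, ω k ⊗ₜ[C] c k := by
  induction x using TensorProduct.induction_on with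
  | zero => exact ⟨0, by simp⟩
  | tmul l e =>
    refine ⟨fun k => ω.repr l k • e, ?_⟩
    conv_lhs => rw [← ω.sum_repr l]
    rw [TensorProduct.sum_tmul]
    exact Finset.sum_congr rfl fun k _ => TensorProduct.smul_tmul _ _ _
  | add x y hx hy =>
    obtain ⟨c, hc⟩ := hx
    obtain ⟨c', hc'⟩ := hy
    refine ⟨c + c', ?_⟩
    rw [hc, hc', ← Finset.sum_add_distrib]
    exact Finset.sum_congr rfl fun k _ => (TensorProduct.tmul_add _ _ _).symm

theorem S3.der_le {C L E : Type} [Field C] [Field L] [Algebra C L] [Field E] [Algebra C E]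
    {p : ℕ} [Fact p.Prime] (w : Valuation E Γ₀)
    (hw : ∀ a : C, a ≠ 0 → w (algebraMap C E a) = 1)
    {κ₀ : Type} [Fintype κ₀] (ω : Module.Basis κ₀ C L) (D : Der L) (t : E)
    (δ : Der (L ⊗[C] E)) (hδ : ∀ (l : L) (e : E), δ (l ⊗ₜ[C] e) = D l ⊗ₜ[C] (t * e))
    (W : Valuation (L ⊗[C] E) Γ₀)
    (hW1 : ∀ (c : κ₀ → E) (k : κ₀), w (c k) ^ p ≤ W (∑ k, ω k ⊗ₜ[C] c k))
    (hW2 : ∀ (c : κ₀ → E) (y : Γ₀), (∀ k, w (c k) ^ p ≤ y) → W (∑ k, ω k ⊗ₜ[C] c k) ≤ y)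
    (x : L ⊗[C] E) : W (δ x) ≤ w t ^ p * W x := by
  obtain ⟨c, hc⟩ := S3.exists_coords ω x
  have key : δ x = ∑ l, ω l ⊗ₜ[C] (∑ k, ω.repr (D (ω k)) l • (t * c k)) := by
    rw [hc, Der.sum]
    have h1 : ∀ k ∈ (Finset.univ : Finset κ₀), δ (ω k ⊗ₜ[C] c k) =
        ∑ l, ω l ⊗ₜ[C] (ω.repr (D (ω k)) l • (t * c k)) := by
      intro k _
      rw [hδ]
      conv_lhs => rw [← ω.sum_repr (D (ω k))]
      rw [TensorProduct.sum_tmul]
      exact Finset.sum_congr rfl fun l _ => TensorProduct.smul_tmul _ _ _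
    rw [Finset.sum_congr rfl h1, Finset.sum_comm]
    exact Finset.sum_congr rfl fun l _ => (TensorProduct.tmul_sum _ _ _).symm
  rw [key]
  apply hW2
  intro l
  have : Nonempty κ₀ := ⟨l⟩
  obtain ⟨k0, hk0⟩ := Finite.exists_max (fun k => w (c k))
  have hd : ∀ d : C, w (algebraMap C E d) ≤ 1 := by
    intro d
    by_cases h : d = 0
    · rw [h, map_zero, map_zero]; exact zero_le
    · exact (hw d h).le
  have hle : w (∑ k, ω.repr (D (ω k)) l • (t * c k)) ≤ w t * w (c k0) := by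
    apply Valuation.map_sum_le
    intro k _
    rw [Algebra.smul_def, map_mul, map_mul]
    calc w (algebraMap C E (ω.repr (D (ω k)) l)) * (w t * w (c k))
        ≤ 1 * (w t * w (c k)) := mul_le_mul_left (hd _) _
      _ = w t * w (c k) := one_mul _
      _ ≤ w t * w (c k0) := mul_le_mul_right (hk0 k) _
  calc w (∑ k, ω.repr (D (ω k)) l • (t * c k)) ^ p ≤ (w t * w (c k0)) ^ p :=
        pow_le_pow_left₀ zero_le hle p
    _ = w t ^ p * w (c k0) ^ p := mul_pow _ _ _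
    _ ≤ w t ^ p * W (∑ k, ω k ⊗ₜ[C] c k) := mul_le_mul_right (hW1 c k0) _
    _ = w t ^ p * W x := by rw [← hc]

end Pool.Agent.Helper62.DL
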