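import Mathlib
import Pool.Agent.Helper62.DL.Defs

/-!
PROJECT DL, piece T1 (about 100 lines). Derivations with prescribed values on a separable algebraic extension
`M` of `k(X_j : j ∈ S)`.

Proof. Let `P = MvPolynomial S k`, `F = FractionRing P`, `T = TrivSqZeroExt M M` (dual numbers). The
homomorphism `P → T`, `C a ↦ inl a`, `X j ↦ (X j, g j)` (`eval₂Hom`), sends nonzero elements to elements with
nonzero first component, i.e. units (`TrivSqZeroExt.isUnit_iff_isUnit_fst`), so it extends to `F → T`
(`IsLocalization.lift`/`IsLocalization.Away`), a section of `F → M` on first components. This makes `T` an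
`F`-algebra (`RingHom.toAlgebra`). `M/F` is separable algebraic, so `Algebra.FormallyEtale F M`
(`Algebra.FormallyEtale.of_isSeparable`, in `Mathlib/RingTheory/Etale/Field.lean`), in particular formally
smooth: the identity `M → M = T/(ε)` lifts to an `F`-algebra homomorphism `M → T`
(`Algebra.FormallySmooth.exists_lift` / `liftOfSurjective` for the surjection `fst : T → M` with square-zero
kernel). Its second component is the derivation: `Der.ofHom` in `PD/Defs.lean`.
-/

open MvPolynomial

namespace Pool.Agent.Helper62.DL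

open Pool.Agent.Helper21.PD

theorem T1.lift {F M T : Type} [Field F] [Field M] [Algebra F M] [Algebra.IsSeparable F M]
    [CommRing T] (ψ : F →+* T) (π : T →+* M) (hπ : Function.Surjective π)
    (hnil : ∀ x y, π x = 0 → π y = 0 → x * y = 0) (hc : ∀ x, π (ψ x) = algebraMap F M x) :
    ∃ χ : M →+* T, (∀ m, π (χ m) = m) ∧ ∀ x, χ (algebraMap F M x) = ψ x := by
  let _ : Algebra F T := ψ.toAlgebra
  have : Algebra.FormallyEtale F M := Algebra.FormallyEtale.of_isSeparable F M
  let π' : T →ₐ[F] M := { π with commutes' := fun r => hc r }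
  have hker : IsNilpotent (RingHom.ker (π' : T →+* M)) := by
    refine ⟨2, ?_⟩
    rw [pow_two, Ideal.zero_eq_bot, eq_bot_iff, Ideal.mul_le]
    intro x hx y hy
    rw [RingHom.mem_ker] at hx hy
    exact hnil x y hx hy
  refine ⟨(Algebra.FormallySmooth.liftOfSurjective (AlgHom.id F M) π' hπ hker).toRingHom,
    fun m => ?_, fun x => ?_⟩
  · exact Algebra.FormallySmooth.liftOfSurjective_apply (AlgHom.id F M) π' hπ hker m
  · exact (Algebra.FormallySmooth.liftOfSurjective (AlgHom.id F M) π' hπ hker).commutes x

theorem T1.exists_der {k S M : Type} [Field k] [Field M]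
    [Algebra (FractionRing (MvPolynomial S k)) M]
    [Algebra.IsSeparable (FractionRing (MvPolynomial S k)) M] (g : S → M) :
    ∃ D : Der M, ∀ j : S, D (algebraMap (FractionRing (MvPolynomial S k)) M
      (algebraMap (MvPolynomial S k) (FractionRing (MvPolynomial S k)) (X j))) = g j := by
  classical
  let ι : MvPolynomial S k →+* M := (algebraMap (FractionRing (MvPolynomial S k)) M).comp
    (algebraMap (MvPolynomial S k) (FractionRing (MvPolynomial S k)))
  have hι : Function.Injective ι :=
    (algebraMap (FractionRing (MvPolynomial S k)) M).injective.comp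
      (IsFractionRing.injective (MvPolynomial S k) (FractionRing (MvPolynomial S k)))
  let π : TrivSqZeroExt M M →+* M := (TrivSqZeroExt.fstHom M M M).toRingHom
  let φ : MvPolynomial S k →+* TrivSqZeroExt M M :=
    eval₂Hom ((TrivSqZeroExt.inlHom M M).comp (ι.comp C))
      (fun j => TrivSqZeroExt.inl (ι (X j)) + TrivSqZeroExt.inr (g j))
  have hφ : π.comp φ = ι := by
    refine MvPolynomial.ringHom_ext ?_ ?_
    · intro a
      simp only [φ, π, RingHom.comp_apply, coe_eval₂Hom, eval₂_C]
      rfl
    · intro j
      simp only [φ, π, RingHom.comp_apply, coe_eval₂Hom, eval₂_X]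
      change (TrivSqZeroExt.inl (ι (X j)) + TrivSqZeroExt.inr (g j)).fst = ι (X j)
      simp
  have hfst : ∀ f, (φ f).fst = ι f := fun f => RingHom.congr_fun hφ f
  have hunit : ∀ y : nonZeroDivisors (MvPolynomial S k), IsUnit (φ y) := by
    intro y
    rw [TrivSqZeroExt.isUnit_iff_isUnit_fst, hfst, isUnit_iff_ne_zero]
    intro h
    exact nonZeroDivisors.ne_zero y.2 (hι (by rw [h, map_zero]))
  let ψ : FractionRing (MvPolynomial S k) →+* TrivSqZeroExt M M :=
    IsLocalization.lift (M := nonZeroDivisors (MvPolynomial S k)) hunit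
  have hψ : ∀ f, ψ (algebraMap _ _ f) = φ f := fun f => IsLocalization.lift_eq hunit f
  have hψπ : π.comp ψ = algebraMap (FractionRing (MvPolynomial S k)) M := by
    refine IsLocalization.ringHom_ext (nonZeroDivisors (MvPolynomial S k)) ?_
    refine RingHom.ext fun f => ?_
    simp only [RingHom.comp_apply, hψ]
    exact hfst _
  obtain ⟨χ, hχ1, hχ2⟩ := T1.lift ψ π (fun m => ⟨TrivSqZeroExt.inl m, rfl⟩)
    (by
      intro x y hx hy
      have hx' : x.fst = 0 := hx
      have hy' : y.fst = 0 := hy
      ext
      · simp [hx']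
      · simp [hx', hy'])
    (fun x => RingHom.congr_fun hψπ x)
  refine ⟨Der.ofHom χ (fun a => hχ1 a), fun j => ?_⟩
  change (χ _).snd = g j
  rw [hχ2, hψ]
  simp only [φ, coe_eval₂Hom, eval₂_X]
  simp

end Pool.Agent.Helper62.DL
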