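import Mathlib

/-!
PROJECT DL, piece T2 (about 120 lines). `[M : M^p]` is finite for `M` separable algebraic over
`F = F_p(X_j : j ∈ S)`, `S` finite.

Proof. Let `M^p = (frobenius M p).fieldRange`. For `a ∈ M` the extension `F(a)/F` is separable, so
`F(a) = F(a^p)` (`IntermediateField.adjoin_simple_eq_adjoin_pow_expChar_of_isSeparable'`), so `a` is a
polynomial in `a^p` with coefficients in `F` and lies in the `M^p`-span of the image of `F`. Every element of
`F` is `f/g = f g^(p-1) / g^p` with `f, g ∈ F_p[X]`, and `f g^(p-1)` is an `F_p`-combination of monomials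
`X^γ = X^(γ mod p) * (X^(γ / p))^p`. (`F_p` is contained in `M^p`: `a^p = a`.) So `M` is spanned over `M^p` by
the finitely many monomials `∏ X_j^(β_j)`, `β_j < p`.
-/

open MvPolynomial

namespace Pool.Agent.Helper62.DL

theorem T2.finite {p : ℕ} [Fact p.Prime] {S : Type} [Finite S] {M : Type} [Field M] [CharP M p]
    [Algebra (FractionRing (MvPolynomial S (ZMod p))) M]
    [Algebra.IsSeparable (FractionRing (MvPolynomial S (ZMod p))) M] :
    Module.Finite (frobenius M p).fieldRange M := by
  classical
  have hp : p.Prime := Fact.out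
  have hpow : ∀ a : M, a ^ p ∈ (frobenius M p).fieldRange := fun a =>
    ⟨a, by rw [frobenius_def]⟩
  set x : S → M := fun j =>
    algebraMap (FractionRing (MvPolynomial S (ZMod p))) M
      (algebraMap (MvPolynomial S (ZMod p)) (FractionRing (MvPolynomial S (ZMod p))) (X j)) with hx
  set A : Subalgebra (frobenius M p).fieldRange M :=
    Algebra.adjoin (frobenius M p).fieldRange (Set.range x) with hAdef
  have hA : (Subalgebra.toSubmodule A).FG := by
    apply fg_adjoin_of_finite (Set.finite_range x)
    rintro _ ⟨j, rfl⟩
    have h1 : IsIntegral (frobenius M p).fieldRange (x j ^ p) :=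
      isIntegral_algebraMap (x := (⟨x j ^ p, hpow (x j)⟩ : (frobenius M p).fieldRange))
    exact IsIntegral.of_pow hp.pos h1
  have hK : ∀ a : M, a ^ p ∈ A := fun a =>
    A.algebraMap_mem (⟨a ^ p, hpow a⟩ : (frobenius M p).fieldRange)
  have hKinv : ∀ a : M, (a ^ p)⁻¹ ∈ A := fun a => by
    have h := hK a⁻¹
    rwa [inv_pow] at h
  -- images of polynomials
  have hR : ∀ f : MvPolynomial S (ZMod p),
      algebraMap (FractionRing (MvPolynomial S (ZMod p))) M
        (algebraMap (MvPolynomial S (ZMod p)) (FractionRing (MvPolynomial S (ZMod p))) f) ∈ A := by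
    intro f
    induction f using MvPolynomial.induction_on with
    | C c =>
      have hc : c ^ p = c := ZMod.pow_card c
      have h := hK (algebraMap (FractionRing (MvPolynomial S (ZMod p))) M
        (algebraMap (MvPolynomial S (ZMod p)) (FractionRing (MvPolynomial S (ZMod p))) (C c)))
      rwa [← map_pow, ← map_pow, ← map_pow, hc] at h
    | add f g hf hg =>
      rw [map_add, map_add]
      exact A.add_mem hf hg
    | mul_X f j hf =>
      rw [map_mul, map_mul]
      exact A.mul_mem hf (Algebra.subset_adjoin ⟨j, rfl⟩)
  have hF : ∀ f : FractionRing (MvPolynomial S (ZMod p)),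
      algebraMap (FractionRing (MvPolynomial S (ZMod p))) M f ∈ A := by
    intro f
    obtain ⟨a, b, hb, rfl⟩ := IsFractionRing.div_surjective (A := MvPolynomial S (ZMod p)) f
    have hb0 : algebraMap (FractionRing (MvPolynomial S (ZMod p))) M
        (algebraMap (MvPolynomial S (ZMod p)) (FractionRing (MvPolynomial S (ZMod p))) b) ≠ 0 := by
      intro h0
      have h1 := (algebraMap (FractionRing (MvPolynomial S (ZMod p))) M).injective
        (h0.trans (map_zero _).symm)
      have h2 := IsFractionRing.injective (MvPolynomial S (ZMod p))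
        (FractionRing (MvPolynomial S (ZMod p))) (h1.trans (map_zero _).symm)
      exact nonZeroDivisors.ne_zero hb h2
    set B := algebraMap (FractionRing (MvPolynomial S (ZMod p))) M
        (algebraMap (MvPolynomial S (ZMod p)) (FractionRing (MvPolynomial S (ZMod p))) b) with hB
    rw [map_div₀]
    have e : algebraMap (FractionRing (MvPolynomial S (ZMod p))) M
        (algebraMap (MvPolynomial S (ZMod p)) (FractionRing (MvPolynomial S (ZMod p))) a) / B =
        algebraMap (FractionRing (MvPolynomial S (ZMod p))) M
        (algebraMap (MvPolynomial S (ZMod p)) (FractionRing (MvPolynomial S (ZMod p))) a) *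
          B ^ (p - 1) * (B ^ p)⁻¹ := by
      have hpp : B ^ p = B ^ (p - 1) * B := by
        rw [← pow_succ, Nat.sub_add_cancel hp.one_le]
      rw [hpp]
      field_simp
    rw [e]
    exact A.mul_mem (A.mul_mem (hR a) (A.pow_mem (hR b) _)) (hKinv B)
  have : ExpChar (FractionRing (MvPolynomial S (ZMod p))) p := by
    have hc : CharP (FractionRing (MvPolynomial S (ZMod p))) p := 
      (RingHom.charP_iff (algebraMap (FractionRing (MvPolynomial S (ZMod p))) M)
        (algebraMap (FractionRing (MvPolynomial S (ZMod p))) M).injective p).2 inferInstance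
    exact ExpChar.prime hp
  have hM : ∀ a : M, a ∈ A := by
    intro a
    have h1 : a ∈ IntermediateField.adjoin (FractionRing (MvPolynomial S (ZMod p))) {a ^ p} := by
      rw [← IntermediateField.adjoin_simple_eq_adjoin_pow_expChar_of_isSeparable'
        (FractionRing (MvPolynomial S (ZMod p))) M a p]
      exact IntermediateField.mem_adjoin_simple_self _ a
    have hint : IsIntegral (FractionRing (MvPolynomial S (ZMod p))) (a ^ p) :=
      (Algebra.IsSeparable.isSeparable (FractionRing (MvPolynomial S (ZMod p))) (a ^ p)).isIntegral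
    rw [← IntermediateField.mem_toSubalgebra,
      IntermediateField.adjoin_simple_toSubalgebra_of_isAlgebraic hint.isAlgebraic,
      Algebra.adjoin_singleton_eq_range_aeval] at h1
    obtain ⟨f, hf⟩ := h1
    rw [← hf]
    change Polynomial.aeval (a ^ p) f ∈ A
    rw [Polynomial.aeval_eq_sum_range]
    refine A.sum_mem fun i _ => ?_
    rw [Algebra.smul_def]
    exact A.mul_mem (hF _) (A.pow_mem (hK a) _)
  have hT : A = ⊤ := by
    rw [eq_top_iff]
    intro a _
    exact hM a
  rw [Module.finite_def]
  rw [hT] at hA
  simpa using hA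

end Pool.Agent.Helper62.DL
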