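import Mathlib

/-!
PROJECT DL, piece T3 (about 120 lines). The residue field of a product of separably closed fields `M_i` of
characteristic `p_i` at a maximal ideal `𝔪` such that `p_i → ∞` along `𝔪`: it has characteristic zero and it
is algebraically closed.

Proof. `𝕄 = (∏ M_i)/𝔪` (`Ideal.Quotient.field`), `π = Ideal.Quotient.mk 𝔪`. If the natural number `n > 0` is
zero in `𝕄`, then `n ∈ 𝔪`; the element `y` with `y_i = n⁻¹` if `n < p_i` and `0` otherwise satisfies
`n y - 1 ∈ 𝔪` by `hN` (it vanishes at all `i` with `p_i > n`, as `n ≠ 0` in `M_i`), so `1 ∈ 𝔪`,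
contradiction. Algebraically closed: use `IsAlgClosed.of_exists_root`: let `q` be a monic (irreducible)
polynomial over `𝕄` of degree `n > 0`; lift it coefficientwise to monic polynomials `q_i` of degree `n` over
`M_i` (choose lifts of the coefficients of `q` of index `< n`, leading coefficient 1). If `n < p_i` then
`q_i` has a root `z_i` in `M_i`: an irreducible factor of `q_i` has degree `< p_i`, so it is separable (an
irreducible inseparable polynomial has zero derivative, `Polynomial.separable_iff_derivative_ne_zero`, and the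
derivative of a polynomial of degree `m`, `0 < m < p_i`, is not zero), and `M_i` is separably closed
(`IsSepClosed.exists_root_of_splits`, `IsSepClosed.exists_root`). Put `z_i = 0` otherwise. Then
`(q_i(z_i))_i ∈ 𝔪` by `hN` and its class is `q(π z)`.
-/

namespace Pool.Agent.Helper62.DL

theorem T3.cast_ne_zero {K : Type} [Field K] {p : ℕ} [CharP K p] {n : ℕ} (h0 : n ≠ 0)
    (hn : n < p) : (n : K) ≠ 0 := by
  intro h
  have h1 := (CharP.cast_eq_zero_iff K p n).1 h
  have h2 := Nat.le_of_dvd (Nat.pos_of_ne_zero h0) h1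
  omega

theorem T3.root {K : Type} [Field K] [IsSepClosed K] {p : ℕ} [CharP K p]
    (f : Polynomial K) (hf : 0 < f.natDegree) (hfp : f.natDegree < p) :
    ∃ z : K, f.eval z = 0 := by
  have hf0 : f ≠ 0 := by
    intro h
    rw [h] at hf
    simp at hf
  have hfu : ¬ IsUnit f := by
    intro h
    have := Polynomial.natDegree_eq_zero_of_isUnit h
    omega
  obtain ⟨g, hg, hgf⟩ := WfDvdMonoid.exists_irreducible_factor hfu hf0
  have hgd : g.natDegree ≤ f.natDegree := Polynomial.natDegree_le_of_dvd hgf hf0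
  have hgpos : 0 < g.natDegree := hg.natDegree_pos
  have hsep : g.Separable := by
    rw [Polynomial.separable_iff_derivative_ne_zero hg]
    intro hd
    have h1 : (Polynomial.derivative g).coeff (g.natDegree - 1) = 0 := by
      rw [hd]
      simp
    rw [Polynomial.coeff_derivative] at h1
    have h2 : g.natDegree - 1 + 1 = g.natDegree := by omega
    rw [h2] at h1
    have h3 : g.coeff g.natDegree ≠ 0 := by
      rw [Polynomial.coeff_natDegree]
      exact Polynomial.leadingCoeff_ne_zero.2 hg.ne_zero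
    have h4 : ((g.natDegree - 1 : ℕ) : K) + 1 = ((g.natDegree : ℕ) : K) := by
      rw [← Nat.cast_add_one, h2]
    rw [h4] at h1
    have h5 : ((g.natDegree : ℕ) : K) ≠ 0 := T3.cast_ne_zero (p := p) (by omega) (by omega)
    exact (mul_ne_zero h3 h5) h1
  have hdeg : g.degree ≠ 0 := by
    intro h
    have := Polynomial.natDegree_eq_zero_iff_degree_le_zero.2 (le_of_eq h)
    omega
  obtain ⟨x, hx⟩ := IsSepClosed.exists_root g hdeg hsep
  refine ⟨x, ?_⟩
  obtain ⟨w, hw⟩ := hgf
  rw [hw, Polynomial.eval_mul]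
  have hx' : g.eval x = 0 := hx
  rw [hx', zero_mul]

theorem T3.exists_field {I : Type} (M : I → Type) [∀ i, Field (M i)] [∀ i, IsSepClosed (M i)]
    (p : I → ℕ) (hp : ∀ i, (p i).Prime) [∀ i, CharP (M i) (p i)] (𝔪 : Ideal (∀ i, M i))
    (h𝔪 : 𝔪.IsMaximal)
    (hN : ∀ (N : ℕ) (x : ∀ i, M i), (∀ i, N < p i → x i = 0) → x ∈ 𝔪) :
    ∃ (𝕄 : Type) (_ : Field 𝕄) (_ : CharZero 𝕄) (_ : IsAlgClosed 𝕄) (π : (∀ i, M i) →+* 𝕄),
      Function.Surjective π ∧ ∀ x, π x = 0 ↔ x ∈ 𝔪 := by
  classical
  let F : Field ((∀ i, M i) ⧸ 𝔪) := Ideal.Quotient.field 𝔪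
  let π : (∀ i, M i) →+* ((∀ i, M i) ⧸ 𝔪) := Ideal.Quotient.mk 𝔪
  have hπs : Function.Surjective π := Ideal.Quotient.mk_surjective
  have hπ0 : ∀ x, π x = 0 ↔ x ∈ 𝔪 := fun x => Ideal.Quotient.eq_zero_iff_mem
  have hchar : CharZero ((∀ i, M i) ⧸ 𝔪) := by
    refine charZero_of_inj_zero ?_
    intro n hn
    by_contra hn0
    have h1 : π (n : ∀ i, M i) = 0 := by
      rw [map_natCast]
      exact hn
    have h2 : (n : ∀ i, M i) ∈ 𝔪 := (hπ0 _).1 h1
    let y : ∀ i, M i := fun i => if n < p i then ((n : M i))⁻¹ else 0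
    have h3 : y * (n : ∀ i, M i) - 1 ∈ 𝔪 := by
      refine hN n _ ?_
      intro i hi
      have h4 : ((n : ℕ) : M i) ≠ 0 := T3.cast_ne_zero (p := p i) hn0 hi
      have h5 : y i = ((n : M i))⁻¹ := if_pos hi
      change y i * ((n : ∀ i, M i) i) - 1 = 0
      have h6 : (n : ∀ i, M i) i = ((n : ℕ) : M i) := rfl
      rw [h5, h6, inv_mul_cancel₀ h4, sub_self]
    have h7 : (1 : ∀ i, M i) ∈ 𝔪 := by
      have h8 : (1 : ∀ i, M i) = y * (n : ∀ i, M i) - (y * (n : ∀ i, M i) - 1) := by ring
      rw [h8]
      exact 𝔪.sub_mem (𝔪.mul_mem_left y h2) h3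
    exact h𝔪.ne_top ((Ideal.eq_top_iff_one 𝔪).2 h7)
  have halg : IsAlgClosed ((∀ i, M i) ⧸ 𝔪) := by
    refine IsAlgClosed.of_exists_root _ ?_
    intro q hq hirr
    have hn : 0 < q.natDegree := hirr.natDegree_pos
    have hc : ∀ j : ℕ, ∃ c : ∀ i, M i, π c = q.coeff j := fun j => hπs _
    choose c hc using hc
    let Q : ∀ i, Polynomial (M i) := fun i =>
      Polynomial.X ^ q.natDegree +
        ∑ j ∈ Finset.range q.natDegree, Polynomial.C (c j i) * Polynomial.X ^ j
    have hQ : ∀ i, q.natDegree < p i → ∃ z : M i, (Q i).eval z = 0 := by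
      intro i hi
      have hlt : (∑ j ∈ Finset.range q.natDegree,
          Polynomial.C (c j i) * (Polynomial.X : Polynomial (M i)) ^ j).degree
            < (q.natDegree : WithBot ℕ) := by
        refine lt_of_le_of_lt (Polynomial.degree_sum_le _ _) ?_
        rw [Finset.sup_lt_iff (by exact_mod_cast WithBot.bot_lt_coe q.natDegree)]
        intro j hj
        refine lt_of_le_of_lt (Polynomial.degree_C_mul_X_pow_le j _) ?_
        exact_mod_cast Finset.mem_range.1 hj
      have hdeg : (Q i).degree = (q.natDegree : WithBot ℕ) := by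
        change (Polynomial.X ^ q.natDegree + _ : Polynomial (M i)).degree = _
        rw [Polynomial.degree_add_eq_left_of_degree_lt]
        · exact Polynomial.degree_X_pow _
        · rw [Polynomial.degree_X_pow]
          exact hlt
      have hnat : (Q i).natDegree = q.natDegree := Polynomial.natDegree_eq_of_degree_eq_some hdeg
      exact T3.root (p := p i) (Q i) (by omega) (by omega)
    let z : ∀ i, M i := fun i => if h : q.natDegree < p i then (hQ i h).choose else 0
    refine ⟨π z, ?_⟩
    rw [Polynomial.eval_eq_sum_range, Finset.sum_range_succ, hq.coeff_natDegree, one_mul]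
    have h1 : ∀ j ∈ Finset.range q.natDegree, q.coeff j * (π z) ^ j = π (c j * z ^ j) := by
      intro j _
      rw [map_mul, map_pow, hc j]
    rw [Finset.sum_congr rfl h1, ← map_sum, ← map_pow, ← map_add, hπ0]
    refine hN q.natDegree _ ?_
    intro i hi
    have h2 : z i = (hQ i hi).choose := dif_pos hi
    have h3 : (Q i).eval (z i) = 0 := by
      rw [h2]
      exact (hQ i hi).choose_spec
    have h4 : (Q i).eval (z i) =
        (z i) ^ q.natDegree + ∑ j ∈ Finset.range q.natDegree, c j i * (z i) ^ j := by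
      change Polynomial.eval (z i) (Polynomial.X ^ q.natDegree +
        ∑ j ∈ Finset.range q.natDegree, Polynomial.C (c j i) * Polynomial.X ^ j) = _
      rw [Polynomial.eval_add, Polynomial.eval_pow, Polynomial.eval_X, Polynomial.eval_finsetSum]
      congr 1
      refine Finset.sum_congr rfl ?_
      intro j _
      rw [Polynomial.eval_mul, Polynomial.eval_C, Polynomial.eval_pow, Polynomial.eval_X]
    rw [h4] at h3
    rw [Pi.add_apply, Finset.sum_apply, Pi.pow_apply]
    rw [add_comm]
    simpa only [Pi.mul_apply, Pi.pow_apply] using h3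
  exact ⟨(∀ i, M i) ⧸ 𝔪, F, hchar, halg, π, hπs, hπ0⟩

end Pool.Agent.Helper62.DL
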