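import Mathlib

/-!
PROJECT DL, piece T4 (about 80 lines). (a) Two derivations `K → 𝕄` along `ψ` (characteristic zero) which agree
on a transcendence basis are equal. (b) An embedding of a transcendence basis into an algebraically closed
field extends to the whole field.

Proof. (a) `δ = d₁ - d₂` is additive and satisfies the Leibniz rule; the set of `a` with `δ a = 0` is a
subfield containing `ℚ` and the `y b`, so it contains `ℚ(y)` (`IntermediateField.adjoin ℚ (Set.range y)`). For
`a ∈ K` algebraic over `ℚ(y)` with minimal polynomial `q` (separable, characteristic zero)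
`0 = δ (q(a)) = ψ (q'(a)) δ a`, `q'(a) ≠ 0`.
(b) `AlgebraicIndependent ℚ Y` gives a homomorphism from `ℚ(y)` (fraction field of the polynomial ring,
`AlgebraicIndependent.aevalEquivField` or `IsFractionRing.lift`) to `𝕄`; `K` is algebraic over `ℚ(y)`
(`IsTranscendenceBasis.isAlgebraic_field` or similar), so it extends (`IsAlgClosed.lift`).
-/

namespace Pool.Agent.Helper62.DL

theorem T4.der_unique {K 𝕄 : Type} [Field K] [CharZero K] [Field 𝕄] [CharZero 𝕄] (ψ : K →+* 𝕄)
    (d₁ d₂ : K → 𝕄) (add₁ : ∀ a b, d₁ (a + b) = d₁ a + d₁ b)
    (add₂ : ∀ a b, d₂ (a + b) = d₂ a + d₂ b)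
    (mul₁ : ∀ a b, d₁ (a * b) = ψ a * d₁ b + ψ b * d₁ a)
    (mul₂ : ∀ a b, d₂ (a * b) = ψ a * d₂ b + ψ b * d₂ a)
    {B : Type} (y : B → K) (hy : IsTranscendenceBasis ℚ y) (h : ∀ b, d₁ (y b) = d₂ (y b)) :
    ∀ a, d₁ a = d₂ a := by
  intro a
  have key : ∀ a, d₁ a - d₂ a = 0 := by
    set e : K → 𝕄 := fun a => d₁ a - d₂ a with he
    have eadd : ∀ a b, e (a + b) = e a + e b := by
      intro a b
      simp only [he, add₁, add₂]
      ring
    have emul : ∀ a b, e (a * b) = ψ a * e b + ψ b * e a := by
      intro a b
      simp only [he, mul₁, mul₂]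
      ring
    have e1 : e 1 = 0 := by
      have h1 := emul 1 1
      rw [mul_one, map_one, one_mul] at h1
      have h2 : e 1 + 0 = e 1 + e 1 := by
        rw [add_zero]
        exact h1
      exact (add_left_cancel h2).symm
    have e0 : e 0 = 0 := by
      have h1 := eadd 0 0
      rw [add_zero] at h1
      have h2 : e 0 + 0 = e 0 + e 0 := by
        rw [add_zero]
        exact h1
      exact (add_left_cancel h2).symm
    have eneg : ∀ a, e a = 0 → e (-a) = 0 := by
      intro a ha
      have h1 := eadd a (-a)
      rw [add_neg_cancel, e0, ha, zero_add] at h1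
      exact h1.symm
    have einv : ∀ a, e a = 0 → e a⁻¹ = 0 := by
      intro a ha
      by_cases h0 : a = 0
      · rw [h0, inv_zero]
        exact e0
      · have h1 := emul a a⁻¹
        rw [mul_inv_cancel₀ h0, e1, ha, mul_zero, add_zero] at h1
        have h2 : ψ a ≠ 0 := (map_ne_zero ψ).2 h0
        rcases mul_eq_zero.1 h1.symm with h3 | h3
        · exact absurd h3 h2
        · exact h3
    let Z : Subfield K :=
      { carrier := {a | e a = 0}
        mul_mem' := by
          intro a b ha hb
          have ha' : e a = 0 := ha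
          have hb' : e b = 0 := hb
          change e (a * b) = 0
          rw [emul, ha', hb', mul_zero, mul_zero, add_zero]
        one_mem' := e1
        add_mem' := by
          intro a b ha hb
          have ha' : e a = 0 := ha
          have hb' : e b = 0 := hb
          change e (a + b) = 0
          rw [eadd, ha', hb', add_zero]
        zero_mem' := e0
        neg_mem' := fun {a} ha => eneg a ha
        inv_mem' := fun a ha => einv a ha }
    let W : IntermediateField ℚ K := Z.toIntermediateField (fun q => by
      rw [eq_ratCast]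
      exact SubfieldClass.ratCast_mem Z q)
    have hW : IntermediateField.adjoin ℚ (Set.range y) ≤ W := by
      rw [IntermediateField.adjoin_le_iff]
      rintro _ ⟨b, rfl⟩
      change e (y b) = 0
      simp only [he, h b, sub_self]
    have hL : ∀ l : IntermediateField.adjoin ℚ (Set.range y), e (l : K) = 0 :=
      fun l => hW l.2
    have epow : ∀ (a : K) (n : ℕ), e (a ^ n) = (n : 𝕄) * ψ a ^ (n - 1) * e a := by
      intro a n
      induction n with
      | zero => rw [pow_zero, e1, Nat.cast_zero, zero_mul, zero_mul]
      | succ n ih =>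
        rw [pow_succ, emul, ih, map_pow, Nat.add_sub_cancel, Nat.cast_add, Nat.cast_one]
        rcases Nat.eq_zero_or_pos n with h0 | h0
        · subst h0
          simp
        · obtain ⟨m, rfl⟩ : ∃ m, n = m + 1 := ⟨n - 1, by omega⟩
          rw [Nat.add_sub_cancel, pow_succ]
          ring
    have hpoly : ∀ (a : K) (q : Polynomial (IntermediateField.adjoin ℚ (Set.range y))),
        e (Polynomial.aeval a q) = ψ (Polynomial.aeval a (Polynomial.derivative q)) * e a := by
      intro a q
      induction q using Polynomial.induction_on' with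
      | add p q hp hq =>
        rw [map_add, eadd, hp, hq, Polynomial.derivative_add, map_add, map_add]
        ring
      | monomial n c =>
        rw [Polynomial.aeval_monomial, Polynomial.derivative_monomial,
          Polynomial.aeval_monomial, emul, epow]
        have h1 : e (algebraMap (IntermediateField.adjoin ℚ (Set.range y)) K c) = 0 := hL c
        rw [h1, mul_zero, add_zero, map_mul, map_mul, map_mul, map_pow, map_natCast, map_natCast]
        ring
    intro a
    change e a = 0
    have halg : Algebra.IsAlgebraic (IntermediateField.adjoin ℚ (Set.range y)) K :=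
      hy.isAlgebraic_field
    have hint : IsIntegral (IntermediateField.adjoin ℚ (Set.range y)) a :=
      (halg.isAlgebraic a).isIntegral
    have hirr := minpoly.irreducible hint
    have hsep : (minpoly (IntermediateField.adjoin ℚ (Set.range y)) a).Separable :=
      hirr.separable
    have h0 : Polynomial.aeval a (minpoly (IntermediateField.adjoin ℚ (Set.range y)) a) = 0 :=
      minpoly.aeval _ a
    have h1 := hsep.aeval_derivative_ne_zero h0
    have h2 := hpoly a (minpoly (IntermediateField.adjoin ℚ (Set.range y)) a)
    rw [h0, e0] at h2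
    rcases mul_eq_zero.1 h2.symm with h3 | h3
    · exact absurd h3 ((map_ne_zero ψ).2 h1)
    · exact h3
  exact sub_eq_zero.1 (key a)

theorem T4.exists_embedding_aux {F K M B : Type*} [Field F] [Field K] [Algebra F K] [Field M]
    [Algebra F M] [IsAlgClosed M] (y : B → K) (hy : IsTranscendenceBasis F y) (Y : B → M)
    (hY : AlgebraicIndependent F Y) : ∃ ψ : K →+* M, ∀ b, ψ (y b) = Y b := by
  let L := IntermediateField.adjoin F (Set.range y)
  have hinj : Function.Injective (MvPolynomial.aeval Y : MvPolynomial B F →ₐ[F] M) :=
    algebraicIndependent_iff_injective_aeval.1 hY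
  let j : L →ₐ[F] M :=
    (IsFractionRing.liftAlgHom (K := FractionRing (MvPolynomial B F)) hinj).comp hy.1.reprField
  have hj : ∀ b, j ⟨y b, IntermediateField.subset_adjoin F (Set.range y) ⟨b, rfl⟩⟩ = Y b := by
    intro b
    have h1 : hy.1.aevalEquivField (algebraMap (MvPolynomial B F)
        (FractionRing (MvPolynomial B F)) (MvPolynomial.X b)) =
        ⟨y b, IntermediateField.subset_adjoin F (Set.range y) ⟨b, rfl⟩⟩ := by
      apply Subtype.ext
      rw [AlgebraicIndependent.aevalEquivField_algebraMap_apply_coe, MvPolynomial.aeval_X]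
    have h2 : hy.1.reprField
        ⟨y b, IntermediateField.subset_adjoin F (Set.range y) ⟨b, rfl⟩⟩ =
        algebraMap (MvPolynomial B F) (FractionRing (MvPolynomial B F)) (MvPolynomial.X b) := by
      rw [← h1]
      exact AlgEquiv.symm_apply_apply _ _
    change IsFractionRing.liftAlgHom (K := FractionRing (MvPolynomial B F)) hinj
      (hy.1.reprField _) = Y b
    rw [h2]
    simp
  let alg : Algebra L M := j.toRingHom.toAlgebra
  have halg : Algebra.IsAlgebraic L K := hy.isAlgebraic_field
  let φ : K →ₐ[L] M := IsAlgClosed.lift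
  refine ⟨φ.toRingHom, fun b => ?_⟩
  have h1 : φ (algebraMap L K ⟨y b, IntermediateField.subset_adjoin F (Set.range y) ⟨b, rfl⟩⟩) =
      algebraMap L M ⟨y b, IntermediateField.subset_adjoin F (Set.range y) ⟨b, rfl⟩⟩ :=
    φ.commutes _
  exact h1.trans (hj b)

theorem T4.exists_embedding {K 𝕄 : Type} [Field K] [CharZero K] [Field 𝕄] [CharZero 𝕄]
    [IsAlgClosed 𝕄] {B : Type} (y : B → K) (hy : IsTranscendenceBasis ℚ y) (Y : B → 𝕄)
    (hY : AlgebraicIndependent ℚ Y) : ∃ ψ : K →+* 𝕄, ∀ b, ψ (y b) = Y b :=
  T4.exists_embedding_aux y hy Y hY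

end Pool.Agent.Helper62.DL
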