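import Mathlib
import Pool.Agent.Helper21.PD.P2
import Pool.Agent.Helper62.DL.St.T1
import Pool.Agent.Helper62.DL.St.T2
import Pool.Agent.Helper62.DL.St.T3
import Pool.Agent.Helper62.DL.St.T4

/-!
PROJECT DL, piece T5 (about 250 lines). Exact transfer of differential identities from a differential field of
characteristic zero to separably closed differential fields `L` of characteristic `p > N` with `[L : L^p]`
finite.

Proof. Let `y : B → K` be a transcendence basis of `K/ℚ`. Index set `I = Finset B × ℕ`; for `i = (S, n)` let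
`p_i` be a prime `> n` (`Nat.exists_infinite_primes`), `F_i = FractionRing (MvPolynomial S (ZMod p_i))`
(variables = the elements of the finset `S`), `M_i = SeparableClosure F_i` (separably closed, separable over
`F_i`, characteristic `p_i`). Let `𝔪` be a maximal ideal of `∏ M_i` containing all `x` such that for some
`i₀` one has `x_i = 0` for all `i ≥ i₀` (a proper ideal). T3 gives `𝕄`, `π`. For `b ∈ B` let `Ŷ_b` have
components the variable `Y_b` if `b ∈ S`, else `0`; `Y_b = π Ŷ_b`. The `Y_b` are algebraically independent over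
`ℚ` (over `ℤ` is enough): for a nonzero `q ∈ MvPolynomial B ℤ` the element `q(Ŷ)` has for all large `i`
(`S ⊇ vars q`, `p_i` larger than the absolute value of a nonzero coefficient) a nonzero component, so it is a
unit modulo `𝔪`. T4(b): `ψ : K → 𝕄`, `ψ (y b) = Y_b`. For `a ∈ K` choose `r_a ∈ ∏ M_i` with `π r_a = ψ a`. T1:
derivation `D_i` of `M_i` with `D_i Y_b = (r_(d (y b)))_i` for `b ∈ S`. Then `D = (D_i)` maps `𝔪` to `𝔪`:
for `x ∈ 𝔪`, `D_i x_i = x_i * (x_i⁻¹ * D_i x_i)` for all `i` (both sides zero if `x_i = 0`). So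
`a ↦ π (D r_a)` is a derivation `K → 𝕄` along `ψ` (well defined), and it agrees with `ψ ∘ d` on the `y b`
(`D Ŷ_b - r_(d (y b))` vanishes for all large `i`, and `r_(y b) - Ŷ_b ∈ 𝔪`). T4(a): `π (D r_a) = ψ (d a)` for all
`a`; by induction `π (D^k r_a) = ψ (d^k a)`. Let `Φ : MvPolynomial (K × ℕ) ℤ → ∏ M_i`,
`X (a, k) ↦ D^k r_a`; `π (Φ f) = ψ (ev .. d id f)` and `Φ_i (dext dZ f) = D_i (Φ_i f)` (`Φ_i` is
`ev (Int.castRingHom _) D_i (fun a => (r_a)_i)`, use `ev_dext`). So `Φ z ∈ 𝔪` for `z ∈ Z`, `Φ y ∉ 𝔪`. There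
is an `i` with `p_i > N`, `Φ_i z = 0` for all `z ∈ Z`, `Φ_i y ≠ 0`: otherwise for every `i` with `p_i > N`
the component `Φ_i y` is zero or some `Φ_i z` is not, so `Φ y` is a combination of the `Φ z` plus an element
of `𝔪` that vanishes for large `i`. Take `L = M_i`, `D_i`, `Φ_i`; T2 gives the finiteness.
-/

open MvPolynomial

namespace Pool.Agent.Helper62.DL

open Pool.Agent.Helper21.PD

theorem T5.clear {B : Type} (q : MvPolynomial B ℚ) :
    ∃ (b : ℤ) (q' : MvPolynomial B ℤ), b ≠ 0 ∧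
      MvPolynomial.map (Int.castRingHom ℚ) q' = C (b : ℚ) * q := by
  induction q using MvPolynomial.induction_on with
  | C a =>
    refine ⟨(a.den : ℤ), C a.num, by exact_mod_cast a.den_ne_zero, ?_⟩
    rw [map_C, ← C_mul]
    congr 1
    have h := Rat.mul_den_eq_num a
    rw [eq_intCast, ← h, Int.cast_natCast]
    ring
  | add f g hf hg =>
    obtain ⟨b, f', hb, hf'⟩ := hf
    obtain ⟨c, g', hc, hg'⟩ := hg
    refine ⟨b * c, C c * f' + C b * g', mul_ne_zero hb hc, ?_⟩
    rw [map_add, map_mul, map_mul, hf', hg', map_C, map_C, eq_intCast, eq_intCast,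
      Int.cast_mul, C_mul]
    ring
  | mul_X f j hf =>
    obtain ⟨b, f', hb, hf'⟩ := hf
    refine ⟨b, f' * X j, hb, ?_⟩
    rw [map_mul, hf', map_X]
    ring

theorem T5.algInd {𝕄 : Type} [Field 𝕄] [CharZero 𝕄] {B : Type} (Y : B → 𝕄)
    (h : ∀ q : MvPolynomial B ℤ, q ≠ 0 → eval₂ (Int.castRingHom 𝕄) Y q ≠ 0) :
    AlgebraicIndependent ℚ Y := by
  rw [algebraicIndependent_iff]
  intro q hq
  by_contra hq0
  obtain ⟨b, q', hb, hq'⟩ := T5.clear q
  have hb' : (b : ℚ) ≠ 0 := by exact_mod_cast hb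
  have h1 : q' ≠ 0 := by
    rintro rfl
    rw [map_zero] at hq'
    rcases mul_eq_zero.1 hq'.symm with h2 | h2
    · exact hb' (C_eq_zero.1 h2)
    · exact hq0 h2
  apply h q' h1
  have h2 : aeval Y (MvPolynomial.map (Int.castRingHom ℚ) q') = 0 := by
    rw [hq', map_mul, hq, mul_zero]
  have h3 : aeval Y (MvPolynomial.map (Int.castRingHom ℚ) q') =
      eval₂ (Int.castRingHom 𝕄) Y q' := by
    rw [aeval_def, eval₂_map]
    congr 1
    exact RingHom.ext_int _ _
  rw [← h3, h2]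

theorem T5.core {K : Type} [Field K] [CharZero K] (d : Der K)
    (Z : Finset (MvPolynomial (K × ℕ) ℤ))
    (hZ : ∀ z ∈ Z, ev (Int.castRingHom K) d (id : K → K) z = 0) (y : MvPolynomial (K × ℕ) ℤ)
    (hy : ev (Int.castRingHom K) d (id : K → K) y ≠ 0) (N : ℕ)
    {B : Type} (t : B → K) (ht : IsTranscendenceBasis ℚ t)
    (M : Finset B × ℕ → Type) [∀ i, Field (M i)] [∀ i, IsSepClosed (M i)]
    (p : Finset B × ℕ → ℕ) (hp : ∀ i, (p i).Prime) [∀ i, CharP (M i) (p i)]
    (hpn : ∀ i, i.2 < p i) (Y : ∀ i, B → M i)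
    (hY : ∀ (i) (q : MvPolynomial B ℤ), q.vars ⊆ i.1 →
      MvPolynomial.map (Int.castRingHom (ZMod (p i))) q ≠ 0 →
      eval₂ (Int.castRingHom (M i)) (Y i) q ≠ 0)
    (hD : ∀ (i) (g : B → M i), ∃ D : Der (M i), ∀ b ∈ i.1, D (Y i b) = g b) :
    ∃ i, ∃ (D : Der (M i)) (φ : MvPolynomial (K × ℕ) ℤ →+* M i),
      N < p i ∧ (∀ f, φ (dext P2.dZ f) = D (φ f)) ∧ (∀ z ∈ Z, φ z = 0) ∧ φ y ≠ 0 := by
  classical
  -- the tail ideal
  let J : Ideal (∀ i, M i) :=
    { carrier := {x | ∃ i₀, ∀ i, i₀ ≤ i → x i = 0}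
      add_mem' := by
        rintro a b ⟨i, hi⟩ ⟨j, hj⟩
        refine ⟨i ⊔ j, fun k hk => ?_⟩
        rw [Pi.add_apply, hi k (le_sup_left.trans hk), hj k (le_sup_right.trans hk), add_zero]
      zero_mem' := ⟨(∅, 0), fun _ _ => rfl⟩
      smul_mem' := by
        rintro c x ⟨i, hi⟩
        refine ⟨i, fun k hk => ?_⟩
        rw [smul_eq_mul, Pi.mul_apply, hi k hk, mul_zero] }
  have hJmem : ∀ (x : ∀ i, M i) (i₀ : Finset B × ℕ), (∀ i, i₀ ≤ i → x i = 0) → x ∈ J :=
    fun x i₀ h => ⟨i₀, h⟩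
  have hJ : J ≠ ⊤ := by
    intro h
    have h1 : (1 : ∀ i, M i) ∈ J := by
      rw [h]
      exact Submodule.mem_top
    obtain ⟨i₀, hi₀⟩ := h1
    exact one_ne_zero (hi₀ i₀ le_rfl)
  obtain ⟨𝔪, h𝔪, hJ𝔪⟩ := Ideal.exists_le_maximal J hJ
  have hN : ∀ (n : ℕ) (x : ∀ i, M i), (∀ i, n < p i → x i = 0) → x ∈ 𝔪 := by
    intro n x hx
    refine hJ𝔪 (hJmem x (∅, n) fun i hi => hx i ?_)
    exact lt_of_le_of_lt hi.2 (hpn i)
  obtain ⟨𝕄, _, _, _, π, hπs, hπ⟩ := T3.exists_field M p hp 𝔪 h𝔪 hN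
  let Yh : B → ∀ i, M i := fun b i => Y i b
  have hev : ∀ q : MvPolynomial B ℤ, ∀ i,
      eval₂ (Int.castRingHom (∀ i, M i)) Yh q i = eval₂ (Int.castRingHom (M i)) (Y i) q := by
    intro q i
    have h1 : (Pi.evalRingHom M i) (eval₂ (Int.castRingHom (∀ i, M i)) Yh q) =
        eval₂ ((Pi.evalRingHom M i).comp (Int.castRingHom (∀ i, M i)))
          (fun b => Pi.evalRingHom M i (Yh b)) q := by
      rw [eval₂_comp_left (Pi.evalRingHom M i)]
      rfl
    have h2 : (Pi.evalRingHom M i).comp (Int.castRingHom (∀ i, M i)) =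
        Int.castRingHom (M i) := RingHom.ext_int _ _
    rw [h2] at h1
    exact h1
  have hind : AlgebraicIndependent ℚ (fun b => π (Yh b)) := by
    refine T5.algInd _ fun q hq h0 => ?_
    obtain ⟨γ, hγ⟩ := support_nonempty.2 hq
    have hc : coeff γ q ≠ 0 := mem_support_iff.1 hγ
    have h1 : π (eval₂ (Int.castRingHom (∀ i, M i)) Yh q) = 0 := by
      rw [eval₂_comp_left π]
      have h2 : π.comp (Int.castRingHom (∀ i, M i)) = Int.castRingHom 𝕄 := RingHom.ext_int _ _
      rw [h2]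
      exact h0
    have h2 := (hπ _).1 h1
    have h3 : ∀ i, (q.vars, (coeff γ q).natAbs) ≤ i →
        eval₂ (Int.castRingHom (∀ i, M i)) Yh q i ≠ 0 := by
      intro i hi
      rw [hev]
      refine hY i q hi.1 ?_
      intro h4
      have h5 : coeff γ (MvPolynomial.map (Int.castRingHom (ZMod (p i))) q) = 0 := by
        rw [h4, coeff_zero]
      rw [coeff_map, eq_intCast, ZMod.intCast_zmod_eq_zero_iff_dvd] at h5
      have h6 := Int.natAbs_dvd_natAbs.2 h5
      rw [Int.natAbs_natCast] at h6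
      have h7 := Nat.le_of_dvd (Int.natAbs_pos.2 hc) h6
      have h8 : (coeff γ q).natAbs < p i := lt_of_le_of_lt hi.2 (hpn i)
      omega
    have h4 : (fun i => (eval₂ (Int.castRingHom (∀ i, M i)) Yh q i)⁻¹) *
        eval₂ (Int.castRingHom (∀ i, M i)) Yh q - 1 ∈ 𝔪 := by
      refine hJ𝔪 (hJmem _ (q.vars, (coeff γ q).natAbs) fun i hi => ?_)
      rw [Pi.sub_apply, Pi.mul_apply, Pi.one_apply, inv_mul_cancel₀ (h3 i hi), sub_self]
    apply h𝔪.ne_top
    rw [Ideal.eq_top_iff_one]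
    have h5 := 𝔪.sub_mem (𝔪.mul_mem_left
      (fun i => (eval₂ (Int.castRingHom (∀ i, M i)) Yh q i)⁻¹) h2) h4
    rwa [sub_sub_cancel] at h5
  obtain ⟨ψ, hψ⟩ := T4.exists_embedding t ht (fun b => π (Yh b)) hind
  have hr : ∀ a : K, ∃ x : ∀ i, M i, π x = ψ a := fun a => hπs _
  choose r hr using hr
  have hDi : ∀ i, ∃ D : Der (M i), ∀ b ∈ i.1, D (Y i b) = r (d (t b)) i :=
    fun i => hD i fun b => r (d (t b)) i
  choose Di hDi using hDi
  let Dp : Der (∀ i, M i) :=
    { toFun := fun x i => Di i (x i)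
      add' := fun a b => funext fun i => (Di i).add _ _
      mul' := fun a b => funext fun i => (Di i).mul _ _ }
  have hDp : ∀ x i, Dp x i = Di i (x i) := fun x i => rfl
  have hDm : ∀ x, π x = 0 → π (Dp x) = 0 := by
    intro x hx
    have h1 : Dp x = x * fun i => (x i)⁻¹ * Dp x i := by
      funext i
      rw [Pi.mul_apply]
      by_cases h : x i = 0
      · rw [hDp, h, (Di i).zero, mul_zero, mul_zero]
      · rw [← mul_assoc, mul_inv_cancel₀ h, one_mul]
    rw [h1, map_mul, hx, zero_mul]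
  have hDc : ∀ x x', π x = π x' → π (Dp x) = π (Dp x') := by
    intro x x' h
    have h1 := hDm (x - x') (by rw [map_sub, h, sub_self])
    rw [Dp.sub, map_sub] at h1
    exact sub_eq_zero.1 h1
  have hder : ∀ a, π (Dp (r a)) = ψ (d a) := by
    refine T4.der_unique ψ (fun a => π (Dp (r a))) (fun a => ψ (d a)) ?_ ?_ ?_ ?_ t ht ?_
    · intro a b
      change π (Dp (r (a + b))) = π (Dp (r a)) + π (Dp (r b))
      rw [← map_add, ← Dp.add]
      exact hDc _ _ (by rw [hr, map_add, map_add, hr, hr])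
    · intro a b
      change ψ (d (a + b)) = ψ (d a) + ψ (d b)
      rw [d.add, map_add]
    · intro a b
      change π (Dp (r (a * b))) = ψ a * π (Dp (r b)) + ψ b * π (Dp (r a))
      rw [← hr a, ← hr b, ← map_mul, ← map_mul, ← map_add, ← Dp.mul]
      exact hDc _ _ (by rw [hr, map_mul, map_mul, hr, hr])
    · intro a b
      change ψ (d (a * b)) = ψ a * ψ (d b) + ψ b * ψ (d a)
      rw [d.mul, map_add, map_mul, map_mul]
    · intro b
      change π (Dp (r (t b))) = ψ (d (t b))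
      rw [hDc (r (t b)) (Yh b) (by rw [hr, hψ]), ← hr (d (t b)), ← sub_eq_zero, ← map_sub, hπ]
      refine hJ𝔪 (hJmem _ ({b}, 0) fun i hi => ?_)
      have hb : b ∈ i.1 := hi.1 (Finset.mem_singleton_self b)
      rw [Pi.sub_apply, hDp]
      exact sub_eq_zero.2 (hDi i b hb)
  have hstep : ∀ x a, π x = ψ a → π (Dp x) = ψ (d a) := by
    intro x a h
    rw [← hder a]
    exact hDc _ _ (by rw [h, hr])
  have hiter : ∀ (k : ℕ) (a : K), π ((Dp)^[k] (r a)) = ψ ((d)^[k] a) := by
    intro k a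
    induction k with
    | zero => exact hr a
    | succ k ih =>
      rw [Function.iterate_succ_apply', Function.iterate_succ_apply']
      exact hstep _ _ ih
  let Φ : MvPolynomial (K × ℕ) ℤ →+* ∀ i, M i := ev (Int.castRingHom (∀ i, M i)) Dp r
  have hΦ : ∀ f, π (Φ f) = ψ (ev (Int.castRingHom K) d (id : K → K) f) := by
    have h1 : π.comp Φ = ψ.comp (ev (Int.castRingHom K) d (id : K → K)) := by
      refine MvPolynomial.ringHom_ext ?_ ?_
      · intro a
        simp only [Φ, eq_intCast, map_intCast]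
      · intro v
        simp only [RingHom.comp_apply, Φ, ev_X, hiter, id]
    exact fun f => RingHom.congr_fun h1 f
  have hΦd : ∀ f, Φ (dext P2.dZ f) = Dp (Φ f) := by
    intro f
    refine ev_dext _ Dp r P2.dZ (fun a => ?_) f
    rw [eq_intCast, eq_intCast, Dp.intCast]
    change ((0 : ℤ) : ∀ i, M i) = 0
    exact Int.cast_zero
  by_contra hcon
  have hcon' : ∀ i, N < p i → (∀ z ∈ Z, Φ z i = 0) → Φ y i = 0 := by
    intro i hi hz
    by_contra h
    exact hcon ⟨i, Di i, (Pi.evalRingHom M i).comp Φ, hi,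
      fun f => congrFun (hΦd f) i, fun z hz' => hz z hz', h⟩
  have hx : Φ y * ∏ z ∈ Z, (1 - Φ z * fun i => (Φ z i)⁻¹) ∈ 𝔪 := by
    refine hN N _ fun i hi => ?_
    rw [Pi.mul_apply, Finset.prod_apply]
    by_cases hz : ∀ z ∈ Z, Φ z i = 0
    · rw [hcon' i hi hz, zero_mul]
    · push Not at hz
      obtain ⟨z, hzZ, hz⟩ := hz
      rw [Finset.prod_eq_zero hzZ, mul_zero]
      rw [Pi.sub_apply, Pi.mul_apply, Pi.one_apply, mul_inv_cancel₀ hz, sub_self]
  have h0 := (hπ _).2 hx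
  rw [map_mul, map_prod, Finset.prod_eq_one, mul_one, hΦ] at h0
  · exact hy ((map_eq_zero ψ).1 h0)
  · intro z hz
    rw [map_sub, map_mul, map_one, hΦ, hZ z hz, map_zero, zero_mul, sub_zero]

theorem T5.exists_transfer {K : Type} [Field K] [CharZero K] (d : Der K)
    (Z : Finset (MvPolynomial (K × ℕ) ℤ))
    (hZ : ∀ z ∈ Z, ev (Int.castRingHom K) d (id : K → K) z = 0) (y : MvPolynomial (K × ℕ) ℤ)
    (hy : ev (Int.castRingHom K) d (id : K → K) y ≠ 0) (N : ℕ) :
    ∃ (p : ℕ) (_ : Fact p.Prime) (L : Type) (_ : Field L) (_ : CharP L p) (_ : IsSepClosed L)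
      (D : Der L) (φ : MvPolynomial (K × ℕ) ℤ →+* L),
      N < p ∧ Module.Finite (frobenius L p).fieldRange L ∧
      (∀ f, φ (dext P2.dZ f) = D (φ f)) ∧ (∀ z ∈ Z, φ z = 0) ∧ φ y ≠ 0 := by
  classical
  obtain ⟨B, t, ht⟩ := exists_isTranscendenceBasis' ℚ K
  have hex : ∀ i : Finset B × ℕ, ∃ q, i.2 < q ∧ q.Prime := by
    intro i
    obtain ⟨q, hq, hq'⟩ := Nat.exists_infinite_primes (i.2 + 1)
    exact ⟨q, hq, hq'⟩
  choose p hpn hp using hex
  have hfact : ∀ i, Fact (p i).Prime := fun i => ⟨hp i⟩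
  let M : Finset B × ℕ → Type := fun i => SeparableClosure
    (FractionRing (MvPolynomial {b : B // b ∈ i.1} (ZMod (p i))))
  have hM : ∀ i, CharP (M i) (p i) := by
    intro i
    have h1 : CharP (FractionRing (MvPolynomial {b : B // b ∈ i.1} (ZMod (p i)))) (p i) :=
      charP_of_injective_ringHom (f := (algebraMap (MvPolynomial {b : B // b ∈ i.1}
        (ZMod (p i))) (FractionRing (MvPolynomial {b : B // b ∈ i.1} (ZMod (p i))))).comp C)
        ((IsFractionRing.injective (MvPolynomial {b : B // b ∈ i.1} (ZMod (p i)))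
          (FractionRing (MvPolynomial {b : B // b ∈ i.1} (ZMod (p i))))).comp
          (C_injective _ _)) (p i)
    exact charP_of_injective_ringHom (f := algebraMap (FractionRing (MvPolynomial
      {b : B // b ∈ i.1} (ZMod (p i)))) (M i)) (algebraMap (FractionRing (MvPolynomial
      {b : B // b ∈ i.1} (ZMod (p i)))) (M i)).injective (p i)
  let ι : ∀ i, MvPolynomial {b : B // b ∈ i.1} (ZMod (p i)) →+* M i := fun i =>
    (algebraMap (FractionRing (MvPolynomial {b : B // b ∈ i.1} (ZMod (p i)))) (M i)).comp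
      (algebraMap (MvPolynomial {b : B // b ∈ i.1} (ZMod (p i)))
        (FractionRing (MvPolynomial {b : B // b ∈ i.1} (ZMod (p i)))))
  have hι : ∀ i, Function.Injective (ι i) := fun i =>
    (algebraMap (FractionRing (MvPolynomial {b : B // b ∈ i.1} (ZMod (p i))))
      (M i)).injective.comp (IsFractionRing.injective _ _)
  let Y : ∀ i, B → M i := fun i b => if h : b ∈ i.1 then ι i (X ⟨b, h⟩) else 0
  have hYm : ∀ i (b : B) (h : b ∈ i.1), Y i b = ι i (X ⟨b, h⟩) := fun i b h => dif_pos h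
  have hY : ∀ (i) (q : MvPolynomial B ℤ), q.vars ⊆ i.1 →
      MvPolynomial.map (Int.castRingHom (ZMod (p i))) q ≠ 0 →
      eval₂ (Int.castRingHom (M i)) (Y i) q ≠ 0 := by
    intro i q hq hq0
    obtain ⟨q₀, hq₀⟩ := exists_rename_eq_of_vars_subset_range q
      (Subtype.val : {b : B // b ∈ i.1} → B) Subtype.val_injective (by
        intro b hb
        exact ⟨⟨b, hq hb⟩, rfl⟩)
    have h1 : eval₂ (Int.castRingHom (M i)) (Y i) q =
        ι i (MvPolynomial.map (Int.castRingHom (ZMod (p i))) q₀) := by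
      rw [← hq₀, eval₂_rename]
      have h2 : (ι i).comp (MvPolynomial.map (Int.castRingHom (ZMod (p i)))) =
          eval₂Hom (Int.castRingHom (M i)) (Y i ∘ Subtype.val) := by
        refine MvPolynomial.ringHom_ext ?_ ?_
        · intro a
          simp
        · intro b
          simp only [RingHom.comp_apply, map_X, coe_eval₂Hom, eval₂_X, Function.comp_apply]
          rw [hYm i b.1 b.2]
      exact (RingHom.congr_fun h2 q₀).symm
    rw [h1]
    intro h2
    have h3 := hι i (h2.trans (map_zero _).symm)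
    apply hq0
    rw [← hq₀, map_rename, h3, map_zero]
  have hD : ∀ (i) (g : B → M i), ∃ D : Der (M i), ∀ b ∈ i.1, D (Y i b) = g b := by
    intro i g
    obtain ⟨D, hD⟩ := T1.exists_der (k := ZMod (p i)) (S := {b : B // b ∈ i.1}) (M := M i)
      (fun b => g b.1)
    refine ⟨D, fun b hb => ?_⟩
    rw [hYm i b hb]
    exact hD ⟨b, hb⟩
  obtain ⟨i, D, φ, h1, h2, h3, h4⟩ := T5.core d Z hZ y hy N t ht M p hp hpn Y hY hD
  refine ⟨p i, hfact i, M i, inferInstance, hM i, inferInstance, D, φ, h1, ?_, h2, h3, h4⟩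
  have : Finite {b : B // b ∈ i.1} := inferInstance
  exact T2.finite (p := p i) (S := {b : B // b ∈ i.1}) (M := M i)

end Pool.Agent.Helper62.DL
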