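import Mathlib

/-!
PROJECT DL, piece T6 (about 40 lines). The field `L^p` is separably closed when `L` is.

Proof. The Frobenius is an isomorphism of `L` onto its range (`RingHom.rangeRestrictFieldEquiv` or
`RingHom.quotientKerEquivRange`, injective), and being separably closed is invariant under isomorphism
(`IsSepClosed.of_exists_root` with `Polynomial.map`, or a Mathlib lemma `IsSepClosed.of_ringEquiv`).
-/

namespace Pool.Agent.Helper62.DL

theorem T6.isSepClosed {p : ℕ} [Fact p.Prime] {L : Type} [Field L] [CharP L p] [IsSepClosed L] :
    IsSepClosed (frobenius L p).fieldRange := by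
  set e : L ≃+* (frobenius L p).fieldRange := (frobenius L p).rangeRestrictFieldEquiv with he
  refine IsSepClosed.of_exists_root (k := (frobenius L p).fieldRange) fun f _ hirr hsep => ?_
  obtain ⟨y, hy⟩ := IsSepClosed.exists_eval₂_eq_zero (K := L)
    (e.symm : (frobenius L p).fieldRange →+* L) f (Polynomial.degree_pos_of_irreducible hirr).ne'
    hsep
  refine ⟨e y, ?_⟩
  have h1 : e (f.eval₂ (e.symm : (frobenius L p).fieldRange →+* L) y) = 0 := by
    rw [hy, map_zero]
  have h2 : (e : L →+* (frobenius L p).fieldRange)
      (f.eval₂ (e.symm : (frobenius L p).fieldRange →+* L) y) = 0 := h1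
  rw [Polynomial.hom_eval₂] at h2
  have h3 : ((e : L →+* (frobenius L p).fieldRange).comp
      (e.symm : (frobenius L p).fieldRange →+* L)) = RingHom.id _ := by
    ext x
    simp
  rw [h3] at h2
  exact h2

end Pool.Agent.Helper62.DL
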