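import Mathlib
import Pool.Agent.Helper62.DL.Defs

/-!
PROJECT DL, piece Z1 (about 120 lines). Homogeneous identities. `û_m` weighted homogeneous of weight `e_m` (for
the weights `1 + α k`), `X_(inl j, 0)^(N_j)` in the ideal generated by the `D^l û_m` and by all
`X_(inr l, k)`. Then for a common `N` and a common bound `Mo` the powers `X_(inl j, 0)^N` are combinations
with coefficients of the right weight.

Proof. Multiplying by powers of `X_(inl j, 0)` we may take a common exponent `N` (max of the `N_j`). Membership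
in a span gives finitely many terms (`Submodule.mem_span_range_iff_exists_finsupp` or
`Ideal.mem_span_range_iff_exists_finsupp`; take `Mo` larger than all `l`, `k` that occur, for all `j`), so
`X^N = ∑ a' D^l û_m + ∑ b' X_(inr l, k)`. Take weighted homogeneous components of weight `N`
(`weightedHomogeneousComponent (wa α) N`, linear): `X_(inl j, 0)^N` has weight `N` (`1 + α * 0 = 1`),
`D^l û_m` is weighted homogeneous of weight `e_m + α l` (the derivation raises the weight of a variable by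
`α`, and if `α > 0` it kills the coefficients by `hα`; compare `P16.dext_whomog`), and the component of weight `N` of `a' * g` with `g` weighted homogeneous
of weight `r` is `(component N - r of a') * g` (zero if `N < r`). So
`a = component N - e_m - α l of a'` (or `0`). For `Low`: if `N < e_m + α l` take `r = 0` and `a = 0`
(any `r`), otherwise `r = N - e_m - α l`.
-/

open MvPolynomial

namespace Pool.Agent.Helper62.DL

open Pool.Agent.Helper21.PD

theorem Z1.low_add {υ R : Type*} [CommSemiring R] {W : υ → ℕ} {e : ℕ} {f g : MvPolynomial υ R}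
    (hf : Low W e f) (hg : Low W e g) : Low W e (f + g) := by
  classical
  intro γ hγ
  rcases Finset.mem_union.mp (MvPolynomial.support_add hγ) with h | h
  · exact hf γ h
  · exact hg γ h

theorem Z1.comp_mul {υ R : Type*} [CommRing R] (W : υ → ℕ) {g : MvPolynomial υ R} {r : ℕ}
    (hg : g.IsWeightedHomogeneous W r) (N : ℕ) (f : MvPolynomial υ R) :
    ∃ a : MvPolynomial υ R, Low W (N - r) a ∧
      weightedHomogeneousComponent W N (f * g) = a * g := by
  classical
  induction f using MvPolynomial.induction_on' with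
  | monomial γ c =>
    have h1 : (monomial γ c * g).IsWeightedHomogeneous W (Finsupp.weight W γ + r) :=
      (isWeightedHomogeneous_monomial W γ c rfl).mul hg
    by_cases hr : N = Finsupp.weight W γ + r
    · refine ⟨monomial γ c, ?_, ?_⟩
      · intro γ' hγ'
        have h2 : γ' = γ := by
          have := MvPolynomial.support_monomial_subset hγ'
          exact Finset.mem_singleton.mp this
        rw [h2]
        omega
      · rw [hr]
        exact h1.weightedHomogeneousComponent_same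
    · refine ⟨0, ?_, ?_⟩
      · intro γ' hγ'
        simp at hγ'
      · rw [h1.weightedHomogeneousComponent_ne N hr, zero_mul]
  | add f1 f2 hf1 hf2 =>
    obtain ⟨a1, h1, h2⟩ := hf1
    obtain ⟨a2, h3, h4⟩ := hf2
    refine ⟨a1 + a2, Z1.low_add h1 h3, ?_⟩
    rw [add_mul, map_add, h2, h4, add_mul]

section ZWeights

variable {R : Type*} [CommRing R] {κ : Type*}

theorem Z1.q_mul {α : ℕ} {d : Der R} {f g : MvPolynomial (κ × ℕ) R} {m n : ℕ}
    (hf : f.IsWeightedHomogeneous (wa α) m ∧ (dext d f).IsWeightedHomogeneous (wa α) (m + α))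
    (hg : g.IsWeightedHomogeneous (wa α) n ∧ (dext d g).IsWeightedHomogeneous (wa α) (n + α)) :
    (f * g).IsWeightedHomogeneous (wa α) (m + n) ∧
      (dext d (f * g)).IsWeightedHomogeneous (wa α) (m + n + α) := by
  refine ⟨hf.1.mul hg.1, ?_⟩
  rw [(dext d).mul]
  have h1 := hf.1.mul hg.2
  have h2 := hg.1.mul hf.2
  rw [show m + (n + α) = m + n + α by ring] at h1
  rw [show n + (m + α) = m + n + α by ring] at h2
  exact h1.add h2

theorem Z1.dext_whomog {α : ℕ} {d : Der R} (hα : α = 0 ∨ ∀ a, d a = 0)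
    {f : MvPolynomial (κ × ℕ) R} {m : ℕ} (hf : f.IsWeightedHomogeneous (wa α) m) :
    (dext d f).IsWeightedHomogeneous (wa α) (m + α) := by
  classical
  refine IsWeightedHomogeneous.induction_on (R := R) (w := wa α) (m := m)
    (motive := fun p _ => (dext d p).IsWeightedHomogeneous (wa α) (m + α)) ?_ ?_ ?_ hf
  · rw [(dext d).zero]
    exact isWeightedHomogeneous_zero _ _ _
  · intro p q _ _ hp hq
    rw [(dext d).add]
    exact hp.add hq
  · intro γ r hr
    have key : ∀ s : Finset (κ × ℕ),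
        ((∏ v ∈ s, (X v : MvPolynomial (κ × ℕ) R) ^ γ v).IsWeightedHomogeneous (wa α)
          (∑ v ∈ s, γ v * (1 + α * v.2))) ∧
        ((dext d (∏ v ∈ s, (X v : MvPolynomial (κ × ℕ) R) ^ γ v)).IsWeightedHomogeneous (wa α)
          (∑ v ∈ s, γ v * (1 + α * v.2) + α)) := by
      intro s
      have hpow : ∀ (v : κ × ℕ) (k : ℕ),
          ((X v : MvPolynomial (κ × ℕ) R) ^ k).IsWeightedHomogeneous (wa α) (k * (1 + α * v.2)) ∧
          (dext d ((X v : MvPolynomial (κ × ℕ) R) ^ k)).IsWeightedHomogeneous (wa α)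
            (k * (1 + α * v.2) + α) := by
        intro v k
        induction k with
        | zero =>
          rw [pow_zero, (dext d).one, zero_mul]
          exact ⟨isWeightedHomogeneous_one _ _, isWeightedHomogeneous_zero _ _ _⟩
        | succ k ih =>
          rw [pow_succ, add_mul, one_mul]
          refine Z1.q_mul ih ⟨isWeightedHomogeneous_X _ _ _, ?_⟩
          rw [dext_X]
          have h1 := isWeightedHomogeneous_X R (wa (ι := κ) α) (v.1, v.2 + 1)
          have h2 : wa (ι := κ) α (v.1, v.2 + 1) = 1 + α * v.2 + α := by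
            simp only [wa]
            ring
          rwa [h2] at h1
      induction s using Finset.induction_on with
      | empty =>
        rw [Finset.prod_empty, Finset.sum_empty, (dext d).one]
        exact ⟨isWeightedHomogeneous_one _ _, isWeightedHomogeneous_zero _ _ _⟩
      | insert v s hv ih =>
        rw [Finset.prod_insert hv, Finset.sum_insert hv]
        exact Z1.q_mul (hpow v _) ih
    have h0 : (dext (ι := κ) d (C r)).IsWeightedHomogeneous (wa α) (0 + α) := by
      rw [dext_C]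
      rcases hα with h | h
      · subst h
        exact isWeightedHomogeneous_C _ _
      · rw [h r, map_zero]
        exact isWeightedHomogeneous_zero _ _ _
    have h1 := Z1.q_mul (α := α) (d := d) (f := C r) (m := 0)
      ⟨isWeightedHomogeneous_C _ _, h0⟩ (key γ.support)
    have h2 : 0 + ∑ v ∈ γ.support, γ v * (1 + α * v.2) = m := by
      rw [zero_add, ← hr, Finsupp.weight_apply, Finsupp.sum]
      rfl
    rw [h2] at h1
    rw [monomial_eq]
    exact h1.2

theorem Z1.dext_iterate {α : ℕ} {d : Der R} (hα : α = 0 ∨ ∀ a, d a = 0)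
    {f : MvPolynomial (κ × ℕ) R} {m : ℕ} (hf : f.IsWeightedHomogeneous (wa α) m) (l : ℕ) :
    ((dext d)^[l] f).IsWeightedHomogeneous (wa α) (m + α * l) := by
  induction l with
  | zero => exact hf
  | succ l ih =>
    rw [Function.iterate_succ_apply', mul_add, mul_one, ← add_assoc]
    exact Z1.dext_whomog hα ih

end ZWeights

theorem Z1.side {υ R τ : Type*} [CommRing R] [Fintype τ] (W : υ → ℕ)
    (g : τ × ℕ → MvPolynomial υ R) (e0 : τ × ℕ → ℕ)
    (hg : ∀ t, (g t).IsWeightedHomogeneous W (e0 t)) (N : ℕ) {y : MvPolynomial υ R}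
    (hy : y ∈ Ideal.span (Set.range g)) :
    ∃ M0 : ℕ, ∃ a : τ → ℕ → MvPolynomial υ R, (∀ m l, Low W (N - e0 (m, l)) (a m l)) ∧
      ∀ Mo, M0 ≤ Mo → weightedHomogeneousComponent W N y =
        ∑ m, ∑ l ∈ Finset.range Mo, a m l * g (m, l) := by
  classical
  obtain ⟨c, hc⟩ := (Finsupp.mem_span_range_iff_exists_finsupp).mp hy
  choose A hA1 hA2 using fun t : τ × ℕ => Z1.comp_mul W (hg t) N (c t)
  refine ⟨c.support.sup (fun t => t.2 + 1), fun m l => A (m, l), fun m l => hA1 (m, l), ?_⟩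
  intro Mo hMo
  have h1 : c.support ⊆ (Finset.univ : Finset τ) ×ˢ Finset.range Mo := by
    intro t ht
    refine Finset.mem_product.mpr ⟨Finset.mem_univ _, Finset.mem_range.mpr ?_⟩
    have h2 : t.2 + 1 ≤ c.support.sup (fun t => t.2 + 1) :=
      Finset.le_sup (f := fun t : τ × ℕ => t.2 + 1) ht
    omega
  rw [← hc, Finsupp.sum, map_sum, Finset.sum_subset h1 ?_, Finset.sum_product]
  · refine Finset.sum_congr rfl fun m _ => Finset.sum_congr rfl fun l _ => ?_
    rw [smul_eq_mul, hA2 (m, l)]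
  · intro t _ ht
    rw [Finsupp.notMem_support_iff.mp ht, zero_smul, map_zero]

theorem Z1.exists_identity {K : Type} [Field K] (d : Der K) (α : ℕ)
    (hα : α = 0 ∨ ∀ a, d a = 0) {ι ι' σ : Type} [Fintype ι]
    [Fintype ι'] [Fintype σ] (e : σ → ℕ) (uh : σ → MvPolynomial ((ι ⊕ ι') × ℕ) K)
    (huh : ∀ m, (uh m).IsWeightedHomogeneous (wa α) (e m))
    (hfin : ∀ j : ι, ∃ N : ℕ, X (Sum.inl j, 0) ^ N ∈ diffIdeal d uh ⊔
      Ideal.span (Set.range fun v : ι' × ℕ =>
        (X ((Sum.inr v.1 : ι ⊕ ι'), v.2) : MvPolynomial ((ι ⊕ ι') × ℕ) K))) :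
    ∃ (N Mo : ℕ) (a : ι → σ → ℕ → MvPolynomial ((ι ⊕ ι') × ℕ) K)
      (b : ι → ι' → ℕ → MvPolynomial ((ι ⊕ ι') × ℕ) K),
      (∀ j m l, ∃ r, N ≤ r + e m + α * l ∧ Low (wa α) r (a j m l)) ∧
      (∀ j l k, ∃ r, N ≤ r + 1 + α * k ∧ Low (wa α) r (b j l k)) ∧
      ∀ j : ι, X (Sum.inl j, 0) ^ N =
        (∑ m, ∑ l ∈ Finset.range Mo, a j m l * (dext d)^[l] (uh m)) +
          ∑ l, ∑ k ∈ Finset.range Mo, b j l k * X (Sum.inr l, k) := by
  classical
  choose N0 hN0 using hfin
  set N : ℕ := Finset.univ.sup N0 with hN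
  set g1 : σ × ℕ → MvPolynomial ((ι ⊕ ι') × ℕ) K := fun ml => (dext d)^[ml.2] (uh ml.1) with hg1
  set g2 : ι' × ℕ → MvPolynomial ((ι ⊕ ι') × ℕ) K :=
    fun v => X ((Sum.inr v.1 : ι ⊕ ι'), v.2) with hg2
  have hw1 : ∀ t : σ × ℕ, (g1 t).IsWeightedHomogeneous (wa α) (e t.1 + α * t.2) :=
    fun t => Z1.dext_iterate hα (huh t.1) t.2
  have hw2 : ∀ t : ι' × ℕ, (g2 t).IsWeightedHomogeneous (wa α) (1 + α * t.2) :=
    fun t => isWeightedHomogeneous_X K _ _
  have hmem : ∀ j : ι, (X (Sum.inl j, 0) : MvPolynomial ((ι ⊕ ι') × ℕ) K) ^ N ∈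
      Ideal.span (Set.range g1) ⊔ Ideal.span (Set.range g2) := by
    intro j
    have h1 : N0 j ≤ N := Finset.le_sup (Finset.mem_univ j)
    have h2 : (X (Sum.inl j, 0) : MvPolynomial ((ι ⊕ ι') × ℕ) K) ^ N =
        X (Sum.inl j, 0) ^ (N - N0 j) * X (Sum.inl j, 0) ^ N0 j := by
      rw [← pow_add, Nat.sub_add_cancel h1]
    rw [h2]
    exact Ideal.mul_mem_left _ _ (hN0 j)
  have hsplit : ∀ j : ι, ∃ M0 : ℕ, ∃ (a : σ → ℕ → MvPolynomial ((ι ⊕ ι') × ℕ) K)
      (b : ι' → ℕ → MvPolynomial ((ι ⊕ ι') × ℕ) K),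
      (∀ m l, Low (wa α) (N - (e m + α * l)) (a m l)) ∧
      (∀ l k, Low (wa α) (N - (1 + α * k)) (b l k)) ∧
      ∀ Mo, M0 ≤ Mo → (X (Sum.inl j, 0) : MvPolynomial ((ι ⊕ ι') × ℕ) K) ^ N =
        (∑ m, ∑ l ∈ Finset.range Mo, a m l * (dext d)^[l] (uh m)) +
          ∑ l, ∑ k ∈ Finset.range Mo, b l k * X (Sum.inr l, k) := by
    intro j
    obtain ⟨y, hy, z, hz, hyz⟩ := Submodule.mem_sup.mp (hmem j)
    obtain ⟨M1, a, ha, ha'⟩ := Z1.side (wa α) g1 _ hw1 N hy
    obtain ⟨M2, b, hb, hb'⟩ := Z1.side (wa α) g2 _ hw2 N hz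
    refine ⟨max M1 M2, a, b, ha, hb, fun Mo hMo => ?_⟩
    have h1 : (X (Sum.inl j, 0) : MvPolynomial ((ι ⊕ ι') × ℕ) K).IsWeightedHomogeneous
        (wa α) 1 := by
      have h0 := isWeightedHomogeneous_X K (wa (ι := ι ⊕ ι') α) (Sum.inl j, 0)
      have h00 : wa (ι := ι ⊕ ι') α (Sum.inl j, 0) = 1 := by simp [wa]
      rwa [h00] at h0
    have h2 : ((X (Sum.inl j, 0) : MvPolynomial ((ι ⊕ ι') × ℕ) K) ^ N).IsWeightedHomogeneous
        (wa α) N := by
      have h0 := h1.pow N
      rwa [smul_eq_mul, mul_one] at h0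
    have h3 := h2.weightedHomogeneousComponent_same
    rw [← hyz, map_add, ha' Mo (le_trans (le_max_left _ _) hMo),
      hb' Mo (le_trans (le_max_right _ _) hMo), hyz] at h3
    exact h3.symm
  choose M0 a b ha hb hab using hsplit
  refine ⟨N, Finset.univ.sup M0, a, b, ?_, ?_, ?_⟩
  · intro j m l
    exact ⟨N - (e m + α * l), by omega, ha j m l⟩
  · intro j l k
    exact ⟨N - (1 + α * k), by omega, hb j l k⟩
  · intro j
    exact hab j _ (Finset.le_sup (Finset.mem_univ j))

end Pool.Agent.Helper62.DL
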