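import Mathlib
import Pool.Agent.Helper62.DL.Defs

/-!
PROJECT DL, piece CI (about 150 lines). Values of differential polynomials at small points; the core
inequality. `S` is a ring with a derivation `δ` and a valuation `W`, `f : K → S` is compatible with the
derivations, `W (f a) ≤ 1`, and `W (δ x) ≤ μ^α W x`. All `x_j` have value `≤ μ`.

CI1 (`val_le`): if all monomials of `g` have weight `≥ e` (weights `1 + α k`), `μ ≤ 1`, then
`W (g(x)) ≤ μ^e`. Proof: by `MvPolynomial` induction on the support, `W (g(x)) ≤ max` over the monomials, the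
value of a variable `(j, k)` is `W (δ^k x_j) ≤ μ^(1 + α k)`, so the value of a monomial `γ` is
`≤ μ^(weight γ) ≤ μ^e`.

CI2 (`core_ineq`): Suppose moreover that `X_(inl j)^N = ∑_{m, l < Mo} a_{ml} D^l(û_m) + ∑_{l', k < Mo} b_{l'k} X_(inr l', k)`
for every `j ∈ ι` with `a_{jml}` weighted homogeneous of weight `N - e_m - α l` (zero if this is negative: `Low`
is all we need) and `b_{jl'k}` of weight `N - 1 - α k`; that `W (û_m(x) + t_m(x)) ≤ μ^(e_m) ρ`, `t_m` has only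
monomials of weight `≥ e_m + 1`, the parameters have `W (x_(inr l)) ≤ μ ρ`, and `μ ≠ 0`, `μ < 1`, `ρ < 1`.
Then `W (x_(inl j)) < μ`.
Proof: let `ρ' = max ρ μ < 1`. `W (t_m(x)) ≤ μ^(e_m + 1)` by CI1, so `W (û_m(x)) ≤ μ^(e_m) ρ'`,
`W ((D^l û_m)(x)) = W (δ^l (û_m(x))) ≤ μ^(e_m + α l) ρ'` (`ev_dext_iterate`), and
`W (δ^k x_(inr l)) ≤ μ^(1 + α k) ρ`. The two weight hypotheses are stated as `Low (wa α) r (a j m l)` for all
`r` with `r + e m + α l ≤ N`, or the polynomial is zero. So every term on the right has value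
`≤ μ^N ρ' < μ^N` and `W (x_j)^N < μ^N`, so `W (x_j) < μ`.
-/

open MvPolynomial

namespace Pool.Agent.Helper62.DL

open Pool.Agent.Helper21.PD

private theorem CI.iter {S : Type} [CommRing S] (δ : Der S)
    (W : Valuation S Γ₀) (α : ℕ) (μ : Γ₀) (hδ : ∀ x, W (δ x) ≤ μ ^ α * W x) (k : ℕ) (y : S) :
    W ((δ)^[k] y) ≤ μ ^ (α * k) * W y := by
  induction k with
  | zero => simp
  | succ k ih =>
    rw [Function.iterate_succ_apply']
    calc W (δ ((δ)^[k] y)) ≤ μ ^ α * W ((δ)^[k] y) := hδ _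
      _ ≤ μ ^ α * (μ ^ (α * k) * W y) := mul_le_mul' le_rfl ih
      _ = μ ^ (α * (k + 1)) * W y := by
        rw [← mul_assoc, ← pow_add]
        congr 2
        ring

theorem CI.val_le {K S : Type} [Field K] [CommRing S] (f : K →+* S) (δ : Der S)
    (W : Valuation S Γ₀) (hf : ∀ a, W (f a) ≤ 1) (α : ℕ) (μ : Γ₀) (hμ1 : μ ≤ 1)
    (hδ : ∀ x, W (δ x) ≤ μ ^ α * W x) {υ : Type} (x : υ → S) (hx : ∀ j, W (x j) ≤ μ)
    (e : ℕ) (g : MvPolynomial (υ × ℕ) K) (hg : Low (wa α) e g) :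
    W (ev f δ x g) ≤ μ ^ e := by
  classical
  conv_lhs => rw [g.as_sum, map_sum]
  refine W.map_sum_le fun γ hγ => ?_
  rw [MvPolynomial.monomial_eq, map_mul, ev_C, map_mul, Finsupp.prod, map_prod, map_prod]
  have h1 : ∏ v ∈ γ.support, W (ev f δ x (X v ^ γ v)) ≤
      ∏ v ∈ γ.support, μ ^ (γ v * (1 + α * v.2)) := by
    refine Finset.prod_le_prod' fun v _ => ?_
    rw [map_pow, map_pow, ev_X]
    calc W ((δ)^[v.2] (x v.1)) ^ γ v ≤ (μ ^ (α * v.2) * μ) ^ γ v :=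
          pow_le_pow_left' ((CI.iter δ W α μ hδ _ _).trans (mul_le_mul' le_rfl (hx _))) _
      _ = μ ^ (γ v * (1 + α * v.2)) := by
          rw [← pow_succ, ← pow_mul]
          congr 1
          ring
  have h2 : ∏ v ∈ γ.support, μ ^ (γ v * (1 + α * v.2)) =
      μ ^ (Finsupp.weight (wa α) γ) := by
    rw [Finset.prod_pow_eq_pow_sum, Finsupp.weight_apply, Finsupp.sum]
    congr 1
  calc W (f (coeff γ g)) * ∏ v ∈ γ.support, W (ev f δ x (X v ^ γ v))
      ≤ 1 * μ ^ (Finsupp.weight (wa α) γ) := by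
        rw [← h2]
        exact mul_le_mul' (hf _) h1
    _ ≤ μ ^ e := by
        rw [one_mul]
        exact pow_le_pow_right_of_le_one' hμ1 (hg γ hγ)

theorem CI.core_ineq {K S : Type} [Field K] [CommRing S] (d : Der K) (f : K →+* S) (δ : Der S)
    (hfd : ∀ a, f (d a) = δ (f a))
    (W : Valuation S Γ₀) (hf : ∀ a, W (f a) ≤ 1) (α : ℕ) (μ ρ : Γ₀) (hμ0 : μ ≠ 0) (hμ1 : μ < 1)
    (hρ : ρ < 1) (hδ : ∀ x, W (δ x) ≤ μ ^ α * W x) {ι ι' σ : Type} [Fintype ι] [Fintype ι']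
    [Fintype σ] (e : σ → ℕ) (uh t : σ → MvPolynomial ((ι ⊕ ι') × ℕ) K)
    (ht : ∀ m, Low (wa α) (e m + 1) (t m))
    (N Mo : ℕ) (a : ι → σ → ℕ → MvPolynomial ((ι ⊕ ι') × ℕ) K)
    (b : ι → ι' → ℕ → MvPolynomial ((ι ⊕ ι') × ℕ) K)
    (ha : ∀ j m l, ∃ r, N ≤ r + e m + α * l ∧ Low (wa α) r (a j m l))
    (hb : ∀ j l k, ∃ r, N ≤ r + 1 + α * k ∧ Low (wa α) r (b j l k))
    (hid : ∀ j : ι, X (Sum.inl j, 0) ^ N =
      (∑ m, ∑ l ∈ Finset.range Mo, a j m l * (dext d)^[l] (uh m)) +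
        ∑ l, ∑ k ∈ Finset.range Mo, b j l k * X (Sum.inr l, k))
    (x : ι ⊕ ι' → S) (hx : ∀ j, W (x (Sum.inl j)) ≤ μ) (hxp : ∀ l, W (x (Sum.inr l)) ≤ μ * ρ)
    (hu : ∀ m, W (ev f δ x (uh m + t m)) ≤ μ ^ e m * ρ) (j : ι) :
    W (x (Sum.inl j)) < μ := by
  classical
  have hxall : ∀ j, W (x j) ≤ μ := by
    rintro (j | l)
    · exact hx j
    · calc W (x (Sum.inr l)) ≤ μ * ρ := hxp l
        _ ≤ μ * 1 := mul_le_mul' le_rfl hρ.le
        _ = μ := mul_one μ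
  obtain ⟨ρ', hρ'⟩ : ∃ ρ' : Γ₀, ρ' = max ρ μ := ⟨_, rfl⟩
  have hρ'1 : ρ' < 1 := by
    rw [hρ']
    exact max_lt hρ hμ1
  have hρle : ρ ≤ ρ' := by
    rw [hρ']
    exact le_max_left _ _
  have hμle : μ ≤ ρ' := by
    rw [hρ']
    exact le_max_right _ _
  have hval : ∀ (r : ℕ) (g : MvPolynomial ((ι ⊕ ι') × ℕ) K), Low (wa α) r g →
      W (ev f δ x g) ≤ μ ^ r := fun r g hg =>
    CI.val_le f δ W hf α μ hμ1.le hδ x hxall r g hg
  have huh : ∀ m, W (ev f δ x (uh m)) ≤ μ ^ e m * ρ' := by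
    intro m
    have h1 : ev f δ x (uh m) = ev f δ x (uh m + t m) - ev f δ x (t m) := by
      rw [map_add, add_sub_cancel_right]
    rw [h1]
    refine W.map_sub_le ((hu m).trans (mul_le_mul' le_rfl hρle)) ?_
    calc W (ev f δ x (t m)) ≤ μ ^ (e m + 1) := hval _ _ (ht m)
      _ = μ ^ e m * μ := pow_succ _ _
      _ ≤ μ ^ e m * ρ' := mul_le_mul' le_rfl hμle
  have hpow : ∀ {r s : ℕ}, r ≤ s → μ ^ s ≤ μ ^ r := fun h =>
    pow_le_pow_right_of_le_one' hμ1.le h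
  have key : W (x (Sum.inl j)) ^ N ≤ μ ^ N * ρ' := by
    have h1 : W (x (Sum.inl j)) ^ N = W (ev f δ x (X (Sum.inl j, 0) ^ N)) := by
      rw [map_pow, map_pow, ev_X]
      rfl
    rw [h1, hid j, map_add]
    refine W.map_add_le ?_ ?_
    · rw [map_sum]
      refine W.map_sum_le fun m _ => ?_
      rw [map_sum]
      refine W.map_sum_le fun l _ => ?_
      rw [map_mul, map_mul, ev_dext_iterate f δ x d hfd]
      obtain ⟨r, hr, hlow⟩ := ha j m l
      calc W (ev f δ x (a j m l)) * W ((δ)^[l] (ev f δ x (uh m)))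
          ≤ μ ^ r * (μ ^ (α * l) * (μ ^ e m * ρ')) :=
            mul_le_mul' (hval _ _ hlow)
              ((CI.iter δ W α μ hδ _ _).trans (mul_le_mul' le_rfl (huh m)))
        _ = μ ^ (r + e m + α * l) * ρ' := by
            rw [pow_add, pow_add]
            ac_rfl
        _ ≤ μ ^ N * ρ' := mul_le_mul' (hpow hr) le_rfl
    · rw [map_sum]
      refine W.map_sum_le fun l _ => ?_
      rw [map_sum]
      refine W.map_sum_le fun k _ => ?_
      rw [map_mul, map_mul, ev_X]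
      obtain ⟨r, hr, hlow⟩ := hb j l k
      calc W (ev f δ x (b j l k)) * W ((δ)^[k] (x (Sum.inr l)))
          ≤ μ ^ r * (μ ^ (α * k) * (μ * ρ)) :=
            mul_le_mul' (hval _ _ hlow)
              ((CI.iter δ W α μ hδ _ _).trans (mul_le_mul' le_rfl (hxp l)))
        _ = μ ^ (r + 1 + α * k) * ρ := by
            rw [pow_add, pow_add, pow_one]
            ac_rfl
        _ ≤ μ ^ N * ρ' := mul_le_mul' (hpow hr) hρle
  by_contra hcon
  push Not at hcon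
  have h3 : μ ^ N ≤ μ ^ N * ρ' := (pow_le_pow_left' hcon N).trans key
  have hμN : μ ^ N ≠ 0 := pow_ne_zero N hμ0
  have h4 : μ ^ N * ρ' < μ ^ N * 1 := by
    rw [mul_comm (μ ^ N) ρ', mul_comm (μ ^ N) 1]
    exact mul_lt_mul_of_pos_right hρ'1 (zero_lt_iff.2 hμN)
  rw [mul_one] at h4
  exact absurd h3 (not_le.2 h4)

end Pool.Agent.Helper62.DL
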