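import Mathlib

/-!
PROJECT DL, piece N1 (about 150 lines). The quotient `B[X]/(X_v^M - h_v)`, `totalDegree h_v < M`, is free
over any commutative ring `B` with basis the monomials `X^β`, `β_v < M`.

Proof (copy and adapt `Pool/Agent/Helper21/PD/P3.lean`, where the same argument is done with a valuation).
For a monomial `β` let `b_β = ∏_v (X_v^M - h_v)^(β_v / M) * X_v^(β_v % M)` (`bb` of P3). Then
`b_β - X^β` has totalDegree `< |β|` (or is zero: use the property all monomials have degree `< |β|`, call
`Good β b_β`; Good is multiplicative: `Good.mul`, `Good.pow`, `Good.prod` of P3 with `Small d f` replaced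
by `∀ γ ∈ f.support, γ.degree < d` and `Bdd d f` by `∀ γ ∈ f.support, γ.degree ≤ d`). The `B`-linear map
`Phi : X^β ↦ b_β` is injective (look at a monomial of `f` of maximal degree) and surjective (by strong
induction on the degree `d` every polynomial of degree `≤ d` is in the range). Also
`Phi (X_v^M * f) = (X_v^M - h_v) * Phi f` (`Phi_mul` of P3), so `Phi` maps the submodule `R` of the
polynomials all of whose monomials have some `β_v ≥ M` onto the ideal `(X_v^M - h_v)`. Hence the quotient
is isomorphic to `MvPolynomial V B / R`, i.e. to functions `(V → Fin M) → B` (`piR`, `exists_equiv` of P3),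
and the basis vector of `β` is the class of `Phi (X^β) = b_β = X^β` for `β_v < M`.
-/

open MvPolynomial

namespace Pool.Agent.Helper62.DL

variable {B : Type} [CommRing B] {V : Type}

/-- all monomials have degree at most `d` -/
def N1.Bd (d : ℕ) (f : MvPolynomial V B) : Prop := ∀ γ ∈ f.support, γ.degree ≤ d

/-- all monomials have degree less than `d` -/
def N1.Sm (d : ℕ) (f : MvPolynomial V B) : Prop := ∀ γ ∈ f.support, γ.degree < d

theorem N1.Sm.bd {d : ℕ} {f : MvPolynomial V B} (h : N1.Sm d f) : N1.Bd d f :=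
  fun γ hγ => (h γ hγ).le

theorem N1.Sm.mono {d d' : ℕ} {f : MvPolynomial V B} (h : N1.Sm d f) (hd : d ≤ d') : N1.Sm d' f :=
  fun γ hγ => (h γ hγ).trans_le hd

theorem N1.Sm.add {d : ℕ} {f g : MvPolynomial V B} (hf : N1.Sm d f) (hg : N1.Sm d g) :
    N1.Sm d (f + g) := by
  classical
  intro γ hγ
  rcases Finset.mem_union.1 (support_add hγ) with h | h
  · exact hf γ h
  · exact hg γ h

theorem N1.Bd.add {d : ℕ} {f g : MvPolynomial V B} (hf : N1.Bd d f) (hg : N1.Bd d g) :
    N1.Bd d (f + g) := by
  classical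
  intro γ hγ
  rcases Finset.mem_union.1 (support_add hγ) with h | h
  · exact hf γ h
  · exact hg γ h

theorem N1.Sm.neg {d : ℕ} {f : MvPolynomial V B} (hf : N1.Sm d f) : N1.Sm d (-f) := by
  intro γ hγ
  rw [support_neg] at hγ
  exact hf γ hγ

theorem N1.Sm.smul {d : ℕ} {f : MvPolynomial V B} (c : B) (hf : N1.Sm d f) : N1.Sm d (c • f) :=
  fun γ hγ => hf γ (support_smul hγ)

theorem N1.Sm.sum {d : ℕ} {ι : Type*} (s : Finset ι) {f : ι → MvPolynomial V B}
    (hf : ∀ i ∈ s, N1.Sm d (f i)) : N1.Sm d (∑ i ∈ s, f i) := by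
  classical
  induction s using Finset.induction_on with
  | empty => intro γ hγ; simp at hγ
  | insert i s hi ih =>
    rw [Finset.sum_insert hi]
    exact (hf i (Finset.mem_insert_self _ _)).add
      (ih fun j hj => hf j (Finset.mem_insert_of_mem hj))

theorem N1.Sm.mul {d d' : ℕ} {f g : MvPolynomial V B} (hf : N1.Sm d f) (hg : N1.Bd d' g) :
    N1.Sm (d + d') (f * g) := by
  classical
  intro γ hγ
  obtain ⟨a, ha, b, hb, rfl⟩ := Finset.mem_add.1 (support_mul f g hγ)
  rw [map_add]
  exact add_lt_add_of_lt_of_le (hf a ha) (hg b hb)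

theorem N1.bd_monomial (a : V →₀ ℕ) (c : B) : N1.Bd a.degree (monomial a c) := by
  classical
  intro γ hγ
  have := support_monomial_subset hγ
  rw [Finset.mem_singleton] at this
  rw [this]

/-- `f` is `X^a` plus terms of degree less than `|a|` -/
def N1.Good (a : V →₀ ℕ) (f : MvPolynomial V B) : Prop := N1.Sm a.degree (f - monomial a 1)

theorem N1.Good.bd {a : V →₀ ℕ} {f : MvPolynomial V B} (h : N1.Good a f) : N1.Bd a.degree f := by
  have := (N1.Sm.bd h).add (N1.bd_monomial a (1 : B))
  rwa [sub_add_cancel] at this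

theorem N1.Good.mul {a b : V →₀ ℕ} {f g : MvPolynomial V B} (hf : N1.Good a f)
    (hg : N1.Good b g) : N1.Good (a + b) (f * g) := by
  have h1 := N1.Sm.mul hf hg.bd
  have h2 := N1.Sm.mul hg (N1.bd_monomial a (1 : B))
  rw [add_comm b.degree] at h2
  have h3 := h1.add h2
  unfold N1.Good
  rw [map_add]
  have h4 : (monomial (a + b) (1 : B)) = monomial a 1 * monomial b 1 := by
    rw [monomial_mul, mul_one]
  have h5 : f * g - monomial (a + b) (1 : B) =
      (f - monomial a 1) * g + (g - monomial b 1) * monomial a 1 := by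
    rw [h4]
    ring
  rw [h5]
  exact h3

theorem N1.good_one : N1.Good (0 : V →₀ ℕ) (1 : MvPolynomial V B) := by
  have : (1 : MvPolynomial V B) - monomial 0 1 = 0 := by
    rw [sub_eq_zero]; rfl
  unfold N1.Good
  rw [this]
  intro γ hγ
  simp at hγ

theorem N1.Good.pow {a : V →₀ ℕ} {f : MvPolynomial V B} (hf : N1.Good a f) (n : ℕ) :
    N1.Good (n • a) (f ^ n) := by
  induction n with
  | zero => simpa using N1.good_one
  | succ n ih =>
    rw [pow_succ, succ_nsmul]
    exact ih.mul hf

theorem N1.Good.prod {ι : Type*} (s : Finset ι) {a : ι → V →₀ ℕ} {f : ι → MvPolynomial V B}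
    (hf : ∀ i ∈ s, N1.Good (a i) (f i)) : N1.Good (∑ i ∈ s, a i) (∏ i ∈ s, f i) := by
  classical
  induction s using Finset.induction_on with
  | empty => simpa using N1.good_one
  | insert i s hi ih =>
    rw [Finset.sum_insert hi, Finset.prod_insert hi]
    exact (hf i (Finset.mem_insert_self _ _)).mul
      (ih fun j hj => hf j (Finset.mem_insert_of_mem hj))

theorem N1.good_X_pow (v : V) (n : ℕ) :
    N1.Good (Finsupp.single v n) (X v ^ n : MvPolynomial V B) := by
  have : (X v ^ n : MvPolynomial V B) - monomial (Finsupp.single v n) 1 = 0 := by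
    rw [X_pow_eq_monomial, sub_self]
  unfold N1.Good
  rw [this]
  intro γ hγ
  simp at hγ

theorem N1.good_g {M : ℕ} {h : V → MvPolynomial V B} (hh : ∀ v, (h v).totalDegree < M) (v : V) :
    N1.Good (Finsupp.single v M) (X v ^ M - h v) := by
  have : (X v ^ M - h v : MvPolynomial V B) - monomial (Finsupp.single v M) 1 = - h v := by
    rw [X_pow_eq_monomial]; ring
  unfold N1.Good
  rw [this]
  intro γ hγ
  rw [support_neg] at hγ
  rw [Finsupp.degree_single]
  exact (le_totalDegree hγ).trans_lt (hh v)

variable [Fintype V]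

/-- the deformed monomial `b_β` -/
noncomputable def N1.bb (g : V → MvPolynomial V B) (M : ℕ) (β : V →₀ ℕ) : MvPolynomial V B :=
  ∏ v, (X v ^ (β v % M) * g v ^ (β v / M))

theorem N1.good_bb {M : ℕ} {h : V → MvPolynomial V B} (hh : ∀ v, (h v).totalDegree < M)
    (β : V →₀ ℕ) : N1.Good β (N1.bb (fun m => X m ^ M - h m) M β) := by
  have h1 : β = ∑ v, (Finsupp.single v (β v % M) + (β v / M) • Finsupp.single v M) := by
    conv_lhs => rw [← Finsupp.univ_sum_single β]
    refine Finset.sum_congr rfl fun v _ => ?_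
    rw [Finsupp.smul_single, ← Finsupp.single_add]
    congr 1
    rw [smul_eq_mul, mul_comm]
    exact (Nat.mod_add_div _ _).symm
  have h2 := N1.Good.prod (Finset.univ : Finset V)
    (a := fun v => Finsupp.single v (β v % M) + (β v / M) • Finsupp.single v M)
    (f := fun v => X v ^ (β v % M) * (X v ^ M - h v) ^ (β v / M))
    (fun v _ => (N1.good_X_pow v _).mul ((N1.good_g hh v).pow _))
  rw [← h1] at h2
  exact h2

theorem N1.mul_bb {M : ℕ} (hM : 0 < M) (g : V → MvPolynomial V B) (v : V)
    (β : V →₀ ℕ) : g v * N1.bb g M β = N1.bb g M (Finsupp.single v M + β) := by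
  classical
  unfold N1.bb
  rw [← Finset.mul_prod_erase Finset.univ _ (Finset.mem_univ v),
    ← Finset.mul_prod_erase Finset.univ (fun w => X w ^ ((Finsupp.single v M + β) w % M) * _)
      (Finset.mem_univ v)]
  have h1 : (Finsupp.single v M + β) v = M + β v := by simp
  rw [h1, Nat.add_mod_left, Nat.add_div_left _ hM, pow_succ, ← mul_assoc]
  have h2 : ∏ x ∈ Finset.univ.erase v, X x ^ (β x % M) * g x ^ (β x / M) =
      ∏ x ∈ Finset.univ.erase v, X x ^ ((Finsupp.single v M + β) x % M) *
        g x ^ ((Finsupp.single v M + β) x / M) := by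
    refine Finset.prod_congr rfl fun w hw => ?_
    have : (Finsupp.single v M + β) w = β w := by
      simp [(Finset.ne_of_mem_erase hw).symm]
    rw [this]
  rw [h2]
  ring

theorem N1.bb_mem {M : ℕ} (hM : 0 < M) (g : V → MvPolynomial V B)
    (β : V →₀ ℕ) {v : V} (hv : M ≤ β v) :
    N1.bb g M β ∈ Ideal.span (Set.range g) := by
  classical
  unfold N1.bb
  rw [← Finset.mul_prod_erase Finset.univ _ (Finset.mem_univ v)]
  refine Ideal.mul_mem_right _ _ (Ideal.mul_mem_left _ _ ?_)
  have h1 : 0 < β v / M := Nat.div_pos hv hM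
  exact Ideal.pow_mem_of_mem _ (Ideal.subset_span (Set.mem_range_self v)) _ h1

theorem N1.bb_reduced {M : ℕ} (g : V → MvPolynomial V B) (β : V → Fin M) :
    N1.bb g M (Finsupp.equivFunOnFinite.symm fun v => (β v : ℕ)) = ∏ v, X v ^ (β v : ℕ) := by
  unfold N1.bb
  refine Finset.prod_congr rfl fun v _ => ?_
  have h1 : (Finsupp.equivFunOnFinite.symm fun v => (β v : ℕ)) v = (β v : ℕ) := rfl
  rw [h1, Nat.mod_eq_of_lt (β v).2, Nat.div_eq_of_lt (β v).2, pow_zero, mul_one]

/-- the linear map sending `X^β` to `b_β` -/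
noncomputable def N1.Phi (g : V → MvPolynomial V B) (M : ℕ) :
    MvPolynomial V B →ₗ[B] MvPolynomial V B :=
  (basisMonomials V B).constr B (N1.bb g M)

theorem N1.Phi_monomial (g : V → MvPolynomial V B) (M : ℕ) (β : V →₀ ℕ) :
    N1.Phi g M (monomial β 1) = N1.bb g M β := by
  have := (basisMonomials V B).constr_basis B (N1.bb g M) β
  rwa [coe_basisMonomials] at this

theorem N1.Phi_apply (g : V → MvPolynomial V B) (M : ℕ) (f : MvPolynomial V B) :
    N1.Phi g M f = ∑ β ∈ f.support, coeff β f • N1.bb g M β := by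
  conv_lhs => rw [f.as_sum]
  rw [map_sum]
  refine Finset.sum_congr rfl fun β _ => ?_
  rw [← N1.Phi_monomial, ← map_smul, smul_monomial, smul_eq_mul, mul_one]

theorem N1.Phi_mul {M : ℕ} (hM : 0 < M) (g : V → MvPolynomial V B) (v : V)
    (f : MvPolynomial V B) : N1.Phi g M (X v ^ M * f) = g v * N1.Phi g M f := by
  induction f using MvPolynomial.induction_on' with
  | monomial β c =>
    have h1 : (monomial β c : MvPolynomial V B) = c • monomial β 1 := by
      rw [smul_monomial, smul_eq_mul, mul_one]
    rw [h1, mul_smul_comm, map_smul, map_smul, mul_smul_comm, N1.Phi_monomial, N1.mul_bb hM,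
      ← N1.Phi_monomial, X_pow_eq_monomial, monomial_mul, mul_one]
  | add p q hp hq => rw [mul_add, map_add, map_add, hp, hq, mul_add]

theorem N1.Phi_injective {g : V → MvPolynomial V B} {M : ℕ}
    (hg : ∀ β, N1.Good β (N1.bb g M β)) : Function.Injective (N1.Phi g M) := by
  classical
  rw [injective_iff_map_eq_zero]
  intro f hf
  by_contra hne
  have hsupp : f.support.Nonempty := by rwa [support_nonempty]
  obtain ⟨β, hβ, hmax⟩ := Finset.exists_max_image f.support (fun β => β.degree) hsupp
  have h1 : ∑ γ ∈ f.support, coeff γ f * coeff β (N1.bb g M γ) = 0 := by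
    have := congrArg (coeff β) hf
    rw [N1.Phi_apply, coeff_sum, coeff_zero] at this
    simpa only [coeff_smul, smul_eq_mul] using this
  have h2 : ∑ γ ∈ f.support, coeff γ f * coeff β (N1.bb g M γ) = coeff β f := by
    rw [Finset.sum_eq_single β]
    · have h3 : coeff β (N1.bb g M β - monomial β 1) = 0 := by
        by_contra hc
        exact lt_irrefl _ (hg β β (mem_support_iff.2 hc))
      rw [coeff_sub, coeff_monomial, if_pos rfl, sub_eq_zero] at h3
      rw [h3, mul_one]
    · intro γ hγ hne'
      have h3 : coeff β (N1.bb g M γ - monomial γ 1) = 0 := by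
        by_contra hc
        exact absurd (hg γ β (mem_support_iff.2 hc)) (not_lt.2 (hmax γ hγ))
      rw [coeff_sub, coeff_monomial, if_neg hne', sub_zero] at h3
      rw [h3, mul_zero]
    · intro h; exact absurd hβ h
  rw [h1] at h2
  exact mem_support_iff.1 hβ h2.symm

theorem N1.Phi_surjective {g : V → MvPolynomial V B} {M : ℕ}
    (hg : ∀ β, N1.Good β (N1.bb g M β)) : Function.Surjective (N1.Phi g M) := by
  have key : ∀ d : ℕ, ∀ f : MvPolynomial V B, N1.Sm d f → ∃ y, N1.Phi g M y = f := by
    intro d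
    induction d with
    | zero =>
      intro f hf
      refine ⟨0, ?_⟩
      rw [map_zero]
      by_contra hne
      obtain ⟨γ, hγ⟩ := support_nonempty.2 (Ne.symm hne)
      exact Nat.not_lt_zero _ (hf γ hγ)
    | succ d ih =>
      intro f hf
      have h1 : f - N1.Phi g M f = - ∑ β ∈ f.support, coeff β f • (N1.bb g M β - monomial β 1) := by
        have h2 : ∑ β ∈ f.support, coeff β f • (monomial β (1 : B)) = f := by
          conv_rhs => rw [f.as_sum]
          refine Finset.sum_congr rfl fun β _ => ?_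
          rw [smul_monomial, smul_eq_mul, mul_one]
        simp only [smul_sub, Finset.sum_sub_distrib]
        rw [h2, ← N1.Phi_apply]
        ring
      have h3 : N1.Sm d (f - N1.Phi g M f) := by
        rw [h1]
        refine N1.Sm.neg (N1.Sm.sum _ fun β hβ => ?_)
        exact N1.Sm.smul _ (N1.Sm.mono (hg β) (Nat.lt_succ_iff.1 (hf β hβ)))
      obtain ⟨y, hy⟩ := ih _ h3
      refine ⟨y + f, ?_⟩
      rw [map_add, hy]
      ring
  intro f
  exact key (f.totalDegree + 1) f fun γ hγ => Nat.lt_succ_of_le (le_totalDegree hγ)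

theorem N1.exists_basis {B : Type} [CommRing B] {V : Type} [Fintype V] {M : ℕ} (hM : 0 < M)
    (h : V → MvPolynomial V B) (hh : ∀ v, (h v).totalDegree < M) :
    ∃ b : Module.Basis (V → Fin M) B
        (MvPolynomial V B ⧸ Ideal.span (Set.range fun v => X v ^ M - h v)),
      ∀ β : V → Fin M, b β = Ideal.Quotient.mk _ (∏ v, X v ^ (β v : ℕ)) := by
  classical
  set g : V → MvPolynomial V B := fun v => X v ^ M - h v with hgdef
  have hg : ∀ β, N1.Good β (N1.bb g M β) := N1.good_bb hh
  have hinj := N1.Phi_injective hg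
  have hsurj := N1.Phi_surjective hg
  let red : (V → Fin M) → (V →₀ ℕ) := fun β => Finsupp.equivFunOnFinite.symm fun v => (β v : ℕ)
  have hredinj : Function.Injective red := by
    intro a b hab
    have h1 := Finsupp.equivFunOnFinite.symm.injective hab
    funext v
    exact Fin.ext (congrFun h1 v)
  have hsm : ∀ (c : B) (f : MvPolynomial V B),
      (Ideal.Quotient.mk (Ideal.span (Set.range g))) (c • f) =
        c • (Ideal.Quotient.mk (Ideal.span (Set.range g))) f := fun c f => rfl
  have hli : LinearIndependent B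
      (fun β : V → Fin M => Ideal.Quotient.mk (Ideal.span (Set.range g)) (∏ v, X v ^ (β v : ℕ))) := by
    rw [Fintype.linearIndependent_iff]
    intro c hc β₀
    set F : MvPolynomial V B := ∑ β : V → Fin M, monomial (red β) (c β) with hF
    have h1 : N1.Phi g M F = ∑ β : V → Fin M, c β • ∏ v, X v ^ (β v : ℕ) := by
      rw [hF, map_sum]
      refine Finset.sum_congr rfl fun β _ => ?_
      rw [← N1.bb_reduced g β, ← N1.Phi_monomial, ← map_smul, smul_monomial, smul_eq_mul, mul_one]
    have h2 : N1.Phi g M F ∈ Ideal.span (Set.range g) := by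
      rw [← Ideal.Quotient.eq_zero_iff_mem, h1, map_sum]
      simpa only [hsm] using hc
    obtain ⟨d, hd⟩ := (Ideal.mem_span_range_iff_exists_fun).1 h2
    choose y hy using fun v => hsurj (d v)
    have h3 : F = ∑ v, X v ^ M * y v := by
      apply hinj
      rw [← hd, map_sum (N1.Phi g M) (fun v => X v ^ M * y v)]
      refine Finset.sum_congr rfl fun v _ => ?_
      rw [N1.Phi_mul hM, hy, mul_comm]
    have h4 : coeff (red β₀) F = c β₀ := by
      rw [hF, coeff_sum, Finset.sum_eq_single β₀]
      · rw [coeff_monomial, if_pos rfl]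
      · intro a _ hab
        rw [coeff_monomial, if_neg]
        intro h
        exact hab (hredinj h)
      · intro h; exact absurd (Finset.mem_univ _) h
    rw [← h4, h3, coeff_sum]
    refine Finset.sum_eq_zero fun v _ => ?_
    rw [X_pow_eq_monomial, coeff_monomial_mul', if_neg]
    intro hle
    have h5 := hle v
    rw [Finsupp.single_eq_same] at h5
    exact absurd (β₀ v).2 (not_lt.2 h5)
  have hsp : (⊤ : Submodule B (MvPolynomial V B ⧸ Ideal.span (Set.range g))) ≤
      Submodule.span B (Set.range fun β : V → Fin M =>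
        Ideal.Quotient.mk (Ideal.span (Set.range g)) (∏ v, X v ^ (β v : ℕ))) := by
    rintro x -
    obtain ⟨f, rfl⟩ := Ideal.Quotient.mk_surjective x
    obtain ⟨f', rfl⟩ := hsurj f
    rw [N1.Phi_apply, map_sum]
    refine Submodule.sum_mem _ fun β _ => ?_
    rw [hsm]
    refine Submodule.smul_mem _ _ ?_
    by_cases hβ : ∃ v, M ≤ β v
    · obtain ⟨v, hv⟩ := hβ
      rw [Ideal.Quotient.eq_zero_iff_mem.2 (N1.bb_mem hM g β hv)]
      exact Submodule.zero_mem _
    · push Not at hβ
      refine Submodule.subset_span ⟨fun v => ⟨β v, hβ v⟩, ?_⟩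
      have h6 : β = red fun v => ⟨β v, hβ v⟩ := by
        ext v
        rfl
      change _ = Ideal.Quotient.mk (Ideal.span (Set.range g)) (N1.bb g M β)
      conv_rhs => rw [h6]
      rw [N1.bb_reduced g]
  exact ⟨Module.Basis.mk hli hsp, fun β => Module.Basis.mk_apply hli hsp β⟩

end Pool.Agent.Helper62.DL
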