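import Mathlib
import Pool.Agent.Helper62.DL.St.N1

/-!
PROJECT DL, piece N1b (about 60 lines). The trace of `B[X]/(X_v^M - h_v)` over `B` commutes with a
homomorphism `φ : B → B'` (base change).

Proof. Take the bases `b`, `b'` of `N1.exists_basis` for `h` and for `map φ ∘ h`
(`totalDegree (map φ (h v)) ≤ totalDegree (h v)`, `MvPolynomial.totalDegree_map_le`). The map `map φ`
induces a ring homomorphism `ψ : Q → Q'` (`Ideal.quotientMap` or `Ideal.Quotient.lift`), `ψ (b β) = b' β`,
`ψ (a • x) = φ a • ψ x`. Applying `ψ` to `mk f * b β = ∑ γ, (b.repr (mk f * b β)) γ • b γ` gives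
`mk (map φ f) * b' β = ∑ γ, φ (b.repr (mk f * b β) γ) • b' γ`, so
`b'.repr (mk (map φ f) * b' β) γ = φ (b.repr (mk f * b β) γ)`. The trace is the sum over `β` of the
diagonal coefficients `γ = β` (`Algebra.trace_eq_matrix_trace b`, `Algebra.leftMulMatrix_eq_repr_mul`).
-/

open MvPolynomial

namespace Pool.Agent.Helper62.DL

theorem N1b.trace_map {B B' : Type} [CommRing B] [CommRing B'] (φ : B →+* B') {V : Type}
    [Fintype V] {M : ℕ} (hM : 0 < M) (h : V → MvPolynomial V B)
    (hh : ∀ v, (h v).totalDegree < M) (f : MvPolynomial V B) :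
    Algebra.trace B'
        (MvPolynomial V B' ⧸ Ideal.span (Set.range fun v => X v ^ M - MvPolynomial.map φ (h v)))
        (Ideal.Quotient.mk _ (MvPolynomial.map φ f)) =
      φ (Algebra.trace B (MvPolynomial V B ⧸ Ideal.span (Set.range fun v => X v ^ M - h v))
        (Ideal.Quotient.mk _ f)) := by
  classical
  have hle : Ideal.span (Set.range fun v => X v ^ M - h v) ≤
      (Ideal.span (Set.range fun v => X v ^ M - MvPolynomial.map φ (h v))).comap
        (MvPolynomial.map φ) := by
    rw [Ideal.span_le]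
    rintro _ ⟨v, rfl⟩
    show MvPolynomial.map φ (X v ^ M - h v) ∈
      Ideal.span (Set.range fun v => X v ^ M - MvPolynomial.map φ (h v))
    rw [map_sub, map_pow, map_X]
    exact Ideal.subset_span ⟨v, rfl⟩
  obtain ⟨ψ, hψ⟩ : ∃ ψ : (MvPolynomial V B ⧸ Ideal.span (Set.range fun v => X v ^ M - h v)) →+*
      (MvPolynomial V B' ⧸ Ideal.span (Set.range fun v => X v ^ M - MvPolynomial.map φ (h v))),
      ∀ p, ψ (Ideal.Quotient.mk _ p) = Ideal.Quotient.mk _ (MvPolynomial.map φ p) :=
    ⟨Ideal.quotientMap _ (MvPolynomial.map φ) hle, fun p => Ideal.quotientMap_mk⟩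
  have hsm : ∀ (a : B)
      (x : MvPolynomial V B ⧸ Ideal.span (Set.range fun v => X v ^ M - h v)),
      ψ (a • x) = φ a • ψ x := by
    intro a x
    obtain ⟨p, rfl⟩ := Ideal.Quotient.mk_surjective x
    have e : ψ (Ideal.Quotient.mk _ (a • p)) =
        Ideal.Quotient.mk _ (φ a • MvPolynomial.map φ p) := by
      rw [hψ, smul_eq_C_mul, map_mul, map_C, smul_eq_C_mul]
    rw [hψ]
    exact e
  obtain ⟨b, hb⟩ := N1.exists_basis hM h hh
  obtain ⟨b', hb'⟩ := N1.exists_basis hM (fun v => MvPolynomial.map φ (h v))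
    (fun v => lt_of_le_of_lt
      (Finset.sup_mono (MvPolynomial.support_map_subset φ (h v))) (hh v))
  have hψb : ∀ β, ψ (b β) = b' β := by
    intro β
    rw [hb, hb', hψ, map_prod]
    congr 1
    apply Finset.prod_congr rfl
    intro v _
    rw [map_pow, map_X]
  have key : ∀ (x : MvPolynomial V B ⧸ Ideal.span (Set.range fun v => X v ^ M - h v))
      (β γ : V → Fin M), b'.repr (ψ x * b' β) γ = φ (b.repr (x * b β) γ) := by
    intro x β γ
    have e : ψ (x * b β) = ∑ γ, φ (b.repr (x * b β) γ) • b' γ := by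
      conv_lhs => rw [← b.sum_repr (x * b β)]
      rw [map_sum]
      apply Finset.sum_congr rfl
      intro γ _
      rw [hsm, hψb]
    rw [← hψb β, ← map_mul, e, b'.repr_sum_self]
  rw [Algebra.trace_eq_matrix_trace b', Algebra.trace_eq_matrix_trace b, Matrix.trace,
    Matrix.trace, map_sum]
  apply Finset.sum_congr rfl
  intro β _
  rw [Matrix.diag_apply, Matrix.diag_apply, Algebra.leftMulMatrix_eq_repr_mul,
    Algebra.leftMulMatrix_eq_repr_mul, ← key, hψ]

end Pool.Agent.Helper62.DL
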