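import Mathlib
import Pool.Agent.Helper21.PD.P3

/-!
PROJECT DL, piece N2 (about 200 lines). Truncated local multiplicity of a homogeneous-like system.
`F` is a field with a valuation `ν`; the monomials of `h_v` have degree `≥ e_v` and coefficients of value
`< 1`. Then `F[X]/((X_v^(e_v) - h_v) + 𝔪^K)`, `𝔪 = (X)`, has dimension `∏ e_v` for `K > ∑ e_v`.

Proof (adapt `Pool/Agent/Helper21/PD/P3.lean`). Let `g_v = X_v^(e_v) - h_v` and
`b_β = ∏_v g_v^(β_v / e_v) * X_v^(β_v % e_v)` (`bb g e β` of P3). Call `f` Good at `β` if `f - X^β` has only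
monomials of degree `≥ |β|` with coefficients of value `< 1`; `g_v` is Good at `e_v`, `X_v^n` is Good and
Good is multiplicative (as `Good.mul`, `Good.pow`, `Good.prod` in P3, with `≤ d` replaced by `≥ d`), so
`b_β` is Good at `β`. Let `Phi : X^β ↦ b_β` (linear). Let `T` be the space of all `f` all of whose
monomials have degree `≥ K`; `T = 𝔪^K` (in Mathlib: `MvPolynomial.mem_pow_idealOfVars_iff` or
similar; see `Ideal.span (Set.range X)`, `idealOfVars`). `Phi` maps `T` into `T` (each `b_β` has only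
monomials of degree `≥ |β|`). The induced endomorphism of the finite-dimensional space `F[X]/T` is
injective: if `f ∉ T`, choose `β` with `|β| < K` and `ν (coeff β f)` maximal (and nonzero); the coefficient
of `Phi f` at `β` is `coeff β f + ∑_γ coeff γ f * (small)`, where only the `γ` with `|γ| ≤ |β| < K`
contribute, so it is not zero. So it is bijective. As `Phi (X_v^(e_v) * f) = g_v * Phi f` (`Phi_mul`) and
`Phi` is surjective modulo `T`, it maps `(X_v^(e_v)) + T` onto `(g_v) + T` modulo `T`. Hence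
`F[X]/((g_v) + T)` is isomorphic, as a vector space, to `F[X]/((X_v^(e_v)) + T)`, and since `K > ∑ e_v` we
have `T ⊆ (X_v^(e_v))`; the monomials `X^β`, `β_v < e_v`, are a basis of `F[X]/(X_v^(e_v))` (`piR`,
`piR_surjective`, `piR_eq_zero` of P3).
-/

open MvPolynomial

namespace Pool.Agent.Helper62.DL

namespace N2

open Pool.Agent.Helper21.PD

variable {F : Type} [Field F] {Γ : Type} [LinearOrderedCommGroupWithZero Γ]
  (ν : Valuation F Γ) {V : Type}

/-- all monomials have degree at least `d` -/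
def Lo (d : ℕ) (f : MvPolynomial V F) : Prop := ∀ γ, γ.degree < d → coeff γ f = 0

theorem Lo.add {d : ℕ} {f g : MvPolynomial V F} (hf : Lo d f) (hg : Lo d g) : Lo d (f + g) := by
  intro γ hγ
  rw [coeff_add, hf γ hγ, hg γ hγ, add_zero]

theorem Lo.mul {d d' : ℕ} {f g : MvPolynomial V F} (hf : Lo d f) (hg : Lo d' g) :
    Lo (d + d') (f * g) := by
  classical
  intro γ hγ
  rw [coeff_mul]
  refine Finset.sum_eq_zero ?_
  rintro ⟨a, b⟩ hab
  have hab' : a + b = γ := Finset.HasAntidiagonal.mem_antidiagonal.1 hab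
  by_cases ha : a.degree < d
  · rw [hf a ha, zero_mul]
  · have hb : b.degree < d' := by
      have h1 : a.degree + b.degree = γ.degree := by rw [← hab', map_add]
      omega
    rw [hg b hb, mul_zero]

theorem lo_monomial (a : V →₀ ℕ) (c : F) : Lo a.degree (monomial a c) := by
  classical
  intro γ hγ
  rw [coeff_monomial, if_neg]
  rintro rfl
  exact lt_irrefl _ hγ

/-- degree at least `d` and integral coefficients -/
def Bdd (d : ℕ) (f : MvPolynomial V F) : Prop := (∀ γ, ν (coeff γ f) ≤ 1) ∧ Lo d f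

/-- degree at least `d` and small coefficients -/
def Small (d : ℕ) (f : MvPolynomial V F) : Prop := (∀ γ, ν (coeff γ f) < 1) ∧ Lo d f

theorem Small.bdd {d : ℕ} {f : MvPolynomial V F} (h : Small ν d f) : Bdd ν d f :=
  ⟨fun γ => (h.1 γ).le, h.2⟩

theorem Small.add {d : ℕ} {f g : MvPolynomial V F} (hf : Small ν d f) (hg : Small ν d g) :
    Small ν d (f + g) := by
  refine ⟨fun γ => ?_, hf.2.add hg.2⟩
  rw [coeff_add]
  exact ν.map_add_lt (hf.1 γ) (hg.1 γ)

theorem Bdd.add {d : ℕ} {f g : MvPolynomial V F} (hf : Bdd ν d f) (hg : Bdd ν d g) :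
    Bdd ν d (f + g) := by
  refine ⟨fun γ => ?_, hf.2.add hg.2⟩
  rw [coeff_add]
  exact ν.map_add_le (hf.1 γ) (hg.1 γ)

theorem Small.mul {d d' : ℕ} {f g : MvPolynomial V F} (hf : Small ν d f) (hg : Bdd ν d' g) :
    Small ν (d + d') (f * g) := by
  classical
  refine ⟨fun γ => ?_, hf.2.mul hg.2⟩
  rw [coeff_mul]
  refine ν.map_sum_lt one_ne_zero ?_
  rintro ⟨a, b⟩ -
  rw [map_mul]
  calc ν (coeff a f) * ν (coeff b g) ≤ ν (coeff a f) * 1 :=
        mul_le_mul_right (hg.1 b) _
    _ = ν (coeff a f) := mul_one _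
    _ < 1 := hf.1 a

theorem bdd_monomial (a : V →₀ ℕ) : Bdd ν a.degree (monomial a (1 : F)) := by
  classical
  refine ⟨fun γ => ?_, lo_monomial a 1⟩
  rw [coeff_monomial]
  split_ifs <;> simp

/-- `f` is `X^a` plus small terms of degree at least `|a|` -/
def Good (a : V →₀ ℕ) (f : MvPolynomial V F) : Prop := Small ν a.degree (f - monomial a 1)

theorem Good.bdd {a : V →₀ ℕ} {f : MvPolynomial V F} (h : Good ν a f) : Bdd ν a.degree f := by
  have := (Small.bdd ν h).add ν (bdd_monomial ν a)
  rwa [sub_add_cancel] at this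

theorem Good.mul {a b : V →₀ ℕ} {f g : MvPolynomial V F} (hf : Good ν a f) (hg : Good ν b g) :
    Good ν (a + b) (f * g) := by
  have h1 := Small.mul ν hf hg.bdd
  have h2 := Small.mul ν hg (bdd_monomial ν a)
  rw [add_comm] at h2
  have h3 := h1.add ν h2
  unfold Good
  rw [map_add]
  have h4 : f * g - monomial (a + b) (1 : F) =
      (f - monomial a 1) * g + (g - monomial b 1) * monomial a 1 := by
    have : (monomial (a + b) (1 : F)) = monomial a 1 * monomial b 1 := by
      rw [monomial_mul, mul_one]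
    rw [this]
    ring
  rw [h4]
  exact h3

theorem good_one : Good ν (0 : V →₀ ℕ) (1 : MvPolynomial V F) := by
  have : (1 : MvPolynomial V F) - monomial 0 1 = 0 := by
    rw [sub_eq_zero]; rfl
  unfold Good
  rw [this]
  exact ⟨fun γ => by simp, fun γ _ => by simp⟩

theorem Good.pow {a : V →₀ ℕ} {f : MvPolynomial V F} (hf : Good ν a f) (n : ℕ) :
    Good ν (n • a) (f ^ n) := by
  induction n with
  | zero => simpa using good_one ν
  | succ n ih =>
    rw [pow_succ, succ_nsmul]
    exact ih.mul ν hf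

theorem Good.prod {ι : Type*} (s : Finset ι) {a : ι → V →₀ ℕ} {f : ι → MvPolynomial V F}
    (hf : ∀ i ∈ s, Good ν (a i) (f i)) : Good ν (∑ i ∈ s, a i) (∏ i ∈ s, f i) := by
  classical
  induction s using Finset.induction_on with
  | empty => simpa using good_one ν
  | insert i s hi ih =>
    rw [Finset.sum_insert hi, Finset.prod_insert hi]
    exact (hf i (Finset.mem_insert_self _ _)).mul ν
      (ih fun j hj => hf j (Finset.mem_insert_of_mem hj))

theorem good_X_pow (v : V) (n : ℕ) :
    Good ν (Finsupp.single v n) (X v ^ n : MvPolynomial V F) := by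
  have : (X v ^ n : MvPolynomial V F) - monomial (Finsupp.single v n) 1 = 0 := by
    rw [X_pow_eq_monomial, sub_self]
  unfold Good
  rw [this]
  exact ⟨fun γ => by simp, fun γ _ => by simp⟩

theorem good_g {e : V → ℕ} {h : V → MvPolynomial V F}
    (hlow : ∀ v, ∀ γ ∈ (h v).support, e v ≤ γ.degree)
    (hcoef : ∀ m γ, ν (coeff γ (h m)) < 1) (v : V) :
    Good ν (Finsupp.single v (e v)) (X v ^ e v - h v) := by
  have : (X v ^ e v - h v : MvPolynomial V F) - monomial (Finsupp.single v (e v)) 1 = - h v := by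
    rw [X_pow_eq_monomial]; ring
  unfold Good
  rw [this]
  refine ⟨fun γ => ?_, fun γ hγ => ?_⟩
  · rw [coeff_neg, Valuation.map_neg]
    exact hcoef v γ
  · rw [Finsupp.degree_single] at hγ
    rw [coeff_neg, neg_eq_zero]
    by_contra hne
    exact absurd (hlow v γ (mem_support_iff.2 hne)) (not_le.2 hγ)

variable [Fintype V]

theorem good_bb {e : V → ℕ} {h : V → MvPolynomial V F}
    (hlow : ∀ v, ∀ γ ∈ (h v).support, e v ≤ γ.degree)
    (hcoef : ∀ m γ, ν (coeff γ (h m)) < 1) (β : V →₀ ℕ) :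
    Good ν β (P3.bb (fun m => X m ^ e m - h m) e β) := by
  have h1 : β = ∑ v, (Finsupp.single v (β v % e v) + (β v / e v) • Finsupp.single v (e v)) := by
    conv_lhs => rw [← Finsupp.univ_sum_single β]
    refine Finset.sum_congr rfl fun v _ => ?_
    rw [Finsupp.smul_single, ← Finsupp.single_add]
    congr 1
    rw [smul_eq_mul, mul_comm]
    exact (Nat.mod_add_div _ _).symm
  have h2 := Good.prod ν (Finset.univ : Finset V)
    (a := fun v => Finsupp.single v (β v % e v) + (β v / e v) • Finsupp.single v (e v))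
    (f := fun v => X v ^ (β v % e v) * (X v ^ e v - h v) ^ (β v / e v))
    (fun v _ => (good_X_pow ν v _).mul ν ((good_g ν hlow hcoef v).pow ν _))
  rw [← h1] at h2
  exact h2

variable {g : V → MvPolynomial V F} {e : V → ℕ}

theorem Phi_lo (hg : ∀ β, Good ν β (P3.bb g e β)) {K : ℕ} {f : MvPolynomial V F}
    (hf : Lo K f) : Lo K (P3.Phi g e f) := by
  intro γ hγ
  rw [P3.Phi_apply, coeff_sum]
  refine Finset.sum_eq_zero fun β hβ => ?_
  have hβK : K ≤ β.degree := by
    by_contra hlt
    exact (mem_support_iff.1 hβ) (hf β (not_le.1 hlt))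
  rw [coeff_smul, (hg β).bdd.2 γ (lt_of_lt_of_le hγ hβK), smul_zero]

/-- the exponents of degree less than `K` -/
abbrev Idx (V : Type) (K : ℕ) : Type := {β : V →₀ ℕ // β.degree < K}

theorem finite_idx (K : ℕ) : Finite (Idx V K) := by
  have h : {β : V →₀ ℕ | β.degree ≤ K}.Finite := Finsupp.finite_of_degree_le (σ := V) K
  have h2 : {β : V →₀ ℕ | β.degree < K} ⊆ {β : V →₀ ℕ | β.degree ≤ K} := by
    intro β hβ
    exact (show β.degree < K from hβ).le
  exact (h.subset h2).to_subtype

/-- coefficients at the exponents of degree less than `K` -/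
noncomputable def cf (K : ℕ) : MvPolynomial V F →ₗ[F] (Idx V K → F) where
  toFun f β := coeff β.1 f
  map_add' f g := by
    funext a
    simp
  map_smul' c f := by
    funext a
    simp

omit [Fintype V] in
theorem cf_apply (K : ℕ) (f : MvPolynomial V F) (β : Idx V K) : cf K f β = coeff β.1 f := rfl

omit [Fintype V] in
theorem cf_eq_zero {K : ℕ} {f : MvPolynomial V F} : cf K f = 0 ↔ Lo K f := by
  constructor
  · intro h γ hγ
    exact congrFun h ⟨γ, hγ⟩
  · intro h
    funext β
    exact h β.1 β.2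

/-- truncation: the part of degree less than `K` -/
noncomputable def sec (K : ℕ) [Fintype (Idx V K)] : (Idx V K → F) →ₗ[F] MvPolynomial V F :=
  ∑ β : Idx V K, (monomial β.1).comp (LinearMap.proj β)

omit [Fintype V] in
theorem cf_sec (K : ℕ) [Fintype (Idx V K)] (x : Idx V K → F) : cf K (sec K x) = x := by
  classical
  funext β
  rw [cf_apply, sec, LinearMap.sum_apply, coeff_sum, Finset.sum_eq_single β]
  · rw [LinearMap.comp_apply, LinearMap.proj_apply, coeff_monomial, if_pos rfl]
  · intro γ _ hγ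
    rw [LinearMap.comp_apply, LinearMap.proj_apply, coeff_monomial, if_neg]
    intro h
    exact hγ (Subtype.ext h)
  · intro h
    exact absurd (Finset.mem_univ _) h

theorem inj (hg : ∀ β, Good ν β (P3.bb g e β)) {K : ℕ} {f : MvPolynomial V F}
    (hf : Lo K (P3.Phi g e f)) : Lo K f := by
  classical
  have hfin := finite_idx (V := V) K
  by_contra hne
  have hne' : ∃ β : Idx V K, coeff β.1 f ≠ 0 := by
    by_contra hno
    push Not at hno
    exact hne fun γ hγ => hno ⟨γ, hγ⟩
  obtain ⟨β₀, hβ₀⟩ := hne'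
  have hsupp : (f.support.filter fun γ => γ.degree < K).Nonempty :=
    ⟨β₀.1, Finset.mem_filter.2 ⟨mem_support_iff.2 hβ₀, β₀.2⟩⟩
  obtain ⟨β, hβ, hmax⟩ := Finset.exists_max_image _ (fun β => ν (coeff β f)) hsupp
  rw [Finset.mem_filter] at hβ
  have hM : ν (coeff β f) ≠ 0 := (ν.ne_zero_iff).2 (mem_support_iff.1 hβ.1)
  have h1 : ∑ γ ∈ f.support, coeff γ f * coeff β (P3.bb g e γ) = 0 := by
    have := hf β hβ.2
    rw [P3.Phi_apply, coeff_sum] at this
    simpa only [coeff_smul, smul_eq_mul] using this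
  have h2 : ∑ γ ∈ f.support, coeff γ f * coeff β (P3.bb g e γ - monomial γ 1) =
      - coeff β f := by
    have h3 : ∑ γ ∈ f.support, coeff γ f * coeff β (monomial γ (1 : F)) = coeff β f := by
      rw [Finset.sum_eq_single β]
      · rw [coeff_monomial, if_pos rfl, mul_one]
      · intro γ _ hγ
        rw [coeff_monomial, if_neg hγ, mul_zero]
      · intro h; exact absurd hβ.1 h
    simp only [coeff_sub, mul_sub, Finset.sum_sub_distrib]
    rw [h1, h3, zero_sub]
  have h4 : ν (∑ γ ∈ f.support, coeff γ f * coeff β (P3.bb g e γ - monomial γ 1)) <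
      ν (coeff β f) := by
    refine ν.map_sum_lt hM fun γ hγ => ?_
    rw [map_mul]
    by_cases hK : γ.degree < K
    · have h5 : ν (coeff β (P3.bb g e γ - monomial γ 1)) < 1 := (hg γ).1 β
      calc ν (coeff γ f) * ν (coeff β (P3.bb g e γ - monomial γ 1))
          ≤ ν (coeff β f) * ν (coeff β (P3.bb g e γ - monomial γ 1)) :=
            mul_le_mul_left (hmax γ (Finset.mem_filter.2 ⟨hγ, hK⟩)) _
        _ < ν (coeff β f) * 1 := by
            exact mul_lt_mul_of_pos_left h5 (zero_lt_iff.2 hM)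
        _ = ν (coeff β f) := mul_one _
    · rw [(hg γ).2 β (lt_of_lt_of_le hβ.2 (not_lt.1 hK)), map_zero, mul_zero]
      exact zero_lt_iff.2 hM
  rw [h2, Valuation.map_neg] at h4
  exact lt_irrefl _ h4

theorem surj (hg : ∀ β, Good ν β (P3.bb g e β)) (K : ℕ) (f : MvPolynomial V F) :
    ∃ f', Lo K (P3.Phi g e f' - f) := by
  classical
  have hfin := finite_idx (V := V) K
  have := Fintype.ofFinite (Idx V K)
  let Ψ : (Idx V K → F) →ₗ[F] (Idx V K → F) := (cf K).comp ((P3.Phi g e).comp (sec K))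
  have hinj : Function.Injective Ψ := by
    rw [injective_iff_map_eq_zero]
    intro x hx
    have h1 : Lo K (P3.Phi g e (sec K x)) := cf_eq_zero.1 hx
    have h2 := cf_eq_zero.2 (inj ν hg h1)
    rwa [cf_sec] at h2
  obtain ⟨x, hx⟩ := LinearMap.injective_iff_surjective.1 hinj (cf K f)
  refine ⟨sec K x, cf_eq_zero.1 ?_⟩
  rw [map_sub, sub_eq_zero]
  exact hx

theorem exists_equiv (he : ∀ v, 0 < e v) (hg : ∀ β, Good ν β (P3.bb g e β)) (K : ℕ)
    (hK : ∑ v, e v < K) (I : Ideal (MvPolynomial V F))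
    (hI : I = Ideal.span (Set.range g) ⊔ idealOfVars V F ^ K) :
    Nonempty ((MvPolynomial V F ⧸ I) ≃ₗ[F] (((v : V) → Fin (e v)) → F)) := by
  classical
  have hT : ∀ f : MvPolynomial V F, f ∈ idealOfVars V F ^ K ↔ Lo K f :=
    fun f => mem_pow_idealOfVars_iff' K f
  have hTI : ∀ f : MvPolynomial V F, Lo K f → f ∈ I := by
    intro f hf
    rw [hI]
    exact Ideal.mem_sup_right ((hT f).2 hf)
  obtain ⟨p, hp, hpI⟩ : ∃ p : MvPolynomial V F →ₗ[F] (MvPolynomial V F ⧸ I),
      Function.Surjective p ∧ ∀ f, p f = 0 ↔ P3.Phi g e f ∈ I := by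
    let q : MvPolynomial V F →ₗ[F] (MvPolynomial V F ⧸ I) :=
      (Ideal.Quotient.mkₐ F I).toLinearMap
    have hq : Function.Surjective q := Ideal.Quotient.mk_surjective
    have hq1 : ∀ f, q f = 0 ↔ f ∈ I := fun f => Ideal.Quotient.eq_zero_iff_mem
    refine ⟨q.comp (P3.Phi g e), ?_, fun f => hq1 _⟩
    intro y
    obtain ⟨f, hf⟩ := hq y
    obtain ⟨f', hf'⟩ := surj ν hg K f
    refine ⟨f', ?_⟩
    have h1 : q (P3.Phi g e f' - f) = 0 := (hq1 _).2 (hTI _ hf')
    rw [map_sub, sub_eq_zero] at h1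
    exact h1.trans hf
  have hred : ∀ f : MvPolynomial V F, Lo K f → P3.piR e f = 0 := by
    intro f hf
    rw [P3.piR_eq_zero]
    intro β hβ
    refine hf β (lt_of_le_of_lt ?_ hK)
    rw [Finsupp.degree_eq_sum]
    exact Finset.sum_le_sum fun v _ => (hβ v).le
  have hker : LinearMap.ker p = LinearMap.ker (P3.piR (F := F) e) := by
    ext f
    rw [LinearMap.mem_ker, LinearMap.mem_ker]
    rw [hpI]
    constructor
    · intro hf
      rw [hI, Submodule.mem_sup] at hf
      obtain ⟨a, ha, t, ht, hat⟩ := hf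
      obtain ⟨c, hc⟩ := (Ideal.mem_span_range_iff_exists_fun).1 ha
      choose c' hc' using fun v => surj ν hg K (c v)
      have h1 : P3.Phi g e (f - ∑ v, X v ^ e v * c' v) =
          t - ∑ v, (P3.Phi g e (c' v) - c v) * g v := by
        have h10 : P3.Phi g e (∑ v, X v ^ e v * c' v) = ∑ v, g v * P3.Phi g e (c' v) := by
          rw [map_sum]
          exact Finset.sum_congr rfl fun v _ => P3.Phi_mul he g v (c' v)
        have h11 : ∑ v, (P3.Phi g e (c' v) - c v) * g v =
            ∑ v, g v * P3.Phi g e (c' v) - a := by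
          rw [← hc, ← Finset.sum_sub_distrib]
          refine Finset.sum_congr rfl fun v _ => ?_
          ring
        rw [map_sub, h10, h11, ← hat]
        ring
      have h2 : Lo K (P3.Phi g e (f - ∑ v, X v ^ e v * c' v)) := by
        rw [h1, ← hT]
        refine Ideal.sub_mem _ ht (Ideal.sum_mem _ fun v _ => Ideal.mul_mem_right _ _ ?_)
        exact (hT _).2 (hc' v)
      have h3 := hred _ (inj ν hg h2)
      rw [map_sub, sub_eq_zero] at h3
      rw [h3, P3.piR_eq_zero]
      intro β hβ
      rw [coeff_sum]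
      refine Finset.sum_eq_zero fun v _ => ?_
      rw [X_pow_eq_monomial, coeff_monomial_mul', if_neg]
      intro h
      have h2 := h v
      rw [Finsupp.single_eq_same] at h2
      exact absurd (hβ v) (not_lt.2 h2)
    · intro hf
      have h1 := P3.piR_eq_zero.1 hf
      rw [hI]
      refine Ideal.mem_sup_left ?_
      rw [P3.Phi_apply]
      refine Ideal.sum_mem _ fun β hβ => ?_
      have h3 : ∃ v, e v ≤ β v := by
        by_contra hno
        push Not at hno
        exact (mem_support_iff.1 hβ) (h1 β hno)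
      obtain ⟨v, hv⟩ := h3
      rw [smul_eq_C_mul]
      exact Ideal.mul_mem_left _ _ (P3.bb_mem g β hv (he v))
  have E1 := p.quotKerEquivOfSurjective hp
  have E2 := Submodule.quotEquivOfEq _ _ hker
  have E3 := (P3.piR (F := F) e).quotKerEquivOfSurjective (P3.piR_surjective e)
  exact ⟨E1.symm.trans (E2.trans E3)⟩

end N2

theorem N2.finrank_local {F : Type} [Field F] {Γ : Type} [LinearOrderedCommGroupWithZero Γ]
    (ν : Valuation F Γ) {V : Type} [Fintype V] (e : V → ℕ) (he : ∀ v, 0 < e v)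
    (h : V → MvPolynomial V F) (hlow : ∀ v, ∀ γ ∈ (h v).support, e v ≤ γ.degree)
    (hcoef : ∀ v γ, ν (coeff γ (h v)) < 1) (K : ℕ) (hK : ∑ v, e v < K) :
    FiniteDimensional F (MvPolynomial V F ⧸
        (Ideal.span (Set.range fun v => X v ^ e v - h v) ⊔
          Ideal.span (Set.range X) ^ K : Ideal (MvPolynomial V F))) ∧
      Module.finrank F (MvPolynomial V F ⧸
        (Ideal.span (Set.range fun v => X v ^ e v - h v) ⊔
          Ideal.span (Set.range X) ^ K : Ideal (MvPolynomial V F))) =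
      ∏ v, e v := by
  classical
  obtain ⟨φ⟩ := N2.exists_equiv ν he (N2.good_bb ν hlow hcoef) K hK _ rfl
  refine ⟨Module.Finite.equiv φ.symm, ?_⟩
  rw [φ.finrank_eq, Module.finrank_fintype_fun_eq_card, Fintype.card_pi]
  simp

end Pool.Agent.Helper62.DL
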