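import Mathlib

/-!
PROJECT DL, piece N3b (about 60 lines). Splitting of the trace by an element `e` which is idempotent
modulo `J`.

Proof. The ideals `J + (e)` and `J + (1 - e)` are coprime and their intersection is `J`: if `z` lies in
both then `z = j + a e = j' + a' (1 - e)`, so `(1 - e) z ∈ J` (as `e (1 - e) ∈ J`) and `e z ∈ J`. Chinese
remainder theorem: `R/J ≃ R/(J + (e)) × R/(J + (1 - e))` as `F`-algebras
(`Ideal.quotientInfEquivQuotientProd` / `Ideal.quotientMulEquivQuotientProd`, or the product of the two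
`Ideal.Quotient.factorₐ`, which is bijective), then `Algebra.trace_eq_of_algEquiv` and
`Algebra.trace_prod_apply`.
-/

namespace Pool.Agent.Helper62.DL

theorem N3b.trace_add {F R : Type} [Field F] [CommRing R] [Algebra F R] (J : Ideal R)
    [FiniteDimensional F (R ⧸ J)] (e : R) (he : e * e - e ∈ J) (x : R) :
    Algebra.trace F (R ⧸ J) (Ideal.Quotient.mk J x) =
      Algebra.trace F (R ⧸ (J ⊔ Ideal.span {e})) (Ideal.Quotient.mk _ x) +
        Algebra.trace F (R ⧸ (J ⊔ Ideal.span {1 - e})) (Ideal.Quotient.mk _ x) := by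
  set I1 : Ideal R := J ⊔ Ideal.span {e} with hI1
  set I2 : Ideal R := J ⊔ Ideal.span {1 - e} with hI2
  have h1 : J ≤ I1 := le_sup_left
  have h2 : J ≤ I2 := le_sup_left
  have he1 : e ∈ I1 := Ideal.mem_sup_right (Ideal.subset_span rfl)
  have he2 : 1 - e ∈ I2 := Ideal.mem_sup_right (Ideal.subset_span rfl)
  let φ : (R ⧸ J) →ₐ[F] (R ⧸ I1) × (R ⧸ I2) :=
    (Ideal.Quotient.factorₐ F h1).prod (Ideal.Quotient.factorₐ F h2)
  have hφ : ∀ z : R, φ (Ideal.Quotient.mk J z) =
      (Ideal.Quotient.mk I1 z, Ideal.Quotient.mk I2 z) := fun z => rfl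
  have hinj : Function.Injective φ := by
    rw [injective_iff_map_eq_zero]
    intro q hq
    obtain ⟨z, rfl⟩ := Ideal.Quotient.mk_surjective q
    rw [hφ] at hq
    obtain ⟨hz1, hz2⟩ := Prod.mk.inj hq
    have hz1' : z ∈ I1 := Ideal.Quotient.eq_zero_iff_mem.1 hz1
    have hz2' : z ∈ I2 := Ideal.Quotient.eq_zero_iff_mem.1 hz2
    rw [Ideal.Quotient.eq_zero_iff_mem]
    obtain ⟨j, hj, w, hw, hzw⟩ := Submodule.mem_sup.1 hz1'
    obtain ⟨a, ha⟩ := Ideal.mem_span_singleton'.1 hw
    obtain ⟨j', hj', w', hw', hzw'⟩ := Submodule.mem_sup.1 hz2'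
    obtain ⟨a', ha'⟩ := Ideal.mem_span_singleton'.1 hw'
    have e1 : (1 - e) * z = (1 - e) * j - a * (e * e - e) := by
      rw [← hzw, ← ha]; ring
    have e2 : e * z = e * j' - a' * (e * e - e) := by
      rw [← hzw', ← ha']; ring
    have e3 : z = ((1 - e) * j - a * (e * e - e)) + (e * j' - a' * (e * e - e)) := by
      rw [← e1, ← e2]; ring
    rw [e3]
    exact J.add_mem (J.sub_mem (J.mul_mem_left _ hj) (J.mul_mem_left _ he))
      (J.sub_mem (J.mul_mem_left _ hj') (J.mul_mem_left _ he))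
  have hsurj : Function.Surjective φ := by
    rintro ⟨q1, q2⟩
    obtain ⟨u, rfl⟩ := Ideal.Quotient.mk_surjective q1
    obtain ⟨v, rfl⟩ := Ideal.Quotient.mk_surjective q2
    refine ⟨Ideal.Quotient.mk J ((1 - e) * u + e * v), ?_⟩
    rw [hφ]
    refine Prod.ext ?_ ?_
    · refine Ideal.Quotient.eq.2 ?_
      have : (1 - e) * u + e * v - u = (v - u) * e := by ring
      rw [this]
      exact I1.mul_mem_left _ he1
    · refine Ideal.Quotient.eq.2 ?_
      have : (1 - e) * u + e * v - v = (u - v) * (1 - e) := by ring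
      rw [this]
      exact I2.mul_mem_left _ he2
  haveI : FiniteDimensional F (R ⧸ I1) :=
    Module.Finite.of_surjective (Ideal.Quotient.factorₐ F h1).toLinearMap
      (Ideal.Quotient.factor_surjective h1)
  haveI : FiniteDimensional F (R ⧸ I2) :=
    Module.Finite.of_surjective (Ideal.Quotient.factorₐ F h2).toLinearMap
      (Ideal.Quotient.factor_surjective h2)
  let ψ : (R ⧸ J) ≃ₐ[F] (R ⧸ I1) × (R ⧸ I2) := AlgEquiv.ofBijective φ ⟨hinj, hsurj⟩
  have key := Algebra.trace_eq_of_algEquiv ψ (Ideal.Quotient.mk J x)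
  rw [← key]
  have hψ : ψ (Ideal.Quotient.mk J x) =
      (Ideal.Quotient.mk I1 x, Ideal.Quotient.mk I2 x) := rfl
  rw [hψ, Algebra.trace_prod_apply]

end Pool.Agent.Helper62.DL
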