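import Mathlib
import Pool.Agent.Helper62.DL.St.N1
import Pool.Agent.Helper62.DL.St.N4

/-!
PROJECT DL, piece N5 (about 100 lines). Arcs at the origin from maximal ideals of the generic fibre.

`h_v ∈ C[τ][X]`, `totalDegree h_v < M`; `ε ∈ C[X]` is idempotent modulo the special fibre ideal
`J₀ = (X_v^M - h_v(τ=0))` and `ε X_v^K ∈ J₀`. `I` is a maximal ideal of `C(τ)[X]` containing the
`X_v^M - h_v` such that the trace of `ε` on `C(τ)[X]/I` does not vanish at `τ = 0`.

Proof. Let `Q = C[τ][X]/(X_v^M - h_v)`, finite over `C[τ]` by N1, `E = C(τ)[X]/I` (a field,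
`Ideal.Quotient.field I`; finite over `C(τ)`, being a quotient of the finite algebra
`C(τ)[X]/(X_v^M - h_v)`, N1 for `B = C(τ)`), `c_v` the class of `X_v`, `f : C[τ] → C(τ) → E`. The
homomorphism `C[τ][X] → E`, `eval₂ f c`, factors through `Q`, so its values are integral over `C[τ]`. Since
`ε² - ε ∈ J₀`, lifting coefficients (`MvPolynomial.map Polynomial.C`) gives
`ε² - ε = ∑_v a_v (X_v^M - h_v(0))` in `C[X]`; in `C[τ][X]` one has `h_v = h_v(0) + τ k_v` (coefficientwise:
a polynomial in `τ` is its value at `0` plus a multiple of `τ`), so the image of `ε² - ε` in `E` is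
`τ b`, `b = ∑_v a_v k_v` evaluated at `c`, integral. In the same way `ε c_v^K = τ b_v`, `b_v` integral. The
image of `ε` in `E` is integral. N4 gives `w` with `w (ε - 1) < 1`, so `w ε = 1` and
`w (c_v)^K = w (τ) w (b_v) < 1`, so `w (c_v) < 1`. Finally `eval₂ f c (X_v^M - h_v) = 0`, and if all `c_v` are
zero then `X_v ∈ I`.
-/

open MvPolynomial

namespace Pool.Agent.Helper62.DL

open Pool.Agent.Helper21.PD

theorem N5.decomp {C : Type} [Field C] {V : Type} (g : MvPolynomial V (Polynomial C)) :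
    ∃ k : MvPolynomial V (Polynomial C), g = MvPolynomial.map (Polynomial.C : C →+* Polynomial C)
      (MvPolynomial.map (Polynomial.evalRingHom 0) g) + MvPolynomial.C Polynomial.X * k := by
  induction g using MvPolynomial.induction_on' with
  | monomial m p =>
    refine ⟨monomial m p.divX, ?_⟩
    rw [MvPolynomial.map_monomial, MvPolynomial.map_monomial, C_mul_monomial, ← map_add]
    congr 1
    rw [Polynomial.coe_evalRingHom, ← Polynomial.coeff_zero_eq_eval_zero, add_comm, mul_comm]
    exact (Polynomial.divX_mul_X_add p).symm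
  | add a b ha hb =>
    obtain ⟨k1, h1⟩ := ha
    obtain ⟨k2, h2⟩ := hb
    refine ⟨k1 + k2, ?_⟩
    rw [map_add, map_add, mul_add]
    conv_lhs => rw [h1, h2]
    ring

theorem N5.integral {C : Type} [Field C] {V : Type} [Fintype V] {M : ℕ} (hM : 0 < M)
    (h : V → MvPolynomial V (Polynomial C)) (hh : ∀ v, (h v).totalDegree < M)
    {E : Type} [Field E] (f : Polynomial C →+* E) (c : V → E)
    (hc : ∀ v, eval₂ f c (X v ^ M - h v) = 0) (g : MvPolynomial V (Polynomial C)) :
    f.IsIntegralElem (eval₂ f c g) := by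
  obtain ⟨b, -⟩ := N1.exists_basis hM h hh
  set J := Ideal.span (Set.range fun v => X v ^ M - h v) with hJ
  have : Module.Finite (Polynomial C) (MvPolynomial V (Polynomial C) ⧸ J) := Module.Finite.of_basis b
  have hle : ∀ a ∈ J, (eval₂Hom f c) a = 0 := by
    intro a ha
    have h1 : J ≤ RingHom.ker (eval₂Hom f c) := by
      rw [hJ, Ideal.span_le]
      rintro _ ⟨v, rfl⟩
      exact hc v
    exact h1 ha
  have hint : IsIntegral (Polynomial C) (Ideal.Quotient.mk J g) := IsIntegral.of_finite _ _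
  obtain ⟨P, hP, hP0⟩ := hint
  refine ⟨P, hP, ?_⟩
  have h2 := congrArg (Ideal.Quotient.lift J (eval₂Hom f c) hle) hP0
  rw [map_zero, Polynomial.hom_eval₂] at h2
  have h3 : (Ideal.Quotient.lift J (eval₂Hom f c) hle).comp
      (algebraMap (Polynomial C) (MvPolynomial V (Polynomial C) ⧸ J)) = f := by
    refine RingHom.ext fun x => ?_
    change Ideal.Quotient.lift J (eval₂Hom f c) hle (Ideal.Quotient.mk J (MvPolynomial.C x)) = f x
    rw [Ideal.Quotient.lift_mk]
    exact eval₂Hom_C f c x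
  rw [h3, Ideal.Quotient.lift_mk] at h2
  exact h2

theorem N5.divis {C : Type} [Field C] {V : Type} {M : ℕ}
    (h : V → MvPolynomial V (Polynomial C)) [Fintype V]
    {E : Type} [Field E] (f : Polynomial C →+* E) (c : V → E)
    (hc : ∀ v, eval₂ f c (X v ^ M - h v) = 0) (g : MvPolynomial V C)
    (hg : g ∈ Ideal.span (Set.range fun v =>
      X v ^ M - MvPolynomial.map (Polynomial.evalRingHom 0) (h v))) :
    ∃ k : MvPolynomial V (Polynomial C), eval₂ (f.comp Polynomial.C) c g =
      f Polynomial.X * eval₂ f c k := by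
  obtain ⟨a, ha⟩ := (Ideal.mem_span_range_iff_exists_fun).1 hg
  choose k hk using fun v => N5.decomp (h v)
  refine ⟨∑ v, MvPolynomial.map (Polynomial.C : C →+* Polynomial C) (a v) * k v, ?_⟩
  have h1 : ∀ v, eval₂ (f.comp Polynomial.C) c
      (X v ^ M - MvPolynomial.map (Polynomial.evalRingHom 0) (h v)) =
      f Polynomial.X * eval₂ f c (k v) := by
    intro v
    have h2 := hc v
    rw [hk v] at h2
    rw [eval₂_sub, eval₂_add, eval₂_mul, eval₂_C, eval₂_map, eval₂_pow, eval₂_X] at h2
    rw [eval₂_sub, eval₂_pow, eval₂_X]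
    linear_combination h2
  rw [← ha]
  have h3 : eval₂ (f.comp Polynomial.C) c (∑ v, a v *
      (X v ^ M - MvPolynomial.map (Polynomial.evalRingHom 0) (h v))) =
      ∑ v, eval₂ (f.comp Polynomial.C) c (a v) * (f Polynomial.X * eval₂ f c (k v)) := by
    have := map_sum (eval₂Hom (f.comp Polynomial.C) c) (fun v => a v *
      (X v ^ M - MvPolynomial.map (Polynomial.evalRingHom 0) (h v))) Finset.univ
    simp only [coe_eval₂Hom] at this
    rw [this]
    refine Finset.sum_congr rfl fun v _ => ?_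
    rw [eval₂_mul, h1]
  have h4 : eval₂ f c (∑ v, MvPolynomial.map (Polynomial.C : C →+* Polynomial C) (a v) * k v) =
      ∑ v, eval₂ (f.comp Polynomial.C) c (a v) * eval₂ f c (k v) := by
    have := map_sum (eval₂Hom f c) (fun v =>
      MvPolynomial.map (Polynomial.C : C →+* Polynomial C) (a v) * k v) Finset.univ
    simp only [coe_eval₂Hom] at this
    rw [this]
    refine Finset.sum_congr rfl fun v _ => ?_
    rw [eval₂_mul, eval₂_map]
  rw [h3, h4, Finset.mul_sum]
  exact Finset.sum_congr rfl fun v _ => by ring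

theorem N5.aux {C : Type} [Field C] [IsSepClosed C] {p : ℕ} [Fact p.Prime] [CharP C p]
    {V : Type} [Fintype V] {M : ℕ} (hM : 0 < M) (h : V → MvPolynomial V (Polynomial C))
    (hh : ∀ v, (h v).totalDegree < M) (ε : MvPolynomial V C) (K : ℕ)
    (hε : ε * ε - ε ∈ Ideal.span (Set.range fun v =>
      X v ^ M - MvPolynomial.map (Polynomial.evalRingHom 0) (h v)))
    (hεX : ∀ v, ε * X v ^ K ∈ Ideal.span (Set.range fun v =>
      X v ^ M - MvPolynomial.map (Polynomial.evalRingHom 0) (h v)))
    {E : Type} [Field E] [Algebra (RatFunc C) E] [FiniteDimensional (RatFunc C) E] (c : V → E)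
    (hc : ∀ v, eval₂ ((algebraMap (RatFunc C) E).comp (toRat C)) c (X v ^ M - h v) = 0)
    (ht : ¬ (P5.P0 C).valuation (RatFunc C) (Algebra.trace (RatFunc C) E
      (eval₂ (((algebraMap (RatFunc C) E).comp (toRat C)).comp Polynomial.C) c ε)) < 1) :
    ∃ w : Valuation E Γ₀, IsPlace ((algebraMap (RatFunc C) E).comp (toRat C)) w ∧
      ∀ v, w (c v) < 1 := by
  set f := (algebraMap (RatFunc C) E).comp (toRat C) with hf
  have hmap : eval₂ (f.comp Polynomial.C) c ε =
      eval₂ f c (MvPolynomial.map (Polynomial.C : C →+* Polynomial C) ε) := by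
    rw [eval₂_map]
  have hX : algebraMap (RatFunc C) E RatFunc.X = f Polynomial.X := by
    rw [hf, RingHom.comp_apply, RatFunc.algebraMap_X]
  obtain ⟨k, hk⟩ := N5.divis h f c hc _ hε
  obtain ⟨w, hw, hint, h1⟩ := N4.exists_place (eval₂ (f.comp Polynomial.C) c ε) (eval₂ f c k)
    (by rw [hmap]; exact N5.integral hM h hh f c hc _) (N5.integral hM h hh f c hc _)
    (by rw [hX, ← hk, eval₂_sub, eval₂_mul]) ht
  have h2 : w (eval₂ (f.comp Polynomial.C) c ε) = 1 := by
    have h3 := Valuation.map_one_add_of_lt w h1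
    rwa [add_sub_cancel] at h3
  refine ⟨w, hw, fun v => ?_⟩
  obtain ⟨l, hl⟩ := N5.divis h f c hc _ (hεX v)
  rw [eval₂_mul, eval₂_pow, eval₂_X] at hl
  have h4 : w (c v) ^ K < 1 := by
    have h5 := congrArg w hl
    rw [map_mul, map_mul, map_pow, h2, one_mul] at h5
    rw [h5]
    exact mul_lt_one_of_lt_of_le hw.lt (hint _ (N5.integral hM h hh f c hc _))
  by_contra h6
  rw [not_lt] at h6
  exact absurd (one_le_pow_of_one_le' h6 K) (not_le.2 h4)

theorem N5.tdeg {C D : Type} [Field C] [Field D] {V : Type} (φ : Polynomial C →+* D)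
    (g : MvPolynomial V (Polynomial C)) :
    (MvPolynomial.map φ g).totalDegree ≤ g.totalDegree := by
  classical
  exact Finset.sup_mono (support_map_subset _ _)

theorem N5.exists_arc {C : Type} [Field C] [IsSepClosed C] {p : ℕ} [Fact p.Prime] [CharP C p]
    {V : Type} [Fintype V] {M : ℕ} (hM : 0 < M) (h : V → MvPolynomial V (Polynomial C))
    (hh : ∀ v, (h v).totalDegree < M) (ε : MvPolynomial V C) (K : ℕ)
    (hε : ε * ε - ε ∈ Ideal.span (Set.range fun v =>
      X v ^ M - MvPolynomial.map (Polynomial.evalRingHom 0) (h v)))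
    (hεX : ∀ v, ε * X v ^ K ∈ Ideal.span (Set.range fun v =>
      X v ^ M - MvPolynomial.map (Polynomial.evalRingHom 0) (h v)))
    (I : Ideal (MvPolynomial V (RatFunc C))) (hI : I.IsMaximal)
    (hJI : ∀ v, X v ^ M - MvPolynomial.map (toRat C) (h v) ∈ I)
    (ht : ¬ (P5.P0 C).valuation (RatFunc C)
      (Algebra.trace (RatFunc C) (MvPolynomial V (RatFunc C) ⧸ I)
        (Ideal.Quotient.mk I (MvPolynomial.map (RatFunc.C : C →+* RatFunc C) ε))) < 1) :
    ∃ (E : Type) (_ : Field E) (f : Polynomial C →+* E) (w : Valuation E Γ₀) (c : V → E),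
      IsPlace f w ∧ (∀ v, w (c v) < 1) ∧ (∀ v, eval₂ f c (X v ^ M - h v) = 0) ∧
      ((∀ v, c v = 0) → ∀ v, X v ∈ I) := by
  classical
  let _ : Field (MvPolynomial V (RatFunc C) ⧸ I) := Ideal.Quotient.field I
  obtain ⟨b, -⟩ := N1.exists_basis hM (fun v => MvPolynomial.map (toRat C) (h v))
    (fun v => (N5.tdeg (toRat C) (h v)).trans_lt (hh v))
  have : Module.Finite (RatFunc C) (MvPolynomial V (RatFunc C) ⧸
    Ideal.span (Set.range fun v => X v ^ M - MvPolynomial.map (toRat C) (h v))) :=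
    Module.Finite.of_basis b
  have hle : Ideal.span (Set.range fun v => X v ^ M - MvPolynomial.map (toRat C) (h v)) ≤ I := by
    rw [Ideal.span_le]
    rintro _ ⟨v, rfl⟩
    exact hJI v
  have hfin : Module.Finite (RatFunc C) (MvPolynomial V (RatFunc C) ⧸ I) := by
    refine Module.Finite.of_surjective (AlgHom.toLinearMap (Ideal.Quotient.liftₐ
      (Ideal.span (Set.range fun v => X v ^ M - MvPolynomial.map (toRat C) (h v)))
      (Ideal.Quotient.mkₐ (RatFunc C) I)
      (fun a ha => Ideal.Quotient.eq_zero_iff_mem.2 (hle ha)))) ?_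
    intro y
    obtain ⟨x, rfl⟩ := Ideal.Quotient.mk_surjective y
    exact ⟨Ideal.Quotient.mk _ x, rfl⟩
  set c : V → MvPolynomial V (RatFunc C) ⧸ I := fun v => Ideal.Quotient.mk I (X v) with hcdef
  have hmk : ∀ g : MvPolynomial V (RatFunc C), Ideal.Quotient.mk I g =
      eval₂ (algebraMap (RatFunc C) (MvPolynomial V (RatFunc C) ⧸ I)) c g := by
    intro g
    have h1 : Ideal.Quotient.mkₐ (RatFunc C) I = aeval c := aeval_unique _
    exact congrArg (fun φ => φ g) h1
  have hc : ∀ v, eval₂ ((algebraMap (RatFunc C) (MvPolynomial V (RatFunc C) ⧸ I)).comp (toRat C)) c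
      (X v ^ M - h v) = 0 := by
    intro v
    have h1 := Ideal.Quotient.eq_zero_iff_mem.2 (hJI v)
    rw [hmk, eval₂_sub, eval₂_pow, eval₂_X, eval₂_map] at h1
    rw [eval₂_sub, eval₂_pow, eval₂_X]
    exact h1
  have ht' : ¬ (P5.P0 C).valuation (RatFunc C)
      (Algebra.trace (RatFunc C) (MvPolynomial V (RatFunc C) ⧸ I)
      (eval₂ (((algebraMap (RatFunc C) (MvPolynomial V (RatFunc C) ⧸ I)).comp (toRat C)).comp
        Polynomial.C) c ε)) < 1 := by
    rw [hmk, eval₂_map] at ht
    have h2 : (((algebraMap (RatFunc C) (MvPolynomial V (RatFunc C) ⧸ I)).comp (toRat C)).comp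
        Polynomial.C) = (algebraMap (RatFunc C) (MvPolynomial V (RatFunc C) ⧸ I)).comp
        (RatFunc.C : C →+* RatFunc C) := by
      refine RingHom.ext fun x => ?_
      rw [RingHom.comp_apply, RingHom.comp_apply, RingHom.comp_apply, RatFunc.algebraMap_C]
    rw [h2]
    exact ht
  obtain ⟨w, hw, hw1⟩ := N5.aux hM h hh ε K hε hεX c hc ht'
  exact ⟨_, _, _, w, c, hw, hw1, hc, fun h0 v => Ideal.Quotient.eq_zero_iff_mem.1 (h0 v)⟩

end Pool.Agent.Helper62.DL
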