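import Mathlib

/-!
PROJECT DL, piece N6 (about 60 lines). The idempotent of a finite-dimensional quotient `F[X]/J` at the
origin.

Proof. `A = F[X]/J` is finite-dimensional, so Artinian; let `𝔪` be the image of `(X)` in `A`. The powers
`𝔪^K` are stationary for `K ≥ K₀` (`IsArtinian.monotone_stabilizes` or decreasing dimensions), so
`𝔪^K₀` is an idempotent finitely generated ideal, so it is generated by an idempotent `a`
(`Ideal.isIdempotentElem_iff_of_fg`). Let `e` be a lift of `1 - a` to `F[X]`: `e² - e ∈ J`, and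
`(1 - e) + J` generates `𝔪^K`, i.e. `J + (1 - e) = J + (X)^K` for all `K ≥ K₀` (WLOG `K₀ ≥ 1`). As
`1 - e ∈ J + (X)` and the elements of `J` have no constant term (`h0`), `constantCoeff (1 - e) = 0`.
-/

open MvPolynomial

namespace Pool.Agent.Helper62.DL

theorem N6.comap_map {R : Type} [CommRing R] (J P : Ideal R) :
    (P.map (Ideal.Quotient.mk J)).comap (Ideal.Quotient.mk J) = J ⊔ P := by
  rw [Ideal.comap_map_of_surjective' _ Ideal.Quotient.mk_surjective, Ideal.mk_ker, sup_comm]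

theorem N6.stab {A : Type} [CommRing A] [IsArtinianRing A] (I : Ideal A) :
    ∃ n, ∀ m, n ≤ m → I ^ m = I ^ n := by
  obtain ⟨n, hn⟩ := IsArtinian.monotone_stabilizes
    (⟨fun k => OrderDual.toDual (I ^ k), fun a b h => Ideal.pow_le_pow_right h⟩ :
      ℕ →o (Submodule A A)ᵒᵈ)
  exact ⟨n, fun m hm => (hn m hm).symm⟩

theorem N6.exists_idempotent {F : Type} [Field F] {V : Type} [Fintype V]
    (J : Ideal (MvPolynomial V F)) [FiniteDimensional F (MvPolynomial V F ⧸ J)]
    (h0 : ∀ f ∈ J, constantCoeff f = 0) :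
    ∃ (e : MvPolynomial V F) (K₀ : ℕ), e * e - e ∈ J ∧ constantCoeff e = 1 ∧
      ∀ K, K₀ ≤ K → J ⊔ Ideal.span {1 - e} = J ⊔ Ideal.span (Set.range X) ^ K := by
  have hart : IsArtinianRing (MvPolynomial V F ⧸ J) := IsArtinianRing.of_finite F _
  have hnoe : IsNoetherianRing (MvPolynomial V F ⧸ J) := inferInstance
  set P : Ideal (MvPolynomial V F) := Ideal.span (Set.range X) with hP
  set 𝔪 : Ideal (MvPolynomial V F ⧸ J) := P.map (Ideal.Quotient.mk J) with h𝔪
  obtain ⟨n, hn⟩ := N6.stab 𝔪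
  have hn' : ∀ m, n + 1 ≤ m → 𝔪 ^ m = 𝔪 ^ (n + 1) := by
    intro m hm
    rw [hn m (by omega), hn (n + 1) (by omega)]
  have hid : IsIdempotentElem (𝔪 ^ (n + 1)) := by
    have h1 : 𝔪 ^ (n + 1) * 𝔪 ^ (n + 1) = 𝔪 ^ ((n + 1) + (n + 1)) := (Ideal.IsTwoSided.pow_add _ _).symm
    exact h1.trans (hn' _ (by omega))
  obtain ⟨a, ha, hIa⟩ := (Ideal.isIdempotentElem_iff_of_fg _
    (IsNoetherian.noetherian (𝔪 ^ (n + 1)))).mp hid
  obtain ⟨a', rfl⟩ := Ideal.Quotient.mk_surjective a
  have hc : constantCoeff a' = 0 := by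
    have h1 : Ideal.Quotient.mk J a' ∈ 𝔪 := by
      have h2 : Ideal.Quotient.mk J a' ∈ 𝔪 ^ (n + 1) := by
        rw [hIa]
        exact Submodule.mem_span_singleton_self _
      exact (Ideal.pow_le_self (by omega)) h2
    have h3 : a' ∈ J ⊔ P := by
      rw [← N6.comap_map]
      exact h1
    have h4 : J ⊔ P ≤ RingHom.ker (constantCoeff : MvPolynomial V F →+* F) := by
      apply sup_le
      · intro f hf
        exact h0 f hf
      · rw [hP, Ideal.span_le]
        rintro _ ⟨i, rfl⟩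
        exact constantCoeff_X _ _
    exact h4 h3
  refine ⟨1 - a', n + 1, ?_, ?_, ?_⟩
  · have h1 : (1 - a') * (1 - a') - (1 - a') = a' * a' - a' := by ring
    rw [h1]
    have h2 : Ideal.Quotient.mk J a' * Ideal.Quotient.mk J a' = Ideal.Quotient.mk J a' := ha
    rw [← map_mul] at h2
    exact Ideal.Quotient.eq.mp h2
  · rw [map_sub, hc, map_one, sub_zero]
  · intro K hK
    have h1 : (1 : MvPolynomial V F) - (1 - a') = a' := by ring
    rw [h1, ← N6.comap_map, ← N6.comap_map, Ideal.map_span, Set.image_singleton, Ideal.map_pow]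
    congr 1
    rw [← h𝔪, hn' K hK, hIa]

end Pool.Agent.Helper62.DL
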