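import Mathlib
import Pool.Agent.Helper62.DL.St.N1b
import Pool.Agent.Helper62.DL.St.N2
import Pool.Agent.Helper62.DL.St.N3
import Pool.Agent.Helper62.DL.St.N3b
import Pool.Agent.Helper62.DL.St.N5
import Pool.Agent.Helper62.DL.St.N6

/-!
PROJECT DL, piece N7 (about 200 lines). Existence of arcs (the index argument). `C` separably closed of
characteristic `p`, `g_v ∈ C[τ][X]` (as many as unknowns), `g_v(τ=0)` has only monomials of degree
`≥ e_v`, `p ∤ e_v`, `totalDegree g_v < M`, `e_v < M`. Then there is a place `w` with residue field `C` and a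
point `c` with `w (c_v) < 1` such that
 (II) `g_v(c, τ) + c_v^M = 0` for all `v`, or
 (I) `c ≠ 0` and `g_v(c, 0) + τ c_v^(e_v) + c_v^M = 0` for all `v`.

Proof. Suppose not. Let `g⁰_v = map (evalRingHom 0) (g v)`, `h⁰_v = - g⁰_v`,
`J₀ = (X_v^M - h⁰_v) ⊂ C[X]`; it has no constant terms. N6 for `J₀` (finite-dimensional by N1) gives `ε`,
`K`; `ε X_v^K ∈ J₀` since `X_v^K ∈ J₀ + (1 - ε)`. Let `t₀ ∈ C` be the trace of `ε` on `C[X]/J₀`. Let
`T = {r ∈ C(τ) | v_0(r) < 1}` (`v_0 = (P5.P0 C).valuation (RatFunc C)`), an additive subgroup.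
(II) `h_v = - g_v`, `h_v(τ=0) = h⁰_v`. By N5, N3 and the assumption the trace of `ε` on
`C(τ)[X]/(X_v^M - h_v)` is in `T`. By N1b (for `C[τ] → C(τ)` and for `evalRingHom 0 : C[τ] → C`) it is the
image of a polynomial `t ∈ C[τ]` with `t(0) = t₀`; in `T` means `t(0) = 0`, so `t₀ = 0`.
(I) `h_v = - map C (g⁰_v) - C (τ) X_v^(e_v)`, again `h_v(τ=0) = h⁰_v`, `totalDegree < M`. Let `J` be the ideal
`(X_v^M - h_v)` in `C(τ)[X]`. N1b: the trace `t_J` of `ε` on `C(τ)[X]/J` is the image of a polynomial with
value `t₀ = 0` at `0`, so `t_J ∈ T`. N6 for `J` gives `e'`, `K₀`. By N3b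
`t_J = trace on J + (e') + trace on J + (1 - e')`. A maximal ideal `I ≥ J + (e')` does not contain all
`X_v` (`e'` has constant term `1`), so by N5, N3 and the assumption the first trace is in `T`. The second
quotient is `C(τ)[X]/(J + (X)^K)`, `K ≥ K₀` large (`Ideal.quotEquivOfEq`), `ε - 1 ∈ (X)` is nilpotent there,
so the trace of `ε` is the trace of `1`, the dimension, and `J = (X_v^(e_v) + τ⁻¹ (g⁰_v + X_v^M))` so by N2
with `ν` = valuation at infinity (`FunctionField.inftyValuation`, `inftyValuation.X_inv`; constants have value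
`≤ 1`) it is `∏ e_v`. So `∏ e_v`, a nonzero constant of `C`, is in `T`: contradiction.
-/

open MvPolynomial

namespace Pool.Agent.Helper62.DL

open Pool.Agent.Helper21.PD

theorem N7.eps_mul {R : Type} [CommRing R] (J : Ideal R) (e y : R) (he : e * e - e ∈ J)
    (hy : y ∈ J ⊔ Ideal.span {1 - e}) : e * y ∈ J := by
  obtain ⟨j, hj, z, hz, rfl⟩ := Submodule.mem_sup.1 hy
  obtain ⟨a, rfl⟩ := Ideal.mem_span_singleton'.1 hz
  have h1 : e * (j + a * (1 - e)) = e * j - a * (e * e - e) := by ring
  rw [h1]
  exact J.sub_mem (J.mul_mem_left _ hj) (J.mul_mem_left _ he)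

theorem N7.trace_congr {F R : Type} [Field F] [CommRing R] [Algebra F R] {J J' : Ideal R}
    (h : J = J') (x : R) :
    Algebra.trace F (R ⧸ J) (Ideal.Quotient.mk J x) =
      Algebra.trace F (R ⧸ J') (Ideal.Quotient.mk J' x) := by
  subst h
  rfl

/-- the functions of positive valuation at `τ = 0` -/
noncomputable def N7.T (C : Type) [Field C] : AddSubgroup (RatFunc C) where
  carrier := {r | (P5.P0 C).valuation (RatFunc C) r < 1}
  zero_mem' := by
    change (P5.P0 C).valuation (RatFunc C) 0 < 1
    rw [map_zero]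
    exact zero_lt_one
  add_mem' := fun {a b} ha hb => by
    change (P5.P0 C).valuation (RatFunc C) a < 1 at ha
    change (P5.P0 C).valuation (RatFunc C) b < 1 at hb
    change (P5.P0 C).valuation (RatFunc C) (a + b) < 1
    exact Valuation.map_add_lt _ ha hb
  neg_mem' := fun {a} ha => by
    change (P5.P0 C).valuation (RatFunc C) a < 1 at ha
    change (P5.P0 C).valuation (RatFunc C) (-a) < 1
    rw [Valuation.map_neg]
    exact ha

theorem N7.mem_T {C : Type} [Field C] (t : Polynomial C) :
    toRat C t ∈ N7.T C ↔ Polynomial.evalRingHom 0 t = 0 := by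
  change (P5.P0 C).valuation (RatFunc C) (algebraMap (Polynomial C) (RatFunc C) t) < 1 ↔ _
  rw [Polynomial.coe_evalRingHom, ← Polynomial.coeff_zero_eq_eval_zero, ← Polynomial.X_dvd_iff]
  have h1 := IsDedekindDomain.HeightOneSpectrum.valuation_lt_one_iff_mem (K := RatFunc C)
    (P5.P0 C) t
  refine Iff.trans h1 ?_
  exact Ideal.mem_span_singleton

theorem N7.finite_quot {F R : Type} [Field F] [CommRing R] [Algebra F R] {J I : Ideal R}
    (h : J ≤ I) [hJ : FiniteDimensional F (R ⧸ J)] : FiniteDimensional F (R ⧸ I) := by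
  refine Module.Finite.of_surjective (Ideal.Quotient.factorₐ F h).toLinearMap ?_
  intro y
  obtain ⟨x, rfl⟩ := Ideal.Quotient.mk_surjective y
  exact ⟨Ideal.Quotient.mk _ x, rfl⟩

theorem N7.const_zero {F : Type} [Field F] {V : Type} {M : ℕ} (hM : 0 < M)
    (h : V → MvPolynomial V F) (h0 : ∀ v, constantCoeff (h v) = 0)
    (f : MvPolynomial V F) (hf : f ∈ Ideal.span (Set.range fun v => X v ^ M - h v)) :
    constantCoeff f = 0 := by
  have h1 : Ideal.span (Set.range fun v => X v ^ M - h v) ≤
      RingHom.ker (constantCoeff : MvPolynomial V F →+* F) := by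
    rw [Ideal.span_le]
    rintro _ ⟨v, rfl⟩
    change constantCoeff (X v ^ M - h v) = 0
    rw [map_sub, map_pow, constantCoeff_X, h0, zero_pow hM.ne', sub_zero]
  exact h1 hf

theorem N7.mem_of_const {F : Type} [Field F] {V : Type} (f : MvPolynomial V F)
    (hf : constantCoeff f = 0) : f ∈ Ideal.span (Set.range (X : V → MvPolynomial V F)) := by
  classical
  rw [← Set.image_univ, mem_ideal_span_X_image]
  intro m hm
  by_contra hc
  push Not at hc
  have h1 : m = 0 := Finsupp.ext fun i => hc i (Set.mem_univ i)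
  rw [h1, mem_support_iff] at hm
  exact hm hf

theorem N7.trace_poly {C : Type} [Field C] {V : Type} [Fintype V] {M : ℕ} (hM : 0 < M)
    (h : V → MvPolynomial V (Polynomial C)) (hh : ∀ v, (h v).totalDegree < M)
    (ε : MvPolynomial V C) : ∃ t : Polynomial C,
      Algebra.trace (RatFunc C) (MvPolynomial V (RatFunc C) ⧸
        Ideal.span (Set.range fun v => X v ^ M - MvPolynomial.map (toRat C) (h v)))
        (Ideal.Quotient.mk _ (MvPolynomial.map (RatFunc.C : C →+* RatFunc C) ε)) = toRat C t ∧
      Algebra.trace C (MvPolynomial V C ⧸ Ideal.span (Set.range fun v =>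
        X v ^ M - MvPolynomial.map (Polynomial.evalRingHom 0) (h v)))
        (Ideal.Quotient.mk _ ε) = Polynomial.evalRingHom 0 t := by
  refine ⟨Algebra.trace (Polynomial C) (MvPolynomial V (Polynomial C) ⧸
    Ideal.span (Set.range fun v => X v ^ M - h v))
    (Ideal.Quotient.mk _ (MvPolynomial.map (Polynomial.C : C →+* Polynomial C) ε)), ?_, ?_⟩
  rotate_left
  · have h1 := N1b.trace_map (Polynomial.evalRingHom (0 : C)) hM h hh
      (MvPolynomial.map (Polynomial.C : C →+* Polynomial C) ε)
    have h2 : MvPolynomial.map (Polynomial.evalRingHom (0 : C))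
        (MvPolynomial.map (Polynomial.C : C →+* Polynomial C) ε) = ε := by
      rw [MvPolynomial.map_map]
      have h3 : (Polynomial.evalRingHom (0 : C)).comp (Polynomial.C : C →+* Polynomial C) =
          RingHom.id C := by
        refine RingHom.ext fun x => ?_
        simp
      rw [h3, MvPolynomial.map_id]
    rw [h2] at h1
    exact h1
  · have h1 := N1b.trace_map (toRat C) hM h hh
      (MvPolynomial.map (Polynomial.C : C →+* Polynomial C) ε)
    have h2 : MvPolynomial.map (toRat C)
        (MvPolynomial.map (Polynomial.C : C →+* Polynomial C) ε) =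
        MvPolynomial.map (RatFunc.C : C →+* RatFunc C) ε := by
      rw [MvPolynomial.map_map]
      have h3 : (toRat C).comp (Polynomial.C : C →+* Polynomial C) =
          (RatFunc.C : C →+* RatFunc C) := by
        refine RingHom.ext fun x => ?_
        exact RatFunc.algebraMap_C x
      rw [h3]
    rw [h2] at h1
    exact h1

theorem N7.exists_arcs {C : Type} [Field C] [IsSepClosed C] {p : ℕ} [Fact p.Prime] [CharP C p]
    {V : Type} [Fintype V] (e : V → ℕ) (he : ∀ v, 0 < e v) (hep : ∀ v, ¬ p ∣ e v) {M : ℕ}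
    (hM : 0 < M) (heM : ∀ v, e v < M) (g : V → MvPolynomial V (Polynomial C))
    (hg : ∀ v, (g v).totalDegree < M)
    (hlow : ∀ v, ∀ γ ∈ (MvPolynomial.map (Polynomial.evalRingHom 0) (g v)).support,
      e v ≤ γ.degree) :
    ∃ (E : Type) (_ : Field E) (f : Polynomial C →+* E) (w : Valuation E Γ₀) (c : V → E),
      IsPlace f w ∧ (∀ v, w (c v) < 1) ∧
      ((∀ v, eval₂ f c (g v) + c v ^ M = 0) ∨
        ((∃ v, c v ≠ 0) ∧ ∀ v,
          eval₂ (f.comp Polynomial.C) c (MvPolynomial.map (Polynomial.evalRingHom 0) (g v)) +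
            f Polynomial.X * c v ^ e v + c v ^ M = 0)) := by
  classical
  by_contra hno
  have htd : ∀ (φ : Polynomial C →+* C) v, (MvPolynomial.map φ (g v)).totalDegree < M :=
    fun φ v => (N5.tdeg φ (g v)).trans_lt (hg v)
  set g0 : V → MvPolynomial V C := fun v => MvPolynomial.map (Polynomial.evalRingHom 0) (g v)
    with hg0
  have hg0c : ∀ v, constantCoeff (g0 v) = 0 := by
    intro v
    by_contra hc
    have h1 : (0 : V →₀ ℕ) ∈ (g0 v).support := mem_support_iff.2 hc
    have h2 := hlow v 0 h1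
    rw [map_zero] at h2
    exact absurd (he v) (not_lt.2 h2)
  -- the special fibre
  set J₀ : Ideal (MvPolynomial V C) := Ideal.span (Set.range fun v => X v ^ M - -g0 v) with hJ₀
  have hfin0 : FiniteDimensional C (MvPolynomial V C ⧸ J₀) := by
    obtain ⟨b, -⟩ := N1.exists_basis hM (fun v => -g0 v) (fun v => by
      rw [totalDegree_neg]
      exact htd _ v)
    exact Module.Finite.of_basis b
  obtain ⟨ε, K₁, hε, hεc, hεK⟩ := N6.exists_idempotent J₀ (fun f hf =>
    N7.const_zero hM (fun v => -g0 v) (fun v => by rw [map_neg, hg0c, neg_zero]) f hf)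
  have hεX : ∀ v, ε * X v ^ K₁ ∈ J₀ := by
    intro v
    refine N7.eps_mul J₀ ε _ hε ?_
    rw [hεK K₁ le_rfl]
    exact Ideal.mem_sup_right (Ideal.pow_mem_pow (Ideal.subset_span (Set.mem_range_self v)) _)
  -- first family
  have hmap2 : ∀ v, MvPolynomial.map (Polynomial.evalRingHom (0 : C)) (-g v) = -g0 v := by
    intro v
    rw [map_neg]
  have hJ2 : Ideal.span (Set.range fun v => X v ^ M -
      MvPolynomial.map (Polynomial.evalRingHom (0 : C)) (-g v)) = J₀ := by
    rw [hJ₀]
    congr 2
    funext v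
    rw [hmap2]
  have hh2 : ∀ v, (-g v).totalDegree < M := fun v => by
    rw [totalDegree_neg]
    exact hg v
  obtain ⟨t2, ht2, ht2'⟩ := N7.trace_poly hM (fun v => -g v) hh2 ε
  have ht0 : Algebra.trace C (MvPolynomial V C ⧸ J₀) (Ideal.Quotient.mk J₀ ε) = 0 := by
    have h1 : Polynomial.evalRingHom 0 t2 = 0 := by
      rw [← N7.mem_T, ← ht2]
      obtain ⟨b, -⟩ := N1.exists_basis hM (fun v => MvPolynomial.map (toRat C) (-g v))
        (fun v => (N5.tdeg (toRat C) (-g v)).trans_lt (hh2 v))
      have hfin2 : FiniteDimensional (RatFunc C) (MvPolynomial V (RatFunc C) ⧸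
          Ideal.span (Set.range fun v => X v ^ M - MvPolynomial.map (toRat C) (-g v))) :=
        Module.Finite.of_basis b
      refine N3.trace_mem _ (N7.T C) _ fun I hI hJI => ?_
      by_contra hc
      obtain ⟨E, iE, f, w, c, hw, hwc, hev, -⟩ := N5.exists_arc (p := p) hM (fun v => -g v) hh2 ε K₁
        (by rw [hJ2]; exact hε) (fun v => by rw [hJ2]; exact hεX v) I hI
        (fun v => hJI (Ideal.subset_span (Set.mem_range_self v))) hc
      refine hno ⟨E, iE, f, w, c, hw, hwc, Or.inl fun v => ?_⟩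
      have h3 := hev v
      rw [eval₂_sub, eval₂_pow, eval₂_X] at h3
      have h4 : eval₂ f c (-g v) = - eval₂ f c (g v) := map_neg (eval₂Hom f c) (g v)
      rw [h4] at h3
      linear_combination h3
    rw [N7.trace_congr hJ2.symm, ht2', h1]
  -- second family
  set h' : V → MvPolynomial V (Polynomial C) := fun v =>
    -(MvPolynomial.map (Polynomial.C : C →+* Polynomial C) (g0 v)) -
      MvPolynomial.C Polynomial.X * X v ^ e v with hh'def
  have hmap1 : ∀ v, MvPolynomial.map (Polynomial.evalRingHom (0 : C)) (h' v) = -g0 v := by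
    intro v
    have h3 : (Polynomial.evalRingHom (0 : C)).comp (Polynomial.C : C →+* Polynomial C) =
        RingHom.id C := by
      refine RingHom.ext fun x => ?_
      simp
    rw [hh'def, map_sub, map_neg, MvPolynomial.map_map, h3, MvPolynomial.map_id, map_mul, map_C,
      Polynomial.coe_evalRingHom, Polynomial.eval_X, C_0, zero_mul, sub_zero]
  have hJ1 : Ideal.span (Set.range fun v => X v ^ M -
      MvPolynomial.map (Polynomial.evalRingHom (0 : C)) (h' v)) = J₀ := by
    rw [hJ₀]
    congr 2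
    funext v
    rw [hmap1]
  have hh1 : ∀ v, (h' v).totalDegree < M := by
    intro v
    refine (totalDegree_sub _ _).trans_lt (max_lt ?_ ?_)
    · rw [totalDegree_neg]
      exact (Finset.sup_mono (support_map_subset _ _)).trans_lt (htd _ v)
    · refine (totalDegree_mul _ _).trans_lt ?_
      rw [totalDegree_C, zero_add]
      exact (totalDegree_X_pow _ _).trans_lt (heM v)
  obtain ⟨t1, ht1, ht1'⟩ := N7.trace_poly hM h' hh1 ε
  rw [N7.trace_congr hJ1, ht0] at ht1'
  set R := MvPolynomial V (RatFunc C) with hR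
  set J : Ideal (MvPolynomial V (RatFunc C)) :=
    Ideal.span (Set.range fun v => X v ^ M - MvPolynomial.map (toRat C) (h' v)) with hJ
  set ε' : MvPolynomial V (RatFunc C) := MvPolynomial.map (RatFunc.C : C →+* RatFunc C) ε with hε'
  have htJ : Algebra.trace (RatFunc C) (MvPolynomial V (RatFunc C) ⧸ J)
      (Ideal.Quotient.mk J ε') ∈ N7.T C := by
    rw [ht1, N7.mem_T]
    exact ht1'.symm
  have hfinJ : FiniteDimensional (RatFunc C) (MvPolynomial V (RatFunc C) ⧸ J) := by
    obtain ⟨b, -⟩ := N1.exists_basis hM (fun v => MvPolynomial.map (toRat C) (h' v))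
      (fun v => (N5.tdeg (toRat C) (h' v)).trans_lt (hh1 v))
    exact Module.Finite.of_basis b
  have hmapR : ∀ v, MvPolynomial.map (toRat C) (h' v) =
      -(MvPolynomial.map (RatFunc.C : C →+* RatFunc C) (g0 v)) -
        MvPolynomial.C RatFunc.X * X v ^ e v := by
    intro v
    have h3 : (toRat C).comp (Polynomial.C : C →+* Polynomial C) =
        (RatFunc.C : C →+* RatFunc C) := by
      refine RingHom.ext fun x => ?_
      exact RatFunc.algebraMap_C x
    rw [hh'def, map_sub, map_neg, MvPolynomial.map_map, h3, map_mul, map_C, map_pow, map_X,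
      RatFunc.algebraMap_X]
  obtain ⟨e', K₀, he', he'c, he'K⟩ := N6.exists_idempotent J (fun f hf =>
    N7.const_zero hM _ (fun v => by
      rw [hmapR, map_sub, map_neg, constantCoeff_map, hg0c, map_zero, map_mul, map_pow,
        constantCoeff_X, zero_pow (he v).ne', mul_zero, neg_zero, sub_zero]) f hf)
  have hadd := N3b.trace_add (F := RatFunc C) J e' he' ε'
  have hfirst : Algebra.trace (RatFunc C) (MvPolynomial V (RatFunc C) ⧸ (J ⊔ Ideal.span {e'}))
      (Ideal.Quotient.mk _ ε') ∈ N7.T C := by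
    have hfin3 : FiniteDimensional (RatFunc C)
        (MvPolynomial V (RatFunc C) ⧸ (J ⊔ Ideal.span {e'})) := N7.finite_quot le_sup_left
    refine N3.trace_mem _ (N7.T C) _ fun I hI hJI => ?_
    by_contra hc
    obtain ⟨E, iE, f, w, c, hw, hwc, hev, h0⟩ := N5.exists_arc (p := p) hM h' hh1 ε K₁
      (by rw [hJ1]; exact hε) (fun v => by rw [hJ1]; exact hεX v) I hI
      (fun v => hJI (Ideal.mem_sup_left (Ideal.subset_span (Set.mem_range_self v)))) hc
    refine hno ⟨E, iE, f, w, c, hw, hwc, Or.inr ⟨?_, fun v => ?_⟩⟩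
    · by_contra hall
      push Not at hall
      have h5 := h0 hall
      have h6 : Ideal.span (Set.range (X : V → MvPolynomial V (RatFunc C))) ≤ I := by
        rw [Ideal.span_le]
        rintro _ ⟨v, rfl⟩
        exact h5 v
      have h7 : 1 - e' ∈ I := h6 (N7.mem_of_const _ (by rw [map_sub, map_one, he'c, sub_self]))
      have h8 : e' ∈ I := hJI (Ideal.mem_sup_right (Ideal.mem_span_singleton_self e'))
      have h9 := I.add_mem h7 h8
      rw [sub_add_cancel] at h9
      exact hI.ne_top ((Ideal.eq_top_iff_one I).2 h9)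
    · have h3 := hev v
      have h4 : eval₂ f c (h' v) =
          -eval₂ (f.comp Polynomial.C) c (g0 v) - f Polynomial.X * c v ^ e v := by
        have h5 : eval₂ f c (h' v) = eval₂Hom f c (h' v) := rfl
        rw [h5, hh'def, map_sub, map_neg, map_mul, map_pow, coe_eval₂Hom, eval₂_map, eval₂_C,
          eval₂_X]
      rw [eval₂_sub, eval₂_pow, eval₂_X, h4] at h3
      linear_combination h3
  -- the second quotient
  set K : ℕ := max K₀ (∑ v, e v + 1) with hK
  set h'' : V → MvPolynomial V (RatFunc C) := fun v =>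
    -(MvPolynomial.C (RatFunc.X)⁻¹ *
      MvPolynomial.map (RatFunc.C : C →+* RatFunc C) (g0 v + X v ^ M)) with hh''
  have hX0 : (RatFunc.X : RatFunc C) ≠ 0 := RatFunc.X_ne_zero
  have hgen : ∀ v, X v ^ M - MvPolynomial.map (toRat C) (h' v) =
      MvPolynomial.C RatFunc.X * (X v ^ e v - h'' v) := by
    intro v
    have h1 : (MvPolynomial.C RatFunc.X : MvPolynomial V (RatFunc C)) *
        MvPolynomial.C (RatFunc.X)⁻¹ = 1 := by
      rw [← C_mul, mul_inv_cancel₀ hX0, C_1]
    have h2 : h'' v = -(MvPolynomial.C (RatFunc.X)⁻¹ *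
        (MvPolynomial.map (RatFunc.C : C →+* RatFunc C) (g0 v) + X v ^ M)) := by
      have h3 : h'' v = -(MvPolynomial.C (RatFunc.X)⁻¹ *
        MvPolynomial.map (RatFunc.C : C →+* RatFunc C) (g0 v + X v ^ M)) := rfl
      rw [h3, map_add, map_pow, map_X]
    rw [hmapR, h2]
    linear_combination (-(MvPolynomial.map (RatFunc.C : C →+* RatFunc C) (g0 v) + X v ^ M)) * h1
  have hJeq : J = Ideal.span (Set.range fun v => X v ^ e v - h'' v) := by
    rw [hJ]
    apply le_antisymm
    · rw [Ideal.span_le]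
      rintro _ ⟨v, rfl⟩
      change X v ^ M - MvPolynomial.map (toRat C) (h' v) ∈
        Ideal.span (Set.range fun v => X v ^ e v - h'' v)
      rw [hgen]
      exact Ideal.mul_mem_left _ _ (Ideal.subset_span (Set.mem_range_self v))
    · rw [Ideal.span_le]
      rintro _ ⟨v, rfl⟩
      change X v ^ e v - h'' v ∈
        Ideal.span (Set.range fun v => X v ^ M - MvPolynomial.map (toRat C) (h' v))
      have h1 : X v ^ e v - h'' v = MvPolynomial.C (RatFunc.X)⁻¹ *
          (X v ^ M - MvPolynomial.map (toRat C) (h' v)) := by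
        rw [hgen, ← mul_assoc, ← C_mul, inv_mul_cancel₀ hX0, C_1, one_mul]
      rw [h1]
      exact Ideal.mul_mem_left _ _ (Ideal.subset_span (Set.mem_range_self v))
  have hsecJ : J ⊔ Ideal.span {1 - e'} =
      (Ideal.span (Set.range fun v => X v ^ e v - h'' v) ⊔ Ideal.span (Set.range X) ^ K :
        Ideal (MvPolynomial V (RatFunc C))) := by
    rw [he'K K (le_max_left _ _), hJeq]
  have hN2 := N2.finrank_local (RatFunc.inftyValuation C) e he h''
    (by
      intro v γ hγ
      have h1 : γ ∈ (g0 v + X v ^ M).support := by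
        rw [mem_support_iff] at hγ ⊢
        intro h2
        apply hγ
        rw [hh'']
        change coeff γ (-(MvPolynomial.C (RatFunc.X)⁻¹ *
          MvPolynomial.map (RatFunc.C : C →+* RatFunc C) (g0 v + X v ^ M))) = 0
        rw [coeff_neg, coeff_C_mul, coeff_map, h2, map_zero, mul_zero, neg_zero]
      rcases Finset.mem_union.1 (support_add h1) with h2 | h2
      · exact hlow v γ h2
      · rw [X_pow_eq_monomial] at h2
        have h3 := support_monomial_subset h2
        rw [Finset.mem_singleton] at h3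
        rw [h3, Finsupp.degree_single]
        exact (heM v).le)
    (by
      intro v γ
      have h1 : coeff γ (h'' v) = -((RatFunc.X)⁻¹ * RatFunc.C (coeff γ (g0 v + X v ^ M))) := by
        rw [hh'']
        change coeff γ (-(MvPolynomial.C (RatFunc.X)⁻¹ *
          MvPolynomial.map (RatFunc.C : C →+* RatFunc C) (g0 v + X v ^ M))) = _
        rw [coeff_neg, coeff_C_mul, coeff_map]
      rw [h1, Valuation.map_neg, map_mul]
      have h2 : RatFunc.inftyValuation C (RatFunc.X)⁻¹ < 1 := by
        rw [← one_div, RatFunc.inftyValuation.X_inv]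
        exact WithZero.exp_lt_exp.2 (by norm_num : (-1 : ℤ) < 0)
      have h3 : RatFunc.inftyValuation C (RatFunc.C (coeff γ (g0 v + X v ^ M))) ≤ 1 := by
        by_cases h4 : coeff γ (g0 v + X v ^ M) = 0
        · rw [h4, map_zero, map_zero]
          exact zero_le_one
        · exact (RatFunc.inftyValuation.C C h4).le
      exact mul_lt_one_of_lt_of_le h2 h3) K
    (lt_of_lt_of_le (Nat.lt_succ_self _) (le_max_right _ _))
  obtain ⟨hfin4, hrank⟩ := hN2
  have hsec : Algebra.trace (RatFunc C) (MvPolynomial V (RatFunc C) ⧸ (J ⊔ Ideal.span {1 - e'}))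
      (Ideal.Quotient.mk _ ε') = ((∏ v, e v : ℕ) : RatFunc C) := by
    rw [N7.trace_congr hsecJ]
    set I₂ := (Ideal.span (Set.range fun v => X v ^ e v - h'' v) ⊔ Ideal.span (Set.range X) ^ K :
        Ideal (MvPolynomial V (RatFunc C))) with hI₂
    have h1 : Ideal.Quotient.mk I₂ ε' = Ideal.Quotient.mk I₂ (ε' - 1) +
        algebraMap (RatFunc C) (MvPolynomial V (RatFunc C) ⧸ I₂) 1 := by
      rw [map_one, map_sub, map_one, sub_add_cancel]
    have h2 : (Ideal.Quotient.mk I₂ (ε' - 1)) ^ K = 0 := by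
      rw [← map_pow, Ideal.Quotient.eq_zero_iff_mem]
      refine Ideal.mem_sup_right (Ideal.pow_mem_pow (N7.mem_of_const _ ?_) K)
      rw [map_sub, map_one, hε', constantCoeff_map, hεc, map_one, sub_self]
    have h3 : Algebra.trace (RatFunc C) (MvPolynomial V (RatFunc C) ⧸ I₂)
        (Ideal.Quotient.mk I₂ (ε' - 1)) = 0 := by
      rw [Algebra.trace_apply]
      have h4 : IsNilpotent (Algebra.lmul (RatFunc C) (MvPolynomial V (RatFunc C) ⧸ I₂)
          (Ideal.Quotient.mk I₂ (ε' - 1))) := by
        refine ⟨K, ?_⟩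
        rw [← map_pow, h2, map_zero]
      exact (LinearMap.isNilpotent_trace_of_isNilpotent h4).eq_zero
    rw [h1, map_add, h3, zero_add, Algebra.trace_algebraMap, hrank, nsmul_eq_mul, mul_one]
  have hmem : ((∏ v, e v : ℕ) : RatFunc C) ∈ N7.T C := by
    rw [← hsec]
    have h1 := (N7.T C).sub_mem htJ hfirst
    rw [hadd, add_sub_cancel_left] at h1
    exact h1
  have h1 : ((∏ v, e v : ℕ) : RatFunc C) = toRat C ((∏ v, e v : ℕ) : Polynomial C) := by
    rw [map_natCast]
  rw [h1, N7.mem_T, map_natCast, CharP.cast_eq_zero_iff C p] at hmem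
  obtain ⟨v, -, hv⟩ := (Nat.Prime.prime (Fact.out : p.Prime)).exists_mem_finset_dvd hmem
  exact hep v hv

end Pool.Agent.Helper62.DL
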