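import Mathlib
import Pool.Agent.Helper62.DL.St.N7
import Pool.Agent.Helper62.DL.St.S1
import Pool.Agent.Helper62.DL.St.S2
import Pool.Agent.Helper62.DL.St.S3
import Pool.Agent.Helper62.DL.St.G1
import Pool.Agent.Helper62.DL.St.CI

/-!
PROJECT DL, piece Core (about 250 lines). The characteristic `p` theorem: no identity
`s R = ∑ bb_{ml} D^l(u_m)` with `s(0) ≠ 0` and `R` a nonzero polynomial in the parameters only.

Data: `L` a field with a derivation `D`, `C` a separably closed field of characteristic `p`, `L` finite over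
`C`, `a^p ∈ C` for all `a ∈ L`, `D` is zero on `C`. Coefficients in `K₁`, `κ : K₁ → L` differential, and
`α = 0` or the derivation of `K₁` is zero. `u_m = û_m + t_m`. `R = R̂ + R'` with `R̂` weighted homogeneous of
weight `r`, `R'` of weight `> r` and `R̂(β) ≠ 0`.

Proof. Choose a basis `ω` of `L/C`, `V = ι × κ₀`, an equivalence `ε : ι ≃ σ`. G1 gives for `u_m = û_m + t_m`
polynomials `g_{m,k}`; for `v = (j, k)` put `g_v = g_{ε j, k}`, `e_v = e (ε j)`. `u_m` is `Low e_m`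
(`û_m` homogeneous, `t_m` low). Choose `M > r`, `M > 0`, `M > e_v`, `M > totalDegree g_v`. N7 (with
`p ∤ e_v` as `0 < e_v < p`) gives `E, f, w, c`. Make `E` a `C`-algebra by `f ∘ Polynomial.C`; `τ = f X`.
S2 gives `W` (the hypotheses are fields of `IsPlace`). Let `μ = max_v w (c_v)^p < 1` (if `V` is empty or all
`c_v = 0` see below).
Case (I): `c ≠ 0`, so `μ ≠ 0`. `θ = 0`, `δ` from S1 with `t = 0^α`, `x` the point of G1: by G1
`u_m(x) = ∑_k ω_k ⊗ eval₂ .. c (g_{m,k})`, and `eval₂ (eval₂RingHom .. 0) c g = eval₂ .. c (map (evalRingHom 0) g)`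
`= - τ c_v^(e_v) - c_v^M`, so `W (u_m(x)) ≤ μ^(e_m) ρ` with `ρ = max (w τ ^ p) μ < 1` by (c2).
`W (x_j) ≤ μ`, `W (x_(inr l)) = 0`. `W (δ x) ≤ w (0^α)^p W x ≤ μ^α W x`. The homomorphism
`K₁ → L → L ⊗ E` is compatible with the derivations: if `α = 0` then `δ (l ⊗ 1) = D l ⊗ 1`; if the derivation
of `K₁` is zero then `D (κ a) = 0`. CI.core_ineq: `W (x_j) < μ` for all `j`, but by (c1)
`w (c_v)^p ≤ W (x_j)` for the `v = (j, k)` where the maximum is attained. Contradiction.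
Case (II): `θ = τ`, `x_(inr l) = β_l ⊗ τ`, `W = w τ ^ p` or `0`; put `T = w τ ^ p`, `0 < T < 1`. By G1
`u_m(x) = - ∑_k ω_k ⊗ c_v^M`, `W (u_m(x)) ≤ μ^M`. If `μ > T`: CI.core_ineq with
`ρ = max (T / μ) μ` (`W (δ x) ≤ T^α W x ≤ μ^α W x`) is a contradiction as before. So `μ ≤ T` (also if
`μ = 0`), all `W (x_j) ≤ T`, `W (u_m(x)) ≤ T^M`, `W (δ x) ≤ T^α W x ≤ W x`. Evaluate (I1) at `x`:
`W (s(x)) = 1` (constant term has value `1`, the rest is `Low 1`, value `≤ T < 1`, CI.val_le),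
`W (right side) ≤ T^M` (coefficients `≤ 1`, `δ^l` does not increase `W`). `R̂(x) = τ^r R̂(β)`: the value of
`(inr l, k)` is `δ^k (β_l ⊗ τ) = D^k β_l ⊗ τ^(1 + α k)`, so for `R̂` homogeneous of weight `r`,
`ev .. x (par R̂) = ev κ D β R̂ ⊗ τ^r`, whose value is `T^r` exactly; `W (R'(x)) ≤ T^(r+1)`. So
`W (R(x)) = T^r` and `T^r ≤ T^M`, which is impossible as `r < M` and `0 < T < 1`.
-/

open MvPolynomial

namespace Pool.Agent.Helper62.DL

open Pool.Agent.Helper21.PD


theorem Core.low_sum {υ K₁ : Type} [Field K₁] (W : υ → ℕ) (e : ℕ) (uh t : MvPolynomial υ K₁)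
    (huh : uh.IsWeightedHomogeneous W e) (ht : Low W (e + 1) t) : Low W e (uh + t) := by
  classical
  intro γ hγ
  rcases Finset.mem_union.1 (support_add hγ) with h | h
  · exact (huh (mem_support_iff.1 h)).ge
  · exact (Nat.le_succ e).trans (ht γ h)

theorem Core.low_zero {υ K₁ : Type} [Field K₁] (W : υ → ℕ) (g : MvPolynomial υ K₁) : Low W 0 g :=
  fun _ _ => Nat.zero_le _

theorem Core.low_one {υ K₁ : Type} [Field K₁] (α : ℕ) (g : MvPolynomial (υ × ℕ) K₁)
    (h0 : constantCoeff g = 0) : Low (wa α) 1 g := by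
  intro γ hγ
  by_contra hc
  push Not at hc
  have h1 : Finsupp.weight (wa α) γ = 0 := by omega
  have h2 : γ = 0 := by
    refine Finsupp.ext fun v => ?_
    rw [Finsupp.weight_apply, Finsupp.sum] at h1
    by_contra hv
    have hv' : v ∈ γ.support := Finsupp.mem_support_iff.2 hv
    have h3 := Finset.sum_eq_zero_iff.1 h1 v hv'
    rw [smul_eq_mul] at h3
    rcases Nat.mul_eq_zero.1 h3 with h4 | h4
    · exact hv h4
    · change 1 + α * v.2 = 0 at h4
      omega
  rw [h2, mem_support_iff] at hγ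
  exact hγ h0

theorem Core.iter_le {S : Type} [CommRing S] (δ : Der S) (W : Valuation S Γ₀)
    (hδ : ∀ x, W (δ x) ≤ W x) (k : ℕ) (y : S) : W ((δ)^[k] y) ≤ W y := by
  induction k with
  | zero => exact le_rfl
  | succ k ih =>
    rw [Function.iterate_succ_apply']
    exact (hδ _).trans ih

theorem Core.ev_par {K S : Type} [Field K] [CommRing S] (f : K →+* S) (δ : Der S) {ι ι' : Type}
    (x : ι ⊕ ι' → S) (g : MvPolynomial (ι' × ℕ) K) :
    ev f δ x (par g) = ev f δ (fun l => x (Sum.inr l)) g := by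
  rw [ev, ev, coe_eval₂Hom, coe_eval₂Hom, par, eval₂_rename]
  rfl

theorem Core.ev_homog {C L K₁ : Type} [Field C] [Field L] [Algebra C L] [Field K₁] (D : Der L)
    (κ : K₁ →+* L) (α : ℕ) {ι' : Type} (β : ι' → L) (E : Type) [Field E] [Algebra C E] (θ : E)
    (δ : Der (TensorProduct C L E))
    (hδ : ∀ (l : L) (e : E), δ (TensorProduct.tmul C l e) = TensorProduct.tmul C (D l) (θ ^ α * e))
    (r : ℕ) (g : MvPolynomial (ι' × ℕ) K₁) (hg : g.IsWeightedHomogeneous (wa α) r) :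
    ev ((Algebra.TensorProduct.includeLeftRingHom : L →+* TensorProduct C L E).comp κ) δ
      (fun l => TensorProduct.tmul C (β l) θ) g = TensorProduct.tmul C (ev κ D β g) (θ ^ r) := by
  rw [ev, ev, coe_eval₂Hom, coe_eval₂Hom, eval₂_eq, eval₂_eq, TensorProduct.sum_tmul]
  refine Finset.sum_congr rfl fun γ hγ => ?_
  have hw : Finsupp.weight (wa α) γ = r := hg (mem_support_iff.1 hγ)
  have h1 : ∀ v : ι' × ℕ, (δ)^[v.2] (TensorProduct.tmul C (β v.1) θ) =
      TensorProduct.tmul C ((D)^[v.2] (β v.1)) (θ ^ (1 + α * v.2)) := by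
    intro v
    rw [G1.delta_iterate D α E θ δ hδ]
    congr 1
    ring
  have h2 : ∏ v ∈ γ.support, ((δ)^[v.2] (TensorProduct.tmul C (β v.1) θ)) ^ γ v =
      TensorProduct.tmul C (∏ v ∈ γ.support, ((D)^[v.2] (β v.1)) ^ γ v)
        (∏ v ∈ γ.support, (θ ^ (1 + α * v.2)) ^ γ v) := by
    have h3 : ∀ s : Finset (ι' × ℕ), ∏ v ∈ s, ((δ)^[v.2] (TensorProduct.tmul C (β v.1) θ)) ^ γ v =
      TensorProduct.tmul C (∏ v ∈ s, ((D)^[v.2] (β v.1)) ^ γ v)
        (∏ v ∈ s, (θ ^ (1 + α * v.2)) ^ γ v) := by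
      classical
      intro s
      induction s using Finset.induction_on with
      | empty => simp [Algebra.TensorProduct.one_def]
      | insert a s ha ih =>
        rw [Finset.prod_insert ha, Finset.prod_insert ha, Finset.prod_insert ha, ih, h1,
          Algebra.TensorProduct.tmul_pow, Algebra.TensorProduct.tmul_mul_tmul]
    exact h3 _
  have h4 : ∏ v ∈ γ.support, (θ ^ (1 + α * v.2)) ^ γ v = θ ^ r := by
    rw [← hw, Finsupp.weight_apply, Finsupp.sum, ← Finset.prod_pow_eq_pow_sum]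
    refine Finset.prod_congr rfl fun v _ => ?_
    rw [← pow_mul, smul_eq_mul, mul_comm]
  rw [h2, h4]
  change (TensorProduct.tmul C (κ (coeff γ g)) (1 : E)) * _ = _
  rw [Algebra.TensorProduct.tmul_mul_tmul, one_mul]

theorem Core.compat {C L K₁ : Type} [Field C] [Field L] [Algebra C L] [Field K₁] (D : Der L)
    (d : Der K₁) (κ : K₁ →+* L) (hκ : ∀ a, κ (d a) = D (κ a)) (α : ℕ)
    (hα : α = 0 ∨ ∀ a, d a = 0) (E : Type) [Field E] [Algebra C E] (θ : E)
    (δ : Der (TensorProduct C L E))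
    (hδ : ∀ (l : L) (e : E), δ (TensorProduct.tmul C l e) = TensorProduct.tmul C (D l) (θ ^ α * e))
    (a : K₁) :
    ((Algebra.TensorProduct.includeLeftRingHom : L →+* TensorProduct C L E).comp κ) (d a) =
      δ (((Algebra.TensorProduct.includeLeftRingHom : L →+* TensorProduct C L E).comp κ) a) := by
  change TensorProduct.tmul C (κ (d a)) (1 : E) = δ (TensorProduct.tmul C (κ a) (1 : E))
  rw [hδ, hκ]
  rcases hα with h | h
  · rw [h, pow_zero, mul_one]
  · have h1 : D (κ a) = 0 := by rw [← hκ, h, map_zero]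
    rw [h1, TensorProduct.zero_tmul, TensorProduct.zero_tmul]

theorem Core.W_tmul {C L E : Type} [Field C] [Field L] [Algebra C L] [Field E] [Algebra C E]
    {p : ℕ} (w : Valuation E Γ₀) (W : Valuation (TensorProduct C L E) Γ₀)
    (hWL : ∀ l : L, l ≠ 0 → W (TensorProduct.tmul C l (1 : E)) = 1)
    (hWE : ∀ e : E, W (TensorProduct.tmul C (1 : L) e) = w e ^ p) (l : L) (hl : l ≠ 0) (e : E) :
    W (TensorProduct.tmul C l e) = w e ^ p := by
  have h1 : TensorProduct.tmul C l e = TensorProduct.tmul C l (1 : E) * TensorProduct.tmul C (1 : L) e := by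
    rw [Algebra.TensorProduct.tmul_mul_tmul, mul_one, one_mul]
  rw [h1, map_mul, hWL l hl, hWE, one_mul]

theorem Core.W_tmul_le {C L E : Type} [Field C] [Field L] [Algebra C L] [Field E] [Algebra C E]
    {p : ℕ} (w : Valuation E Γ₀) (W : Valuation (TensorProduct C L E) Γ₀)
    (hWL : ∀ l : L, l ≠ 0 → W (TensorProduct.tmul C l (1 : E)) = 1)
    (hWE : ∀ e : E, W (TensorProduct.tmul C (1 : L) e) = w e ^ p) (l : L) (e : E) :
    W (TensorProduct.tmul C l e) ≤ w e ^ p := by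
  by_cases hl : l = 0
  · rw [hl, TensorProduct.zero_tmul, map_zero]
    exact zero_le
  · exact (Core.W_tmul w W hWL hWE l hl e).le

theorem Core.step {p : ℕ} [Fact p.Prime] {C L K₁ : Type} [Field C] [Field L] [Algebra C L]
    (D : Der L) [Field K₁] (d : Der K₁) (κ : K₁ →+* L) (hκ : ∀ a, κ (d a) = D (κ a))
    (α : ℕ) (hα : α = 0 ∨ ∀ a, d a = 0) {ι ι' σ : Type} [Fintype ι] [Fintype ι'] [Fintype σ]
    (e : σ → ℕ) (uh t : σ → MvPolynomial ((ι ⊕ ι') × ℕ) K₁)
    (ht : ∀ m, Low (wa α) (e m + 1) (t m))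
    (N Mo : ℕ) (a : ι → σ → ℕ → MvPolynomial ((ι ⊕ ι') × ℕ) K₁)
    (b : ι → ι' → ℕ → MvPolynomial ((ι ⊕ ι') × ℕ) K₁)
    (ha : ∀ j m l, ∃ r, N ≤ r + e m + α * l ∧ Low (wa α) r (a j m l))
    (hb : ∀ j l k, ∃ r, N ≤ r + 1 + α * k ∧ Low (wa α) r (b j l k))
    (hid : ∀ j : ι, X (Sum.inl j, 0) ^ N =
      (∑ m, ∑ l ∈ Finset.range Mo, a j m l * (dext d)^[l] (uh m)) +
        ∑ l, ∑ k ∈ Finset.range Mo, b j l k * X (Sum.inr l, k))
    {κ₀ : Type} [Fintype κ₀] (ω : Module.Basis κ₀ C L) (β : ι' → L)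
    (E : Type) [Field E] [Algebra C E] (w : Valuation E Γ₀)
    (hw : ∀ a : C, a ≠ 0 → w (algebraMap C E a) = 1)
    (W : Valuation (TensorProduct C L E) Γ₀)
    (hWL : ∀ l : L, l ≠ 0 → W (TensorProduct.tmul C l (1 : E)) = 1)
    (hWE : ∀ e : E, W (TensorProduct.tmul C (1 : L) e) = w e ^ p)
    (hW1 : ∀ (c : κ₀ → E) (k : κ₀), w (c k) ^ p ≤ W (∑ k, TensorProduct.tmul C (ω k) (c k)))
    (hW2 : ∀ (c : κ₀ → E) (y : Γ₀), (∀ k, w (c k) ^ p ≤ y) →
      W (∑ k, TensorProduct.tmul C (ω k) (c k)) ≤ y)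
    (θ : E) (δ : Der (TensorProduct C L E))
    (hδ : ∀ (l : L) (e : E), δ (TensorProduct.tmul C l e) = TensorProduct.tmul C (D l) (θ ^ α * e))
    (c : ι × κ₀ → E) (v₀ : ι × κ₀) (hmax : ∀ v, w (c v) ≤ w (c v₀)) (h0 : c v₀ ≠ 0)
    (h1 : w (c v₀) < 1) (ρ : Γ₀) (hρ : ρ < 1) (hθ : w θ ^ p ≤ w (c v₀) ^ p * ρ)
    (hu : ∀ m, W (ev ((Algebra.TensorProduct.includeLeftRingHom :
      L →+* TensorProduct C L E).comp κ) δ
        (Sum.elim (fun j => ∑ k, TensorProduct.tmul C (ω k) (c (j, k)))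
          (fun l => TensorProduct.tmul C (β l) θ)) (uh m + t m)) ≤ (w (c v₀) ^ p) ^ e m * ρ) :
    False := by
  have hp0 : p ≠ 0 := (Fact.out : p.Prime).ne_zero
  obtain ⟨μ, hμ⟩ : ∃ μ : Γ₀, μ = w (c v₀) ^ p := ⟨_, rfl⟩
  have hμ0 : μ ≠ 0 := by
    rw [hμ]
    exact pow_ne_zero p ((Valuation.ne_zero_iff w).2 h0)
  have hμ1 : μ < 1 := by
    rw [hμ]
    exact pow_lt_one₀ zero_le h1 hp0
  rw [← hμ] at hθ
  have hle : w θ ^ p ≤ μ := hθ.trans (by
    calc μ * ρ ≤ μ * 1 := mul_le_mul' le_rfl hρ.le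
      _ = μ := mul_one μ)
  have hx : ∀ j, W (∑ k, TensorProduct.tmul C (ω k) (c (j, k))) ≤ μ := by
    intro j
    refine hW2 (fun k => c (j, k)) μ fun k => ?_
    rw [hμ]
    exact pow_le_pow_left₀ zero_le (hmax (j, k)) p
  have hδW : ∀ x, W (δ x) ≤ μ ^ α * W x := by
    intro x
    refine (S3.der_le w hw ω D (θ ^ α) δ hδ W hW1 hW2 x).trans ?_
    refine mul_le_mul' ?_ le_rfl
    rw [map_pow, ← pow_mul, mul_comm, pow_mul]
    exact pow_le_pow_left₀ zero_le hle α
  have hf : ∀ a, W (((Algebra.TensorProduct.includeLeftRingHom :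
      L →+* TensorProduct C L E).comp κ) a) ≤ 1 := by
    intro a
    change W (TensorProduct.tmul C (κ a) (1 : E)) ≤ 1
    have := Core.W_tmul_le w W hWL hWE (κ a) (1 : E)
    rw [map_one, one_pow] at this
    exact this
  have key := CI.core_ineq d _ δ (Core.compat D d κ hκ α hα E θ δ hδ) W hf α μ ρ hμ0 hμ1 hρ hδW
    e uh t ht N Mo a b ha hb hid
    (Sum.elim (fun j => ∑ k, TensorProduct.tmul C (ω k) (c (j, k)))
          (fun l => TensorProduct.tmul C (β l) θ)) hx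
    (fun l => (Core.W_tmul_le w W hWL hWE (β l) θ).trans hθ)
    (fun m => by
      rw [hμ]
      exact hu m) v₀.1
  have key2 := hW1 (fun k => c (v₀.1, k)) v₀.2
  change w (c v₀) ^ p ≤ _ at key2
  rw [← hμ] at key2
  exact absurd key (not_lt.2 key2)

theorem Core.no_identity {p : ℕ} [Fact p.Prime] {C L K₁ : Type} [Field C] [IsSepClosed C]
    [CharP C p] [Field L] [Algebra C L] [Module.Finite C L]
    (hpC : ∀ a : L, ∃ c : C, algebraMap C L c = a ^ p)
    (D : Der L) (hD : ∀ c : C, D (algebraMap C L c) = 0)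
    [Field K₁] (d : Der K₁) (κ : K₁ →+* L) (hκ : ∀ a, κ (d a) = D (κ a))
    (α : ℕ) (hα : α = 0 ∨ ∀ a, d a = 0) {ι ι' σ : Type} [Fintype ι] [Fintype ι'] [Fintype σ]
    (hcard : Fintype.card σ = Fintype.card ι) (e : σ → ℕ) (he : ∀ m, 0 < e m)
    (hep : ∀ m, e m < p) (uh t : σ → MvPolynomial ((ι ⊕ ι') × ℕ) K₁)
    (huh : ∀ m, (uh m).IsWeightedHomogeneous (wa α) (e m))
    (ht : ∀ m, Low (wa α) (e m + 1) (t m))
    (N Mo : ℕ) (a : ι → σ → ℕ → MvPolynomial ((ι ⊕ ι') × ℕ) K₁)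
    (b : ι → ι' → ℕ → MvPolynomial ((ι ⊕ ι') × ℕ) K₁)
    (ha : ∀ j m l, ∃ r, N ≤ r + e m + α * l ∧ Low (wa α) r (a j m l))
    (hb : ∀ j l k, ∃ r, N ≤ r + 1 + α * k ∧ Low (wa α) r (b j l k))
    (hid : ∀ j : ι, X (Sum.inl j, 0) ^ N =
      (∑ m, ∑ l ∈ Finset.range Mo, a j m l * (dext d)^[l] (uh m)) +
        ∑ l, ∑ k ∈ Finset.range Mo, b j l k * X (Sum.inr l, k))
    (s : MvPolynomial ((ι ⊕ ι') × ℕ) K₁) (hs : constantCoeff s ≠ 0) (r : ℕ)
    (Rh R' : MvPolynomial (ι' × ℕ) K₁) (hRh : Rh.IsWeightedHomogeneous (wa α) r)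
    (hR' : Low (wa α) (r + 1) R') (β : ι' → L) (hβ : ev κ D β Rh ≠ 0) (Mo' : ℕ)
    (bb : σ → ℕ → MvPolynomial ((ι ⊕ ι') × ℕ) K₁)
    (hI1 : s * par (Rh + R') =
      ∑ m, ∑ l ∈ Finset.range Mo', bb m l * (dext d)^[l] (uh m + t m)) : False := by
  classical
  have hp0 : p ≠ 0 := (Fact.out : p.Prime).ne_zero
  -- the basis
  obtain ⟨κ₀, iκ, ⟨ω⟩⟩ : ∃ (κ₀ : Type) (_ : Fintype κ₀), Nonempty (Module.Basis κ₀ C L) :=
    ⟨Fin (Module.finrank C L), inferInstance, ⟨Module.finBasis C L⟩⟩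
  let ε : ι ≃ σ := Fintype.equivOfCardEq hcard.symm
  have hG := fun m => G1.exists_numeric D hD ω α κ β (uh m + t m)
  choose g hg1 hg2 using hG
  let gv : ι × κ₀ → MvPolynomial (ι × κ₀) (Polynomial C) := fun v => g (ε v.1) v.2
  let e' : ι × κ₀ → ℕ := fun v => e (ε v.1)
  obtain ⟨M, hM⟩ : ∃ M : ℕ, M = r + 1 + (∑ v, e' v) + ∑ v, (gv v).totalDegree := ⟨_, rfl⟩
  have hrM : r < M := by omega
  have heM : ∀ v, e' v < M := by
    intro v
    have h1 : e' v ≤ ∑ v, e' v := Finset.single_le_sum (fun _ _ => Nat.zero_le _) (Finset.mem_univ v)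
    omega
  have hgM : ∀ v, (gv v).totalDegree < M := by
    intro v
    have h1 : (gv v).totalDegree ≤ ∑ v, (gv v).totalDegree :=
      Finset.single_le_sum (f := fun v => (gv v).totalDegree) (fun _ _ => Nat.zero_le _)
        (Finset.mem_univ v)
    omega
  have hlow : ∀ v, ∀ γ ∈ (MvPolynomial.map (Polynomial.evalRingHom 0) (gv v)).support,
      e' v ≤ γ.degree := fun v =>
    hg2 (ε v.1) (e (ε v.1)) (Core.low_sum _ _ _ _ (huh _) (ht _)) v.2
  obtain ⟨E, iE, f, w, c, hpl, hwc, harc⟩ := N7.exists_arcs (p := p) e' (fun v => he _)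
    (fun v hdvd => absurd (Nat.le_of_dvd (he _) hdvd) (not_le.2 (hep _)))
    (by omega) heM gv hgM hlow
  letI iA : Algebra C E := (f.comp Polynomial.C).toAlgebra
  have hAlg : ∀ a : C, algebraMap C E a = f (Polynomial.C a) := fun _ => rfl
  have hw : ∀ a : C, a ≠ 0 → w (algebraMap C E a) = 1 := hpl.const
  obtain ⟨W, hWL, hWE, hW1, hW2⟩ := S2.exists_valuation (p := p) hpC w hw hpl.res ω
  have hf : ∀ a, W (((Algebra.TensorProduct.includeLeftRingHom :
      L →+* TensorProduct C L E).comp κ) a) ≤ 1 := by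
    intro a
    change W (TensorProduct.tmul C (κ a) (1 : E)) ≤ 1
    have := Core.W_tmul_le w W hWL hWE (κ a) (1 : E)
    rw [map_one, one_pow] at this
    exact this
  rcases harc with hII | ⟨⟨v₁, hv₁⟩, hI⟩
  · -- type II
    obtain ⟨τ, hτ⟩ : ∃ τ : E, τ = f Polynomial.X := ⟨_, rfl⟩
    have hτ0 : τ ≠ 0 := by
      rw [hτ]
      exact hpl.ne
    have hτ1 : w τ < 1 := by
      rw [hτ]
      exact hpl.lt
    obtain ⟨T, hT⟩ : ∃ T : Γ₀, T = w τ ^ p := ⟨_, rfl⟩
    have hT0 : T ≠ 0 := by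
      rw [hT]
      exact pow_ne_zero p ((Valuation.ne_zero_iff w).2 hτ0)
    have hT1 : T < 1 := by
      rw [hT]
      exact pow_lt_one₀ zero_le hτ1 hp0
    obtain ⟨δ, hδ⟩ := S1.exists_der D hD (τ ^ α)
    have hfe : Polynomial.eval₂RingHom (algebraMap C E) τ = f := by
      refine Polynomial.ringHom_ext ?_ ?_
      · intro a
        rw [Polynomial.coe_eval₂RingHom, Polynomial.eval₂_C, hAlg]
      · rw [Polynomial.coe_eval₂RingHom, Polynomial.eval₂_X, hτ]
    set x : ι ⊕ ι' → TensorProduct C L E :=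
      Sum.elim (fun j => ∑ k, TensorProduct.tmul C (ω k) (c (j, k)))
          (fun l => TensorProduct.tmul C (β l) τ) with hx
    set φ : K₁ →+* TensorProduct C L E := (Algebra.TensorProduct.includeLeftRingHom :
      L →+* TensorProduct C L E).comp κ with hφ
    have hux : ∀ (y : Γ₀), (∀ v, w (c v) ^ p ≤ y) → ∀ m, W (ev φ δ x (uh m + t m)) ≤ y ^ M := by
      intro y hy m
      rw [hg1 m E τ δ hδ c]
      refine hW2 _ _ fun k => ?_
      have h1 := hII (ε.symm m, k)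
      change eval₂ f c (g (ε (ε.symm m)) k) + c (ε.symm m, k) ^ M = 0 at h1
      rw [Equiv.apply_symm_apply] at h1
      rw [hfe, eq_neg_of_add_eq_zero_left h1, Valuation.map_neg, map_pow, ← pow_mul, mul_comm,
        pow_mul]
      exact pow_le_pow_left₀ zero_le (hy _) M
    have hsmall : ∀ v, w (c v) ^ p ≤ T := by
      by_contra hcon
      push Not at hcon
      obtain ⟨v₂, hv₂⟩ := hcon
      obtain ⟨v₀, -, hv₀⟩ := Finset.exists_max_image Finset.univ (fun v => w (c v))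
        ⟨v₂, Finset.mem_univ v₂⟩
      have hv₀' : ∀ v, w (c v) ≤ w (c v₀) := fun v => hv₀ v (Finset.mem_univ v)
      obtain ⟨μ, hμ⟩ : ∃ μ : Γ₀, μ = w (c v₀) ^ p := ⟨_, rfl⟩
      have hTμ : T < μ := by
        rw [hμ]
        exact hv₂.trans_le (pow_le_pow_left₀ zero_le (hv₀' v₂) p)
      have hμ0 : μ ≠ 0 := (lt_of_le_of_lt zero_le hTμ).ne'
      have hc0 : c v₀ ≠ 0 := by
        intro h
        rw [h, map_zero, zero_pow hp0] at hμ
        exact hμ0 hμ
      have hμ1 : μ < 1 := by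
        rw [hμ]
        exact pow_lt_one₀ zero_le (hwc v₀) hp0
      have hTle : T ≤ μ * max (T / μ) μ := by
        calc T = μ * (T / μ) := (mul_div_cancel₀ T hμ0).symm
          _ ≤ μ * max (T / μ) μ := mul_le_mul' le_rfl (le_max_left _ _)
      have hρ1 : max (T / μ) μ < 1 := by
        refine max_lt ?_ hμ1
        exact (div_lt_one₀ (zero_lt_iff.2 hμ0)).2 hTμ
      refine Core.step D d κ hκ α hα e uh t ht N Mo a b ha hb hid ω β E w hw W hWL hWE hW1 hW2 τ δ
        hδ c v₀ hv₀' hc0 (hwc v₀) (max (T / μ) μ) hρ1 ?_ ?_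
      · rw [← hT, ← hμ]
        exact hTle
      · intro m
        rw [← hμ]
        refine (hux μ (fun v => ?_) m).trans ?_
        · rw [hμ]
          exact pow_le_pow_left₀ zero_le (hv₀' v) p
        · have h2 : e m + 1 ≤ M := by
            have hne : Nonempty κ₀ := ⟨v₀.2⟩
            have h3 := heM (ε.symm m, v₀.2)
            change e (ε (ε.symm m)) < M at h3
            rw [Equiv.apply_symm_apply] at h3
            exact h3
          calc μ ^ M ≤ μ ^ (e m + 1) := pow_le_pow_right_of_le_one' hμ1.le h2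
            _ = μ ^ e m * μ := pow_succ _ _
            _ ≤ μ ^ e m * max (T / μ) μ := mul_le_mul' le_rfl (le_max_right _ _)
    -- now everything is at most T
    have hxT : ∀ j, W (x j) ≤ T := by
      rintro (j | l)
      · exact hW2 (fun k => c (j, k)) T fun k => hsmall (j, k)
      · rw [hT]
        exact Core.W_tmul_le w W hWL hWE (β l) τ
    have hδT : ∀ y, W (δ y) ≤ T ^ α * W y := by
      intro y
      refine (S3.der_le w hw ω D (τ ^ α) δ hδ W hW1 hW2 y).trans ?_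
      refine mul_le_mul' ?_ le_rfl
      rw [hT, map_pow, ← pow_mul, ← pow_mul, mul_comm]
    have hδ1 : ∀ y, W (δ y) ≤ W y := by
      intro y
      refine (hδT y).trans ?_
      calc T ^ α * W y ≤ 1 * W y := mul_le_mul' (pow_le_one₀ zero_le hT1.le) le_rfl
        _ = W y := one_mul _
    have hval : ∀ (n : ℕ) (q : MvPolynomial ((ι ⊕ ι') × ℕ) K₁), Low (wa α) n q →
        W (ev φ δ x q) ≤ T ^ n := fun n q hq =>
      CI.val_le φ δ W hf α T hT1.le hδT x hxT n q hq
    have hWs : W (ev φ δ x s) = 1 := by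
      have h1 : ev φ δ x s = φ (constantCoeff s) + ev φ δ x (s - MvPolynomial.C (constantCoeff s)) := by
        rw [map_sub, ev_C, add_sub_cancel]
      have h2 : W (φ (constantCoeff s)) = 1 :=
        hWL _ (fun h => hs ((map_eq_zero κ).1 h))
      have h3 : W (ev φ δ x (s - MvPolynomial.C (constantCoeff s))) < 1 := by
        refine (hval 1 _ (Core.low_one α _ ?_)).trans_lt ?_
        · rw [map_sub, constantCoeff_C, sub_self]
        · rw [pow_one]
          exact hT1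
      rw [h1, Valuation.map_add_eq_of_lt_left W (by rw [h2]; exact h3), h2]
    have hWR : W (ev φ δ x (par (Rh + R'))) = T ^ r := by
      rw [Core.ev_par, map_add]
      have h1 : ev φ δ (fun l => x (Sum.inr l)) Rh =
          TensorProduct.tmul C (ev κ D β Rh) (τ ^ r) :=
        Core.ev_homog D κ α β E τ δ hδ r Rh hRh
      have h2 : W (ev φ δ (fun l => x (Sum.inr l)) Rh) = T ^ r := by
        rw [h1, Core.W_tmul w W hWL hWE _ hβ, map_pow, hT, ← pow_mul, ← pow_mul, mul_comm]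
      have h3 : W (ev φ δ (fun l => x (Sum.inr l)) R') ≤ T ^ (r + 1) :=
        CI.val_le φ δ W hf α T hT1.le hδT (fun l => x (Sum.inr l)) (fun l => hxT _) (r + 1) R' hR'
      have h4 : T ^ (r + 1) < T ^ r := pow_lt_pow_right_of_lt_one₀ (zero_lt_iff.2 hT0) hT1 (by omega)
      rw [Valuation.map_add_eq_of_lt_left W (by rw [h2]; exact h3.trans_lt h4), h2]
    have hcompat := Core.compat D d κ hκ α hα E τ δ hδ
    have hRHS : W (ev φ δ x (∑ m, ∑ l ∈ Finset.range Mo', bb m l * (dext d)^[l] (uh m + t m))) ≤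
        T ^ M := by
      rw [map_sum]
      refine W.map_sum_le fun m _ => ?_
      rw [map_sum]
      refine W.map_sum_le fun l _ => ?_
      rw [map_mul, map_mul, ev_dext_iterate φ δ x d hcompat]
      calc W (ev φ δ x (bb m l)) * W ((δ)^[l] (ev φ δ x (uh m + t m)))
          ≤ T ^ 0 * T ^ M := mul_le_mul' (hval 0 _ (Core.low_zero _ _))
            ((Core.iter_le δ W hδ1 _ _).trans (hux T hsmall m))
        _ = T ^ M := by rw [pow_zero, one_mul]
    have hfin : T ^ r ≤ T ^ M := by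
      have h1 : W (ev φ δ x (s * par (Rh + R'))) = T ^ r := by
        rw [map_mul, map_mul, hWs, hWR, one_mul]
      rw [← h1, hI1]
      exact hRHS
    exact absurd hfin (not_le.2 (pow_lt_pow_right_of_lt_one₀ (zero_lt_iff.2 hT0) hT1 hrM))
  · -- type I
    obtain ⟨δ, hδ⟩ := S1.exists_der D hD ((0 : E) ^ α)
    obtain ⟨v₀, -, hv₀⟩ := Finset.exists_max_image Finset.univ (fun v => w (c v))
      ⟨v₁, Finset.mem_univ v₁⟩
    have hv₀' : ∀ v, w (c v) ≤ w (c v₀) := fun v => hv₀ v (Finset.mem_univ v)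
    obtain ⟨μ, hμ⟩ : ∃ μ : Γ₀, μ = w (c v₀) ^ p := ⟨_, rfl⟩
    have hc0 : c v₀ ≠ 0 := by
      intro h
      have h1 := hv₀' v₁
      rw [h, map_zero] at h1
      exact (Valuation.ne_zero_iff w).2 hv₁ (le_antisymm h1 zero_le)
    have hμ1 : μ < 1 := by
      rw [hμ]
      exact pow_lt_one₀ zero_le (hwc v₀) hp0
    have hρ1 : max (w (f Polynomial.X) ^ p) μ < 1 :=
      max_lt (pow_lt_one₀ zero_le hpl.lt hp0) hμ1
    refine Core.step D d κ hκ α hα e uh t ht N Mo a b ha hb hid ω β E w hw W hWL hWE hW1 hW2 0 δ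
      hδ c v₀ hv₀' hc0 (hwc v₀) (max (w (f Polynomial.X) ^ p) μ) hρ1 ?_ ?_
    · rw [map_zero, zero_pow hp0]
      exact zero_le
    · intro m
      rw [← hμ, hg1 m E 0 δ hδ c]
      refine hW2 _ _ fun k => ?_
      have h1 := hI (ε.symm m, k)
      change eval₂ (f.comp Polynomial.C) c (MvPolynomial.map (Polynomial.evalRingHom 0)
        (g (ε (ε.symm m)) k)) + f Polynomial.X * c (ε.symm m, k) ^ e (ε (ε.symm m)) +
          c (ε.symm m, k) ^ M = 0 at h1
      have h3 := heM (ε.symm m, k)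
      change e (ε (ε.symm m)) < M at h3
      rw [Equiv.apply_symm_apply] at h1 h3
      have h2 : eval₂ (Polynomial.eval₂RingHom (algebraMap C E) 0) c (g m k) =
          eval₂ (f.comp Polynomial.C) c (MvPolynomial.map (Polynomial.evalRingHom 0) (g m k)) := by
        rw [eval₂_map]
        congr 1
        refine Polynomial.ringHom_ext ?_ ?_
        · intro a
          simp [hAlg]
        · simp
      have h4 : eval₂ (Polynomial.eval₂RingHom (algebraMap C E) 0) c (g m k) =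
          -(f Polynomial.X * c (ε.symm m, k) ^ e m) - c (ε.symm m, k) ^ M := by
        rw [h2]
        linear_combination h1
      have hcμ : w (c (ε.symm m, k)) ^ p ≤ μ := by
        rw [hμ]
        exact pow_le_pow_left₀ zero_le (hv₀' _) p
      have h5 : w (f Polynomial.X * c (ε.symm m, k) ^ e m) ^ p ≤
          μ ^ e m * max (w (f Polynomial.X) ^ p) μ := by
        rw [map_mul, mul_pow, map_pow, ← pow_mul, mul_comm (e m) p, pow_mul, mul_comm]
        exact mul_le_mul' (pow_le_pow_left₀ zero_le hcμ _) (le_max_left _ _)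
      have h6 : w (c (ε.symm m, k) ^ M) ^ p ≤ μ ^ e m * max (w (f Polynomial.X) ^ p) μ := by
        rw [map_pow, ← pow_mul, mul_comm M p, pow_mul]
        calc (w (c (ε.symm m, k)) ^ p) ^ M ≤ μ ^ M := pow_le_pow_left₀ zero_le hcμ _
          _ ≤ μ ^ (e m + 1) := pow_le_pow_right_of_le_one' hμ1.le h3
          _ = μ ^ e m * μ := pow_succ _ _
          _ ≤ _ := mul_le_mul' le_rfl (le_max_right _ _)
      rw [h4]
      have h7 : w (-(f Polynomial.X * c (ε.symm m, k) ^ e m) - c (ε.symm m, k) ^ M) ≤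
          max (w (f Polynomial.X * c (ε.symm m, k) ^ e m)) (w (c (ε.symm m, k) ^ M)) := by
        refine (Valuation.map_sub w _ _).trans ?_
        rw [Valuation.map_neg]
      rcases le_total (w (f Polynomial.X * c (ε.symm m, k) ^ e m)) (w (c (ε.symm m, k) ^ M)) with
        h8 | h8
      · rw [max_eq_right h8] at h7
        exact (pow_le_pow_left₀ zero_le h7 p).trans h6
      · rw [max_eq_left h8] at h7
        exact (pow_le_pow_left₀ zero_le h7 p).trans h5

end Pool.Agent.Helper62.DL
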