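import Mathlib
import Pool.Agent.Helper62.DL.St.Core
import Pool.Agent.Helper62.DL.St.T6

/-!
PROJECT DL, piece Core2 (about 100 lines). The characteristic `p` theorem for a separably closed field `L` of
characteristic `p`, finite over `L^p`; all polynomials have coefficients in `L`, and if `α ≠ 0` these
coefficients are constants of `D` (but `β` is arbitrary).

Proof. Apply `Core.no_identity` with `C = (frobenius L p).fieldRange` (T6: it is separably closed; `D (a^p) = 0`
by `Der.pow` since `p = 0` in `L`). If `α = 0` take `K₁ = L`, `κ = id`, `d = D`. If `α ≠ 0` take for `K₁` the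
subfield of constants of `D` (closed under inverses: `0 = D (a a⁻¹) = a D (a⁻¹)`), `d = 0` (zero derivation),
`κ` the inclusion: all polynomials are images under `MvPolynomial.map κ` of polynomials over `K₁` (e.g.
`MvPolynomial.mem_range_map_iff_coeffs_subset`, or define the preimage by the coefficients), `map κ` is
injective, preserves supports (`MvPolynomial.support_map_of_injective`), so `Low`, weighted homogeneity,
constant coefficients; `map_dext_iterate` with the zero derivation and `D`; `ev κ D β Rh₁ = ev id D β Rh`.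
The identities over `K₁` follow by injectivity of `map κ`.
-/

open MvPolynomial

namespace Pool.Agent.Helper62.DL

open Pool.Agent.Helper21.PD

/-- The subfield of constants of a derivation. -/
def Core2.consts {L : Type} [Field L] (D : Der L) : Subfield L where
  carrier := {a | D a = 0}
  mul_mem' := by
    intro a b ha hb
    simp only [Set.mem_ofPred_eq] at *
    rw [D.mul, ha, hb]
    simp
  one_mem' := D.one
  add_mem' := by
    intro a b ha hb
    simp only [Set.mem_ofPred_eq] at *
    rw [D.add, ha, hb]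
    simp
  zero_mem' := D.zero
  neg_mem' := by
    intro a ha
    simp only [Set.mem_ofPred_eq] at *
    rw [D.neg, ha]
    simp
  inv_mem' := by
    intro a ha
    simp only [Set.mem_ofPred_eq] at *
    rcases eq_or_ne a 0 with h | h
    · subst h
      rw [inv_zero]
      exact D.zero
    · have h1 := D.mul a a⁻¹
      rw [mul_inv_cancel₀ h, D.one, ha, mul_zero, add_zero] at h1
      rcases mul_eq_zero.mp h1.symm with h2 | h2
      · exact absurd h2 h
      · exact h2

theorem Core2.mem_consts {L : Type} [Field L] (D : Der L) (a : L) :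
    a ∈ Core2.consts D ↔ D a = 0 := Iff.rfl

theorem Core2.exists_pre {L υ : Type} [Field L] (K : Subfield L) (f : MvPolynomial υ L)
    (h : ∀ γ, coeff γ f ∈ K) : ∃ g : MvPolynomial υ K, MvPolynomial.map K.subtype g = f := by
  classical
  refine ⟨∑ γ ∈ f.support, monomial γ (⟨coeff γ f, h γ⟩ : K), ?_⟩
  rw [map_sum]
  simp only [map_monomial]
  exact f.as_sum.symm

theorem Core2.low_of_map {L K υ : Type} [Field L] [Field K] (κ : K →+* L) (W : υ → ℕ) (e : ℕ)
    (g : MvPolynomial υ K) (h : Low W e (MvPolynomial.map κ g)) : Low W e g := by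
  intro γ hγ
  refine h γ ?_
  rw [mem_support_iff, coeff_map]
  rw [mem_support_iff] at hγ
  exact (map_ne_zero κ).mpr hγ

theorem Core2.hom_of_map {L K υ : Type} [Field L] [Field K] (κ : K →+* L) (W : υ → ℕ) (e : ℕ)
    (g : MvPolynomial υ K) (h : (MvPolynomial.map κ g).IsWeightedHomogeneous W e) :
    g.IsWeightedHomogeneous W e := by
  intro γ hγ
  refine h ?_
  rw [coeff_map]
  exact (map_ne_zero κ).mpr hγ

theorem Core2.ev_map {ι L K : Type} [Field L] [Field K] (κ : K →+* L) (D : Der L) (β : ι → L)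
    (g : MvPolynomial (ι × ℕ) K) :
    ev κ D β g = ev (RingHom.id L) D β (MvPolynomial.map κ g) := by
  unfold ev
  rw [eval₂Hom_map_hom, RingHom.id_comp]

/-- The zero derivation. -/
def Core2.zeroDer (K : Type) [Field K] : Der K where
  toFun _ := 0
  add' _ _ := by simp
  mul' _ _ := by simp

theorem Core2.no_identity {p : ℕ} [Fact p.Prime] {L : Type} [Field L] [CharP L p] [IsSepClosed L]
    (hfin : Module.Finite (frobenius L p).fieldRange L) (D : Der L)
    (α : ℕ) {ι ι' σ : Type} [Fintype ι] [Fintype ι'] [Fintype σ]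
    (hcard : Fintype.card σ = Fintype.card ι) (e : σ → ℕ) (he : ∀ m, 0 < e m)
    (hep : ∀ m, e m < p) (uh t : σ → MvPolynomial ((ι ⊕ ι') × ℕ) L)
    (huh : ∀ m, (uh m).IsWeightedHomogeneous (wa α) (e m))
    (ht : ∀ m, Low (wa α) (e m + 1) (t m))
    (N Mo : ℕ) (a : ι → σ → ℕ → MvPolynomial ((ι ⊕ ι') × ℕ) L)
    (b : ι → ι' → ℕ → MvPolynomial ((ι ⊕ ι') × ℕ) L)
    (ha : ∀ j m l, ∃ r, N ≤ r + e m + α * l ∧ Low (wa α) r (a j m l))
    (hb : ∀ j l k, ∃ r, N ≤ r + 1 + α * k ∧ Low (wa α) r (b j l k))
    (hid : ∀ j : ι, X (Sum.inl j, 0) ^ N =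
      (∑ m, ∑ l ∈ Finset.range Mo, a j m l * (dext D)^[l] (uh m)) +
        ∑ l, ∑ k ∈ Finset.range Mo, b j l k * X (Sum.inr l, k))
    (s : MvPolynomial ((ι ⊕ ι') × ℕ) L) (hs : constantCoeff s ≠ 0) (r : ℕ)
    (Rh R' : MvPolynomial (ι' × ℕ) L) (hRh : Rh.IsWeightedHomogeneous (wa α) r)
    (hR' : Low (wa α) (r + 1) R') (β : ι' → L) (hβ : ev (RingHom.id L) D β Rh ≠ 0) (Mo' : ℕ)
    (bb : σ → ℕ → MvPolynomial ((ι ⊕ ι') × ℕ) L)
    (hI1 : s * par (Rh + R') =
      ∑ m, ∑ l ∈ Finset.range Mo', bb m l * (dext D)^[l] (uh m + t m))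
    (hc : α = 0 ∨ ((∀ m γ, D (coeff γ (uh m)) = 0) ∧ (∀ m γ, D (coeff γ (t m)) = 0) ∧
      (∀ j m l γ, D (coeff γ (a j m l)) = 0) ∧ (∀ j l k γ, D (coeff γ (b j l k)) = 0) ∧
      (∀ γ, D (coeff γ s) = 0) ∧ (∀ γ, D (coeff γ Rh) = 0) ∧ (∀ γ, D (coeff γ R') = 0) ∧
      ∀ m l γ, D (coeff γ (bb m l)) = 0)) : False := by
  have : IsSepClosed (frobenius L p).fieldRange := T6.isSepClosed
  have : CharP (frobenius L p).fieldRange p :=
    (algebraMap (frobenius L p).fieldRange L).charP
      (algebraMap (frobenius L p).fieldRange L).injective p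
  have := hfin
  have hpC : ∀ a : L, ∃ c : (frobenius L p).fieldRange,
      algebraMap (frobenius L p).fieldRange L c = a ^ p := by
    intro a
    exact ⟨⟨frobenius L p a, ⟨a, rfl⟩⟩, rfl⟩
  have hD : ∀ c : (frobenius L p).fieldRange,
      D (algebraMap (frobenius L p).fieldRange L c) = 0 := by
    rintro ⟨c, a, rfl⟩
    change D (a ^ p) = 0
    rw [D.pow, CharP.cast_eq_zero L p, zero_mul, zero_mul]
  rcases Nat.eq_zero_or_pos α with hα | hα
  · exact Core.no_identity (C := (frobenius L p).fieldRange) hpC D hD D (RingHom.id L)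
      (fun _ => rfl) α (Or.inl hα) hcard e he hep uh t huh ht N Mo a b ha hb hid s hs r Rh R' hRh
      hR' β hβ Mo' bb hI1
  · obtain hc | ⟨huC, htC, haC, hbC, hsC, hRC, hR'C, hbbC⟩ := hc
    · omega
    choose uh0 huh0 using fun m => Core2.exists_pre (Core2.consts D) (uh m) (huC m)
    choose t0 ht0 using fun m => Core2.exists_pre (Core2.consts D) (t m) (htC m)
    choose a0 ha0 using fun j m l => Core2.exists_pre (Core2.consts D) (a j m l) (haC j m l)
    choose b0 hb0 using fun j l k => Core2.exists_pre (Core2.consts D) (b j l k) (hbC j l k)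
    obtain ⟨s0, hs0⟩ := Core2.exists_pre (Core2.consts D) s hsC
    obtain ⟨Rh0, hRh0⟩ := Core2.exists_pre (Core2.consts D) Rh hRC
    obtain ⟨R0, hR0⟩ := Core2.exists_pre (Core2.consts D) R' hR'C
    choose bb0 hbb0 using fun m l => Core2.exists_pre (Core2.consts D) (bb m l) (hbbC m l)
    have hκ : ∀ x : Core2.consts D, (Core2.consts D).subtype (Core2.zeroDer (Core2.consts D) x) =
        D ((Core2.consts D).subtype x) := by
      intro x
      change (0 : L) = _
      exact (x.2).symm
    have hinj : Function.Injective (MvPolynomial.map (σ := (ι ⊕ ι') × ℕ)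
        (Core2.consts D).subtype) :=
      MvPolynomial.map_injective _ (Core2.consts D).subtype.injective
    refine Core.no_identity (C := (frobenius L p).fieldRange) hpC D hD
      (Core2.zeroDer (Core2.consts D)) (Core2.consts D).subtype hκ α (Or.inr fun _ => rfl) hcard e
      he hep uh0 t0 ?_ ?_ N Mo a0 b0 ?_ ?_ ?_ s0 ?_ r Rh0 R0 ?_ ?_ β ?_ Mo' bb0 ?_
    · intro m
      refine Core2.hom_of_map (Core2.consts D).subtype _ _ _ ?_
      rw [huh0]
      exact huh m
    · intro m
      refine Core2.low_of_map (Core2.consts D).subtype _ _ _ ?_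
      rw [ht0]
      exact ht m
    · intro j m l
      obtain ⟨r', h1, h2⟩ := ha j m l
      refine ⟨r', h1, Core2.low_of_map (Core2.consts D).subtype _ _ _ ?_⟩
      rw [ha0]
      exact h2
    · intro j l k
      obtain ⟨r', h1, h2⟩ := hb j l k
      refine ⟨r', h1, Core2.low_of_map (Core2.consts D).subtype _ _ _ ?_⟩
      rw [hb0]
      exact h2
    · intro j
      refine hinj ?_
      simp only [map_pow, map_X, map_add, map_sum, map_mul,
        map_dext_iterate _ _ D hκ, huh0, ha0, hb0]
      exact hid j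
    · intro h
      refine hs ?_
      rw [← hs0, constantCoeff_map, h, map_zero]
    · refine Core2.hom_of_map (Core2.consts D).subtype _ _ _ ?_
      rw [hRh0]
      exact hRh
    · refine Core2.low_of_map (Core2.consts D).subtype _ _ _ ?_
      rw [hR0]
      exact hR'
    · rw [Core2.ev_map, hRh0]
      exact hβ
    · refine hinj ?_
      simp only [map_add, map_sum, map_mul, map_rename, par,
        map_dext_iterate _ _ D hκ, huh0, ht0, hbb0, hs0, hRh0, hR0]
      simpa only [par, map_add] using hI1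

end Pool.Agent.Helper62.DL
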