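import Mathlib
import Pool.Agent.Helper62.DL.St.Core2
import Pool.Agent.Helper62.DL.St.T5

/-!
PROJECT DL, piece Core0 (about 150 lines). `Core2.no_identity` in characteristic zero, by transfer.

Proof. Let `A = MvPolynomial (K × ℕ) ℤ`, `ε = ev (Int.castRingHom K) d id : A → K`, `ε (dext dZ f) = d (ε f)`
(`ev_dext`). Use the coefficientwise lifts `P2.lift` (`X (a, 0)` for a coefficient `a ≠ 0`) of all
polynomials that occur: `map ε (lift f) = f` (`P2.map_lift`), `support (lift f) ⊆ support f`
(`P2.support_lift`), so weighted homogeneity and `Low` pass to the lifts and to their images under any `φ`.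
`Z` = the coefficients of: `X^N - ∑ lift a * (dext (dext dZ))^l (lift uh) - ∑ lift b * X` for every `j ∈ ι`;
`lift s * par (lift Rh + lift R') - ∑ lift bb * (dext (dext dZ))^l (lift uh + lift t)`; and, if `α ≠ 0`, the
elements `X (a, 1)` for all coefficients `a` of all the polynomials (`a j m l` and `b j l k` only for
`l, k < Mo`, `bb m l` for `l < Mo'`: WLOG they are zero for other `l, k`; only finitely many polynomials
matter, as `ι, ι', σ` are finite). All these lie in the kernel of `ε` (`map_dext_iterate`, `map_lift`). Take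
`y = coeff 0 (lift s) * ev id (dext dZ) (X (β l, 0))_l (lift Rh)`, `ε y = coeff 0 s * ev .. β Rh ≠ 0`. T5 with
`N = ∑ e m` gives `p, L, D, φ`. Apply `Core2.no_identity` to the images under `MvPolynomial.map φ` of the
lifts and to `φ (X (β l, 0))`; `D (φ (X (a, 0))) = φ (X (a, 1)) = 0` gives the constancy.
-/

open MvPolynomial

namespace Pool.Agent.Helper62.DL

open Pool.Agent.Helper21.PD

/-- evaluation commutes with differential homomorphisms -/
theorem Core0.map_ev {R R' : Type} [CommRing R] [CommRing R'] {ι : Type} (ψ : R →+* R')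
    (d : Der R) (d' : Der R') (h : ∀ a, ψ (d a) = d' (ψ a)) (x : ι → R)
    (f : MvPolynomial (ι × ℕ) R) :
    ψ (ev (RingHom.id R) d x f) =
      ev (RingHom.id R') d' (fun i => ψ (x i)) (MvPolynomial.map ψ f) := by
  have hk : ∀ (k : ℕ) (a : R), ψ ((d)^[k] a) = (d')^[k] (ψ a) := by
    intro k
    induction k with
    | zero => intro a; rfl
    | succ k ih => intro a; rw [Function.iterate_succ_apply, ih, h, Function.iterate_succ_apply]
  have : ψ.comp (ev (RingHom.id R) d x) =
      (ev (RingHom.id R') d' (fun i => ψ (x i))).comp (MvPolynomial.map ψ) := by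
    refine MvPolynomial.ringHom_ext ?_ ?_
    · intro a
      simp
    · intro v
      simp [hk]
  exact RingHom.congr_fun this f

theorem Core0.coeff_lift {R : Type} [CommRing R] {ι : Type} (f : MvPolynomial (ι × ℕ) R)
    (γ : ι × ℕ →₀ ℕ) (hγ : γ ∈ f.support) :
    coeff γ (P2.lift f) = X (coeff γ f, 0) := by
  classical
  rw [P2.lift, coeff_sum, Finset.sum_eq_single γ]
  · rw [coeff_monomial, if_pos rfl]
  · intro δ _ hδ
    rw [coeff_monomial, if_neg hδ]
  · intro h
    exact absurd hγ h

theorem Core0.mem_support_map {R : Type} [CommRing R] {ι : Type} (f : MvPolynomial (ι × ℕ) R)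
    {L : Type} [CommRing L] (φ : MvPolynomial (R × ℕ) ℤ →+* L) {γ : ι × ℕ →₀ ℕ}
    (hγ : γ ∈ (MvPolynomial.map φ (P2.lift f)).support) : γ ∈ f.support :=
  P2.support_lift f (support_map_subset φ _ hγ)

theorem Core0.low {R : Type} [CommRing R] {ι : Type} {f : MvPolynomial (ι × ℕ) R}
    {L : Type} [CommRing L] (φ : MvPolynomial (R × ℕ) ℤ →+* L) {W : ι × ℕ → ℕ} {r : ℕ}
    (hf : Low W r f) : Low W r (MvPolynomial.map φ (P2.lift f)) :=
  fun γ hγ => hf γ (Core0.mem_support_map f φ hγ)

theorem Core0.hom {R : Type} [CommRing R] {ι : Type} {f : MvPolynomial (ι × ℕ) R}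
    {L : Type} [CommRing L] (φ : MvPolynomial (R × ℕ) ℤ →+* L) {W : ι × ℕ → ℕ} {r : ℕ}
    (hf : f.IsWeightedHomogeneous W r) :
    (MvPolynomial.map φ (P2.lift f)).IsWeightedHomogeneous W r :=
  fun {γ} hγ => hf (mem_support_iff.1 (Core0.mem_support_map f φ (mem_support_iff.2 hγ)))

/-- the coefficients of `f`, first derivatives -/
noncomputable def Core0.cf {R : Type} [CommRing R] {ι : Type} (f : MvPolynomial (ι × ℕ) R) :
    Finset (MvPolynomial (R × ℕ) ℤ) := by
  classical
  exact f.support.image fun γ => X (coeff γ f, 1)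

theorem Core0.mem_cf {R : Type} [CommRing R] {ι : Type} {f : MvPolynomial (ι × ℕ) R}
    {z : MvPolynomial (R × ℕ) ℤ} (hz : z ∈ Core0.cf f) : ∃ γ, z = X (coeff γ f, 1) := by
  classical
  rw [Core0.cf, Finset.mem_image] at hz
  obtain ⟨γ, _, rfl⟩ := hz
  exact ⟨γ, rfl⟩

/-- constancy of the coefficients -/
theorem Core0.const {R : Type} [CommRing R] {ι : Type} {f : MvPolynomial (ι × ℕ) R}
    {L : Type} [CommRing L] (φ : MvPolynomial (R × ℕ) ℤ →+* L) (D : Der L)
    (hφ : ∀ f, φ (dext P2.dZ f) = D (φ f)) (hz : ∀ z ∈ Core0.cf f, φ z = 0)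
    (γ : ι × ℕ →₀ ℕ) : D (coeff γ (MvPolynomial.map φ (P2.lift f))) = 0 := by
  classical
  by_cases hγ : γ ∈ f.support
  · rw [coeff_map, Core0.coeff_lift f γ hγ, ← hφ, dext_X]
    refine hz _ ?_
    rw [Core0.cf, Finset.mem_image]
    exact ⟨γ, hγ, rfl⟩
  · have : coeff γ (MvPolynomial.map φ (P2.lift f)) = 0 := by
      by_contra h
      exact hγ (Core0.mem_support_map f φ (mem_support_iff.2 h))
    rw [this, Der.zero]

theorem Core0.no_identity {K : Type} [Field K] [CharZero K] (d : Der K)
    (α : ℕ) {ι ι' σ : Type} [Fintype ι] [Fintype ι'] [Fintype σ]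
    (hcard : Fintype.card σ = Fintype.card ι) (e : σ → ℕ) (he : ∀ m, 0 < e m)
    (uh t : σ → MvPolynomial ((ι ⊕ ι') × ℕ) K)
    (huh : ∀ m, (uh m).IsWeightedHomogeneous (wa α) (e m))
    (ht : ∀ m, Low (wa α) (e m + 1) (t m))
    (N Mo : ℕ) (a : ι → σ → ℕ → MvPolynomial ((ι ⊕ ι') × ℕ) K)
    (b : ι → ι' → ℕ → MvPolynomial ((ι ⊕ ι') × ℕ) K)
    (ha : ∀ j m l, ∃ r, N ≤ r + e m + α * l ∧ Low (wa α) r (a j m l))
    (hb : ∀ j l k, ∃ r, N ≤ r + 1 + α * k ∧ Low (wa α) r (b j l k))
    (hid : ∀ j : ι, X (Sum.inl j, 0) ^ N =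
      (∑ m, ∑ l ∈ Finset.range Mo, a j m l * (dext d)^[l] (uh m)) +
        ∑ l, ∑ k ∈ Finset.range Mo, b j l k * X (Sum.inr l, k))
    (s : MvPolynomial ((ι ⊕ ι') × ℕ) K) (hs : constantCoeff s ≠ 0) (r : ℕ)
    (Rh R' : MvPolynomial (ι' × ℕ) K) (hRh : Rh.IsWeightedHomogeneous (wa α) r)
    (hR' : Low (wa α) (r + 1) R') (β : ι' → K) (hβ : ev (RingHom.id K) d β Rh ≠ 0) (Mo' : ℕ)
    (bb : σ → ℕ → MvPolynomial ((ι ⊕ ι') × ℕ) K)
    (hI1 : s * par (Rh + R') =
      ∑ m, ∑ l ∈ Finset.range Mo', bb m l * (dext d)^[l] (uh m + t m))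
    (hc : α = 0 ∨ ((∀ m γ, d (coeff γ (uh m)) = 0) ∧ (∀ m γ, d (coeff γ (t m)) = 0) ∧
      (∀ j m l γ, d (coeff γ (a j m l)) = 0) ∧ (∀ j l k γ, d (coeff γ (b j l k)) = 0) ∧
      (∀ γ, d (coeff γ s) = 0) ∧ (∀ γ, d (coeff γ Rh) = 0) ∧ (∀ γ, d (coeff γ R') = 0) ∧
      ∀ m l γ, d (coeff γ (bb m l)) = 0)) : False := by
  classical
  -- the universal differential ring
  set DA : Der (MvPolynomial (K × ℕ) ℤ) := dext (ι := K) P2.dZ with hDA
  set ε : MvPolynomial (K × ℕ) ℤ →+* K := ev (Int.castRingHom K) d (id : K → K) with hε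
  have hε0 : ∀ a : K, ε (X (a, 0)) = a := fun a => by
    rw [hε, ev_X]
    rfl
  have hε1 : ∀ a : K, ε (X (a, 1)) = d a := fun a => by
    rw [hε, ev_X]
    rfl
  have hεD : ∀ f, ε (DA f) = d (ε f) := fun f => by
    refine ev_dext _ _ _ P2.dZ (fun a => ?_) f
    change Int.castRingHom K 0 = _
    rw [map_zero, eq_intCast, Der.intCast]
  have hml : ∀ {κ : Type} (f : MvPolynomial (κ × ℕ) K), MvPolynomial.map ε (P2.lift f) = f :=
    fun f => P2.map_lift ε hε0 f
  -- the lifted identities
  let F : ι → MvPolynomial ((ι ⊕ ι') × ℕ) (MvPolynomial (K × ℕ) ℤ) := fun j =>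
    X (Sum.inl j, 0) ^ N -
      ((∑ m, ∑ l ∈ Finset.range Mo, P2.lift (a j m l) * (dext DA)^[l] (P2.lift (uh m))) +
        ∑ l, ∑ k ∈ Finset.range Mo, P2.lift (b j l k) * X (Sum.inr l, k))
  have hF : ∀ j, MvPolynomial.map ε (F j) = 0 := by
    intro j
    simp only [F, map_sub, map_add, map_mul, map_pow, map_sum, map_X, hml,
      map_dext_iterate ε DA d hεD]
    rw [← hid j, sub_self]
  let G : MvPolynomial ((ι ⊕ ι') × ℕ) (MvPolynomial (K × ℕ) ℤ) :=
    P2.lift s * par (P2.lift Rh + P2.lift R') -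
      ∑ m, ∑ l ∈ Finset.range Mo', P2.lift (bb m l) *
        (dext DA)^[l] (P2.lift (uh m) + P2.lift (t m))
  have hG : MvPolynomial.map ε G = 0 := by
    simp only [G, par, map_sub, map_mul, map_sum, MvPolynomial.map_rename, map_add, hml,
      map_dext_iterate ε DA d hεD]
    have h1 := hI1
    simp only [par, map_add] at h1
    rw [← h1, sub_self]
  -- the finite set of relations
  let Zc : Finset (MvPolynomial (K × ℕ) ℤ) :=
    if α = 0 then ∅ else
      (Finset.univ.biUnion fun m => Core0.cf (uh m)) ∪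
      (Finset.univ.biUnion fun m => Core0.cf (t m)) ∪
      (Finset.univ.biUnion fun j => Finset.univ.biUnion fun m =>
        (Finset.range Mo).biUnion fun l => Core0.cf (a j m l)) ∪
      (Finset.univ.biUnion fun j => Finset.univ.biUnion fun l =>
        (Finset.range Mo).biUnion fun k => Core0.cf (b j l k)) ∪
      Core0.cf s ∪ Core0.cf Rh ∪ Core0.cf R' ∪
      (Finset.univ.biUnion fun m => (Finset.range Mo').biUnion fun l => Core0.cf (bb m l))
  let Z : Finset (MvPolynomial (K × ℕ) ℤ) :=
    (Finset.univ.biUnion fun j => (F j).support.image fun γ => coeff γ (F j)) ∪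
      (G.support.image fun γ => coeff γ G) ∪ Zc
  have hZ : ∀ z ∈ Z, ε z = 0 := by
    intro z hz
    rw [Finset.mem_union, Finset.mem_union] at hz
    rcases hz with (hz | hz) | hz
    · simp only [Finset.mem_biUnion, Finset.mem_univ, true_and, Finset.mem_image] at hz
      obtain ⟨j, γ, _, rfl⟩ := hz
      rw [← coeff_map, hF j, coeff_zero]
    · simp only [Finset.mem_image] at hz
      obtain ⟨γ, _, rfl⟩ := hz
      rw [← coeff_map, hG, coeff_zero]
    · rcases hc with h0 | ⟨c1, c2, c3, c4, c5, c6, c7, c8⟩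
      · simp only [Zc, if_pos h0, Finset.notMem_empty] at hz
      · by_cases h0 : α = 0
        · simp only [Zc, if_pos h0, Finset.notMem_empty] at hz
        · simp only [Zc, if_neg h0, Finset.mem_union, Finset.mem_biUnion, Finset.mem_univ,
            true_and] at hz
          rcases hz with (((((((⟨m, hz⟩ | ⟨m, hz⟩) | ⟨j, m, l, _, hz⟩) | ⟨j, l, k, _, hz⟩) | hz) | hz)
            | hz) | ⟨m, l, _, hz⟩)
          all_goals
            obtain ⟨γ, rfl⟩ := Core0.mem_cf hz
            rw [hε1]
          · exact c1 m γ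
          · exact c2 m γ
          · exact c3 j m l γ
          · exact c4 j l k γ
          · exact c5 γ
          · exact c6 γ
          · exact c7 γ
          · exact c8 m l γ
  let y : MvPolynomial (K × ℕ) ℤ := constantCoeff (P2.lift s) *
    ev (RingHom.id _) DA (fun l => X (β l, 0)) (P2.lift Rh)
  have hy : ε y ≠ 0 := by
    have e1 : ε (constantCoeff (P2.lift s)) = constantCoeff s := by
      have := congrArg constantCoeff (hml s)
      rwa [constantCoeff_map] at this
    have e2 : ε (ev (RingHom.id _) DA (fun l => X (β l, 0)) (P2.lift Rh)) =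
        ev (RingHom.id K) d β Rh := by
      rw [Core0.map_ev ε DA d hεD, hml]
      simp only [hε0]
    simp only [y, map_mul, e1, e2]
    exact mul_ne_zero hs hβ
  obtain ⟨p, hp, L, _, _, _, D, φ, hNp, hfin, hφ, hφZ, hφy⟩ :=
    T5.exists_transfer d Z hZ y hy (∑ m, e m)
  have hφF : ∀ j, MvPolynomial.map φ (F j) = 0 := by
    intro j
    ext γ
    rw [coeff_map, coeff_zero]
    by_cases hγ : γ ∈ (F j).support
    · refine hφZ _ ?_
      simp only [Z, Finset.mem_union, Finset.mem_biUnion, Finset.mem_univ, true_and,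
        Finset.mem_image]
      exact Or.inl (Or.inl ⟨j, γ, hγ, rfl⟩)
    · rw [notMem_support_iff.1 hγ, map_zero]
  have hφG : MvPolynomial.map φ G = 0 := by
    ext γ
    rw [coeff_map, coeff_zero]
    by_cases hγ : γ ∈ G.support
    · refine hφZ _ ?_
      simp only [Z, Finset.mem_union, Finset.mem_image]
      exact Or.inl (Or.inr ⟨γ, hγ, rfl⟩)
    · rw [notMem_support_iff.1 hγ, map_zero]
  have hφc : ∀ z ∈ Zc, φ z = 0 := fun z hz => hφZ z (Finset.mem_union_right _ hz)
  simp only [y, map_mul] at hφy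
  have hy1 := left_ne_zero_of_mul hφy
  have hy2 := right_ne_zero_of_mul hφy
  -- the data over `L`
  refine Core2.no_identity (p := p) hfin D α hcard e he
    (fun m => lt_of_le_of_lt (Finset.single_le_sum (fun i _ => Nat.zero_le (e i))
      (Finset.mem_univ m)) hNp)
    (fun m => MvPolynomial.map φ (P2.lift (uh m))) (fun m => MvPolynomial.map φ (P2.lift (t m)))
    (fun m => Core0.hom φ (huh m)) (fun m => Core0.low φ (ht m)) N Mo
    (fun j m l => if l ∈ Finset.range Mo then MvPolynomial.map φ (P2.lift (a j m l)) else 0)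
    (fun j l k => if k ∈ Finset.range Mo then MvPolynomial.map φ (P2.lift (b j l k)) else 0)
    ?_ ?_ ?_ (MvPolynomial.map φ (P2.lift s)) ?_ r (MvPolynomial.map φ (P2.lift Rh))
    (MvPolynomial.map φ (P2.lift R')) (Core0.hom φ hRh) (Core0.low φ hR')
    (fun l => φ (X (β l, 0))) ?_ Mo'
    (fun m l => if l ∈ Finset.range Mo' then MvPolynomial.map φ (P2.lift (bb m l)) else 0)
    ?_ ?_
  · intro j m l
    obtain ⟨r, h1, h2⟩ := ha j m l
    refine ⟨r, h1, ?_⟩
    show Low (wa α) r (if l ∈ Finset.range Mo then _ else _)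
    split_ifs
    · exact Core0.low φ h2
    · intro γ hγ
      simp at hγ
  · intro j l k
    obtain ⟨r, h1, h2⟩ := hb j l k
    refine ⟨r, h1, ?_⟩
    show Low (wa α) r (if k ∈ Finset.range Mo then _ else _)
    split_ifs
    · exact Core0.low φ h2
    · intro γ hγ
      simp at hγ
  · intro j
    have h1 := hφF j
    simp only [F, map_sub, map_add, map_mul, map_pow, map_sum, map_X,
      map_dext_iterate φ DA D hφ] at h1
    rw [sub_eq_zero.1 h1]
    congr 1
    · refine Finset.sum_congr rfl fun m _ => Finset.sum_congr rfl fun l hl => ?_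
      rw [if_pos hl]
    · refine Finset.sum_congr rfl fun m _ => Finset.sum_congr rfl fun l hl => ?_
      rw [if_pos hl]
  · rw [constantCoeff_map]
    exact hy1
  · rw [Core0.map_ev φ DA D hφ] at hy2
    exact hy2
  · have h1 := hφG
    simp only [G, par, map_sub, map_mul, map_sum, MvPolynomial.map_rename, map_add,
      map_dext_iterate φ DA D hφ] at h1
    simp only [par, map_add]
    rw [sub_eq_zero.1 h1]
    refine Finset.sum_congr rfl fun m _ => Finset.sum_congr rfl fun l hl => ?_
    rw [if_pos hl]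
  · by_cases h0 : α = 0
    · exact Or.inl h0
    · right
      have hcf : ∀ {κ : Type} (f : MvPolynomial (κ × ℕ) K), (Core0.cf f ⊆ Zc) →
          ∀ γ, D (coeff γ (MvPolynomial.map φ (P2.lift f))) = 0 := fun f hf γ =>
        Core0.const φ D hφ (fun z hz => hφc z (hf hz)) γ
      refine ⟨fun m => hcf _ ?_, fun m => hcf _ ?_, fun j m l γ => ?_, fun j l k γ => ?_,
        hcf _ ?_, hcf _ ?_, hcf _ ?_, fun m l γ => ?_⟩
      · intro z hz
        simp only [Zc, if_neg h0, Finset.mem_union, Finset.mem_biUnion, Finset.mem_univ, true_and]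
        exact Or.inl (Or.inl (Or.inl (Or.inl (Or.inl (Or.inl (Or.inl ⟨m, hz⟩))))))
      · intro z hz
        simp only [Zc, if_neg h0, Finset.mem_union, Finset.mem_biUnion, Finset.mem_univ, true_and]
        exact Or.inl (Or.inl (Or.inl (Or.inl (Or.inl (Or.inl (Or.inr ⟨m, hz⟩))))))
      · show D (coeff γ (if l ∈ Finset.range Mo then _ else _)) = 0
        split_ifs with hl
        · refine hcf _ ?_ γ
          intro z hz
          simp only [Zc, if_neg h0, Finset.mem_union, Finset.mem_biUnion, Finset.mem_univ,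
            true_and]
          exact Or.inl (Or.inl (Or.inl (Or.inl (Or.inl (Or.inr ⟨j, m, l, hl, hz⟩)))))
        · rw [coeff_zero, Der.zero]
      · show D (coeff γ (if k ∈ Finset.range Mo then _ else _)) = 0
        split_ifs with hl
        · refine hcf _ ?_ γ
          intro z hz
          simp only [Zc, if_neg h0, Finset.mem_union, Finset.mem_biUnion, Finset.mem_univ,
            true_and]
          exact Or.inl (Or.inl (Or.inl (Or.inl (Or.inr ⟨j, l, k, hl, hz⟩))))
        · rw [coeff_zero, Der.zero]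
      · intro z hz
        simp only [Zc, if_neg h0, Finset.mem_union]
        exact Or.inl (Or.inl (Or.inl (Or.inr hz)))
      · intro z hz
        simp only [Zc, if_neg h0, Finset.mem_union]
        exact Or.inl (Or.inl (Or.inr hz))
      · intro z hz
        simp only [Zc, if_neg h0, Finset.mem_union]
        exact Or.inl (Or.inr hz)
      · show D (coeff γ (if l ∈ Finset.range Mo' then _ else _)) = 0
        split_ifs with hl
        · refine hcf _ ?_ γ
          intro z hz
          simp only [Zc, if_neg h0, Finset.mem_union, Finset.mem_biUnion, Finset.mem_univ,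
            true_and]
          exact Or.inr ⟨m, l, hl, hz⟩
        · rw [coeff_zero, Der.zero]

end Pool.Agent.Helper62.DL
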