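import Mathlib
import Pool.Agent.Helper21.PD.P14
import Pool.Agent.Helper62.DL.St.Core0
import Pool.Agent.Helper62.DL.St.Z1

/-!
PROJECT DL, piece C0 (about 150 lines). In characteristic zero `s R` is not in `[u]` if `s(0) ≠ 0` and `R` is a
nonzero differential polynomial in the parameters.

Proof. Suppose `s R ∈ [u]`, `u_m = û_m + t_m`. Membership gives `hI1` (finitely many `l`). Z1 gives
`N, Mo, a, b`. Let `r` be the smallest weight of a monomial of `R` (weights `1 + α k`),
`Rh = weightedHomogeneousComponent (wa α) r R ≠ 0`, `R' = R - Rh` (`Low (r + 1)`). Let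
`K₂ = FractionRing (MvPolynomial (ι' × ℕ) K)` with the derivation extending `dext d`
(`exists_der_fractionRing`), `β_l` the class of `X (l, 0)`, `j : K → K₂`; then
`ev id d₂ β (map j Rh) = algebraMap Rh ≠ 0` (both are ring homomorphisms in `Rh`, `D^k β_l = X (l, k)`).
Apply `Core0.no_identity` over `K₂` to the images under `MvPolynomial.map j` of all polynomials (supports do
not grow; `map_dext_iterate`); if `α ≠ 0` then `d = 0` on `K`, so the derivation of `K₂` kills all the
coefficients.
-/

open MvPolynomial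

namespace Pool.Agent.Helper62.DL

open Pool.Agent.Helper21.PD

theorem C0.iter_X {K : Type} [Field K] (d : Der K) {ι' : Type} (l : ι') (k : ℕ) :
    (dext (ι := ι') d)^[k] (X (l, 0)) = X (l, k) := by
  induction k with
  | zero => rfl
  | succ k ih => rw [Function.iterate_succ_apply', ih, dext_X]

theorem C0.map_low {υ R S : Type*} [CommRing R] [CommRing S] (j : R →+* S) (W : υ → ℕ) (e : ℕ)
    (f : MvPolynomial υ R) (h : Low W e f) : Low W e (MvPolynomial.map j f) := by
  classical
  intro γ hγ
  exact h γ (MvPolynomial.support_map_subset _ _ hγ)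

theorem C0.map_whomog {υ R S : Type*} [CommRing R] [CommRing S] (j : R →+* S) (W : υ → ℕ) (e : ℕ)
    (f : MvPolynomial υ R) (h : f.IsWeightedHomogeneous W e) :
    (MvPolynomial.map j f).IsWeightedHomogeneous W e := by
  intro γ hγ
  apply h
  intro h0
  apply hγ
  rw [coeff_map, h0, map_zero]

/-- The part of least weight. -/
theorem C0.lowest {υ R : Type*} [CommRing R] (W : υ → ℕ) (f : MvPolynomial υ R) (hf : f ≠ 0) :
    ∃ (r : ℕ) (g g' : MvPolynomial υ R), g ≠ 0 ∧ g.IsWeightedHomogeneous W r ∧
      Low W (r + 1) g' ∧ f = g + g' := by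
  classical
  have hne : f.support.Nonempty := by
    rw [Finset.nonempty_iff_ne_empty]
    intro h
    exact hf (MvPolynomial.support_eq_empty.mp h)
  obtain ⟨γ₀, hγ₀, hmin⟩ := Finset.exists_min_image f.support (fun γ => Finsupp.weight W γ) hne
  refine ⟨Finsupp.weight W γ₀, weightedHomogeneousComponent W (Finsupp.weight W γ₀) f,
    f - weightedHomogeneousComponent W (Finsupp.weight W γ₀) f, ?_,
    weightedHomogeneousComponent_isWeightedHomogeneous _ _, ?_, by ring⟩
  · intro h
    have := congrArg (coeff γ₀) h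
    rw [coeff_weightedHomogeneousComponent, if_pos rfl, coeff_zero] at this
    exact (MvPolynomial.mem_support_iff.mp hγ₀) this
  · intro γ hγ
    rw [MvPolynomial.mem_support_iff, coeff_sub, coeff_weightedHomogeneousComponent] at hγ
    by_cases hw : Finsupp.weight W γ = Finsupp.weight W γ₀
    · rw [if_pos hw, sub_self] at hγ
      exact absurd rfl hγ
    · rw [if_neg hw, sub_zero] at hγ
      have := hmin γ (MvPolynomial.mem_support_iff.mpr hγ)
      omega

theorem C0.mem_sum {A σ : Type*} [CommRing A] [Fintype σ] (g : σ → ℕ → A) (x : A)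
    (hx : x ∈ Ideal.span (Set.range fun ml : σ × ℕ => g ml.1 ml.2)) :
    ∃ (M : ℕ) (b : σ → ℕ → A), x = ∑ m, ∑ l ∈ Finset.range M, b m l * g m l := by
  classical
  rw [Finsupp.mem_ideal_span_range_iff_exists_finsupp] at hx
  obtain ⟨c, hc⟩ := hx
  refine ⟨(c.support.sup fun v => v.2) + 1, fun m l => c (m, l), ?_⟩
  rw [← hc, Finsupp.sum]
  rw [← Finset.sum_product']
  symm
  rw [← Finset.sum_subset (s₁ := c.support)
    (s₂ := (Finset.univ : Finset σ) ×ˢ Finset.range ((c.support.sup fun v => v.2) + 1))]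
  · intro v hv
    simp only [Finset.mem_product, Finset.mem_univ, true_and, Finset.mem_range]
    exact Nat.lt_succ_of_le (Finset.le_sup (f := fun v : σ × ℕ => v.2) hv)
  · intro v _ hv
    rw [Finsupp.notMem_support_iff] at hv
    change c v * g v.1 v.2 = 0
    rw [hv, zero_mul]

theorem C0.not_mem {K : Type} [Field K] [CharZero K] (d : Der K) (α : ℕ)
    (hα : α = 0 ∨ ∀ a, d a = 0) {ι ι' σ : Type} [Fintype ι] [Fintype ι'] [Fintype σ]
    (hcard : Fintype.card σ = Fintype.card ι) (e : σ → ℕ) (he : ∀ m, 0 < e m)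
    (uh t : σ → MvPolynomial ((ι ⊕ ι') × ℕ) K)
    (huh : ∀ m, (uh m).IsWeightedHomogeneous (wa α) (e m))
    (ht : ∀ m, Low (wa α) (e m + 1) (t m))
    (hfin : ∀ j : ι, ∃ N : ℕ, X (Sum.inl j, 0) ^ N ∈ diffIdeal d uh ⊔
      Ideal.span (Set.range fun v : ι' × ℕ =>
        (X ((Sum.inr v.1 : ι ⊕ ι'), v.2) : MvPolynomial ((ι ⊕ ι') × ℕ) K)))
    (s : MvPolynomial ((ι ⊕ ι') × ℕ) K) (hs : constantCoeff s ≠ 0)
    (R : MvPolynomial (ι' × ℕ) K) (hR : R ≠ 0) :
    s * par R ∉ diffIdeal d (fun m => uh m + t m) := by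
  classical
  intro hmem
  -- the universal field
  obtain ⟨d₂, hd₂⟩ := exists_der_fractionRing (dext (ι := ι') d)
  set K₂ : Type := FractionRing (MvPolynomial (ι' × ℕ) K) with hK₂
  set am : MvPolynomial (ι' × ℕ) K →+* K₂ := algebraMap (MvPolynomial (ι' × ℕ) K) K₂ with ham
  have haminj : Function.Injective am :=
    IsFractionRing.injective (MvPolynomial (ι' × ℕ) K) K₂
  set j : K →+* K₂ := am.comp C with hj
  have hjinj : Function.Injective j := haminj.comp (C_injective _ _)
  have : CharZero K₂ := charZero_of_injective_ringHom hjinj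
  have hcomp : ∀ a, j (d a) = d₂ (j a) := by
    intro a
    change am (C (d a)) = d₂ (am (C a))
    rw [ham, hd₂, dext_C]
  set β : ι' → K₂ := fun l => am (X (l, 0)) with hβdef
  have hiter : ∀ (k : ℕ) (f : MvPolynomial (ι' × ℕ) K),
      (d₂)^[k] (am f) = am ((dext (ι := ι') d)^[k] f) := by
    intro k
    induction k with
    | zero => intro f; rfl
    | succ k ih =>
      intro f
      rw [Function.iterate_succ_apply', ih, Function.iterate_succ_apply']
      exact hd₂ _
  have hev : ∀ f : MvPolynomial (ι' × ℕ) K,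
      ev (RingHom.id K₂) d₂ β (MvPolynomial.map j f) = am f := by
    have h : (ev (RingHom.id K₂) d₂ β).comp (MvPolynomial.map j) = am := by
      refine MvPolynomial.ringHom_ext ?_ ?_
      · intro a
        rw [RingHom.comp_apply, map_C, ev_C]
        rfl
      · intro v
        rw [RingHom.comp_apply, map_X, ev_X]
        change (d₂)^[v.2] (am (X (v.1, 0))) = am (X v)
        rw [hiter, C0.iter_X]
    intro f
    exact RingHom.congr_fun h f
  -- the parts of R
  obtain ⟨r, Rh, R', hRh0, hRh, hR', hRe⟩ := C0.lowest (wa α) R hR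
  -- the identities
  obtain ⟨N, Mo, a, b, ha, hb, hid⟩ := Z1.exists_identity d α hα e uh huh hfin
  obtain ⟨Mo', bb, hbb⟩ := C0.mem_sum (fun m l => (dext d)^[l] (uh m + t m)) _ hmem
  have hconst : α = 0 ∨ ∀ a : K, d₂ (j a) = 0 := by
    rcases hα with h | h
    · exact Or.inl h
    · right
      intro a
      rw [← hcomp, h, map_zero]
  refine Core0.no_identity d₂ α hcard e he (fun m => MvPolynomial.map j (uh m))
    (fun m => MvPolynomial.map j (t m)) (fun m => C0.map_whomog j _ _ _ (huh m))
    (fun m => C0.map_low j _ _ _ (ht m)) N Mo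
    (fun i m l => MvPolynomial.map j (a i m l)) (fun i l k => MvPolynomial.map j (b i l k))
    ?_ ?_ ?_ (MvPolynomial.map j s) ?_ r (MvPolynomial.map j Rh) (MvPolynomial.map j R')
    (C0.map_whomog j _ _ _ hRh) (C0.map_low j _ _ _ hR') β ?_ Mo'
    (fun m l => MvPolynomial.map j (bb m l)) ?_ ?_
  · intro i m l
    obtain ⟨q, h1, h2⟩ := ha i m l
    exact ⟨q, h1, C0.map_low j _ _ _ h2⟩
  · intro i l k
    obtain ⟨q, h1, h2⟩ := hb i l k
    exact ⟨q, h1, C0.map_low j _ _ _ h2⟩
  · intro i
    have := congrArg (MvPolynomial.map j) (hid i)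
    rw [map_pow, map_X, map_add, map_sum, map_sum] at this
    rw [this]
    congr 1
    · refine Finset.sum_congr rfl fun m _ => ?_
      rw [map_sum]
      refine Finset.sum_congr rfl fun l _ => ?_
      rw [map_mul, map_dext_iterate j d d₂ hcomp]
    · refine Finset.sum_congr rfl fun l _ => ?_
      rw [map_sum]
      refine Finset.sum_congr rfl fun k _ => ?_
      rw [map_mul, map_X]
  · rw [constantCoeff_map]
    intro h
    exact hs (hjinj (by rw [h, map_zero]))
  · rw [hev]
    intro h
    exact hRh0 (haminj (by rw [h, map_zero]))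
  · have := congrArg (MvPolynomial.map j) hbb
    rw [map_mul, hRe, map_sum] at this
    have hp : MvPolynomial.map j (par (ι := ι) (Rh + R')) =
        par (ι := ι) (MvPolynomial.map j Rh + MvPolynomial.map j R') := by
      rw [← map_add]
      exact MvPolynomial.map_rename j _ _
    rw [hp] at this
    rw [this]
    refine Finset.sum_congr rfl fun m _ => ?_
    rw [map_sum]
    refine Finset.sum_congr rfl fun l _ => ?_
    rw [map_mul, map_dext_iterate j d d₂ hcomp, map_add]
  · rcases hconst with h | h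
    · exact Or.inl h
    · right
      refine ⟨?_, ?_, ?_, ?_, ?_, ?_, ?_, ?_⟩ <;> intros <;> rw [coeff_map] <;> exact h _

end Pool.Agent.Helper62.DL
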