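import Mathlib
import Pool.Agent.Helper21.PD.P16
import Pool.Agent.Helper62.DL.Defs

/-!
PROJECT DL, piece Sub (about 300 lines, mostly copied from `Pool/Agent/Helper21/PD/P16.lean`). The substitution
`x_j ↦ x_j^(w j)` and its properties, for an arbitrary finite index type and weights `w j + α k`.

Proof. Copy `P16.sub` and the lemmas `sub_dext`, `sub_X`, `one_homog`, `sub_homog`, `supported_dext`,
`sub_X_zero`, `sub_X_succ`, `exists_values`, `sub_injective`, `sub_supported` replacing `Fin n` by a finite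
type `υ`; the only new point is that the derivation raises the weight `1 + α k` of a variable by `α`: if `f` is
weighted homogeneous of weight `m` for `wa α` then `dext d f` need not be homogeneous for `α > 0` when the
coefficients are not constants! So for the homogeneity statements we assume `α = 0` or `d = 0` (`hα`): then
`dext d f` is weighted homogeneous of weight `m + α` if `f` has weight `m` (check it for products and
variables as in `P16.q_mul`; for `α > 0`, `d = 0` kills the coefficients), so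
`Φ (X (j, k)) = (dext d)^k (X (j, 0)^(w j))` has weight `w j + α k`.
-/

open MvPolynomial

namespace Pool.Agent.Helper62.DL

open Pool.Agent.Helper21.PD

section SubWeights

variable {R : Type*} [CommRing R] {ι : Type*}

theorem Sub.q_mul {W : ι × ℕ → ℕ} {α : ℕ} {d : Der R} {f g : MvPolynomial (ι × ℕ) R} {m n : ℕ}
    (hf : f.IsWeightedHomogeneous W m ∧ (dext d f).IsWeightedHomogeneous W (m + α))
    (hg : g.IsWeightedHomogeneous W n ∧ (dext d g).IsWeightedHomogeneous W (n + α)) :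
    (f * g).IsWeightedHomogeneous W (m + n) ∧
      (dext d (f * g)).IsWeightedHomogeneous W (m + n + α) := by
  refine ⟨hf.1.mul hg.1, ?_⟩
  rw [(dext d).mul]
  have h1 := hf.1.mul hg.2
  have h2 := hg.1.mul hf.2
  have e1 : m + (n + α) = m + n + α := by omega
  have e2 : n + (m + α) = m + n + α := by omega
  rw [e1] at h1
  rw [e2] at h2
  exact h1.add h2

theorem Sub.dext_whomog {W : ι × ℕ → ℕ} {α : ℕ} (hW : ∀ v, W (v.1, v.2 + 1) = W v + α) {d : Der R}
    (hα : α = 0 ∨ ∀ a, d a = 0) {f : MvPolynomial (ι × ℕ) R} {m : ℕ}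
    (hf : f.IsWeightedHomogeneous W m) :
    (dext d f).IsWeightedHomogeneous W (m + α) := by
  classical
  have hC : ∀ r : R, (dext d (C r : MvPolynomial (ι × ℕ) R)).IsWeightedHomogeneous W (0 + α) := by
    intro r
    rw [dext_C]
    rcases hα with h | h
    · rw [h]
      exact isWeightedHomogeneous_C _ _
    · rw [h, C_0]
      exact isWeightedHomogeneous_zero _ _ _
  refine IsWeightedHomogeneous.induction_on (R := R) (w := W) (m := m)
    (motive := fun p _ => (dext d p).IsWeightedHomogeneous W (m + α)) ?_ ?_ ?_ hf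
  · rw [(dext d).zero]
    exact isWeightedHomogeneous_zero _ _ _
  · intro p q _ _ hp hq
    rw [(dext d).add]
    exact hp.add hq
  · intro γ r hr
    have key : ∀ s : Finset (ι × ℕ),
        ((∏ v ∈ s, (X v : MvPolynomial (ι × ℕ) R) ^ γ v).IsWeightedHomogeneous W
          (∑ v ∈ s, γ v * W v)) ∧
        ((dext d (∏ v ∈ s, (X v : MvPolynomial (ι × ℕ) R) ^ γ v)).IsWeightedHomogeneous W
          (∑ v ∈ s, γ v * W v + α)) := by
      intro s
      have hpow : ∀ (v : ι × ℕ) (k : ℕ),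
          ((X v : MvPolynomial (ι × ℕ) R) ^ k).IsWeightedHomogeneous W (k * W v) ∧
          (dext d ((X v : MvPolynomial (ι × ℕ) R) ^ k)).IsWeightedHomogeneous W
            (k * W v + α) := by
        intro v k
        induction k with
        | zero =>
          rw [pow_zero, (dext d).one, zero_mul]
          exact ⟨isWeightedHomogeneous_one _ _, isWeightedHomogeneous_zero _ _ _⟩
        | succ k ih =>
          rw [pow_succ, add_mul, one_mul]
          refine Sub.q_mul ih ⟨isWeightedHomogeneous_X _ _ _, ?_⟩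
          rw [dext_X, ← hW]
          exact isWeightedHomogeneous_X R W (v.1, v.2 + 1)
      induction s using Finset.induction_on with
      | empty =>
        rw [Finset.prod_empty, Finset.sum_empty, (dext d).one]
        exact ⟨isWeightedHomogeneous_one _ _, isWeightedHomogeneous_zero _ _ _⟩
      | insert v s hv ih =>
        rw [Finset.prod_insert hv, Finset.sum_insert hv]
        exact Sub.q_mul (hpow v _) ih
    have h1 := Sub.q_mul (W := W) (α := α) (d := d) (f := C r) (m := 0)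
      ⟨isWeightedHomogeneous_C _ _, hC r⟩ (key γ.support)
    have h2 : 0 + ∑ v ∈ γ.support, γ v * W v = m := by
      rw [zero_add, ← hr, Finsupp.weight_apply, Finsupp.sum]
      rfl
    rw [h2] at h1
    rw [monomial_eq]
    exact h1.2

theorem Sub.dext_iterate_whomog {W : ι × ℕ → ℕ} {α : ℕ} (hW : ∀ v, W (v.1, v.2 + 1) = W v + α)
    {d : Der R} (hα : α = 0 ∨ ∀ a, d a = 0) {f : MvPolynomial (ι × ℕ) R} {m : ℕ}
    (hf : f.IsWeightedHomogeneous W m) (l : ℕ) :
    ((dext d)^[l] f).IsWeightedHomogeneous W (m + α * l) := by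
  induction l with
  | zero => simpa using hf
  | succ l ih =>
    rw [Function.iterate_succ_apply']
    have h := Sub.dext_whomog hW hα ih
    rwa [add_assoc, ← Nat.mul_succ] at h

theorem Sub.constantCoeff_dext (d : Der R) (f : MvPolynomial (ι × ℕ) R) :
    constantCoeff (dext d f) = d (constantCoeff f) := by
  refine derivation_ext (constantCoeff : MvPolynomial (ι × ℕ) R →+* R)
    (fun f => constantCoeff (dext d f)) (fun f => d (constantCoeff f)) ?_ ?_ ?_ ?_ ?_ ?_ f
  · intro f g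
    simp only [(dext d).add, map_add]
  · intro f g
    simp only [map_add, d.add]
  · intro f g
    simp only [(dext d).mul, map_add, map_mul]
  · intro f g
    simp only [map_mul, d.mul]
  · intro a
    simp
  · intro v
    simp

theorem Sub.constantCoeff_dext_iterate (d : Der R) (l : ℕ) (f : MvPolynomial (ι × ℕ) R) :
    constantCoeff ((dext d)^[l] f) = (d)^[l] (constantCoeff f) := by
  induction l with
  | zero => rfl
  | succ l ih => rw [Function.iterate_succ_apply', Function.iterate_succ_apply',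
      Sub.constantCoeff_dext, ih]

end SubWeights

section SubSubstitution

variable {K : Type} [Field K] {υ : Type}

/-- The substitution `x j ↦ (x j) ^ (w j)`. -/
noncomputable def Sub.phi (d : Der K) (w : υ → ℕ) :
    MvPolynomial (υ × ℕ) K →+* MvPolynomial (υ × ℕ) K :=
  ev C (dext d) (fun j => X (j, 0) ^ w j)

theorem Sub.phi_dext (d : Der K) (w : υ → ℕ) (f : MvPolynomial (υ × ℕ) K) :
    Sub.phi d w (dext d f) = dext d (Sub.phi d w f) :=
  ev_dext C (dext d) _ d (fun a => (dext_C d a).symm) f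

theorem Sub.phi_X (d : Der K) (w : υ → ℕ) (v : υ × ℕ) :
    Sub.phi d w (X v) = (dext d)^[v.2] (X (v.1, 0) ^ w v.1) := by
  simp [Sub.phi]

theorem Sub.phi_C (d : Der K) (w : υ → ℕ) (a : K) :
    Sub.phi d w (C a) = C a := by
  simp [Sub.phi]

theorem Sub.phi_X_whomog (d : Der K) (α : ℕ) (hα : α = 0 ∨ ∀ a, d a = 0) (w : υ → ℕ) (v : υ × ℕ) :
    (Sub.phi d w (X v)).IsWeightedHomogeneous (wa α) (ww w α v) := by
  rw [Sub.phi_X]
  have h : ((X (v.1, 0) : MvPolynomial (υ × ℕ) K) ^ w v.1).IsWeightedHomogeneous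
      (wa α) (w v.1) := by
    have := (isWeightedHomogeneous_X K (wa (ι := υ) α) (v.1, 0)).pow (w v.1)
    have e : w v.1 • (wa (ι := υ) α (v.1, 0)) = w v.1 := by
      change w v.1 * (1 + α * 0) = w v.1
      ring
    rw [e] at this
    exact this
  have hW : ∀ v : υ × ℕ, wa α (v.1, v.2 + 1) = wa α v + α := by
    intro v
    change 1 + α * (v.2 + 1) = 1 + α * v.2 + α
    ring
  exact Sub.dext_iterate_whomog hW hα h v.2

theorem Sub.phi_monomial (d : Der K) (α : ℕ) (hα : α = 0 ∨ ∀ a, d a = 0) (w : υ → ℕ)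
    (γ : (υ × ℕ) →₀ ℕ) (r : K) :
    (Sub.phi d w (monomial γ r)).IsWeightedHomogeneous (wa α) (Finsupp.weight (ww w α) γ) := by
  rw [monomial_eq, map_mul, Finsupp.prod, map_prod, Sub.phi_C]
  have h2 : Finsupp.weight (ww w α) γ = 0 + ∑ v ∈ γ.support, γ v • (ww w α v) := by
    rw [zero_add, Finsupp.weight_apply, Finsupp.sum]
  rw [h2]
  refine (isWeightedHomogeneous_C _ _).mul (IsWeightedHomogeneous.prod _ _ _ fun v _ => ?_)
  rw [map_pow]
  exact (Sub.phi_X_whomog d α hα w v).pow _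

theorem Sub.phi_eq_sum (d : Der K) (w : υ → ℕ) (f : MvPolynomial (υ × ℕ) K) :
    Sub.phi d w f = ∑ γ ∈ f.support, Sub.phi d w (monomial γ (coeff γ f)) := by
  conv_lhs => rw [f.as_sum, map_sum]

theorem Sub.phi_whomog (d : Der K) (α : ℕ) (hα : α = 0 ∨ ∀ a, d a = 0) (w : υ → ℕ)
    {f : MvPolynomial (υ × ℕ) K} {e : ℕ}
    (hf : f.IsWeightedHomogeneous (ww w α) e) :
    (Sub.phi d w f).IsWeightedHomogeneous (wa α) e := by
  rw [Sub.phi_eq_sum]
  refine IsWeightedHomogeneous.sum _ _ _ fun γ hγ => ?_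
  have h2 : Finsupp.weight (ww w α) γ = e := hf (mem_support_iff.1 hγ)
  rw [← h2]
  exact Sub.phi_monomial d α hα w γ _

theorem Sub.phi_low (d : Der K) (α : ℕ) (hα : α = 0 ∨ ∀ a, d a = 0) (w : υ → ℕ)
    {f : MvPolynomial (υ × ℕ) K} {e : ℕ}
    (hf : Low (ww w α) e f) : Low (wa α) e (Sub.phi d w f) := by
  classical
  intro δ hδ
  rw [mem_support_iff, Sub.phi_eq_sum, coeff_sum] at hδ
  obtain ⟨γ, hγ, h⟩ := Finset.exists_ne_zero_of_sum_ne_zero hδ
  have h1 := Sub.phi_monomial d α hα w γ (coeff γ f) h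
  rw [h1]
  exact hf γ hγ

theorem Sub.supported_dext (d : Der K) (j : υ) (k : ℕ) {f : MvPolynomial (υ × ℕ) K}
    (hf : f ∈ supported K {v : υ × ℕ | v.1 = j ∧ v.2 < k}) :
    dext d f ∈ supported K {v : υ × ℕ | v.1 = j ∧ v.2 < k + 1} := by
  have hmono : supported K {v : υ × ℕ | v.1 = j ∧ v.2 < k} ≤
      supported K {v : υ × ℕ | v.1 = j ∧ v.2 < k + 1} :=
    supported_mono (fun v hv => ⟨hv.1, hv.2.trans (Nat.lt_succ_self k)⟩)
  refine Algebra.adjoin_induction (p := fun f _ =>
    dext d f ∈ supported K {v : υ × ℕ | v.1 = j ∧ v.2 < k + 1}) ?_ ?_ ?_ ?_ hf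
  · rintro _ ⟨v, hv, rfl⟩
    rw [dext_X]
    exact X_mem_supported.2 ⟨hv.1, Nat.succ_lt_succ hv.2⟩
  · intro a
    rw [algebraMap_eq, dext_C]
    exact Subalgebra.algebraMap_mem _ _
  · intro f g _ _ hf hg
    rw [(dext d).add]
    exact Subalgebra.add_mem _ hf hg
  · intro f g hf' hg' hf hg
    rw [(dext d).mul]
    exact Subalgebra.add_mem _ (Subalgebra.mul_mem _ (hmono hf') hg)
      (Subalgebra.mul_mem _ (hmono hg') hf)

theorem Sub.phi_X_zero (d : Der K) (w : υ → ℕ) (j : υ) :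
    Sub.phi d w (X (j, 0)) = X (j, 0) ^ w j := by
  rw [Sub.phi_X]
  rfl

theorem Sub.phi_X_succ (d : Der K) (w : υ → ℕ) (j : υ) (k : ℕ) :
    ∃ r ∈ supported K {v : υ × ℕ | v.1 = j ∧ v.2 < k + 1},
      Sub.phi d w (X (j, k + 1)) = (w j : MvPolynomial (υ × ℕ) K) * X (j, 0) ^ (w j - 1) *
        X (j, k + 1) + r := by
  induction k with
  | zero =>
    refine ⟨0, Subalgebra.zero_mem _, ?_⟩
    rw [Sub.phi_X, add_zero]
    simp only [Function.iterate_succ_apply', Function.iterate_zero, id_eq]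
    rw [(dext d).pow, dext_X]
  | succ k ih =>
    obtain ⟨r, hr, h⟩ := ih
    have h0 : Sub.phi d w (X (j, k + 1 + 1)) = dext d (Sub.phi d w (X (j, k + 1))) := by
      rw [Sub.phi_X, Sub.phi_X]
      simp only [Function.iterate_succ_apply']
    refine ⟨(w j : MvPolynomial (υ × ℕ) K) * X (j, k + 1) *
      (((w j - 1 : ℕ) : MvPolynomial (υ × ℕ) K) * X (j, 0) ^ (w j - 1 - 1) * X (j, 1)) +
        dext d r, ?_, ?_⟩
    · refine Subalgebra.add_mem _ ?_ (Sub.supported_dext d j (k + 1) hr)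
      have hX : ∀ l < k + 1 + 1, (X (j, l) : MvPolynomial (υ × ℕ) K) ∈
          supported K {v : υ × ℕ | v.1 = j ∧ v.2 < k + 1 + 1} := fun l hl =>
        X_mem_supported.2 ⟨rfl, hl⟩
      exact Subalgebra.mul_mem _ (Subalgebra.mul_mem _ (natCast_mem _ _) (hX _ (by omega)))
        (Subalgebra.mul_mem _ (Subalgebra.mul_mem _ (natCast_mem _ _)
          (Subalgebra.pow_mem _ (hX _ (by omega)) _)) (hX _ (by omega)))
    · rw [h0, h, (dext d).add, (dext d).mul, (dext d).mul, (dext d).natCast, (dext d).pow, dext_X,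
        dext_X]
      ring

theorem Sub.eval_congr_supported {s : Set (υ × ℕ)} {f : MvPolynomial (υ × ℕ) K}
    (hf : f ∈ supported K s) (y y' : υ × ℕ → K) (h : ∀ v ∈ s, y v = y' v) :
    eval y f = eval y' f := by
  refine Algebra.adjoin_induction (p := fun f _ => eval y f = eval y' f) ?_ ?_ ?_ ?_ hf
  · rintro _ ⟨v, hv, rfl⟩
    rw [eval_X, eval_X, h v hv]
  · intro a
    rw [algebraMap_eq, eval_C, eval_C]
  · intro f g _ _ hf hg
    rw [map_add, map_add, hf, hg]
  · intro f g _ _ hf hg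
    rw [map_mul, map_mul, hf, hg]

theorem Sub.X_mem_sup (j : υ) {k l : ℕ} (h : k < l) : (X (j, k) : MvPolynomial (υ × ℕ) K) ∈
    supported K {v : υ × ℕ | v.1 = j ∧ v.2 < l} := by
  have h1 : (j, k) ∈ {v : υ × ℕ | v.1 = j ∧ v.2 < l} := ⟨rfl, h⟩
  exact Algebra.subset_adjoin ⟨(j, k), h1, rfl⟩

theorem Sub.phi_X_supported (d : Der K) (w : υ → ℕ) (v : υ × ℕ) :
    Sub.phi d w (X v) ∈ supported K {v' : υ × ℕ | v'.1 = v.1 ∧ v'.2 < v.2 + 1} := by
  obtain ⟨j, k⟩ := v
  rcases k with _ | k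
  · rw [Sub.phi_X_zero]
    exact Subalgebra.pow_mem _ (Sub.X_mem_sup j Nat.one_pos) _
  · obtain ⟨r, hr, h⟩ := Sub.phi_X_succ d w j k
    rw [h]
    refine Subalgebra.add_mem _ (Subalgebra.mul_mem _ (Subalgebra.mul_mem _ (natCast_mem _ _)
      (Subalgebra.pow_mem _ (Sub.X_mem_sup j (Nat.succ_pos _)) _))
      (Sub.X_mem_sup j (Nat.lt_succ_self _))) ?_
    refine supported_mono (s := {v : υ × ℕ | v.1 = j ∧ v.2 < k + 1})
      (t := {v : υ × ℕ | v.1 = j ∧ v.2 < k + 1 + 1}) ?_ hr
    intro v hv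
    exact ⟨hv.1, lt_trans hv.2 (Nat.lt_succ_self _)⟩

theorem Sub.exists_values [CharZero K] (d : Der K) (w : υ → ℕ) (hw : ∀ j, 0 < w j) (b : υ × ℕ → K)
    (c : υ → K) (hc : ∀ j, c j ≠ 0) (hb : ∀ j, b (j, 0) = c j ^ w j) (N : ℕ) :
    ∃ y : υ × ℕ → K, (∀ j, y (j, 0) = c j) ∧
      ∀ v : υ × ℕ, v.2 ≤ N → eval y (Sub.phi d w (X v)) = b v := by
  induction N with
  | zero =>
    refine ⟨fun v => c v.1, fun j => rfl, ?_⟩
    rintro ⟨j, k⟩ hk
    obtain rfl : k = 0 := Nat.le_zero.1 hk
    rw [Sub.phi_X_zero, map_pow, eval_X, hb]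
  | succ N ih =>
    obtain ⟨y, hy0, hy⟩ := ih
    choose r hr hsub using fun j => Sub.phi_X_succ d w j N
    let y' : υ × ℕ → K := fun v => if v.2 = N + 1 then
      (b v - eval y (r v.1)) / ((w v.1 : K) * c v.1 ^ (w v.1 - 1)) else y v
    have hyy' : ∀ v : υ × ℕ, v.2 < N + 1 → y' v = y v := fun v hv => if_neg (by omega)
    refine ⟨y', fun j => by rw [hyy' _ (Nat.succ_pos _), hy0], ?_⟩
    rintro ⟨j, k⟩ hk
    rcases Nat.lt_or_ge k (N + 1) with hk' | hk'
    · rw [← hy (j, k) (by simpa using Nat.lt_succ_iff.1 hk')]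
      exact Sub.eval_congr_supported (Sub.phi_X_supported d w (j, k)) _ _
        (fun v hv => hyy' v (hv.2.trans_le (by simpa using hk')))
    · obtain rfl : k = N + 1 := le_antisymm hk hk'
      have hne : (w j : K) * c j ^ (w j - 1) ≠ 0 :=
        mul_ne_zero (by exact_mod_cast (hw j).ne') (pow_ne_zero _ (hc j))
      have h1 : eval y' (r j) = eval y (r j) :=
        Sub.eval_congr_supported (hr j) _ _ (fun v hv => hyy' v hv.2)
      have h2 : y' (j, N + 1) = (b (j, N + 1) - eval y (r j)) / ((w j : K) * c j ^ (w j - 1)) :=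
        if_pos rfl
      rw [hsub j, map_add, map_mul, map_mul, map_pow, eval_X, eval_X, map_natCast,
        hyy' (j, 0) (Nat.succ_pos _), hy0, h1, h2, mul_div_cancel₀ _ hne]
      ring

theorem Sub.phi_injective [CharZero K] (d : Der K) (w : υ → ℕ) (hw : ∀ j, 0 < w j)
    (f : MvPolynomial (υ × ℕ) K) (hf : Sub.phi d w f = 0) : f = 0 := by
  classical
  let s : υ × ℕ → Set K := fun v => if v.2 = 0 then {a | ∃ c : K, c ≠ 0 ∧ a = c ^ w v.1}
    else Set.univ
  have hs : ∀ v, (s v).Infinite := by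
    rintro ⟨j, k⟩
    simp only [s]
    split_ifs with h
    · refine Set.infinite_of_injective_forall_mem (f := fun m : ℕ => ((m + 1 : ℕ) : K) ^ w j) ?_ ?_
      · intro a b hab
        simp only at hab
        have h1 : (a + 1) ^ w j = (b + 1) ^ w j := by exact_mod_cast hab
        have h2 := Nat.pow_left_injective (hw j).ne' h1
        simpa using h2
      · intro m
        exact ⟨((m + 1 : ℕ) : K), by exact_mod_cast Nat.succ_ne_zero m, rfl⟩
    · exact Set.infinite_univ
  refine funext_set s hs fun b hb => ?_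
  rw [map_zero]
  have hb0 : ∀ j, ∃ c : K, c ≠ 0 ∧ b (j, 0) = c ^ w j := by
    intro j
    have := hb (j, 0) (Set.mem_univ _)
    simpa [s] using this
  choose c hc hbc using hb0
  obtain ⟨N, hN⟩ : ∃ N : ℕ, ∀ v ∈ f.vars, v.2 ≤ N :=
    ⟨f.vars.sup Prod.snd, fun v hv => Finset.le_sup (f := Prod.snd) hv⟩
  obtain ⟨y, hy0, hy⟩ := Sub.exists_values d w hw b c hc hbc N
  have h1 : eval b f = eval (fun v => eval y (Sub.phi d w (X v))) f := by
    have h0 : f ∈ supported K (f.vars : Set (υ × ℕ)) := mem_supported_vars f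
    refine Sub.eval_congr_supported h0 b (fun v => eval y (Sub.phi d w (X v))) ?_
    intro v hv
    exact (hy v (hN v hv)).symm
  have h2 : ∀ g : MvPolynomial (υ × ℕ) K,
      eval (fun v => eval y (Sub.phi d w (X v))) g = eval y (Sub.phi d w g) := by
    intro g
    induction g using MvPolynomial.induction_on with
    | C a => simp [Sub.phi]
    | add f g hf hg => rw [map_add, map_add, map_add, hf, hg]
    | mul_X f v hf => rw [map_mul, map_mul, map_mul, hf, eval_X]
  rw [h1, h2, hf, map_zero]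

theorem Sub.phi_supported (d : Der K) (w : υ → ℕ) (A : Set υ)
    {f : MvPolynomial (υ × ℕ) K} (hf : f ∈ supported K {v : υ × ℕ | v.1 ∈ A}) :
    Sub.phi d w f ∈ supported K {v : υ × ℕ | v.1 ∈ A} := by
  refine Algebra.adjoin_induction (p := fun f _ => Sub.phi d w f ∈
    supported K {v : υ × ℕ | v.1 ∈ A}) ?_ ?_ ?_ ?_ hf
  · rintro _ ⟨v, hv, rfl⟩
    refine supported_mono (s := {v' : υ × ℕ | v'.1 = v.1 ∧ v'.2 < v.2 + 1}) ?_
      (Sub.phi_X_supported d w v)
    intro v' hv'
    have : v'.1 = v.1 := hv'.1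
    change v'.1 ∈ A
    rw [this]
    exact hv
  · intro a
    have : Sub.phi d w (algebraMap K _ a) = algebraMap K _ a := by
      simp [Sub.phi, algebraMap_eq]
    rw [this]
    exact Subalgebra.algebraMap_mem _ _
  · intro f g _ _ hf hg
    rw [map_add]
    exact Subalgebra.add_mem _ hf hg
  · intro f g _ _ hf hg
    rw [map_mul]
    exact Subalgebra.mul_mem _ hf hg

theorem Sub.phi_constantCoeff (d : Der K) (w : υ → ℕ) (hw : ∀ j, 0 < w j)
    (f : MvPolynomial (υ × ℕ) K) :
    constantCoeff (Sub.phi d w f) = constantCoeff f := by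
  have h : (constantCoeff : MvPolynomial (υ × ℕ) K →+* K).comp (Sub.phi d w) = constantCoeff := by
    refine MvPolynomial.ringHom_ext ?_ ?_
    · intro a
      rw [RingHom.comp_apply, Sub.phi_C]
    · intro v
      rw [RingHom.comp_apply, Sub.phi_X, Sub.constantCoeff_dext_iterate, map_pow, constantCoeff_X,
        zero_pow (hw v.1).ne', Der.iterate_zero, constantCoeff_X]
  exact RingHom.congr_fun h f

end SubSubstitution

theorem Sub.exists_sub {K : Type} [Field K] [CharZero K] (d : Der K) (α : ℕ)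
    (hα : α = 0 ∨ ∀ a, d a = 0) {υ : Type} [Finite υ] (w : υ → ℕ) (hw : ∀ j, 0 < w j) :
    ∃ Φ : MvPolynomial (υ × ℕ) K →+* MvPolynomial (υ × ℕ) K,
      (∀ a, Φ (C a) = C a) ∧ (∀ f, Φ (dext d f) = dext d (Φ f)) ∧
      (∀ j, Φ (X (j, 0)) = X (j, 0) ^ w j) ∧ (∀ f, Φ f = 0 → f = 0) ∧
      (∀ (e : ℕ) (f), f.IsWeightedHomogeneous (ww w α) e →
        (Φ f).IsWeightedHomogeneous (wa α) e) ∧
      (∀ (e : ℕ) (f), Low (ww w α) e f → Low (wa α) e (Φ f)) ∧
      (∀ f, constantCoeff (Φ f) = constantCoeff f) ∧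
      (∀ (A : Set υ) (f), f ∈ supported K {v : υ × ℕ | v.1 ∈ A} →
        Φ f ∈ supported K {v : υ × ℕ | v.1 ∈ A}) := by
  exact ⟨Sub.phi d w, Sub.phi_C d w, Sub.phi_dext d w, Sub.phi_X_zero d w,
    Sub.phi_injective d w hw, fun e f hf => Sub.phi_whomog d α hα w hf,
    fun e f hf => Sub.phi_low d α hα w hf, Sub.phi_constantCoeff d w hw,
    fun A f hf => Sub.phi_supported d w A hf⟩

end Pool.Agent.Helper62.DL
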