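import Mathlib
import Pool.Agent.Helper62.DL.St.C0
import Pool.Agent.Helper62.DL.St.Sub

/-!
PROJECT DL, piece C0w (about 120 lines). `C0.not_mem` for weights `w j + α k` of the variables.

Proof. Let `Φ` be the substitution of Sub (`υ = ι ⊕ ι'`). If `s * par R ∈ [û + t]` then
`Φ s * Φ (par R) ∈ [Φ û + Φ t]` (`Φ` commutes with the derivation, so it maps the generators
`(dext d)^[l] (u m)` to `(dext d)^[l] (Φ (u m))`; `Ideal.span` and `Ideal.map`). `Φ (par R)` is supported on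
the variables `(inr l, k)`, so it is `par R₁`, `R₁ ≠ 0` (`Φ` injective, `rename` injective;
`MvPolynomial.supported_eq_range_rename` or `mem_supported`). `X (inl j, 0)^N ∈ [û] + (x_(inr l)^(k))` gives
`X (inl j, 0)^(w j * N) ∈ [Φ û] + (x_(inr l)^(k))`: `Φ (X (inr l, k)) = (dext d)^k (X (inr l, 0)^(w l))`
lies in the ideal of the `X (inr l, k')` (`w l > 0`; this ideal is stable under `dext d`). `C0.not_mem`.
-/

open MvPolynomial

namespace Pool.Agent.Helper62.DL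

open Pool.Agent.Helper21.PD

theorem C0w.iterate {K υ : Type} [Field K] (d : Der K)
    (Φ : MvPolynomial (υ × ℕ) K →+* MvPolynomial (υ × ℕ) K)
    (h : ∀ f, Φ (dext d f) = dext d (Φ f)) (l : ℕ) (f : MvPolynomial (υ × ℕ) K) :
    Φ ((dext d)^[l] f) = (dext d)^[l] (Φ f) := by
  induction l with
  | zero => rfl
  | succ l ih => rw [Function.iterate_succ_apply', Function.iterate_succ_apply', h, ih]

theorem C0w.map_le {K υ σ : Type} [Field K] (d : Der K)
    (Φ : MvPolynomial (υ × ℕ) K →+* MvPolynomial (υ × ℕ) K)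
    (h : ∀ f, Φ (dext d f) = dext d (Φ f)) (u : σ → MvPolynomial (υ × ℕ) K) :
    Ideal.map Φ (diffIdeal d u) ≤ diffIdeal d (fun m => Φ (u m)) := by
  unfold diffIdeal
  rw [Ideal.map_span, Ideal.span_le]
  rintro _ ⟨_, ⟨ml, rfl⟩, rfl⟩
  refine Ideal.subset_span ⟨ml, ?_⟩
  simp only
  rw [C0w.iterate d Φ h]

/-- The ideal of the parameters is stable under the derivation. -/
theorem C0w.stable {K ι ι' : Type} [Field K] (d : Der K)
    (f : MvPolynomial ((ι ⊕ ι') × ℕ) K)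
    (hf : f ∈ Ideal.span (Set.range fun v : ι' × ℕ =>
        (X ((Sum.inr v.1 : ι ⊕ ι'), v.2) : MvPolynomial ((ι ⊕ ι') × ℕ) K))) :
    dext d f ∈ Ideal.span (Set.range fun v : ι' × ℕ =>
        (X ((Sum.inr v.1 : ι ⊕ ι'), v.2) : MvPolynomial ((ι ⊕ ι') × ℕ) K)) := by
  refine Submodule.span_induction (p := fun f _ => dext d f ∈ Ideal.span (Set.range
    fun v : ι' × ℕ => (X ((Sum.inr v.1 : ι ⊕ ι'), v.2) : MvPolynomial ((ι ⊕ ι') × ℕ) K)))
    ?_ ?_ ?_ ?_ hf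
  · rintro _ ⟨v, rfl⟩
    simp only [dext_X]
    exact Ideal.subset_span ⟨(v.1, v.2 + 1), rfl⟩
  · rw [Der.zero]
    exact Ideal.zero_mem _
  · intro a b _ _ ha hb
    rw [Der.add]
    exact Ideal.add_mem _ ha hb
  · intro a b hb' hb
    rw [smul_eq_mul, Der.mul]
    exact Ideal.add_mem _ (Ideal.mul_mem_left _ _ hb) (Ideal.mul_mem_right _ _ hb')

theorem C0w.not_mem {K : Type} [Field K] [CharZero K] (d : Der K) (α : ℕ)
    (hα : α = 0 ∨ ∀ a, d a = 0) {ι ι' σ : Type} [Fintype ι] [Fintype ι'] [Fintype σ]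
    (hcard : Fintype.card σ = Fintype.card ι) (w : ι ⊕ ι' → ℕ) (hw : ∀ j, 0 < w j)
    (e : σ → ℕ) (he : ∀ m, 0 < e m)
    (uh t : σ → MvPolynomial ((ι ⊕ ι') × ℕ) K)
    (huh : ∀ m, (uh m).IsWeightedHomogeneous (ww w α) (e m))
    (ht : ∀ m, Low (ww w α) (e m + 1) (t m))
    (hfin : ∀ j : ι, ∃ N : ℕ, X (Sum.inl j, 0) ^ N ∈ diffIdeal d uh ⊔
      Ideal.span (Set.range fun v : ι' × ℕ =>
        (X ((Sum.inr v.1 : ι ⊕ ι'), v.2) : MvPolynomial ((ι ⊕ ι') × ℕ) K)))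
    (s : MvPolynomial ((ι ⊕ ι') × ℕ) K) (hs : constantCoeff s ≠ 0)
    (R : MvPolynomial (ι' × ℕ) K) (hR : R ≠ 0) :
    s * par R ∉ diffIdeal d (fun m => uh m + t m) := by
  classical
  obtain ⟨Φ, h1, h2, h3, h4, h5, h6, h7, h8⟩ := Sub.exists_sub d α hα w hw
  intro hmem
  set g : ι' × ℕ → (ι ⊕ ι') × ℕ := fun v => ((Sum.inr v.1 : ι ⊕ ι'), v.2) with hg
  have hginj : Function.Injective g := by
    rintro ⟨a, b⟩ ⟨a', b'⟩ hab
    simp only [hg, Prod.mk.injEq, Sum.inr.injEq] at hab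
    exact Prod.ext hab.1 hab.2
  have hparR : (par R : MvPolynomial ((ι ⊕ ι') × ℕ) K) = rename g R := rfl
  -- the image of the parameter polynomial
  have hsup : Φ (par R) ∈ supported K {v : (ι ⊕ ι') × ℕ | v.1 ∈ Set.range Sum.inr} := by
    refine h8 _ _ ?_
    rw [hparR, mem_supported]
    intro v hv
    have hv' := vars_rename g R (Finset.mem_coe.1 hv)
    rw [Finset.mem_image] at hv'
    obtain ⟨x, _, rfl⟩ := hv'
    exact ⟨x.1, rfl⟩
  have hsub : (↑(Φ (par R)).vars : Set ((ι ⊕ ι') × ℕ)) ⊆ Set.range g := by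
    intro v hv
    rw [mem_supported] at hsup
    obtain ⟨l, hl⟩ := hsup hv
    exact ⟨(l, v.2), Prod.ext hl rfl⟩
  obtain ⟨R₁, hR₁⟩ := exists_rename_eq_of_vars_subset_range (Φ (par R)) g hginj hsub
  have hR₁0 : R₁ ≠ 0 := by
    intro h0
    rw [h0, map_zero] at hR₁
    have h := h4 _ hR₁.symm
    rw [hparR] at h
    exact hR (rename_injective g hginj (by rw [h, map_zero]))
  -- the parameter ideal
  set J : Ideal (MvPolynomial ((ι ⊕ ι') × ℕ) K) := Ideal.span (Set.range fun v : ι' × ℕ =>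
        (X ((Sum.inr v.1 : ι ⊕ ι'), v.2) : MvPolynomial ((ι ⊕ ι') × ℕ) K)) with hJ
  have hΦX : ∀ (l : ι') (k : ℕ), Φ (X ((Sum.inr l : ι ⊕ ι'), k)) ∈ J := by
    intro l k
    induction k with
    | zero =>
      rw [h3]
      exact Ideal.pow_mem_of_mem J (Ideal.subset_span ⟨(l, 0), rfl⟩) _ (hw _)
    | succ k ih =>
      have hk : (X ((Sum.inr l : ι ⊕ ι'), k + 1) : MvPolynomial ((ι ⊕ ι') × ℕ) K) =
          dext d (X ((Sum.inr l : ι ⊕ ι'), k)) := by
        rw [dext_X]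
      rw [hk, h2]
      exact C0w.stable d _ ih
  have hmapJ : Ideal.map Φ J ≤ J := by
    rw [hJ, Ideal.map_span, Ideal.span_le]
    rintro _ ⟨_, ⟨v, rfl⟩, rfl⟩
    exact hΦX v.1 v.2
  refine C0.not_mem d α hα hcard e he (fun m => Φ (uh m)) (fun m => Φ (t m))
    (fun m => h5 _ _ (huh m)) (fun m => h6 _ _ (ht m)) ?_ (Φ s) (by rw [h7]; exact hs) R₁ hR₁0 ?_
  · intro j
    obtain ⟨N, hN⟩ := hfin j
    refine ⟨w (Sum.inl j) * N, ?_⟩
    have hm := Ideal.mem_map_of_mem Φ hN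
    rw [map_pow, h3, ← pow_mul, Ideal.map_sup] at hm
    exact sup_le_sup (C0w.map_le d Φ h2 uh) hmapJ hm
  · have hm := C0w.map_le d Φ h2 _ (Ideal.mem_map_of_mem Φ hmem)
    rw [map_mul] at hm
    have hpar₁ : (par R₁ : MvPolynomial ((ι ⊕ ι') × ℕ) K) = Φ (par R) := hR₁
    rw [hpar₁]
    simpa only [map_add] using hm

end Pool.Agent.Helper62.DL
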