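import Mathlib
import Pool.Agent.Helper62.DL.St.C0w

/-!
PROJECT DL, piece DTw (about 80 lines). The component at the origin.

Proof. The set of all `s * par R` with `constantCoeff s ≠ 0` and `R ≠ 0` is a submonoid `Σ` (`Submonoid`)
disjoint from `[u]` (C0w; `K` is a domain, so products of such are such). Hence there is a prime `Q ≥ [u]`
disjoint from `Σ` (`Ideal.exists_le_prime_disjoint`) and a minimal prime `P ≤ Q` over `[u]`
(`Ideal.exists_minimalPrimes_le`). If `f ∈ P` had `constantCoeff f ≠ 0` then `f = f * par 1 ∈ Σ`; so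
`P ≤ span (range X)` (an element without constant term is in the ideal of the variables; see
`P16.minimalPrimes_le_vertex` or `MvPolynomial.mem_ideal_span_X_image`/`RingHom.ker constantCoeff`).
`par R = 1 * par R ∈ Σ` for `R ≠ 0`.
-/

open MvPolynomial

namespace Pool.Agent.Helper62.DL

open Pool.Agent.Helper21.PD

/-- The products `s * par R`, `s` a unit at the origin, `R` a non-zero polynomial in the parameters. -/
def DTw.sig (K ι ι' : Type) [Field K] : Submonoid (MvPolynomial ((ι ⊕ ι') × ℕ) K) where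
  carrier := {x | ∃ (s : MvPolynomial ((ι ⊕ ι') × ℕ) K) (R : MvPolynomial (ι' × ℕ) K),
    constantCoeff s ≠ 0 ∧ R ≠ 0 ∧ x = s * par R}
  one_mem' := ⟨1, 1, by simp, one_ne_zero, by simp⟩
  mul_mem' := by
    rintro x y ⟨s, R, hs, hR, rfl⟩ ⟨s', R', hs', hR', rfl⟩
    refine ⟨s * s', R * R', by simp [hs, hs'], mul_ne_zero hR hR', ?_⟩
    simp only [map_mul]
    ring

theorem DTw.exists_component {K : Type} [Field K] [CharZero K] (d : Der K) (α : ℕ)
    (hα : α = 0 ∨ ∀ a, d a = 0) {ι ι' σ : Type} [Fintype ι] [Fintype ι'] [Fintype σ]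
    (hcard : Fintype.card σ = Fintype.card ι) (w : ι ⊕ ι' → ℕ) (hw : ∀ j, 0 < w j)
    (e : σ → ℕ) (he : ∀ m, 0 < e m)
    (uh t : σ → MvPolynomial ((ι ⊕ ι') × ℕ) K)
    (huh : ∀ m, (uh m).IsWeightedHomogeneous (ww w α) (e m))
    (ht : ∀ m, Low (ww w α) (e m + 1) (t m))
    (hfin : ∀ j : ι, ∃ N : ℕ, X (Sum.inl j, 0) ^ N ∈ diffIdeal d uh ⊔
      Ideal.span (Set.range fun v : ι' × ℕ =>
        (X ((Sum.inr v.1 : ι ⊕ ι'), v.2) : MvPolynomial ((ι ⊕ ι') × ℕ) K))) :
    ∃ P ∈ (diffIdeal d (fun m => uh m + t m)).minimalPrimes,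
      P ≤ Ideal.span (Set.range X) ∧
      ∀ R : MvPolynomial (ι' × ℕ) K, par R ∈ P → R = 0 := by
  have hdisj : Disjoint ((diffIdeal d (fun m => uh m + t m) :
      Ideal (MvPolynomial ((ι ⊕ ι') × ℕ) K)) : Set (MvPolynomial ((ι ⊕ ι') × ℕ) K))
      (DTw.sig K ι ι') := by
    rw [Set.disjoint_left]
    rintro x hx ⟨s, R, hs, hR, rfl⟩
    exact C0w.not_mem d α hα hcard w hw e he uh t huh ht hfin s hs R hR hx
  obtain ⟨Q, hQ, hle, hQd⟩ := Ideal.exists_le_prime_disjoint _ _ hdisj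
  obtain ⟨P, hP, hPQ⟩ := Ideal.exists_minimalPrimes_le hle
  rw [Set.disjoint_left] at hQd
  refine ⟨P, hP, ?_, ?_⟩
  · intro f hf
    have hf0 : constantCoeff f = 0 := by
      by_contra hne
      exact hQd (hPQ hf) ⟨f, 1, hne, one_ne_zero, by simp⟩
    rw [← Set.image_univ, mem_ideal_span_X_image]
    intro m hm
    by_contra hcon
    push Not at hcon
    have hm0 : m = 0 := by
      ext i
      exact hcon i (Set.mem_univ i)
    rw [hm0, mem_support_iff] at hm
    exact hm (by rwa [constantCoeff_eq] at hf0)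
  · intro R hR
    by_contra hne
    exact hQd (hPQ hR) ⟨1, R, by simp, hne, by simp⟩

end Pool.Agent.Helper62.DL
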