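import Mathlib
import Pool.Agent.Helper62.DL.St.DTw

/-!
PROJECT DL, piece F1 (about 150 lines). Arbitrary auxiliary forms `v_l` instead of coordinates.

Proof. Apply `DTw.exists_component` with `ι = Fin n`, `ι' = Fin (n - i)`, `σ = Fin i ⊕ Fin (n - i)`, weights
`Sum.elim w f`, exponents `Sum.elim e f`, `uh' (inl m) = rename inl (uh m)`,
`uh' (inr l) = X (inr l, 0) - rename inl (v l)`, `t' (inl m) = rename inl (t m)`, `t' (inr l) = 0`
(`rename inl` = `rename (fun v => (Sum.inl v.1, v.2))`, commutes with `dext d`, preserves weights).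
`hfin`: the ideal `[uh'] + (z's)` contains `rename inl` of all `(dext d)^[l] (uh m)` and of all
`(dext d)^[l] (v l') = z_(l')^(l) - (dext d)^[l] (uh' (inr l'))`, so it contains `rename inl` of
`diffIdeal d (Sum.elim uh v)`. Let `P'` be the minimal prime obtained, stable under `dext d`
(`P11.minimalPrimes_differential` with `P15.diffIdeal_stable`; `Algebra ℚ` as `K` has characteristic zero),
`Q = P'.comap (rename inl)`. If `g ∈ Q` then the constant coefficient of `g` is zero. If
`ev C (dext d) v R ∈ Q` then its image `ev C (dext d) (rename inl ∘ v) R` is in `P'` and congruent to `par R`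
modulo `P'` (as `z_l^(k) - rename inl ((dext d)^[k] (v l)) ∈ P'`), so `par R ∈ P'` and `R = 0`.
-/

open MvPolynomial

namespace Pool.Agent.Helper62.DL

open Pool.Agent.Helper21.PD

namespace F1

/-- the index map of the renaming -/
abbrev inx {ι ι' : Type} : ι × ℕ → (ι ⊕ ι') × ℕ := fun v => (Sum.inl v.1, v.2)

theorem rename_dext {R : Type*} [CommRing R] {ι κ : Type} (d : Der R) (g : ι → κ)
    (p : MvPolynomial (ι × ℕ) R) :
    rename (fun v : ι × ℕ => (g v.1, v.2)) (dext d p) =
      dext d (rename (fun v : ι × ℕ => (g v.1, v.2)) p) := by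
  refine derivation_ext
    ((rename (fun v : ι × ℕ => (g v.1, v.2)) : MvPolynomial (ι × ℕ) R →ₐ[R] _).toRingHom)
    (fun p => rename (fun v : ι × ℕ => (g v.1, v.2)) (dext d p))
    (fun p => dext d (rename (fun v : ι × ℕ => (g v.1, v.2)) p))
    (by simp [Der.add]) (by simp [Der.add]) (by simp [Der.mul]) (by simp [Der.mul]) ?_ ?_ p
  · intro a
    simp
  · intro v
    simp

theorem rename_dext_iterate {R : Type*} [CommRing R] {ι κ : Type} (d : Der R) (g : ι → κ) (l : ℕ)
    (p : MvPolynomial (ι × ℕ) R) :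
    rename (fun v : ι × ℕ => (g v.1, v.2)) ((dext d)^[l] p) =
      (dext d)^[l] (rename (fun v : ι × ℕ => (g v.1, v.2)) p) := by
  induction l with
  | zero => rfl
  | succ l ih => rw [Function.iterate_succ_apply', Function.iterate_succ_apply',
      rename_dext, ih]

theorem dext_iterate_X {R : Type*} [CommRing R] {ι : Type} (d : Der R) (j : ι) (l : ℕ) :
    (dext d)^[l] (X (j, 0) : MvPolynomial (ι × ℕ) R) = X (j, l) := by
  induction l with
  | zero => rfl
  | succ l ih => rw [Function.iterate_succ_apply', ih, dext_X]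

theorem weight_mapDomain {ι κ : Type} (W : κ → ℕ) (g : ι → κ) (u : ι →₀ ℕ) :
    Finsupp.weight W (u.mapDomain g) = Finsupp.weight (fun v => W (g v)) u := by
  rw [Finsupp.weight_apply, Finsupp.weight_apply, Finsupp.sum_mapDomain_index]
  · intro b
    simp
  · intro b m₁ m₂
    simp [add_mul]

theorem rename_homog {R : Type*} [CommRing R] {ι κ : Type} (W : κ → ℕ) (W' : ι → ℕ) (g : ι → κ)
    (hg : ∀ v, W (g v) = W' v) {p : MvPolynomial ι R} {m : ℕ}
    (hp : p.IsWeightedHomogeneous W' m) : (rename g p).IsWeightedHomogeneous W m := by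
  intro c hc
  obtain ⟨u, hu, hu'⟩ := coeff_rename_ne_zero _ _ _ hc
  rw [← hu, weight_mapDomain]
  have : (fun v => W (g v)) = W' := funext hg
  rw [this]
  exact hp hu'

theorem rename_low {R : Type*} [CommRing R] {ι κ : Type} (W : κ → ℕ) (W' : ι → ℕ) (g : ι → κ)
    (hg : ∀ v, W (g v) = W' v) {p : MvPolynomial ι R} {m : ℕ}
    (hp : Low W' m p) : Low W m (rename g p) := by
  intro c hc
  rw [mem_support_iff] at hc
  obtain ⟨u, hu, hu'⟩ := coeff_rename_ne_zero _ _ _ hc
  rw [← hu, weight_mapDomain]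
  have : (fun v => W (g v)) = W' := funext hg
  rw [this]
  exact hp u (mem_support_iff.2 hu')

end F1

theorem F1.exists_prime {L : Type} [Field L] [CharZero L] (d : Der L) (α : ℕ)
    (hα : α = 0 ∨ ∀ a, d a = 0) {n i : ℕ} (hin : i ≤ n) (w : Fin n → ℕ) (hw : ∀ j, 0 < w j)
    (e : Fin i → ℕ) (he : ∀ m, 0 < e m) (uh t : Fin i → MvPolynomial (Fin n × ℕ) L)
    (huh : ∀ m, (uh m).IsWeightedHomogeneous (ww w α) (e m))
    (ht : ∀ m, Low (ww w α) (e m + 1) (t m))
    (f : Fin (n - i) → ℕ) (hf : ∀ l, 0 < f l) (v : Fin (n - i) → MvPolynomial (Fin n × ℕ) L)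
    (hv : ∀ l, (v l).IsWeightedHomogeneous (ww w α) (f l))
    (hfin : ∀ j : Fin n, ∃ N : ℕ, X (j, 0) ^ N ∈ diffIdeal d (Sum.elim uh v)) :
    ∃ Q : Ideal (MvPolynomial (Fin n × ℕ) L), Q.IsPrime ∧ (∀ g ∈ Q, dext d g ∈ Q) ∧
      (∀ m, uh m + t m ∈ Q) ∧ (∀ g ∈ Q, constantCoeff g = 0) ∧
      ∀ R : MvPolynomial (Fin (n - i) × ℕ) L,
        ev (C : L →+* MvPolynomial (Fin n × ℕ) L) (dext d) v R ∈ Q → R = 0 := by
  set ρ : MvPolynomial (Fin n × ℕ) L →ₐ[L] MvPolynomial ((Fin n ⊕ Fin (n - i)) × ℕ) L :=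
    rename (fun v : Fin n × ℕ => ((Sum.inl v.1 : Fin n ⊕ Fin (n - i)), v.2)) with hρ
  set uh' : Fin i ⊕ Fin (n - i) → MvPolynomial ((Fin n ⊕ Fin (n - i)) × ℕ) L :=
    Sum.elim (fun m => ρ (uh m)) (fun l => X (Sum.inr l, 0) - ρ (v l)) with huh'
  set t' : Fin i ⊕ Fin (n - i) → MvPolynomial ((Fin n ⊕ Fin (n - i)) × ℕ) L :=
    Sum.elim (fun m => ρ (t m)) (fun _ => 0) with ht'
  have hwt : ∀ x : Fin n × ℕ, ww (Sum.elim w f) α ((Sum.inl x.1 : Fin n ⊕ Fin (n - i)), x.2) =
      ww w α x := fun x => rfl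
  have hkey : ∀ (l : Fin (n - i)) (k : ℕ),
      (dext d)^[k] (ρ (v l)) + (dext d)^[k] (uh' (Sum.inr l)) = X (Sum.inr l, k) := by
    intro l k
    rw [← Der.iterate_add, huh']
    simp only [Sum.elim_inr]
    rw [add_sub_cancel, F1.dext_iterate_X]
  have hcomm : ∀ (k : ℕ) (p : MvPolynomial (Fin n × ℕ) L),
      ρ ((dext d)^[k] p) = (dext d)^[k] (ρ p) := fun k p =>
    F1.rename_dext_iterate d (Sum.inl : Fin n → Fin n ⊕ Fin (n - i)) k p
  obtain ⟨P, hP, hPX, hPpar⟩ := DTw.exists_component d α hα (ι := Fin n) (ι' := Fin (n - i))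
    (σ := Fin i ⊕ Fin (n - i))
    (by rw [Fintype.card_sum, Fintype.card_fin, Fintype.card_fin, Fintype.card_fin]; omega)
    (Sum.elim w f) (by rintro (j | j); exacts [hw j, hf j]) (Sum.elim e f)
    (by rintro (j | j); exacts [he j, hf j]) uh' t'
    (by
      rintro (m | l)
      · exact F1.rename_homog _ _ _ hwt (huh m)
      · have h1 : (ρ (v l)).IsWeightedHomogeneous (ww (Sum.elim w f) α) (f l) :=
          F1.rename_homog _ _ _ hwt (hv l)
        have h2 : (X ((Sum.inr l : Fin n ⊕ Fin (n - i)), 0) :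
            MvPolynomial ((Fin n ⊕ Fin (n - i)) × ℕ) L).IsWeightedHomogeneous
              (ww (Sum.elim w f) α) (f l) := by
          have := isWeightedHomogeneous_X L (ww (Sum.elim w f) α)
            ((Sum.inr l : Fin n ⊕ Fin (n - i)), 0)
          simpa [ww] using this
        exact (weightedHomogeneousSubmodule L (ww (Sum.elim w f) α) (f l)).sub_mem h2 h1)
    (by
      rintro (m | l)
      · exact F1.rename_low _ _ _ hwt (ht m)
      · intro γ hγ
        simp [ht'] at hγ)
    (by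
      intro j
      obtain ⟨N, hN⟩ := hfin j
      refine ⟨N, ?_⟩
      have hle : (diffIdeal d (Sum.elim uh v)).map ρ.toRingHom ≤ diffIdeal d uh' ⊔
          Ideal.span (Set.range fun v : Fin (n - i) × ℕ =>
            (X ((Sum.inr v.1 : Fin n ⊕ Fin (n - i)), v.2) :
              MvPolynomial ((Fin n ⊕ Fin (n - i)) × ℕ) L)) := by
        rw [diffIdeal, Ideal.map_span, Ideal.span_le]
        rintro _ ⟨_, ⟨⟨m, l⟩, rfl⟩, rfl⟩
        rcases m with m | m
        · refine Ideal.mem_sup_left (Ideal.subset_span ⟨(Sum.inl m, l), ?_⟩)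
          exact (hcomm l (uh m)).symm
        · have e1 : ρ.toRingHom ((dext d)^[l] (Sum.elim uh v (Sum.inr m))) =
              X (Sum.inr m, l) - (dext d)^[l] (uh' (Sum.inr m)) := by
            rw [← hkey m l, add_sub_cancel_right]
            exact hcomm l (v m)
          change ρ.toRingHom ((dext d)^[l] (Sum.elim uh v (Sum.inr m))) ∈ _
          rw [e1]
          refine Ideal.sub_mem _ (Ideal.mem_sup_right (Ideal.subset_span ⟨(m, l), rfl⟩))
            (Ideal.mem_sup_left (Ideal.subset_span ⟨(Sum.inr m, l), rfl⟩))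
      have h1 := hle (Ideal.mem_map_of_mem ρ.toRingHom hN)
      have h2 : ρ.toRingHom (X (j, 0) ^ N) = X (Sum.inl j, 0) ^ N := by
        rw [map_pow]
        congr 1
        exact rename_X _ _
      rwa [h2] at h1)
  have hPprime : P.IsPrime := hP.1.1
  have hPle : diffIdeal d (fun m => uh' m + t' m) ≤ P := hP.1.2
  have hPd : ∀ g ∈ P, dext d g ∈ P :=
    minimalPrimes_differential (dext d) _ (P15.diffIdeal_stable d _) P hP
  have hgen : ∀ (m : Fin i ⊕ Fin (n - i)) (k : ℕ), (dext d)^[k] (uh' m + t' m) ∈ P := fun m k =>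
    hPle (Ideal.subset_span ⟨(m, k), rfl⟩)
  refine ⟨P.comap ρ.toRingHom, Ideal.comap_isPrime _ _, ?_, ?_, ?_, ?_⟩
  · intro g hg
    have h1 : ρ g ∈ P := hg
    have h2 : ρ (dext d g) = dext d (ρ g) := hcomm 1 g
    change ρ (dext d g) ∈ P
    rw [h2]
    exact hPd _ h1
  · intro m
    have h1 : ρ (uh m + t m) = uh' (Sum.inl m) + t' (Sum.inl m) := by
      rw [map_add]
      rfl
    change ρ (uh m + t m) ∈ P
    rw [h1]
    exact hgen (Sum.inl m) 0
  · intro g hg
    have h1 : ρ g ∈ P := hg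
    have h2 : Ideal.span (Set.range (X : (Fin n ⊕ Fin (n - i)) × ℕ →
        MvPolynomial ((Fin n ⊕ Fin (n - i)) × ℕ) L)) ≤ RingHom.ker constantCoeff := by
      rw [Ideal.span_le]
      rintro _ ⟨x, rfl⟩
      exact constantCoeff_X (R := L) x
    have h3 : constantCoeff (ρ g) = 0 := h2 (hPX h1)
    rwa [hρ, constantCoeff_rename] at h3
  · intro R hR
    apply hPpar
    have h1 : ρ (ev (C : L →+* MvPolynomial (Fin n × ℕ) L) (dext d) v R) ∈ P := hR
    have h2 : (((Ideal.Quotient.mk P).comp ρ.toRingHom).comp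
        (ev (C : L →+* MvPolynomial (Fin n × ℕ) L) (dext d) v)) =
        (Ideal.Quotient.mk P).comp (rename (fun x : Fin (n - i) × ℕ =>
          ((Sum.inr x.1 : Fin n ⊕ Fin (n - i)), x.2)) :
            MvPolynomial (Fin (n - i) × ℕ) L →ₐ[L] _).toRingHom := by
      refine MvPolynomial.ringHom_ext ?_ ?_
      · intro a
        simp only [RingHom.comp_apply, ev_C]
        congr 1
        change rename _ (C a) = rename _ (C a)
        rw [rename_C, rename_C]
      · intro x
        simp only [RingHom.comp_apply, ev_X]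
        rw [Ideal.Quotient.eq]
        have e1 : ρ.toRingHom ((dext d)^[x.2] (v x.1)) = (dext d)^[x.2] (ρ (v x.1)) :=
          hcomm x.2 (v x.1)
        have e2 : (rename (fun x : Fin (n - i) × ℕ =>
          ((Sum.inr x.1 : Fin n ⊕ Fin (n - i)), x.2)) :
            MvPolynomial (Fin (n - i) × ℕ) L →ₐ[L] _).toRingHom (X x) =
            X (Sum.inr x.1, x.2) := rename_X _ _
        have e3 : uh' (Sum.inr x.1) + t' (Sum.inr x.1) = uh' (Sum.inr x.1) := by
          rw [ht']
          simp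
        have e4 := hgen (Sum.inr x.1) x.2
        rw [e3] at e4
        rw [e1, e2, ← hkey x.1 x.2, sub_add_cancel_left]
        exact P.neg_mem e4
    have h3 := RingHom.congr_fun h2 R
    simp only [RingHom.comp_apply] at h3
    have h4 : (Ideal.Quotient.mk P) (ρ.toRingHom
        (ev (C : L →+* MvPolynomial (Fin n × ℕ) L) (dext d) v R)) = 0 :=
      Ideal.Quotient.eq_zero_iff_mem.2 h1
    rw [h4] at h3
    exact Ideal.Quotient.eq_zero_iff_mem.1 h3.symm

end Pool.Agent.Helper62.DL
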