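import Mathlib
import Pool.Agent.Helper21.PD.P15

/-!
PROJECT DL, piece M1 (about 120 lines). If `q` elements `z_l` with derivatives in the differential field
generated by `x_1, …, x_n` over `F₀` are differentially algebraically independent over `F₀`, then some `q` of
the `x_j` are.

Proof. Suppose every `J` with `(x_j)_{j ∈ J}` independent has less than `q` elements (if some independent `J`
has at least `q` elements, take a subset with exactly `q` elements; a subfamily of an independent family is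
independent, `AlgebraicIndependent.comp`). `P15.exists_base` gives `J`, `card J < q`, such that every `x_j` is
differentially algebraic over every `F ≥ F₀` containing the `D^k x_j`, `j ∈ J`. Let `t` be the family
`(x_j)_{j ∈ J}` (`τ = J`), `F = dClosure D F₀ t`. `P12.exists_growth` gives for every `j` numbers `c_j` and
finite sets `Z_j` with `D^k x_j` algebraic over `dClosureLE D F₀ t (k + c_j) Z_j`; take `c = max c_j`,
`Z = ⋃ Z_j` (`P12.alg_mono`). By `hz`, for `k ≤ N'` the elements `D^k z_l` lie in the field generated by `F₀`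
and the `D^k' x_j`, `k' ≤ N' + o`, so they are algebraic over `dClosureLE D F₀ t (N' + o + c) Z` (the algebraic
closure of a subfield is a subfield, `P12.ac`). Count with the matroid
`AlgebraicIndependent.matroid F₀ L` (`P13Core.count` with `G₀ = ∅`, `G₁` = the `q (N' + 1)` elements `D^k z_l`,
`W` = the at most `card J * (N' + o + c + 1) + card Z` generators; `P13Core.mem_closure`; see how
`P13Core.generic_relation_of_growth` does it): `q (N' + 1) ≤ card J (N' + o + c + 1) + card Z`, which is false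
for large `N'` since `card J < q`.
-/

open MvPolynomial

namespace Pool.Agent.Helper62.DL

open Pool.Agent.Helper21.PD

theorem M1.exists_indep {L : Type} [Field L] [CharZero L] (D : Der L) (F₀ : Subfield L)
    (hF₀ : ∀ a ∈ F₀, D a ∈ F₀) {n q : ℕ} (x : Fin n → L) (z : Fin q → L) (o : ℕ)
    (hz : ∀ (l : Fin q) (k : ℕ), (D)^[k] (z l) ∈ Subfield.closure ((F₀ : Set L) ∪
      (fun v : Fin n × ℕ => (D)^[v.2] (x v.1)) '' {v | v.2 ≤ k + o}))
    (hind : AlgebraicIndependent F₀ (fun v : Fin q × ℕ => (D)^[v.2] (z v.1))) :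
    ∃ J : Finset (Fin n), J.card = q ∧ AlgebraicIndependent F₀
      (fun v : {v : Fin n × ℕ // v.1 ∈ J} => (D)^[v.1.2] (x v.1.1)) := by
  classical
  by_contra hcon
  push Not at hcon
  have hq : ∀ J : Finset (Fin n), AlgebraicIndependent F₀
      (fun v : {v : Fin n × ℕ // v.1 ∈ J} => (D)^[v.1.2] (x v.1.1)) → J.card < q := by
    intro J hJ
    by_contra hJq
    obtain ⟨J', hJ'J, hJ'⟩ := Finset.exists_subset_card_eq (not_lt.1 hJq)
    refine hcon J' hJ' ?_
    let φ : {v : Fin n × ℕ // v.1 ∈ J'} → {v : Fin n × ℕ // v.1 ∈ J} :=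
      fun v => ⟨v.1, hJ'J v.2⟩
    have hφ : Function.Injective φ := by
      intro v w hvw
      exact Subtype.ext (congrArg (fun u : {v : Fin n × ℕ // v.1 ∈ J} => u.1) hvw)
    exact hJ.comp φ hφ
  obtain ⟨J, hJq, hJ⟩ := P15.exists_base D F₀ x q hq
  let τ : Type := {j : Fin n // j ∈ J}
  let t : τ → L := fun j => x j.1
  have hgrow : ∀ j, ∃ (c : ℕ) (Z : Finset L), ∀ k : ℕ,
      IsAlgebraic (dClosureLE D F₀ t (k + c) Z) ((D)^[k] (x j)) := by
    intro j
    refine exists_growth D F₀ hF₀ t (x j) (hJ (dClosure D F₀ t) ?_ ?_ j)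
    · intro a ha
      exact Subfield.subset_closure (Or.inl ha)
    · intro j' hj' k
      exact Subfield.subset_closure (Or.inr ⟨(⟨j', hj'⟩, k), rfl⟩)
  choose c Z hcZ using hgrow
  obtain ⟨c', hc'⟩ : ∃ c' : ℕ, ∀ j, c j ≤ c' :=
    ⟨∑ j, c j, fun j => Finset.single_le_sum (fun _ _ => Nat.zero_le _) (Finset.mem_univ j)⟩
  obtain ⟨Z', hZ'⟩ : ∃ Z' : Finset L, ∀ j, Z j ⊆ Z' :=
    ⟨Finset.univ.biUnion Z, fun j => Finset.subset_biUnion_of_mem Z (Finset.mem_univ j)⟩
  have hcardτ : Fintype.card τ = J.card := Fintype.card_coe J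
  obtain ⟨T, hT⟩ : ∃ T : ℕ, T = J.card * (o + c') + Z'.card := ⟨_, rfl⟩
  let fam : Fin q × ℕ → L := fun v => (D)^[v.2] (z v.1)
  let e₁ : Fin q × Fin (T + 1) → Fin q × ℕ := fun v => (v.1, v.2)
  let G₁ : Set L := Set.range (fam ∘ e₁)
  let W₁ : Set L := Set.range (fun v : τ × Fin (T + o + c' + 1) => (D)^[(v.2 : ℕ)] (t v.1))
  have hinj : Function.Injective fam := hind.injective
  have he₁ : Function.Injective e₁ := by
    rintro ⟨a, b⟩ ⟨a', b'⟩ hab
    simp only [e₁, Prod.mk.injEq] at hab
    exact Prod.ext hab.1 (Fin.ext hab.2)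
  have hindM : (AlgebraicIndependent.matroid F₀ L).Indep (Set.range fam) :=
    AlgebraicIndependent.matroid_indep_iff.mpr hind.to_subtype_range
  have hsub : (∅ : Set L) ∪ G₁ ⊆ Set.range fam := by
    rintro y (hy | ⟨v, rfl⟩)
    · exact absurd hy (Set.notMem_empty y)
    · exact ⟨e₁ v, rfl⟩
  have hclosure : G₁ ⊆ (AlgebraicIndependent.matroid F₀ L).closure ((∅ : Set L) ∪ (W₁ ∪ Z')) := by
    rintro y ⟨⟨l, k⟩, rfl⟩
    have h1 : (D)^[(k : ℕ)] (z l) ∈ (AlgebraicIndependent.matroid F₀ L).closure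
        ((fun v : Fin n × ℕ => (D)^[v.2] (x v.1)) '' {v | v.2 ≤ (k : ℕ) + o}) :=
      P13.mem_closure F₀ _ _ le_rfl
        (isAlgebraic_algebraMap (A := L) (⟨_, hz l k⟩ : Subfield.closure ((F₀ : Set L) ∪
          (fun v : Fin n × ℕ => (D)^[v.2] (x v.1)) '' {v | v.2 ≤ (k : ℕ) + o})))
    refine Matroid.closure_subset_closure_of_subset_closure
      (M := AlgebraicIndependent.matroid F₀ L) ?_ h1
    rintro y ⟨⟨j, k'⟩, hk', rfl⟩
    have hk'' : k' ≤ (k : ℕ) + o := hk'
    refine Matroid.closure_subset_closure _ Set.subset_union_right ?_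
    refine P13.mem_closure F₀ _ _ ?_ (hcZ j k')
    refine Subfield.closure_mono ?_
    rintro w ((hw | ⟨v, hv, rfl⟩) | hw)
    · exact Or.inl hw
    · refine Or.inr (Or.inl ⟨(v.1, ⟨v.2, ?_⟩), rfl⟩)
      have h2 := hc' j
      have h3 := k.2
      have h4 : v.2 ≤ k' + c j := hv
      omega
    · exact Or.inr (Or.inr (hZ' j hw))
  have hcount := P13.count _ (hindM.subset hsub) (Set.empty_disjoint _) hclosure
  have h1 : G₁.encard = q * (T + 1) := by
    rw [show G₁ = (fam ∘ e₁) '' Set.univ from Set.image_univ.symm,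
      (hinj.comp he₁).encard_image, Set.encard_univ, ENat.card_eq_coe_fintype_card]
    simp
  have h2 : (W₁ ∪ Z').encard ≤ J.card * (T + o + c' + 1) + Z'.card := by
    refine (Set.encard_union_le _ _).trans (add_le_add ?_ ?_)
    · rw [show W₁ = _ '' Set.univ from Set.image_univ.symm]
      refine (Set.encard_image_le _ _).trans ?_
      rw [Set.encard_univ, ENat.card_eq_coe_fintype_card, Fintype.card_prod, hcardτ]
      simp
    · rw [Set.encard_coe_eq_coe_finsetCard]
  have h3 : q * (T + 1) ≤ J.card * (T + o + c' + 1) + Z'.card := by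
    have := h1 ▸ (hcount.trans h2)
    exact_mod_cast this
  have h4 : (J.card + 1) * (T + 1) ≤ q * (T + 1) :=
    Nat.mul_le_mul_right _ hJq
  nlinarith

end Pool.Agent.Helper62.DL
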