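import Mathlib
import Pool.Agent.Helper62.DL.St.F1
import Pool.Agent.Helper62.DL.St.M1

/-!
PROJECT DL, piece F2 (about 200 lines). The local dimension theorem for `Der`.

`Θ` is the translation `K{x} → L{y}`, `x_j ↦ y_j + ξ_j`.

Proof. `Θ` commutes with the derivations (`derivation_ext` or `ev_dext`: `Θ = ev (C.comp κ) (dext dL) (X (j, 0) + C (ξ j))`).
F1 gives `Q`. `P₁ = Q.comap Θ` is prime, contains `diffIdeal d u`; let `P ≤ P₁` be a minimal prime over
`diffIdeal d u` (`Ideal.exists_minimalPrimes_le`). For `g ∈ P`: `Θ g ∈ Q`, so `constantCoeff (Θ g) = 0`, which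
is the value of `g` at `ξ`. `P15.exists_field` (with `A = L{y}`, `dext dL`, `Q`) gives a differential field
`L', D', π`; let `F₀ = (π.comp C).fieldRange`, stable under `D'`, `x_j = π (Θ (X (j, 0)))`, `z_l = π (v l)`.
The `D'^k z_l` are algebraically independent over `F₀` (a relation over `F₀` lifts to `R` over `L`,
`π (ev C (dext dL) v R) = 0`, so `R = 0`). `hz` of M1: let `o` bound the orders of the variables of all `v l`;
`(dext dL)^[k] (v l)` is in `supported` of the variables of order `≤ k + o` (`P2.dext_mem_supported` does this for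
`ℤ`), and `π (X (j, k')) = D'^k' x_j - π (C (dL^[k'] (ξ j)))`. M1 gives `J`. If `g ∈ P` is supported on `J`
then `π (Θ g) = 0` is an algebraic relation between the `D'^k x_j`, `j ∈ J`, with coefficients in `F₀`, so
all coefficients of `g` are zero.
-/

open MvPolynomial

namespace Pool.Agent.Helper62.DL

open Pool.Agent.Helper21.PD

theorem F2.dext_mem {L : Type} [Field L] (dL : Der L) {n m : ℕ}
    {f : MvPolynomial (Fin n × ℕ) L} (hf : f ∈ supported L {v : Fin n × ℕ | v.2 ≤ m}) :
    dext dL f ∈ supported L {v : Fin n × ℕ | v.2 ≤ m + 1} := by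
  have hle : supported L {v : Fin n × ℕ | v.2 ≤ m} ≤
      supported L {v : Fin n × ℕ | v.2 ≤ m + 1} :=
    supported_mono fun v hv => Nat.le_succ_of_le hv
  rw [supported_eq_adjoin_X] at hf
  induction hf using Algebra.adjoin_induction with
  | mem x hx =>
    obtain ⟨v, hv, rfl⟩ := hx
    rw [dext_X]
    exact X_mem_supported.2 (Nat.succ_le_succ hv)
  | algebraMap r =>
    rw [MvPolynomial.algebraMap_eq, dext_C]
    exact Subalgebra.algebraMap_mem _ (dL r)
  | add x y _ _ hx hy =>
    rw [(dext dL).add]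
    exact add_mem hx hy
  | mul x y hx' hy' hx hy =>
    rw [(dext dL).mul]
    rw [← supported_eq_adjoin_X] at hx' hy'
    exact add_mem (mul_mem (hle hx') hy) (mul_mem (hle hy') hx)

theorem F2.dext_iterate_mem {L : Type} [Field L] (dL : Der L) {n m : ℕ} (k : ℕ)
    {f : MvPolynomial (Fin n × ℕ) L} (hf : f ∈ supported L {v : Fin n × ℕ | v.2 ≤ m}) :
    (dext dL)^[k] f ∈ supported L {v : Fin n × ℕ | v.2 ≤ k + m} := by
  induction k with
  | zero =>
    rw [Nat.zero_add]
    exact hf
  | succ k ih =>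
    rw [Function.iterate_succ_apply']
    have h := F2.dext_mem dL ih
    have he : k + 1 + m = k + m + 1 := by omega
    rw [he]
    exact h

theorem F2.exists_component {K L : Type} [Field K] [CharZero K] [Field L] [CharZero L]
    (d : Der K) (dL : Der L) (κ : K →+* L) (hκ : ∀ a, κ (d a) = dL (κ a)) (α : ℕ)
    (hα : α = 0 ∨ ∀ a, dL a = 0) {n i : ℕ} (hin : i ≤ n)
    (u : Fin i → MvPolynomial (Fin n × ℕ) K) (ξ : Fin n → L)
    (w : Fin n → ℕ) (hw : ∀ j, 0 < w j)
    (e : Fin i → ℕ) (he : ∀ m, 0 < e m) (uh : Fin i → MvPolynomial (Fin n × ℕ) L)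
    (huh : ∀ m, (uh m).IsWeightedHomogeneous (ww w α) (e m))
    (ht : ∀ m, Low (ww w α) (e m + 1)
      (eval₂ ((C : L →+* MvPolynomial (Fin n × ℕ) L).comp κ)
        (fun v => X v + C ((dL)^[v.2] (ξ v.1))) (u m) - uh m))
    (f : Fin (n - i) → ℕ) (hf : ∀ l, 0 < f l) (v : Fin (n - i) → MvPolynomial (Fin n × ℕ) L)
    (hv : ∀ l, (v l).IsWeightedHomogeneous (ww w α) (f l))
    (hfin : ∀ j : Fin n, ∃ N : ℕ, X (j, 0) ^ N ∈ diffIdeal dL (Sum.elim uh v)) :
    ∃ P ∈ (diffIdeal d u).minimalPrimes,
      (∀ g ∈ P, eval₂ κ (fun v : Fin n × ℕ => (dL)^[v.2] (ξ v.1)) g = 0) ∧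
      ∃ J : Finset (Fin n), J.card = n - i ∧
        ∀ g ∈ supported K {v : Fin n × ℕ | v.1 ∈ J}, g ∈ P → g = 0 := by
  classical
  -- the translation
  have hcomp : ∀ a, ((C : L →+* MvPolynomial (Fin n × ℕ) L).comp κ) (d a) =
      dext dL (((C : L →+* MvPolynomial (Fin n × ℕ) L).comp κ) a) := by
    intro a
    rw [RingHom.comp_apply, RingHom.comp_apply, dext_C, hκ]
  set Θ : MvPolynomial (Fin n × ℕ) K →+* MvPolynomial (Fin n × ℕ) L :=
    ev ((C : L →+* MvPolynomial (Fin n × ℕ) L).comp κ) (dext dL)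
      (fun j => X (j, 0) + C (ξ j)) with hΘ
  have hXit : ∀ (j : Fin n) (k k' : ℕ),
      (dext dL)^[k] (X (j, k') : MvPolynomial (Fin n × ℕ) L) = X (j, k' + k) := by
    intro j k
    induction k with
    | zero => intro k'; rfl
    | succ k ih =>
      intro k'
      rw [Function.iterate_succ_apply, dext_X, ih]
      congr 2
      omega
  have hCit : ∀ (a : L) (k : ℕ),
      (dext dL)^[k] (C a : MvPolynomial (Fin n × ℕ) L) = C ((dL)^[k] a) := by
    intro a k
    induction k generalizing a with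
    | zero => rfl
    | succ k ih =>
      rw [Function.iterate_succ_apply, dext_C, ih, Function.iterate_succ_apply]
  have hΘX : ∀ v : Fin n × ℕ, Θ (X v) = X v + C ((dL)^[v.2] (ξ v.1)) := by
    intro v
    rw [hΘ, ev_X, (dext dL).iterate_add, hXit, hCit, Nat.zero_add]
  have hΘC : ∀ a : K, Θ (C a) = C (κ a) := by
    intro a
    rw [hΘ, ev_C]
    rfl
  have hΘe : ∀ g, Θ g = eval₂ ((C : L →+* MvPolynomial (Fin n × ℕ) L).comp κ)
        (fun v => X v + C ((dL)^[v.2] (ξ v.1))) g := by
    intro g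
    have h1 : Θ = eval₂Hom ((C : L →+* MvPolynomial (Fin n × ℕ) L).comp κ)
        (fun v => X v + C ((dL)^[v.2] (ξ v.1))) := by
      refine MvPolynomial.ringHom_ext ?_ ?_
      · intro a
        rw [hΘC, coe_eval₂Hom, eval₂_C]
        rfl
      · intro v
        rw [hΘX, coe_eval₂Hom, eval₂_X]
    rw [h1]
    rfl
  have hΘd : ∀ g, Θ (dext d g) = dext dL (Θ g) := fun g => ev_dext _ _ _ d hcomp g
  have hΘdi : ∀ (l : ℕ) g, Θ ((dext d)^[l] g) = (dext dL)^[l] (Θ g) :=
    fun l g => ev_dext_iterate _ _ _ d hcomp l g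
  obtain ⟨Q, hQp, hQd, hQu, hQ0, hQind⟩ := F1.exists_prime dL α hα hin w hw e he uh
    (fun m => Θ (u m) - uh m) huh (fun m => by
      have := ht m
      rw [← hΘe] at this
      exact this) f hf v hv hfin
  have hQdi : ∀ (l : ℕ) g, g ∈ Q → (dext dL)^[l] g ∈ Q := by
    intro l
    induction l with
    | zero => intro g hg; exact hg
    | succ l ih =>
      intro g hg
      rw [Function.iterate_succ_apply']
      exact hQd _ (ih g hg)
  have hle : diffIdeal d u ≤ Q.comap Θ := by
    unfold diffIdeal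
    rw [Ideal.span_le]
    rintro _ ⟨⟨m, l⟩, rfl⟩
    show Θ ((dext d)^[l] (u m)) ∈ Q
    rw [hΘdi]
    refine hQdi l _ ?_
    have := hQu m
    rwa [add_sub_cancel] at this
  have hP1 : (Q.comap Θ).IsPrime := Ideal.comap_isPrime Θ Q
  obtain ⟨P, hPmin, hPle⟩ := Ideal.exists_minimalPrimes_le hle
  refine ⟨P, hPmin, ?_, ?_⟩
  · intro g hg
    have h1 : Θ g ∈ Q := hPle hg
    have h2 := hQ0 _ h1
    have h3 : (constantCoeff : MvPolynomial (Fin n × ℕ) L →+* L).comp Θ =
        eval₂Hom κ (fun v : Fin n × ℕ => (dL)^[v.2] (ξ v.1)) := by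
      refine MvPolynomial.ringHom_ext ?_ ?_
      · intro a
        rw [RingHom.comp_apply, hΘC, constantCoeff_C, coe_eval₂Hom, eval₂_C]
      · intro v
        rw [RingHom.comp_apply, hΘX, map_add, constantCoeff_C, constantCoeff_X, zero_add,
          coe_eval₂Hom, eval₂_X]
    have h4 := RingHom.congr_fun h3 g
    rw [RingHom.comp_apply, h2] at h4
    exact h4.symm
  · obtain ⟨L', _, D', π, hπD, hπ0⟩ := P15.exists_field (dext dL) Q hQp hQd
    have hπDi : ∀ (k : ℕ) g, (D')^[k] (π g) = π ((dext dL)^[k] g) := by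
      intro k
      induction k with
      | zero => intro g; rfl
      | succ k ih =>
        intro g
        rw [Function.iterate_succ_apply, hπD, ih, Function.iterate_succ_apply]
    have hCinj : Function.Injective (π.comp (C : L →+* MvPolynomial (Fin n × ℕ) L)) :=
      RingHom.injective _
    have : CharZero L' := charZero_of_injective_ringHom hCinj
    set F₀ : Subfield L' := (π.comp (C : L →+* MvPolynomial (Fin n × ℕ) L)).fieldRange with hF₀
    have hF₀D : ∀ a ∈ F₀, D' a ∈ F₀ := by
      rintro a ha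
      rw [hF₀, RingHom.mem_fieldRange] at ha ⊢
      obtain ⟨b, rfl⟩ := ha
      refine ⟨dL b, ?_⟩
      rw [RingHom.comp_apply, RingHom.comp_apply, hπD, dext_C]
    let φ : L →+* F₀ := (π.comp (C : L →+* MvPolynomial (Fin n × ℕ) L)).rangeRestrictField
    have hφ : ∀ a, ((φ a : F₀) : L') = π (C a) := fun a => rfl
    have hφsurj : Function.Surjective φ := by
      rintro ⟨a, ha⟩
      rw [hF₀, RingHom.mem_fieldRange] at ha
      obtain ⟨b, hb⟩ := ha
      exact ⟨b, Subtype.ext hb⟩
    let x : Fin n → L' := fun j => π (Θ (X (j, 0)))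
    let z : Fin (n - i) → L' := fun l => π (v l)
    have hx : ∀ v : Fin n × ℕ, (D')^[v.2] (x v.1) = π (Θ (X v)) := by
      intro v
      show (D')^[v.2] (π (Θ (X (v.1, 0)))) = _
      rw [hπDi, ← hΘdi]
      congr 2
      have : ∀ k k', (dext d)^[k] (X (v.1, k') : MvPolynomial (Fin n × ℕ) K) =
          X (v.1, k' + k) := by
        intro k
        induction k with
        | zero => intro k'; rfl
        | succ k ih =>
          intro k'
          rw [Function.iterate_succ_apply, dext_X, ih]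
          congr 2
          omega
      rw [this, Nat.zero_add]
    -- independence of the `z`
    have hind : AlgebraicIndependent F₀ (fun v : Fin (n - i) × ℕ => (D')^[v.2] (z v.1)) := by
      rw [algebraicIndependent_iff]
      intro p hp
      obtain ⟨R, rfl⟩ := MvPolynomial.map_surjective φ hφsurj p
      have h1 : π.comp (ev (C : L →+* MvPolynomial (Fin n × ℕ) L) (dext dL) v) =
          ((aeval (R := F₀) (fun v : Fin (n - i) × ℕ => (D')^[v.2] (z v.1)) :
            MvPolynomial (Fin (n - i) × ℕ) F₀ →ₐ[F₀] L') : _ →+* L').comp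
            (MvPolynomial.map φ) := by
        refine MvPolynomial.ringHom_ext ?_ ?_
        · intro a
          rw [RingHom.comp_apply, RingHom.comp_apply, ev_C, map_C, RingHom.coe_coe, aeval_C]
          rfl
        · intro w
          rw [RingHom.comp_apply, RingHom.comp_apply, ev_X, map_X, RingHom.coe_coe, aeval_X,
            hπDi]
      have h2 := RingHom.congr_fun h1 R
      rw [RingHom.comp_apply, RingHom.comp_apply, RingHom.coe_coe, hp, hπ0] at h2
      rw [hQind R h2, map_zero]
    -- the orders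
    obtain ⟨o, ho⟩ : ∃ o : ℕ, ∀ l, v l ∈ supported L {w : Fin n × ℕ | w.2 ≤ o} := by
      refine ⟨∑ l, ∑ w ∈ (v l).vars, w.2, fun l => ?_⟩
      rw [mem_supported]
      intro w hw
      have h1 : w.2 ≤ ∑ w ∈ (v l).vars, w.2 :=
        Finset.single_le_sum (f := fun w : Fin n × ℕ => w.2) (fun _ _ => Nat.zero_le _) hw
      have h2 : ∑ w ∈ (v l).vars, w.2 ≤ ∑ l, ∑ w ∈ (v l).vars, w.2 :=
        Finset.single_le_sum (f := fun l => ∑ w ∈ (v l).vars, w.2)
          (fun _ _ => Nat.zero_le _) (Finset.mem_univ l)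
      exact h1.trans h2
    have hsup : ∀ (N : ℕ) g, g ∈ supported L {w : Fin n × ℕ | w.2 ≤ N} →
        π g ∈ Subfield.closure ((F₀ : Set L') ∪
          (fun v : Fin n × ℕ => (D')^[v.2] (x v.1)) '' {v | v.2 ≤ N}) := by
      intro N g hg
      have hC : ∀ a : L, π (C a) ∈ Subfield.closure ((F₀ : Set L') ∪
          (fun v : Fin n × ℕ => (D')^[v.2] (x v.1)) '' {v | v.2 ≤ N}) := by
        intro a
        refine Subfield.subset_closure (Or.inl ?_)
        exact (φ a).2
      rw [supported_eq_adjoin_X] at hg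
      induction hg using Algebra.adjoin_induction with
      | mem y hy =>
        obtain ⟨w, hw, rfl⟩ := hy
        have h1 : (X w : MvPolynomial (Fin n × ℕ) L) = Θ (X w) - C ((dL)^[w.2] (ξ w.1)) := by
          rw [hΘX, add_sub_cancel_right]
        rw [h1, map_sub]
        refine sub_mem ?_ (hC _)
        rw [← hx]
        exact Subfield.subset_closure (Or.inr ⟨w, hw, rfl⟩)
      | algebraMap r => exact hC r
      | add y y' _ _ hy hy' =>
        rw [map_add]
        exact add_mem hy hy'
      | mul y y' _ _ hy hy' =>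
        rw [map_mul]
        exact mul_mem hy hy'
    obtain ⟨J, hJ, hJind⟩ := M1.exists_indep D' F₀ hF₀D x z o (fun l k => by
      show (D')^[k] (π (v l)) ∈ _
      rw [hπDi]
      exact hsup (k + o) _ (F2.dext_iterate_mem dL k (ho l))) hind
    refine ⟨J, hJ, ?_⟩
    intro g hg hgP
    have h1 : π (Θ g) = 0 := (hπ0 _).2 (hPle hgP)
    rw [supported_eq_range_rename] at hg
    obtain ⟨g', rfl⟩ := hg
    have h2 : (π.comp Θ).comp (rename (Subtype.val :
          {v : Fin n × ℕ | v.1 ∈ J} → Fin n × ℕ) : MvPolynomial _ K →ₐ[K] _).toRingHom =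
        ((aeval (R := F₀) (fun v : ({v : Fin n × ℕ | v.1 ∈ J} : Set (Fin n × ℕ)) =>
            (D')^[v.1.2] (x v.1.1)) :
            MvPolynomial ({v : Fin n × ℕ | v.1 ∈ J} : Set (Fin n × ℕ)) F₀ →ₐ[F₀] L') :
              _ →+* L').comp (MvPolynomial.map (φ.comp κ)) := by
      refine MvPolynomial.ringHom_ext ?_ ?_
      · intro a
        simp only [RingHom.comp_apply, AlgHom.toRingHom_eq_coe, RingHom.coe_coe, rename_C, map_C,
          aeval_C, hΘC]
        rfl
      · intro w
        simp only [RingHom.comp_apply, AlgHom.toRingHom_eq_coe, RingHom.coe_coe, rename_X, map_X,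
          aeval_X]
        exact (hx w.1).symm
    have h3 := RingHom.congr_fun h2 g'
    have h4 : ((π.comp Θ).comp (rename (Subtype.val :
          {v : Fin n × ℕ | v.1 ∈ J} → Fin n × ℕ) : MvPolynomial _ K →ₐ[K] _).toRingHom) g' = 0 :=
      h1
    rw [h4, RingHom.comp_apply, RingHom.coe_coe] at h3
    have hJind' : AlgebraicIndependent F₀ (fun v : ({v : Fin n × ℕ | v.1 ∈ J} :
        Set (Fin n × ℕ)) => (D')^[v.1.2] (x v.1.1)) := hJind
    have h5 := (algebraicIndependent_iff.1 hJind') _ h3.symm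
    have h6 : g' = 0 := by
      refine MvPolynomial.map_injective (φ.comp κ) (RingHom.injective _) ?_
      rw [h5, map_zero]
    rw [h6]
    exact map_zero _

end Pool.Agent.Helper62.DL
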